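import Mathlib

set_option autoImplicit false

namespace Pool.Agent.Work.MP_af11aa_nt.W

open Finset ComplexConjugate

noncomputable section

/-- `e(z/c)` for an integer `z`. -/
def ec (c : ℕ) (z : ℤ) : ℂ := Complex.exp (2 * Real.pi * Complex.I * z / c)

/-- a representative of the inverse of `x` modulo `c`. -/
def ivz (c : ℕ) (x : ℤ) : ℤ := (((x : ZMod c)⁻¹).val : ℤ)

/-- `e(z x⁻¹ / c)`, the inverse being taken modulo `c`. -/
def eI (c : ℕ) (z x : ℤ) : ℂ := ec c (z * ivz c x)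

open Classical in
/-- `e(z x⁻¹ / c)` for `x` prime to `c`, and `0` otherwise. -/
def eInv (c : ℕ) (z x : ℤ) : ℂ := if IsCoprime x (c : ℤ) then eI c z x else 0

/-- the sign of the quadratic Gauss sum. -/
def gs (c : ℕ) : ℂ := if c % 4 = 1 then 1 else Complex.I

/-- the Kloosterman sum `S(z/x, z/x; c)`. -/
def kloo (c : ℕ) (z x : ℤ) : ℂ :=
  ∑ y ∈ (range c).filter (fun y ↦ y.Coprime c), ec c (z * ivz c x * (y + ivz c y))

open Classical in
/-- the normalized Kloosterman sum with its phase, as a function of `x`. -/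
def kfun (r : ℕ) (w x : ℤ) : ℂ :=
  if IsCoprime x (r : ℤ) then ((Real.sqrt r : ℝ) : ℂ)⁻¹ * kloo r w x * eI r (2 * w) x else 0

open Classical in
/-- the truncated function. -/
def ktr (T : ℝ) (r : ℕ) (w x : ℤ) : ℂ := if ‖kfun r w x‖ ≤ T then kfun r w x else 0

/-- the Salie sum `∑ (x/c) e(m k⁻¹ (x + x⁻¹) / c)`. -/
def salS (c : ℕ) (m k : ℤ) : ℂ :=
  ∑ x ∈ (range c).filter (fun x ↦ x.Coprime c),
    ((jacobiSym (x : ℤ) c : ℤ) : ℂ) * ec c (m * ivz c k * (x + ivz c x))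

/-- the phase attached to a factorization. -/
def Ph (k m a b : ℕ) : ℂ :=
  eI a (4 * m) (k * b) * eI k (2 * m) (a * b) *
    Complex.exp (-(2 * Real.pi * Complex.I * (2 * m) / (k * (a * b))))

/-- the oscillating weight of the line formula; `c` is the modulus. -/
def psW (m : ℕ) (y s c : ℝ) : ℂ :=
  if 1 / (m : ℝ) ≤ y / (s ^ 2 + (c * y) ^ 2) ∧ y / (s ^ 2 + (c * y) ^ 2) < 2 / (m : ℝ) then
    Complex.exp (-(2 * Real.pi * Complex.I * m) / (c * (s + c * y * Complex.I))) *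
      conj (Complex.exp (2 * Real.pi * Complex.I * m * (s + c * y * Complex.I) / c)) *
      (((s + c * y * Complex.I : ℂ) ^ (1 / 2 : ℂ)) ^ 3)⁻¹
  else 0

lemma norm_ec (c : ℕ) (z : ℤ) : ‖ec c z‖ = 1 := by
  unfold ec
  rw [Complex.norm_exp]
  have : (2 * Real.pi * Complex.I * z / c : ℂ) = ((2 * Real.pi * z / c : ℝ) : ℂ) * Complex.I := by
    push_cast; ring
  rw [this, Complex.re_ofReal_mul, Complex.I_re, mul_zero, Real.exp_zero]

lemma norm_eI (c : ℕ) (z x : ℤ) : ‖eI c z x‖ = 1 := norm_ec _ _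

lemma norm_eInv_le (c : ℕ) (z x : ℤ) : ‖eInv c z x‖ ≤ 1 := by
  unfold eInv
  split_ifs
  · rw [norm_eI]
  · simp

lemma norm_ktr_le {T : ℝ} (hT : 0 ≤ T) (r : ℕ) (w x : ℤ) : ‖ktr T r w x‖ ≤ T := by
  unfold ktr
  split_ifs with h
  · exact h
  · simpa using hT

lemma norm_ktr_le_kfun (T : ℝ) (r : ℕ) (w x : ℤ) : ‖ktr T r w x‖ ≤ ‖kfun r w x‖ := by
  unfold ktr
  split_ifs with h
  · exact le_rfl
  · simp

lemma ivz_congr {c : ℕ} {x y : ℤ} (h : x ≡ y [ZMOD c]) : ivz c x = ivz c y := by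
  unfold ivz
  rw [(ZMod.intCast_eq_intCast_iff x y c).2 h]

lemma eI_congr {c : ℕ} {x y : ℤ} (z : ℤ) (h : x ≡ y [ZMOD c]) : eI c z x = eI c z y := by
  unfold eI
  rw [ivz_congr h]

lemma coprime_congr {c : ℕ} {x y : ℤ} (h : x ≡ y [ZMOD c]) :
    IsCoprime x (c : ℤ) ↔ IsCoprime y (c : ℤ) := by
  rw [Int.isCoprime_iff_gcd_eq_one, Int.isCoprime_iff_gcd_eq_one]
  have : Int.gcd x c = Int.gcd y c := by
    rw [← Int.gcd_emod, ← Int.gcd_emod y]
    unfold Int.ModEq at h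
    rw [h]
  rw [this]

lemma eInv_congr {c : ℕ} {x y : ℤ} (z : ℤ) (h : x ≡ y [ZMOD c]) : eInv c z x = eInv c z y := by
  unfold eInv
  rw [eI_congr z h]
  simp only [coprime_congr h]

lemma kloo_congr {c : ℕ} {x y : ℤ} (z : ℤ) (h : x ≡ y [ZMOD c]) : kloo c z x = kloo c z y := by
  unfold kloo
  rw [ivz_congr h]

lemma kfun_congr {c : ℕ} {x y : ℤ} (z : ℤ) (h : x ≡ y [ZMOD c]) : kfun c z x = kfun c z y := by
  unfold kfun
  rw [eI_congr _ h, kloo_congr _ h]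
  simp only [coprime_congr h]

lemma ktr_congr (T : ℝ) {c : ℕ} {x y : ℤ} (z : ℤ) (h : x ≡ y [ZMOD c]) :
    ktr T c z x = ktr T c z y := by
  unfold ktr
  rw [kfun_congr _ h]

end

end Pool.Agent.Work.MP_af11aa_nt.W
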