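import Mathlib
import Pool.Agent.Work.MP_af11aa_nt.W.Arith
import Pool.Agent.Work.MP_af11aa_nt.K.Analytic

/-!
MODULE LineOsc (coefficient bound with the oscillating sum; adapt K/LineB.lean (row_pos, line_bound) and K/Analytic.lean
(bInt_le, coeff_bound), where absolute values are taken inside the sum over c).

In the proof of line_bound: line integral = ∑_{r ∈ rowBox} rowI r; the rows with c = 0 contribute ≤ 4, the rows (c,d)
and (-c,-d) are equal, and for c ≥ 1, M | c:  ∑_d rowI (c,d) = kSum m s c * ∫ psiT m c Y y t dt exactly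
(row_pos proof, hasSum_shifts).  Substituting t = s/c: ∫ psiT m c m y t dt = (1/c) ∫ psW m y s c ds
(c w = s + i c y for w = t + i y, c² w = c (s + i c y)), and psW m y s c = 0 unless |s| ≤ 3/2 (psiT_cond).
Exchange the finite sum and the integral: ‖line‖ ≤ 4 + 2 ∫_{|s| ≤ 3/2} ‖∑_c (kTot c / c) psW m y s c‖ ds ≤ 4 + 6 B.
Then repeat bInt_le and coeff_bound with S = 4 + 6 B.
-/

set_option autoImplicit false

namespace Pool.Agent.Work.MP_af11aa_nt.W

section aux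

open Pool.Agent.Work.MP_af11aa_nt Pool.Agent.Work.MP_af11aa_nt.K
open UpperHalfPlane CongruenceSubgroup MeasureTheory
open Complex hiding Gamma
open scoped MatrixGroups Manifold Topology ComplexConjugate ENNReal NNReal Modular

attribute [local instance] Subgroup.fintypeQuotientOfFiniteIndex

lemma lo_row {M : ℕ} [NeZero M] {Y : ℝ} (hY : 0 < Y) {J : SL(2, ℤ) → ℍ → ℂ} {s : ℤ → ℤ → ℂ}
    (hs : ∀ k ∈ Gamma0 M, ∀ z, J k z = s (k 1 0) (k 1 1) * (lowerForm k z ^ (1 / 2 : ℂ)) ^ 3)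
    (m : ℕ) {y : ℝ} (hy : y ∈ Set.Ico (1 / Y) (2 / Y)) {c : ℕ} [NeZero c] (hMc : M ∣ c)
    (hsp : ∀ d : ℤ, IsCoprime (c : ℤ) d → s c (d + c) = s c d) :
    ∑ d ∈ Finset.Icc (-(⌊Real.sqrt 2 * Y⌋₊ + 2 : ℤ)) (⌊Real.sqrt 2 * Y⌋₊ + 2),
      rowI M Y m J y (c, d) = kSum m s c * ∫ t, psiT m c Y y t := by
  have hy0 : 0 < y := lt_of_lt_of_le (by positivity) hy.1
  have hI : ∀ d : ℤ, rowI M Y m J y (c, d) =
      kap m s c d * ∫ x in (0 : ℝ)..1, psiT m c Y y (x + d / c) := by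
    intro d
    unfold rowI
    simp_rw [rowG_eq hs m hMc d hy0]
    rw [intervalIntegral.integral_of_le (by norm_num), ← integral_Ico_eq_integral_Ioc,
      integral_const_mul]
  have h1 := hasSum_shifts (integrable_psiT (m := m) (c := c) hY hy) c
    (κ := kap m s c) (kap_period hsp)
  simp_rw [← hI] at h1
  have h2 : HasSum (fun d : ℤ ↦ rowI M Y m J y (c, d))
      (∑ d ∈ Finset.Icc (-(⌊Real.sqrt 2 * Y⌋₊ + 2 : ℤ)) (⌊Real.sqrt 2 * Y⌋₊ + 2),
        rowI M Y m J y (c, d)) := by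
    apply hasSum_sum_of_ne_finset_zero
    intro d hd
    unfold rowI
    apply integral_eq_zero_of_ae
    refine (ae_restrict_iff' measurableSet_Ico).2 (Filter.Eventually.of_forall fun x hx ↦ ?_)
    have hz : pt x y ∈ hstrip Y := (hstrip_pt_iff hy0).2 ⟨hx, hy⟩
    have : rowG M Y (eFun m) J (pt x y) (c, d) = 0 := by
      by_contra hne
      have h3 := rowG_support hY hz hne
      unfold rowBox at h3
      rw [Finset.mem_product] at h3
      exact hd h3.2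
    simp only
    rw [this]; simp
  exact h2.unique h1

lemma lo_psi {m c : ℕ} [NeZero c] (y s : ℝ) : psiT m c m y (s / c) = psW m y s c := by
  have hc0 : (c : ℂ) ≠ 0 := by exact_mod_cast NeZero.ne c
  have hcR : (c : ℝ) ≠ 0 := by exact_mod_cast NeZero.ne c
  have e1 : (c : ℂ) * (((s / c : ℝ) : ℂ) + y * Complex.I) = s + c * y * Complex.I := by
    push_cast
    field_simp
  have e2 : ‖(c : ℂ) * (((s / c : ℝ) : ℂ) + y * Complex.I)‖ ^ 2 = s ^ 2 + (c * y) ^ 2 := by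
    rw [normSq_cw]
    field_simp
  have e3 : (c : ℂ) ^ 2 * (((s / c : ℝ) : ℂ) + y * Complex.I) = c * (s + c * y * Complex.I) := by
    rw [← e1]; ring
  have e4 : 2 * Real.pi * Complex.I * m * (((s / c : ℝ) : ℂ) + y * Complex.I) =
      2 * Real.pi * Complex.I * m * (s + c * y * Complex.I) / c := by
    rw [← e1]; field_simp
  unfold psiT psW psiC
  rw [e2]
  split_ifs with h
  · rw [e3, e4, e1]
    simp only [Complex.ofReal_natCast]
  · rfl

lemma lo_int {m c : ℕ} [NeZero c] (y : ℝ) :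
    ∫ t, psiT m c m y t = (1 / c : ℂ) * ∫ s, psW m y s c := by
  have hc : (0 : ℝ) < c := Nat.cast_pos.2 (NeZero.pos c)
  have h1 := Measure.integral_comp_div (psiT m c m y) (c : ℝ)
  simp_rw [lo_psi] at h1
  rw [h1, abs_of_pos hc, Complex.real_smul, ← mul_assoc]
  have hc0 : (c : ℂ) ≠ 0 := by exact_mod_cast NeZero.ne c
  push_cast
  rw [one_div, inv_mul_cancel₀ hc0, one_mul]

lemma lo_integrable {m c : ℕ} [NeZero c] {y : ℝ} (hm : 0 < m)
    (hy : y ∈ Set.Ico (1 / (m : ℝ)) (2 / m)) : Integrable (fun s ↦ psW m y s c) := by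
  have hm0 : (0 : ℝ) < m := by exact_mod_cast hm
  have hc : (c : ℝ) ≠ 0 := by exact_mod_cast NeZero.ne c
  have h1 := (integrable_psiT (m := m) (c := c) hm0 hy).comp_div hc
  simp_rw [lo_psi] at h1
  exact h1

lemma lo_support {m c : ℕ} [NeZero c] {y s : ℝ} (hm : 0 < m)
    (hy : y ∈ Set.Ico (1 / (m : ℝ)) (2 / m)) (hs : s ∉ Set.Icc (-(3 / 2) : ℝ) (3 / 2)) :
    psW m y s c = 0 := by
  have hm0 : (0 : ℝ) < m := by exact_mod_cast hm
  have hc : (0 : ℝ) < c := Nat.cast_pos.2 (NeZero.pos c)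
  have h1 := norm_psiT_le (m := m) (c := c) hm0 hy (s / c)
  rw [lo_psi, Set.indicator_of_notMem] at h1
  · exact norm_le_zero_iff.1 h1
  · intro h
    apply hs
    have h2 := h.1
    have h3 := h.2
    rw [← neg_div, div_le_div_iff_of_pos_right hc] at h2
    rw [div_le_div_iff_of_pos_right hc] at h3
    exact ⟨h2, h3⟩

lemma lo_even {g : ℤ → ℂ} (hg : ∀ n, g (-n) = g n) (n : ℕ) :
    ∑ c ∈ Finset.Icc (-(n : ℤ)) n, g c = g 0 + 2 * ∑ c ∈ Finset.Icc 1 n, g c := by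
  induction n with
  | zero => simp
  | succ n ih =>
    have h1 : Finset.Icc (-((n + 1 : ℕ) : ℤ)) ((n + 1 : ℕ) : ℤ) =
        insert (-((n + 1 : ℕ) : ℤ)) (insert (((n + 1 : ℕ) : ℤ)) (Finset.Icc (-(n : ℤ)) n)) := by
      ext x
      simp only [Finset.mem_insert, Finset.mem_Icc]
      push_cast
      omega
    rw [h1, Finset.sum_insert, Finset.sum_insert, ih, hg, Finset.sum_Icc_succ_top (by omega)]
    · ring
    · simp
    · simp only [Finset.mem_insert, Finset.mem_Icc]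
      push_cast
      omega

lemma lo_line {M : ℕ} [NeZero M] {J : SL(2, ℤ) → ℍ → ℂ}
    (hJ : IsMultT M J) {s : ℤ → ℤ → ℂ}
    (hs : ∀ k ∈ Gamma0 M, ∀ z, J k z = s (k 1 0) (k 1 1) * (lowerForm k z ^ (1 / 2 : ℂ)) ^ 3)
    (hsp : ∀ c : ℕ, M ∣ c → ∀ d : ℤ, IsCoprime (c : ℤ) d → s c (d + c) = s c d)
    {m : ℕ} (hm : 0 < m) {y : ℝ} (hy : y ∈ Set.Ico (1 / (m : ℝ)) (2 / m)) {B : ℝ}
    (h : ∀ t ∈ Set.Icc (-(3 / 2) : ℝ) (3 / 2),
      ‖∑ c ∈ (Finset.Icc 1 ⌊Real.sqrt 2 * m⌋₊).filter (M ∣ ·),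
        kTot m s c / c * psW m y t c‖ ≤ B) :
    ‖∫ x in Set.Ico (0 : ℝ) 1, pSum M m (eFun m) J (pt x y) * conj (eFun m (pt x y))‖ ≤
      4 + 6 * B := by
  classical
  have hY : (0 : ℝ) < m := by exact_mod_cast hm
  rw [line_eq_sum hY hJ m hy]
  unfold rowBox
  rw [Finset.sum_product]
  set Y : ℝ := (m : ℝ) with hYdef
  set D := Finset.Icc (-(⌊Real.sqrt 2 * Y⌋₊ + 2 : ℤ)) (⌊Real.sqrt 2 * Y⌋₊ + 2) with hD
  set g : ℤ → ℂ := fun c ↦ ∑ d ∈ D, rowI M Y m J y (c, d) with hg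
  have hgeven : ∀ c, g (-c) = g c := by
    intro c
    rw [hg]
    simp only
    refine Finset.sum_bij' (fun d _ ↦ -d) (fun d _ ↦ -d) ?_ ?_ ?_ ?_ ?_
    · intro d hd
      rw [hD, Finset.mem_Icc] at hd ⊢
      constructor <;> linarith [hd.1, hd.2]
    · intro d hd
      rw [hD, Finset.mem_Icc] at hd ⊢
      constructor <;> linarith [hd.1, hd.2]
    · intro d _; simp
    · intro d _; simp
    · intro d _
      rw [← rowI_neg hJ]
      simp
  have hg0 : ‖g 0‖ ≤ 4 := by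
    rw [hg]
    simp only
    have hz : ∀ d : ℤ, d ∉ ({1, -1} : Finset ℤ) → rowI M Y m J y (0, d) = 0 := by
      intro d hd
      have hnc : ¬ IsCoprime (0 : ℤ) d := by
        intro h
        rw [isCoprime_zero_left, Int.isUnit_iff] at h
        apply hd
        simpa using h
      unfold rowI rowG
      simp [hnc]
    calc ‖∑ d ∈ D, rowI M Y m J y (0, d)‖ ≤ ∑ d ∈ D, ‖rowI M Y m J y (0, d)‖ := norm_sum_le _ _
      _ ≤ ∑ d ∈ D ∪ {1, -1}, ‖rowI M Y m J y (0, d)‖ :=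
          Finset.sum_le_sum_of_subset_of_nonneg Finset.subset_union_left
            fun _ _ _ ↦ norm_nonneg _
      _ = ∑ d ∈ ({1, -1} : Finset ℤ), ‖rowI M Y m J y (0, d)‖ := by
          symm
          refine Finset.sum_subset Finset.subset_union_right ?_
          intro d _ hd
          rw [hz d hd, norm_zero]
      _ ≤ ∑ d ∈ ({1, -1} : Finset ℤ), 2 :=
          Finset.sum_le_sum fun d _ ↦ norm_rowI_le hY hJ.toIsMult m hy.1 _
      _ = 4 := by
          rw [Finset.sum_const, Finset.card_insert_of_notMem (by simp), Finset.card_singleton]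
          norm_num
  have hgc : ∀ c ∈ Finset.Icc 1 ⌊Real.sqrt 2 * Y⌋₊, g (c : ℤ) =
      if M ∣ c then ∫ t, kTot m s c / c * psW m y t c else 0 := by
    intro c hc
    rw [Finset.mem_Icc] at hc
    have : NeZero c := ⟨by omega⟩
    split_ifs with hMc
    · rw [kTot_eq, integral_const_mul]
      have h1 := lo_row hY hs m hy hMc (hsp c hMc)
      rw [lo_int] at h1
      rw [hg]
      simp only
      rw [h1]
      ring
    · rw [hg]
      simp only
      apply Finset.sum_eq_zero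
      intro d _
      have hnd : ¬ ((M : ℤ) ∣ (c : ℤ)) := by
        intro h; exact hMc (Int.natCast_dvd_natCast.1 h)
      unfold rowI rowG
      simp [hnd]
  have hsum : ∑ c ∈ Finset.Icc 1 ⌊Real.sqrt 2 * Y⌋₊, g (c : ℤ) =
      ∫ t, ∑ c ∈ (Finset.Icc 1 ⌊Real.sqrt 2 * Y⌋₊).filter (M ∣ ·), kTot m s c / c * psW m y t c := by
    rw [integral_finsetSum, Finset.sum_congr rfl hgc, Finset.sum_filter]
    intro c hc
    rw [Finset.mem_filter, Finset.mem_Icc] at hc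
    have : NeZero c := ⟨by omega⟩
    exact (lo_integrable hm hy).const_mul _
  have hint : ‖∫ t, ∑ c ∈ (Finset.Icc 1 ⌊Real.sqrt 2 * Y⌋₊).filter (M ∣ ·),
      kTot m s c / c * psW m y t c‖ ≤ 3 * B := by
    have h1 : Integrable ((Set.Icc (-(3 / 2) : ℝ) (3 / 2)).indicator (fun _ ↦ B)) := by
      rw [integrable_indicator_iff measurableSet_Icc]
      exact integrableOn_const (by simp)
    refine (norm_integral_le_of_norm_le h1 (Filter.Eventually.of_forall fun t ↦ ?_)).trans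
      (le_of_eq ?_)
    · by_cases ht : t ∈ Set.Icc (-(3 / 2) : ℝ) (3 / 2)
      · rw [Set.indicator_of_mem ht]
        exact h t ht
      · rw [Set.indicator_of_notMem ht, Finset.sum_eq_zero, norm_zero]
        intro c hc
        rw [Finset.mem_filter, Finset.mem_Icc] at hc
        have : NeZero c := ⟨by omega⟩
        rw [lo_support hm hy ht, mul_zero]
    · rw [integral_indicator measurableSet_Icc, setIntegral_const, Measure.real, Real.volume_Icc,
        ENNReal.toReal_ofReal (by norm_num)]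
      simp only [smul_eq_mul]
      ring
  calc ‖∑ c ∈ Finset.Icc (-(⌊Real.sqrt 2 * Y⌋₊ : ℤ)) ⌊Real.sqrt 2 * Y⌋₊,
        ∑ d ∈ D, rowI M Y m J y (c, d)‖
      = ‖g 0 + 2 * ∑ c ∈ Finset.Icc 1 ⌊Real.sqrt 2 * Y⌋₊, g c‖ := by
        rw [← lo_even hgeven]
    _ ≤ ‖g 0‖ + 2 * ‖∑ c ∈ Finset.Icc 1 ⌊Real.sqrt 2 * Y⌋₊, g (c : ℤ)‖ := by
        refine (norm_add_le _ _).trans ?_
        rw [norm_mul]
        norm_num
    _ ≤ 4 + 2 * (3 * B) := by
        rw [hsum]
        linarith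
    _ = 4 + 6 * B := by ring

lemma lo_bInt {M : ℕ} [NeZero M] {J : SL(2, ℤ) → ℍ → ℂ}
    (hJ : IsMultT M J) {s : ℤ → ℤ → ℂ}
    (hs : ∀ k ∈ Gamma0 M, ∀ z, J k z = s (k 1 0) (k 1 1) * (lowerForm k z ^ (1 / 2 : ℂ)) ^ 3)
    (hsp : ∀ c : ℕ, M ∣ c → ∀ d : ℤ, IsCoprime (c : ℤ) d → s c (d + c) = s c d)
    {m : ℕ} (hm : 0 < m) {B : ℝ} (hB : 0 ≤ B)
    (h : ∀ y ∈ Set.Ico (1 / (m : ℝ)) (2 / m), ∀ t ∈ Set.Icc (-(3 / 2) : ℝ) (3 / 2),
      ‖∑ c ∈ (Finset.Icc 1 ⌊Real.sqrt 2 * m⌋₊).filter (M ∣ ·),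
        kTot m s c / c * psW m y t c‖ ≤ B) :
    ‖∫ z, stripF m (pSum M m (eFun m) J) (eFun m) z‖ ≤ (4 + 6 * B) / Real.sqrt m := by
  have hm0 : (0 : ℝ) < m := by exact_mod_cast hm
  set S : ℝ := 4 + 6 * B with hS
  have hS0 : 0 ≤ S := by positivity
  rw [integral_stripF hm0 (measurable_pSum hJ.toIsMult (measurable_eFun m)) (measurable_eFun m)
    (fun z hz ↦ pSum_bound hm0 hJ m hz)]
  have hpos : 0 < 1 / (m : ℝ) := by positivity
  have h1 : ∀ y ∈ Set.Ico (1 / (m : ℝ)) (2 / m),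
      ‖∫ x in Set.Ico (0 : ℝ) 1, pSum M m (eFun m) J (pt x y) * conj (eFun m (pt x y)) *
        ((y ^ (-(1 / 2) : ℝ) : ℝ) : ℂ)‖ ≤ S * (1 / (m : ℝ)) ^ (-(1 / 2) : ℝ) := by
    intro y hy
    have hy0 : 0 < y := lt_of_lt_of_le hpos hy.1
    rw [integral_mul_const, norm_mul, Complex.norm_real,
      Real.norm_of_nonneg (Real.rpow_pos_of_pos hy0 _).le]
    have h2 := lo_line hJ hs hsp hm hy (h y hy)
    have h3 : y ^ (-(1 / 2) : ℝ) ≤ (1 / (m : ℝ)) ^ (-(1 / 2) : ℝ) :=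
      Real.rpow_le_rpow_of_nonpos hpos hy.1 (by norm_num)
    exact mul_le_mul h2 h3 (Real.rpow_pos_of_pos hy0 _).le hS0
  refine (norm_setIntegral_le_of_norm_le_const (by simp) h1).trans (le_of_eq ?_)
  rw [Measure.real, Real.volume_Ico, ENNReal.toReal_ofReal (by
      rw [div_sub_div_same]; positivity)]
  have e : (1 / (m : ℝ)) ^ (-(1 / 2) : ℝ) = Real.sqrt m := by
    rw [Real.rpow_neg (by positivity), ← Real.sqrt_eq_rpow, ← Real.sqrt_inv]
    simp
  rw [e]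
  have h4 : (2 / (m : ℝ) - 1 / m) = 1 / m := by ring
  rw [h4]
  have h5 : Real.sqrt m * Real.sqrt m = m := Real.mul_self_sqrt hm0.le
  have h6 : Real.sqrt m ≠ 0 := by positivity
  exact alg0 h6 hm0.ne' h5 S

lemma lo_coeff {N : ℕ} {χ : DirichletCharacter ℂ N} {f : ℍ → ℂ} [NeZero N]
    (hf : IsCuspForm N χ f) (h4 : 4 ∣ N) {q : ℕ} [NeZero q]
    (hsq : Squarefree q) (hcop : Nat.Coprime q N) {m : ℕ} (hm : 0 < m) {S : ℝ} (hS0 : 0 ≤ S)
    (hB : ∀ (_ : ∃ z, trSum f q z ≠ 0),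
      ‖∫ z, stripF m (pSum (N * q) m (eFun m) (mJ N q χ)) (eFun m) z‖ ≤ S / Real.sqrt m) :
    ‖fourierCoeff f (q * m)‖ ^ 2 ≤ 2 * Real.exp (16 * Real.pi) * Real.sqrt (q * m) *
      (ArithmeticFunction.sigma 1 q : ℕ) * S * petNorm N f := by
  have hm0 : (0 : ℝ) < m := by exact_mod_cast hm
  have hq : (0 : ℝ) < q := Nat.cast_pos.2 (NeZero.pos q)
  have hP := petNorm_nonneg (N := N) f
  by_cases hne : ∃ z, trSum f q z ≠ 0
  swap
  · push Not at hne
    have h1 := trSum_coeff hf q m one_pos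
    simp_rw [hne] at h1
    simp only [zero_mul, intervalIntegral.integral_zero] at h1
    have h2 : fourierCoeff f (q * m) = 0 := by
      have h3 : (Real.exp (-(2 * Real.pi * m * 1)) : ℂ) ≠ 0 := by
        exact_mod_cast (Real.exp_pos _).ne'
      have h4 : (q : ℂ) ≠ 0 := by exact_mod_cast hq.ne'
      have := h1.symm
      rcases mul_eq_zero.1 this with h | h
      · rcases mul_eq_zero.1 h with h | h
        · exact absurd h h4
        · exact h
      · exact absurd h h3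
    rw [h2, norm_zero, zero_pow two_ne_zero]
    positivity
  have hJ := mJ_isMult hf h4 hne
  replace hB := hB hne
  set J := mJ N q χ with hJdef
  set a : ℝ := (q : ℝ) ^ (5 / 2 : ℝ) * (ArithmeticFunction.sigma 1 q : ℕ) * petNorm N f with ha
  have ha0 : 0 ≤ a := by positivity
  obtain ⟨C, hC⟩ := trSum_bound hf q hm0
  have hb : ∀ z ∈ hstrip (m : ℝ), ‖trSum f q z * conj (eFun m z)‖ ≤ C := by
    intro z hz
    rw [norm_mul, Complex.norm_conj]
    have h1 := hC z hz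
    have h2 := norm_eFun_le m z
    calc ‖trSum f q z‖ * ‖eFun m z‖ ≤ C * 1 :=
          mul_le_mul h1 h2 (norm_nonneg _) (le_trans (norm_nonneg _) h1)
      _ = C := mul_one _
  have hmain := pair_bound hm0 hJ.toIsMult (continuous_trSum hf q).measurable
    (fun k hk z ↦ trSum_transform hf h4 hk z) (measurable_eFun m) ha0
    (iInt_le hf h4 hsq hcop)
    (lintegral_stripF_ne_top hm0 hb)
    (lintegral_stripF_ne_top hm0 (fun z hz ↦ pSum_bound hm0 hJ m hz))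
  have hBre : (∫ z, stripF m (pSum (N * q) m (eFun m) J) (eFun m) z).re ≤ S / Real.sqrt m :=
    (Complex.re_le_norm _).trans hB
  have h1 := hmain.1
  rw [aInt_eq hf q hm0] at h1
  set I := ∫ y in Set.Ico (1 / (m : ℝ)) (2 / m),
        Real.exp (-(4 * Real.pi * m * y)) * y ^ (-(1 / 2) : ℝ) with hI
  have hIl := weight_lower hm
  rw [← hI] at hIl
  have hL0 : 0 < Real.exp (-(8 * Real.pi)) / Real.sqrt (2 * m) := by positivity
  have hI0 : 0 < I := lt_of_lt_of_le hL0 hIl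
  rw [norm_mul, norm_mul, Complex.norm_natCast, Complex.norm_real, Real.norm_of_nonneg hI0.le] at h1
  set A := ‖fourierCoeff f (q * m)‖ with hA
  have hA0 : 0 ≤ A := norm_nonneg _
  have h2 : (q * A * (Real.exp (-(8 * Real.pi)) / Real.sqrt (2 * m))) ^ 2 ≤
      a * (S / Real.sqrt m) := by
    calc (q * A * (Real.exp (-(8 * Real.pi)) / Real.sqrt (2 * m))) ^ 2
        ≤ (q * A * I) ^ 2 := by gcongr
      _ ≤ _ := h1
      _ ≤ _ := by gcongr
  have hexp : Real.exp (-(8 * Real.pi)) ^ 2 * Real.exp (16 * Real.pi) = 1 := by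
    rw [← Real.exp_nat_mul, ← Real.exp_add]
    have : ((2 : ℕ) : ℝ) * -(8 * Real.pi) + 16 * Real.pi = 0 := by push_cast; ring
    rw [this, Real.exp_zero]
  have hsq2 : Real.sqrt (2 * m) ^ 2 = 2 * m := Real.sq_sqrt (by positivity)
  have hsqm : Real.sqrt m * Real.sqrt m = m := Real.mul_self_sqrt hm0.le
  have hq52 : (q : ℝ) ^ (5 / 2 : ℝ) = q ^ 2 * Real.sqrt q := by
    rw [Real.sqrt_eq_rpow, ← Real.rpow_natCast, ← Real.rpow_add hq]; norm_num
  have hkey : A ^ 2 = (q * A * (Real.exp (-(8 * Real.pi)) / Real.sqrt (2 * m))) ^ 2 *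
      (2 * m * Real.exp (16 * Real.pi) / q ^ 2) := by
    have : (q * A * (Real.exp (-(8 * Real.pi)) / Real.sqrt (2 * m))) ^ 2 =
        q ^ 2 * A ^ 2 * (Real.exp (-(8 * Real.pi)) ^ 2 / (2 * m)) := by
      rw [mul_pow, mul_pow, div_pow, hsq2]
    rw [this]
    exact alg1 hq.ne' hm0.ne' hexp A
  rw [hkey]
  have hk0 : 0 ≤ 2 * m * Real.exp (16 * Real.pi) / q ^ 2 := by positivity
  refine (mul_le_mul_of_nonneg_right h2 hk0).trans (le_of_eq ?_)
  rw [ha, hq52, Real.sqrt_mul hq.le]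
  have h6 : Real.sqrt m ≠ 0 := by positivity
  exact alg2 hq.ne' h6 hsqm _ _ _ _

end aux

open Pool.Agent.Work.MP_af11aa_nt
open UpperHalfPlane

theorem coeff_bound_osc {N : ℕ} {χ : DirichletCharacter ℂ N} {f : ℍ → ℂ} [NeZero N]
    (hf : IsCuspForm N χ f) (h4 : 4 ∣ N) {q : ℕ} [NeZero q]
    (hsq : Squarefree q) (hcop : Nat.Coprime q N) {m : ℕ} (hm : 0 < m) {B : ℝ} (hB : 0 ≤ B)
    (h : ∀ y ∈ Set.Ico (1 / (m : ℝ)) (2 / m), ∀ s ∈ Set.Icc (-(3 / 2) : ℝ) (3 / 2),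
      ‖∑ c ∈ (Finset.Icc 1 ⌊Real.sqrt 2 * m⌋₊).filter (N * q ∣ ·),
        K.kTot m (K.mS N q χ) c / c * psW m y s c‖ ≤ B) :
    ‖fourierCoeff f (q * m)‖ ^ 2 ≤ 2 * Real.exp (16 * Real.pi) * Real.sqrt (q * m) *
      (ArithmeticFunction.sigma 1 q : ℕ) * (4 + 6 * B) * petNorm N f := by
  refine lo_coeff hf h4 hsq hcop hm (by positivity) fun hne ↦ ?_
  exact lo_bInt (K.mJ_isMult hf h4 hne) (fun k _ z ↦ K.mJ_eq N q χ k z)
    (fun c hc d hd ↦ K.mS_period h4 c hc d hd) hm hB h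

end Pool.Agent.Work.MP_af11aa_nt.W
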