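import Mathlib

set_option autoImplicit false

namespace Pool.Agent.Work.MP_af11aa_nt.W

open Finset ComplexConjugate

noncomputable section

/-- multiplicative differencing. -/
def Dh {G : Type*} [Add G] (h : G) (f : G → ℂ) : G → ℂ := fun x ↦ f x * conj (f (x + h))

/-- iterated multiplicative differencing. -/
def Dl {G : Type*} [Add G] : List G → (G → ℂ) → G → ℂ
  | [], f => f
  | h :: t, f => Dl t (Dh h f)

section

variable {G G' : Type*} [Add G] [Add G']

@[simp] lemma Dl_nil (f : G → ℂ) : Dl [] f = f := rfl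

@[simp] lemma Dl_cons (h : G) (t : List G) (f : G → ℂ) : Dl (h :: t) f = Dl t (Dh h f) := rfl

lemma Dh_mul (h : G) (f g : G → ℂ) : Dh h (fun x ↦ f x * g x) = fun x ↦ Dh h f x * Dh h g x := by
  funext x
  simp only [Dh, map_mul]
  ring

lemma Dl_mul (t : List G) (f g : G → ℂ) : Dl t (fun x ↦ f x * g x) = fun x ↦ Dl t f x * Dl t g x := by
  induction t generalizing f g with
  | nil => rfl
  | cons h t ih => rw [Dl_cons, Dh_mul, ih]; rfl

/-- differencing commutes with a map `φ` such that `φ (x + h) = φ x + ψ h`. -/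
lemma Dl_comp (t : List G') (φ : G' → G) (ψ : G' → G) (hφ : ∀ x h, φ (x + h) = φ x + ψ h)
    (f : G → ℂ) : Dl t (f ∘ φ) = Dl (t.map ψ) f ∘ φ := by
  induction t generalizing f with
  | nil => rfl
  | cons h t ih =>
    rw [Dl_cons, List.map_cons, Dl_cons, ← ih]
    congr 1
    funext x
    simp only [Dh, Function.comp_apply, hφ]

lemma norm_Dl_le_one (t : List G) {f : G → ℂ} (hf : ∀ x, ‖f x‖ ≤ 1) (x : G) : ‖Dl t f x‖ ≤ 1 := by
  induction t generalizing f with
  | nil => exact hf x
  | cons h t ih =>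
    rw [Dl_cons]
    apply ih
    intro y
    simp only [Dh, norm_mul, Complex.norm_conj]
    exact mul_le_one₀ (hf y) (norm_nonneg _) (hf _)

end

/-- an interval stays an interval. -/
lemma Dl_interval (t : List ℤ) (u v : ℤ) : ∃ u' v' : ℤ, u ≤ u' ∧ v' ≤ v ∧ ∀ (E : ℤ → ℂ) (n : ℤ),
    Dl t (fun n ↦ if u ≤ n ∧ n < v then E n else 0) n = if u' ≤ n ∧ n < v' then Dl t E n else 0 := by
  induction t generalizing u v with
  | nil => exact ⟨u, v, le_rfl, le_rfl, fun E n ↦ rfl⟩
  | cons h t ih =>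
    obtain ⟨u', v', h1, h2, h3⟩ := ih (max u (u - h)) (min v (v - h))
    refine ⟨u', v', (le_max_left _ _).trans h1, h2.trans (min_le_left _ _), fun E n ↦ ?_⟩
    rw [Dl_cons, Dl_cons, ← h3 (Dh h E) n]
    congr 1
    funext x
    simp only [Dh]
    by_cases hx : u ≤ x ∧ x < v
    · by_cases hy : u ≤ x + h ∧ x + h < v
      · rw [if_pos hx, if_pos hy, if_pos]
        constructor
        · exact max_le hx.1 (by linarith [hy.1])
        · exact lt_min hx.2 (by linarith [hy.2])
      · rw [if_neg hy, map_zero, mul_zero, if_neg]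
        rintro ⟨h4, h5⟩
        apply hy
        rw [max_le_iff] at h4
        rw [lt_min_iff] at h5
        constructor <;> linarith [h4.2, h5.2]
    · rw [if_neg hx, zero_mul, if_neg]
      rintro ⟨h4, h5⟩
      rw [max_le_iff] at h4
      rw [lt_min_iff] at h5
      exact hx ⟨h4.1, h5.1⟩

lemma ofFn_map {G : Type*} {J : ℕ} (h : Fin J → ℤ) (ψ : ℤ → G) :
    (List.ofFn h).map ψ = List.ofFn fun j ↦ ψ (h j) := by
  rw [List.map_ofFn]; rfl

/-- a periodic function stays periodic. -/
lemma Dl_periodic (t : List ℤ) {f : ℤ → ℂ} {a : ℤ} (hf : ∀ n, f (n + a) = f n) (n : ℤ) :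
    Dl t f (n + a) = Dl t f n := by
  induction t generalizing f with
  | nil => exact hf n
  | cons h t ih =>
    rw [Dl_cons]
    apply ih
    intro m
    simp only [Dh]
    rw [hf m, show m + a + h = m + h + a by ring, hf]

/-- the function `x ↦ e(θ/x)` on the units modulo `a`. -/
def EZ (a : ℕ) [NeZero a] (θ : ZMod a) : ZMod a → ℂ := by
  classical
  exact fun x ↦ if IsUnit x then ZMod.stdAddChar (θ * x⁻¹) else 0

/-- the Jacobi symbol as a function on residue classes. -/
def JZ (r : ℕ) (x : ZMod r) : ℂ := ((jacobiSym (x.val : ℤ) r : ℤ) : ℂ)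

/-- the part of `a` composed of the primes whose square divides `a`. -/
def sfp (a : ℕ) : ℕ := ∏ l ∈ a.primeFactors.filter (fun l ↦ l ^ 2 ∣ a), l ^ a.factorization l

/-- the good part of `a` with respect to the shifts `h`. -/
def a1 (J a : ℕ) (h : Fin J → ℤ) : ℕ := by
  classical
  exact ∏ l ∈ a.primeFactors.filter (fun l ↦ ¬ l ^ 2 ∣ a ∧ J < l ∧ ∀ j, ¬ (l : ℤ) ∣ h j), l

end

end Pool.Agent.Work.MP_af11aa_nt.W
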