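import Mathlib
import Pool.Agent.Work.MP_af11aa_nt.W.Arith

/-!
MODULE JacFac (separating the part of the summand which is periodic modulo 8 k2).

c is odd (4 | k2) and prime to 8 k2.  (m2 m1 k1 k2 / c) = (m2 k2 / c)(m1/c)(k1/c);
 (m2 k2 / c) depends only on c mod 4 m2 k2, which divides 8 k2 (jacobiSym.mod_right, c odd);
 (m1/c) = (-1)^{((m1-1)/2)((c-1)/2)} (c/m1), same for k1 (jacobiSym.quadratic_reciprocity, also true when not coprime):
 the signs depend on c mod 4; gs c depends on c mod 4; V c and eI k2 z (c k1) depend on c mod k2.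
So put H(x) = (m2 k2/c) · signs · gs c · V c · eI k2 z (c k1) with c = (x mod 8 k2).toNat if x is prime to 8 k2 and 0
otherwise (c + 8 k2 instead of c if you want c > 0).  ‖H‖ ≤ B since all other factors have absolute value ≤ 1.
-/

set_option autoImplicit false

namespace Pool.Agent.Work.MP_af11aa_nt.W

/-- the periodic factor for a natural number. -/
private noncomputable def JacFac_S (k1 k2 m1 m2 : ℕ) (V : ℕ → ℂ) (z : ℤ) (c : ℕ) : ℂ :=
  ((jacobiSym ((m2 * k2 : ℕ) : ℤ) c : ℤ) : ℂ) * ((-1 : ℂ) ^ (m1 / 2 * (c / 2))) *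
    ((-1 : ℂ) ^ (k1 / 2 * (c / 2))) * gs c * V c * eI k2 z ((c * k1 : ℕ) : ℤ)

private theorem JacFac_norm_jac (a : ℤ) (c : ℕ) : ‖((jacobiSym a c : ℤ) : ℂ)‖ ≤ 1 := by
  rcases jacobiSym.trichotomy a c with h | h | h <;> rw [h] <;> simp

private theorem JacFac_norm_gs (c : ℕ) : ‖gs c‖ = 1 := by
  unfold gs
  split_ifs <;> simp

private theorem JacFac_S_norm (k1 k2 m1 m2 : ℕ) (V : ℕ → ℂ) (B : ℝ) (hB : ∀ a, ‖V a‖ ≤ B)
    (z : ℤ) (c : ℕ) : ‖JacFac_S k1 k2 m1 m2 V z c‖ ≤ B := by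
  unfold JacFac_S
  rw [norm_mul, norm_mul, norm_mul, norm_mul, norm_mul, norm_eI, JacFac_norm_gs, norm_pow,
    norm_pow, norm_neg, norm_one, one_pow, one_pow, mul_one, mul_one, mul_one, mul_one]
  calc ‖((jacobiSym ((m2 * k2 : ℕ) : ℤ) c : ℤ) : ℂ)‖ * ‖V c‖ ≤ 1 * B :=
        mul_le_mul (JacFac_norm_jac _ _) (hB c) (norm_nonneg _) zero_le_one
    _ = B := one_mul B

private theorem JacFac_sign (m c c' : ℕ) (h : c % 8 = c' % 8) :
    (-1 : ℂ) ^ (m / 2 * (c / 2)) = (-1 : ℂ) ^ (m / 2 * (c' / 2)) := by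
  apply neg_one_pow_congr
  rw [Nat.even_mul, Nat.even_mul]
  have h1 : Even (c / 2) ↔ Even (c' / 2) := by
    rw [Nat.even_iff, Nat.even_iff]
    omega
  rw [h1]

private theorem JacFac_S_congr (k1 k2 m1 m2 : ℕ) (hm2 : m2 = 1 ∨ m2 = 2) (V : ℕ → ℂ)
    (hV : ∀ a a' : ℕ, a ≡ a' [MOD k2] → V a = V a') (z : ℤ) (c c' : ℕ) (hc : Odd c)
    (hc' : Odd c') (h : c ≡ c' [MOD 8 * k2]) :
    JacFac_S k1 k2 m1 m2 V z c = JacFac_S k1 k2 m1 m2 V z c' := by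
  have h8 : c % 8 = c' % 8 := h.of_dvd (Dvd.intro _ rfl)
  have hk : c ≡ c' [MOD k2] := h.of_dvd (Dvd.intro_left _ rfl)
  have hJ : jacobiSym ((m2 * k2 : ℕ) : ℤ) c = jacobiSym ((m2 * k2 : ℕ) : ℤ) c' := by
    rw [jacobiSym.mod_right _ hc, jacobiSym.mod_right _ hc']
    have h1 : 4 * ((m2 * k2 : ℕ) : ℤ).natAbs ∣ 8 * k2 := by
      rw [Int.natAbs_natCast]
      rcases hm2 with rfl | rfl
      · exact ⟨2, by ring⟩
      · exact ⟨1, by ring⟩
    have h2 : c % (4 * ((m2 * k2 : ℕ) : ℤ).natAbs) = c' % (4 * ((m2 * k2 : ℕ) : ℤ).natAbs) :=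
      h.of_dvd h1
    rw [h2]
  have hg : gs c = gs c' := by
    unfold gs
    have : c % 4 = c' % 4 := by omega
    rw [this]
  have hE : eI k2 z ((c * k1 : ℕ) : ℤ) = eI k2 z ((c' * k1 : ℕ) : ℤ) := by
    apply eI_congr
    exact Int.natCast_modEq_iff.2 (hk.mul_right k1)
  unfold JacFac_S
  rw [hJ, JacFac_sign m1 c c' h8, JacFac_sign k1 c c' h8, hg, hV c c' hk, hE]

theorem jac_fac (k1 k2 m1 m2 : ℕ) (hk1 : Odd k1) (hm1 : Odd m1) (hm2 : m2 = 1 ∨ m2 = 2)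
    (h4 : 4 ∣ k2) (hk2 : 0 < k2) (V : ℕ → ℂ) (hV : ∀ a a' : ℕ, a ≡ a' [MOD k2] → V a = V a')
    (B : ℝ) (hB : ∀ a, ‖V a‖ ≤ B) (z : ℤ) :
    ∃ H : ℤ → ℂ, (∀ x, H (x + 8 * k2) = H x) ∧ (∀ x, ‖H x‖ ≤ B) ∧
      (∀ x, ¬ IsCoprime x (8 * k2 : ℤ) → H x = 0) ∧
      ∀ c : ℕ, 0 < c → c.Coprime k2 →
        ((jacobiSym (((m2 * m1) * (k1 * k2) : ℕ) : ℤ) c : ℤ) : ℂ) * gs c * V c *
            eI k2 z ((c * k1 : ℕ) : ℤ) =
          H c * ((jacobiSym (c : ℤ) k1 : ℤ) : ℂ) * ((jacobiSym (c : ℤ) m1 : ℤ) : ℂ) := by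
  classical
  have hB0 : 0 ≤ B := (norm_nonneg _).trans (hB 0)
  refine ⟨fun x => if IsCoprime x (8 * k2 : ℤ) then
    JacFac_S k1 k2 m1 m2 V z (x % (8 * k2 : ℤ)).toNat else 0, ?_, ?_, ?_, ?_⟩
  · intro x
    have h1 : IsCoprime (x + 8 * k2) (8 * k2 : ℤ) ↔ IsCoprime x (8 * k2 : ℤ) := by
      have h3 := IsCoprime.add_mul_left_left_iff (x := x) (y := (8 * k2 : ℤ)) (z := 1)
      rwa [mul_one] at h3
    have h2 : (x + 8 * k2) % (8 * k2 : ℤ) = x % (8 * k2 : ℤ) := by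
      rw [Int.add_emod_right]
    simp only [h1, h2]
  · intro x
    show ‖(if IsCoprime x (8 * k2 : ℤ) then
      JacFac_S k1 k2 m1 m2 V z (x % (8 * k2 : ℤ)).toNat else 0 : ℂ)‖ ≤ B
    split_ifs
    · exact JacFac_S_norm _ _ _ _ _ _ hB _ _
    · rw [norm_zero]; exact hB0
  · intro x hx
    exact if_neg hx
  · intro c hc hck
    have h2k : 2 ∣ k2 := (by norm_num : (2 : ℕ) ∣ 4).trans h4
    have hcodd : Odd c := by
      rw [← Nat.not_even_iff_odd]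
      intro he
      have h1 : 2 ∣ c.gcd k2 := Nat.dvd_gcd he.two_dvd h2k
      rw [hck] at h1
      norm_num at h1
    have hc8 : c.Coprime (8 * k2) := by
      apply Nat.Coprime.mul_right _ hck
      have h2 : c.Coprime 2 := (Nat.coprime_two_right).2 hcodd
      have h3 : c.Coprime (2 ^ 3) := h2.pow_right 3
      norm_num at h3
      exact h3
    have hcop : IsCoprime (c : ℤ) (8 * k2 : ℤ) := by
      have := Nat.isCoprime_iff_coprime.2 hc8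
      push_cast at this
      exact this
    have htn : ((c : ℤ) % (8 * k2 : ℤ)).toNat = c % (8 * k2) := by
      have : (c : ℤ) % (8 * k2 : ℤ) = ((c % (8 * k2) : ℕ) : ℤ) := by push_cast; rfl
      rw [this, Int.toNat_natCast]
    have hodd' : Odd (c % (8 * k2)) := by
      rw [Nat.odd_iff] at hcodd ⊢
      have h1 : c % (8 * k2) % 2 = c % 2 := Nat.mod_mod_of_dvd c ⟨4 * k2, by ring⟩
      rw [h1, hcodd]
    show _ = (if IsCoprime (c : ℤ) (8 * k2 : ℤ) then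
      JacFac_S k1 k2 m1 m2 V z ((c : ℤ) % (8 * k2 : ℤ)).toNat else 0) *
        ((jacobiSym (c : ℤ) k1 : ℤ) : ℂ) * ((jacobiSym (c : ℤ) m1 : ℤ) : ℂ)
    rw [if_pos hcop, htn, JacFac_S_congr k1 k2 m1 m2 hm2 V hV z (c % (8 * k2)) c hodd' hcodd
      (Nat.mod_modEq _ _)]
    unfold JacFac_S
    have hJ : jacobiSym (((m2 * m1) * (k1 * k2) : ℕ) : ℤ) c =
        jacobiSym ((m2 * k2 : ℕ) : ℤ) c * ((-1) ^ (m1 / 2 * (c / 2)) * jacobiSym (c : ℤ) m1) *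
          ((-1) ^ (k1 / 2 * (c / 2)) * jacobiSym (c : ℤ) k1) := by
      rw [← jacobiSym.quadratic_reciprocity hm1 hcodd,
        ← jacobiSym.quadratic_reciprocity hk1 hcodd, ← jacobiSym.mul_left, ← jacobiSym.mul_left]
      congr 1
      push_cast
      ring
    rw [hJ]
    push_cast
    ring

end Pool.Agent.Work.MP_af11aa_nt.W
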