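import Mathlib
import Pool.Agent.Work.MP_af11aa_nt.W.Arith
import Pool.Agent.Work.MP_af11aa_nt.K.Salie

/-!
MODULE GaussSign (sign of the quadratic Gauss sum, all odd moduli).

Gauss's proof with `q`-binomial coefficients.  `B q N k = ∏_{i<k} (1 - q^(N-i)) / (1 - q^(i+1))`; the alternating sum
`f N = ∑_k (-1)^k B q N k` satisfies `f (N+2) = (1 - q^(N+1)) f N`, so `f (2m) = ∏_{j<m} (1 - q^(2j+1))`; for a primitive
`c`-th root of unity `q`, `c = 2m+1`, `(-1)^k B q (2m) k = ∏_{i<k} q^(-(i+1))`.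
-/

set_option autoImplicit false

namespace Pool.Agent.Work.MP_af11aa_nt.W

open Finset Pool.Agent.Work.MP_af11aa_nt

/-- the Gaussian binomial coefficient. -/
noncomputable def gB (q : ℂ) (N k : ℕ) : ℂ :=
  ∏ i ∈ range k, ((1 - q ^ (N - i)) / (1 - q ^ (i + 1)))

theorem gB_zero (q : ℂ) (N : ℕ) : gB q N 0 = 1 := by simp [gB]

theorem gB_big (q : ℂ) (N : ℕ) : gB q N (N + 1) = 0 := by
  unfold gB
  rw [Finset.prod_range_succ]
  simp

theorem gB_succ (q : ℂ) (N k : ℕ) (h : 1 - q ^ (k + 1) ≠ 0) :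
    gB q N (k + 1) * (1 - q ^ (k + 1)) = gB q N k * (1 - q ^ (N - k)) := by
  unfold gB
  rw [Finset.prod_range_succ]
  field_simp

theorem gB_shift (q : ℂ) (N k : ℕ) :
    gB q (N + 1) k * (1 - q ^ (N + 1 - k)) = (1 - q ^ (N + 1)) * gB q N k := by
  unfold gB
  rw [Finset.prod_div_distrib, Finset.prod_div_distrib]
  have h1 : (∏ i ∈ range k, (1 - q ^ (N + 1 - i))) * (1 - q ^ (N + 1 - k)) =
      (1 - q ^ (N + 1)) * ∏ i ∈ range k, (1 - q ^ (N - i)) := by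
    rw [← Finset.prod_range_succ (fun i => 1 - q ^ (N + 1 - i)), Finset.prod_range_succ', mul_comm]
    simp only [Nat.sub_zero, Nat.add_sub_add_right]
  rw [div_mul_eq_mul_div, h1, mul_div_assoc]

theorem gB_pascal (q : ℂ) (N k : ℕ) (hk : k ≤ N) (h : 1 - q ^ (k + 1) ≠ 0) :
    gB q (N + 1) (k + 1) = gB q N (k + 1) + q ^ (N - k) * gB q N k := by
  apply mul_right_cancel₀ h
  have h1 := gB_succ q N k h
  have h2 := gB_succ q (N + 1) k h
  have h3 := gB_shift q N k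
  have e : q ^ (N - k) * q ^ (k + 1) = q ^ (N + 1) := by
    rw [← pow_add]; congr 1; omega
  rw [h2, h3, add_mul, h1]
  linear_combination (gB q N k) * e

theorem gB_sum (q : ℂ) (N : ℕ) (h : ∀ i, i < N + 2 → 1 - q ^ (i + 1) ≠ 0) :
    ∑ k ∈ range (N + 3), (-1 : ℂ) ^ k * gB q (N + 2) k =
      (1 - q ^ (N + 1)) * ∑ k ∈ range (N + 1), (-1 : ℂ) ^ k * gB q N k := by
  rw [Finset.sum_range_succ' _ (N + 2), gB_zero]
  have h1 : ∀ k ∈ range (N + 2), (-1 : ℂ) ^ (k + 1) * gB q (N + 2) (k + 1) =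
      (-1 : ℂ) ^ (k + 1) * gB q (N + 1) (k + 1) -
        (-1 : ℂ) ^ k * (gB q (N + 1) k * q ^ (N + 1 - k)) := by
    intro k hk
    rw [Finset.mem_range] at hk
    rw [gB_pascal q (N + 1) k (by omega) (h k hk)]
    ring
  rw [Finset.sum_congr rfl h1, Finset.sum_sub_distrib]
  have h2 : ∑ k ∈ range (N + 2), (-1 : ℂ) ^ (k + 1) * gB q (N + 1) (k + 1) + 1 =
      ∑ k ∈ range (N + 2), (-1 : ℂ) ^ k * gB q (N + 1) k := by
    have h3 := Finset.sum_range_succ' (fun k => (-1 : ℂ) ^ k * gB q (N + 1) k) (N + 2)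
    rw [Finset.sum_range_succ, gB_big, gB_zero] at h3
    simp only [mul_zero, add_zero, pow_zero, mul_one] at h3
    exact h3.symm
  have h4 : ∑ k ∈ range (N + 2), (-1 : ℂ) ^ k * gB q (N + 1) k -
      ∑ k ∈ range (N + 2), (-1 : ℂ) ^ k * (gB q (N + 1) k * q ^ (N + 1 - k)) =
      (1 - q ^ (N + 1)) * ∑ k ∈ range (N + 2), (-1 : ℂ) ^ k * gB q N k := by
    rw [← Finset.sum_sub_distrib, Finset.mul_sum]
    refine Finset.sum_congr rfl fun k _ => ?_
    have h5 := gB_shift q N k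
    linear_combination (-1 : ℂ) ^ k * h5
  have h6 : ∑ k ∈ range (N + 2), (-1 : ℂ) ^ k * gB q N k =
      ∑ k ∈ range (N + 1), (-1 : ℂ) ^ k * gB q N k := by
    rw [Finset.sum_range_succ, gB_big, mul_zero, add_zero]
  rw [← h6, ← h4, ← h2, pow_zero, mul_one]
  ring

theorem gB_gauss (q : ℂ) (m : ℕ) (h : ∀ i, i < 2 * m → 1 - q ^ (i + 1) ≠ 0) :
    ∑ k ∈ range (2 * m + 1), (-1 : ℂ) ^ k * gB q (2 * m) k = ∏ j ∈ range m, (1 - q ^ (2 * j + 1)) := by
  induction m with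
  | zero => simp [gB_zero]
  | succ m ih =>
    have h1 := gB_sum q (2 * m) (fun i hi => h i (by omega))
    rw [show 2 * (m + 1) = 2 * m + 2 by ring, h1, ih (fun i hi => h i (by omega)),
      Finset.prod_range_succ, mul_comm]

theorem gs_ec_pow (c : ℕ) (z : ℤ) (k : ℕ) : K.Salie.ec c z ^ k = K.Salie.ec c (z * k) := by
  unfold K.Salie.ec
  rw [← Complex.exp_nat_mul]
  congr 1
  push_cast
  ring

theorem gs_ec_zero (c : ℕ) : K.Salie.ec c 0 = 1 := by
  unfold K.Salie.ec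
  simp

theorem gs_ec_ne_one (c : ℕ) (hc : c ≠ 0) (z : ℤ) (h : K.Salie.ec c z = 1) : (c : ℤ) ∣ z := by
  have : NeZero c := ⟨hc⟩
  rw [← K.Salie.std_eq] at h
  have h1 := ZMod.injective_stdAddChar (N := c)
  have h2 : ((z : ℤ) : ZMod c) = 0 := h1 (by rw [h, AddChar.map_zero_eq_one])
  exact (ZMod.intCast_zmod_eq_zero_iff_dvd z c).1 h2

/-- the alternating Gaussian binomial coefficient at a root of unity. -/
theorem gB_root (m k : ℕ) (hk : k ≤ 2 * m) (q : ℂ) (hq : q = K.Salie.ec (2 * m + 1) (-2))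
    (h : ∀ i, i < 2 * m → 1 - q ^ (i + 1) ≠ 0) :
    (-1 : ℂ) ^ k * gB q (2 * m) k = K.Salie.ec (2 * m + 1) ((k : ℤ) ^ 2 + k) := by
  induction k with
  | zero => simp [gB_zero, gs_ec_zero]
  | succ k ih =>
    have h1 := ih (by omega)
    have h2 := h k (by omega)
    apply mul_right_cancel₀ h2
    have h3 := gB_succ q (2 * m) k h2
    have h4 : q ^ (2 * m - k) = K.Salie.ec (2 * m + 1) (2 * (k + 1)) := by
      rw [hq, gs_ec_pow]
      have e : (-2 : ℤ) * ((2 * m - k : ℕ) : ℤ) = 2 * (k + 1) + ((2 * m + 1 : ℕ) : ℤ) * (-2) := by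
        rw [Nat.cast_sub (by omega)]
        push_cast
        ring
      rw [e, K.Salie.ec_add, K.Salie.ec_self_mul _ (by omega), mul_one]
    have h5 : q ^ (k + 1) * K.Salie.ec (2 * m + 1) (2 * (k + 1)) = 1 := by
      rw [hq, gs_ec_pow, ← K.Salie.ec_add]
      have e : (-2 : ℤ) * ((k + 1 : ℕ) : ℤ) + 2 * (k + 1) = 0 := by push_cast; ring
      rw [e, gs_ec_zero]
    have h6 : K.Salie.ec (2 * m + 1) (((k + 1 : ℕ) : ℤ) ^ 2 + ((k + 1 : ℕ) : ℤ)) =
        K.Salie.ec (2 * m + 1) ((k : ℤ) ^ 2 + k) * K.Salie.ec (2 * m + 1) (2 * (k + 1)) := by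
      rw [← K.Salie.ec_add]
      congr 1
      push_cast
      ring
    rw [h6, mul_assoc, h3, h4, pow_succ]
    linear_combination (-1 + K.Salie.ec (2 * m + 1) (2 * (k + 1))) * h1 +
      K.Salie.ec (2 * m + 1) ((k : ℤ) ^ 2 + k) * h5

theorem gs_shift (m : ℕ) :
    K.Salie.G 1 (2 * m + 1) = K.Salie.ec (2 * m + 1) (((m : ℤ) + 1) ^ 2) *
      ∑ k ∈ range (2 * m + 1), K.Salie.ec (2 * m + 1) ((k : ℤ) ^ 2 + k) := by
  have : NeZero (2 * m + 1) := ⟨by omega⟩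
  have h0 : (2 * m + 1 : ℕ) ≠ 0 := by omega
  rw [K.Salie.G_eq, ← Equiv.sum_comp (Equiv.addRight ((m + 1 : ℕ) : ZMod (2 * m + 1)))
    (fun x => ZMod.stdAddChar (((1 : ℤ) : ZMod (2 * m + 1)) * x ^ 2)), K.Salie.sum_zmod,
    Finset.mul_sum]
  refine Finset.sum_congr rfl fun k _ => ?_
  have e : ((1 : ℤ) : ZMod (2 * m + 1)) *
      ((Equiv.addRight ((m + 1 : ℕ) : ZMod (2 * m + 1))) (k : ZMod (2 * m + 1))) ^ 2 =
      ((((m : ℤ) + 1) ^ 2 + (((k : ℤ) ^ 2 + k) + ((2 * m + 1 : ℕ) : ℤ) * k) : ℤ) :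
        ZMod (2 * m + 1)) := by
    rw [Equiv.coe_addRight]
    push_cast
    ring
  rw [e, K.Salie.std_eq, K.Salie.ec_add, K.Salie.ec_add, K.Salie.ec_self_mul _ h0, mul_one]

theorem gs_prod (m : ℕ) :
    K.Salie.G 1 (2 * m + 1) =
      ∏ j ∈ range m, (2 * Complex.I * ((Real.sin (2 * Real.pi * (2 * j + 1) / (2 * m + 1)) : ℝ) : ℂ)) := by
  have h0 : (2 * m + 1 : ℕ) ≠ 0 := by omega
  set q : ℂ := K.Salie.ec (2 * m + 1) (-2) with hq
  have h : ∀ i, i < 2 * m → 1 - q ^ (i + 1) ≠ 0 := by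
    intro i hi h1
    have h2 : K.Salie.ec (2 * m + 1) ((-2) * ((i + 1 : ℕ) : ℤ)) = 1 := by
      rw [← gs_ec_pow, ← hq]
      exact (sub_eq_zero.1 h1).symm
    have h3 := gs_ec_ne_one _ h0 _ h2
    have h4 : ((2 * m + 1 : ℕ) : ℤ) ∣ ((i + 1 : ℕ) : ℤ) := by
      refine IsCoprime.dvd_of_dvd_mul_left ?_ h3
      refine ⟨1, m, ?_⟩
      push_cast
      ring
    have h5 : (2 * m + 1) ∣ (i + 1) := by exact_mod_cast h4
    have := Nat.le_of_dvd (by omega) h5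
    omega
  have h1 := gB_gauss q m h
  rw [Finset.sum_congr rfl (fun k hk => gB_root m k (by rw [Finset.mem_range] at hk; omega) q hq h)]
    at h1
  rw [gs_shift, h1]
  have h2 : ∀ M : ℕ, ∏ j ∈ range M, K.Salie.ec (2 * m + 1) (2 * j + 1) =
      K.Salie.ec (2 * m + 1) ((M : ℤ) ^ 2) := by
    intro M
    induction M with
    | zero => simp [gs_ec_zero]
    | succ M ih =>
      rw [Finset.prod_range_succ, ih, ← K.Salie.ec_add]
      congr 1
      push_cast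
      ring
  have h3 : K.Salie.ec (2 * m + 1) (((m : ℤ) + 1) ^ 2) = K.Salie.ec (2 * m + 1) ((m : ℤ) ^ 2) := by
    have e : ((m : ℤ) + 1) ^ 2 = (m : ℤ) ^ 2 + ((2 * m + 1 : ℕ) : ℤ) * 1 := by push_cast; ring
    rw [e, K.Salie.ec_add, K.Salie.ec_self_mul _ h0, mul_one]
  rw [h3, ← h2 m, ← Finset.prod_mul_distrib]
  refine Finset.prod_congr rfl fun j _ => ?_
  rw [hq, gs_ec_pow, mul_sub, mul_one, ← K.Salie.ec_add]
  have e1 : (2 * (j : ℤ) + 1) + (-2) * ((2 * j + 1 : ℕ) : ℤ) = -(2 * (j : ℤ) + 1) := by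
    push_cast; ring
  rw [e1]
  unfold K.Salie.ec
  have e2 : (2 * (Real.pi : ℂ) * Complex.I * ((2 * (j : ℤ) + 1 : ℤ) : ℂ) / ((2 * m + 1 : ℕ) : ℂ)) =
      ((2 * Real.pi * (2 * j + 1) / (2 * m + 1) : ℝ) : ℂ) * Complex.I := by
    push_cast; ring
  have e3 : (2 * (Real.pi : ℂ) * Complex.I * ((-(2 * (j : ℤ) + 1) : ℤ) : ℂ) / ((2 * m + 1 : ℕ) : ℂ)) =
      -((2 * Real.pi * (2 * j + 1) / (2 * m + 1) : ℝ) : ℂ) * Complex.I := by
    push_cast; ring
  rw [e2, e3, Complex.ofReal_sin, Complex.sin]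
  ring_nf
  rw [Complex.I_sq]
  ring

theorem gs_sin_pos (m j : ℕ) (h : 2 * j + 1 ≤ m) :
    0 < Real.sin (2 * Real.pi * (2 * j + 1) / (2 * m + 1)) := by
  have h1 : (2 * j + 1 : ℝ) ≤ m := by exact_mod_cast h
  have hm : (0 : ℝ) < 2 * m + 1 := by positivity
  apply Real.sin_pos_of_pos_of_lt_pi
  · have := Real.pi_pos; positivity
  · rw [div_lt_iff₀ hm]
    nlinarith [Real.pi_pos]

theorem gs_sin_neg (m j : ℕ) (h : m ≤ 2 * j) (hj : j < m) :
    0 < -Real.sin (2 * Real.pi * (2 * j + 1) / (2 * m + 1)) := by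
  have h1 : (m : ℝ) ≤ 2 * j := by exact_mod_cast h
  have h2 : (j : ℝ) + 1 ≤ m := by exact_mod_cast hj
  have hm : (0 : ℝ) < 2 * m + 1 := by positivity
  rw [← Real.sin_sub_pi] 
  apply Real.sin_pos_of_pos_of_lt_pi
  · rw [sub_pos, lt_div_iff₀ hm]
    nlinarith [Real.pi_pos]
  · rw [sub_lt_iff_lt_add, div_lt_iff₀ hm]
    nlinarith [Real.pi_pos]

theorem gauss_sign (c : ℕ) (hc : Odd c) :
    Pool.Agent.Work.MP_af11aa_nt.K.Salie.G 1 c = gs c * ((Real.sqrt c : ℝ) : ℂ) := by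
  obtain ⟨m, rfl⟩ := hc
  have : NeZero (2 * m + 1) := ⟨by omega⟩
  have hn := K.Salie.norm_G_one (2 * m + 1) ⟨m, rfl⟩
  set s : ℕ → ℝ := fun j => Real.sin (2 * Real.pi * (2 * j + 1) / (2 * m + 1)) with hs
  have hp : K.Salie.G 1 (2 * m + 1) = ∏ j ∈ range m, (2 * Complex.I * ((s j : ℝ) : ℂ)) := gs_prod m
  have key : ∃ p : ℝ, 0 ≤ p ∧ K.Salie.G 1 (2 * m + 1) = gs (2 * m + 1) * ((p : ℝ) : ℂ) := by
    obtain ⟨k, hk | hk⟩ := Nat.even_or_odd' m
    · refine ⟨∏ j ∈ range k, (4 * s j * (-s (k + j))), Finset.prod_nonneg fun j hj => ?_, ?_⟩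
      · rw [Finset.mem_range] at hj
        have h1 := gs_sin_pos m j (by omega)
        have h2 := gs_sin_neg m (k + j) (by omega) (by omega)
        exact mul_nonneg (mul_nonneg (by norm_num) h1.le) h2.le
      · rw [hp, show gs (2 * m + 1) = 1 from if_pos (by omega), one_mul]
        have e : range m = range (k + k) := by congr 1; omega
        rw [e, Finset.prod_range_add, ← Finset.prod_mul_distrib]
        push_cast
        refine Finset.prod_congr rfl fun j _ => ?_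
        linear_combination (4 * (s j : ℂ) * (s (k + j) : ℂ)) * Complex.I_sq
    · refine ⟨(∏ j ∈ range k, (4 * s (j + 1) * (-s (k + 1 + j)))) * (2 * s 0),
        mul_nonneg (Finset.prod_nonneg fun j hj => ?_) ?_, ?_⟩
      · rw [Finset.mem_range] at hj
        have h1 := gs_sin_pos m (j + 1) (by omega)
        have h2 := gs_sin_neg m (k + 1 + j) (by omega) (by omega)
        exact mul_nonneg (mul_nonneg (by norm_num) h1.le) h2.le
      · exact mul_nonneg (by norm_num) (gs_sin_pos m 0 (by omega)).le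
      · rw [hp, show gs (2 * m + 1) = Complex.I from if_neg (by omega)]
        have e : range m = range ((k + 1) + k) := by congr 1; omega
        rw [e, Finset.prod_range_add, Finset.prod_range_succ']
        push_cast
        have e2 : ∏ j ∈ range k, (4 * (s (j + 1) : ℂ) * (-(s (k + 1 + j) : ℂ))) =
            (∏ j ∈ range k, (2 * Complex.I * (s (j + 1) : ℂ))) *
              ∏ j ∈ range k, (2 * Complex.I * (s (k + 1 + j) : ℂ)) := by
          rw [← Finset.prod_mul_distrib]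
          refine Finset.prod_congr rfl fun j _ => ?_
          linear_combination (-4 * (s (j + 1) : ℂ) * (s (k + 1 + j) : ℂ)) * Complex.I_sq
        rw [e2]
        ring
  obtain ⟨p, hp0, hpe⟩ := key
  have hgs : ‖gs (2 * m + 1)‖ = 1 := by
    unfold gs
    split_ifs <;> simp
  rw [hpe, norm_mul, hgs, one_mul, Complex.norm_real, Real.norm_of_nonneg hp0] at hn
  rw [hpe, ← hn, Real.sqrt_sq hp0]

end Pool.Agent.Work.MP_af11aa_nt.W
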