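import Mathlib
import Pool.Agent.Work.MP_af11aa_nt.W.Arith

/-!
MODULE KCrt (multiplicativity of the Kloosterman sums with phase).
-/

set_option autoImplicit false

namespace Pool.Agent.Work.MP_af11aa_nt.W

open Finset

theorem kcrt_ec_add (c : ℕ) (z w : ℤ) : ec c (z + w) = ec c z * ec c w := by
  unfold ec
  rw [← Complex.exp_add]
  congr 1
  push_cast
  ring

theorem kcrt_ec_mul {m c : ℕ} (hm : m ≠ 0) (hc : c ≠ 0) (z : ℤ) :
    ec (m * c) (m * z) = ec c z := by
  unfold ec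
  congr 1
  have h1 : (m : ℂ) ≠ 0 := by exact_mod_cast hm
  have h2 : (c : ℂ) ≠ 0 := by exact_mod_cast hc
  push_cast
  field_simp

theorem kcrt_ec_self {c : ℕ} (hc : c ≠ 0) (z : ℤ) : ec c (c * z) = 1 := by
  unfold ec
  have h2 : (c : ℂ) ≠ 0 := by exact_mod_cast hc
  have : 2 * (Real.pi : ℂ) * Complex.I * ((c * z : ℤ) : ℂ) / c = z * (2 * Real.pi * Complex.I) := by
    push_cast
    field_simp
  rw [this]
  exact Complex.exp_int_mul_two_pi_mul_I z

theorem kcrt_ec_congr {c : ℕ} (hc : c ≠ 0) {z w : ℤ} (h : (c : ℤ) ∣ w - z) :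
    ec c z = ec c w := by
  obtain ⟨t, ht⟩ := h
  have : w = z + c * t := by linarith
  rw [this, kcrt_ec_add, kcrt_ec_self hc, mul_one]

theorem kcrt_ivz {c : ℕ} (hc : c ≠ 0) {x : ℤ} (hx : IsCoprime x (c : ℤ)) :
    (c : ℤ) ∣ ivz c x * x - 1 := by
  have : NeZero c := ⟨hc⟩
  rw [← ZMod.intCast_zmod_eq_zero_iff_dvd]
  have hu : IsUnit (x : ZMod c) := by
    obtain ⟨a, b, h⟩ := hx
    have h1 := congrArg (Int.cast : ℤ → ZMod c) h
    push_cast at h1
    rw [ZMod.natCast_self, mul_zero, add_zero, mul_comm] at h1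
    exact IsUnit.of_mul_eq_one _ h1
  unfold ivz
  push_cast
  rw [ZMod.natCast_zmod_val, ZMod.inv_mul_of_unit _ hu, sub_self]

theorem kcrt_inv_unique {c : ℤ} {u v w : ℤ} (h1 : c ∣ u * w - 1) (h2 : c ∣ v * w - 1) :
    c ∣ v - u := by
  have h3 : v - u = v * (u * w - 1) * (-1) + u * (v * w - 1) := by ring
  rw [h3]
  exact dvd_add (Dvd.dvd.mul_right (Dvd.dvd.mul_left h1 _) _) (Dvd.dvd.mul_left h2 _)

/-- CRT for exponentials. -/
theorem kcrt_two {a b : ℕ} (ha : a ≠ 0) (hb : b ≠ 0) (hab : a.Coprime b) {u v : ℤ}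
    (hu : (a : ℤ) ∣ u * b - 1) (hv : (b : ℤ) ∣ v * a - 1) (z : ℤ) :
    ec (a * b) z = ec a (z * u) * ec b (z * v) := by
  have hcop : IsCoprime (b : ℤ) (a : ℤ) := Nat.isCoprime_iff_coprime.2 hab.symm
  have h3 : ((a * b : ℕ) : ℤ) ∣ (u * b + v * a) - 1 := by
    push_cast
    refine hcop.symm.mul_dvd ?_ ?_
    · have : u * b + v * a - 1 = (u * b - 1) + v * a := by ring
      rw [this]
      exact dvd_add hu (dvd_mul_left _ _)
    · have : u * b + v * a - 1 = (v * a - 1) + u * b := by ring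
      rw [this]
      exact dvd_add hv (dvd_mul_left _ _)
  rw [← kcrt_ec_mul hb ha (z * u), ← kcrt_ec_mul ha hb (z * v), mul_comm b a,
    ← kcrt_ec_add]
  refine kcrt_ec_congr (mul_ne_zero ha hb) ?_
  have : (b : ℤ) * (z * u) + a * (z * v) - z = ((u * b + v * a) - 1) * z := by ring
  rw [this]
  exact Dvd.dvd.mul_right h3 _

theorem kcrt_sum {a b : ℕ} (ha : a ≠ 0) (hb : b ≠ 0) (hab : a.Coprime b) (F G : ℕ → ℂ)
    (hF : ∀ y, F (y % a) = F y) (hG : ∀ y, G (y % b) = G y) :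
    ∑ y ∈ (range (a * b)).filter (fun y ↦ y.Coprime (a * b)), F y * G y =
      (∑ y ∈ (range a).filter (fun y ↦ y.Coprime a), F y) *
        ∑ y ∈ (range b).filter (fun y ↦ y.Coprime b), G y := by
  rw [Finset.sum_mul_sum, ← Finset.sum_product']
  refine Finset.sum_nbij' (fun y => (y % a, y % b))
    (fun p => (Nat.chineseRemainder hab p.1 p.2 : ℕ)) ?_ ?_ ?_ ?_ ?_
  · intro y hy
    rw [Finset.mem_filter, Finset.mem_range] at hy
    rw [Finset.mem_product, Finset.mem_filter, Finset.mem_filter, Finset.mem_range,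
      Finset.mem_range]
    refine ⟨⟨Nat.mod_lt _ (Nat.pos_of_ne_zero ha), ?_⟩,
      ⟨Nat.mod_lt _ (Nat.pos_of_ne_zero hb), ?_⟩⟩
    · have := Nat.Coprime.coprime_mul_right_right hy.2
      show (y % a).gcd a = 1
      rw [(Nat.mod_modEq y a).gcd_eq]
      exact this
    · have := Nat.Coprime.coprime_mul_left_right hy.2
      show (y % b).gcd b = 1
      rw [(Nat.mod_modEq y b).gcd_eq]
      exact this
  · intro p hp
    rw [Finset.mem_product, Finset.mem_filter, Finset.mem_filter, Finset.mem_range,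
      Finset.mem_range] at hp
    rw [Finset.mem_filter, Finset.mem_range]
    refine ⟨Nat.chineseRemainder_lt_mul hab _ _ ha hb, ?_⟩
    have h1 := (Nat.chineseRemainder hab p.1 p.2).2.1
    have h2 := (Nat.chineseRemainder hab p.1 p.2).2.2
    refine Nat.Coprime.mul_right ?_ ?_
    · unfold Nat.Coprime
      rw [h1.gcd_eq]
      exact hp.1.2
    · unfold Nat.Coprime
      rw [h2.gcd_eq]
      exact hp.2.2
  · intro y hy
    rw [Finset.mem_filter, Finset.mem_range] at hy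
    have h1 := (Nat.chineseRemainder hab (y % a) (y % b)).2.1
    have h2 := (Nat.chineseRemainder hab (y % a) (y % b)).2.2
    have h3 : (Nat.chineseRemainder hab (y % a) (y % b) : ℕ) ≡ y [MOD a * b] :=
      (Nat.modEq_and_modEq_iff_modEq_mul hab).1
        ⟨h1.trans (Nat.mod_modEq y a), h2.trans (Nat.mod_modEq y b)⟩
    exact Nat.ModEq.eq_of_lt_of_lt h3 (Nat.chineseRemainder_lt_mul hab _ _ ha hb) hy.1
  · intro p hp
    rw [Finset.mem_product, Finset.mem_filter, Finset.mem_filter, Finset.mem_range,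
      Finset.mem_range] at hp
    have h1 := (Nat.chineseRemainder hab p.1 p.2).2.1
    have h2 := (Nat.chineseRemainder hab p.1 p.2).2.2
    refine Prod.ext ?_ ?_
    · exact Eq.trans h1 (Nat.mod_eq_of_lt hp.1.1)
    · exact Eq.trans h2 (Nat.mod_eq_of_lt hp.2.1)
  · intro y _
    simp only [hF, hG]

theorem kcrt_ivz_dvd {a c : ℕ} (ha : a ≠ 0) (hc : c ≠ 0) (hac : a ∣ c) {x y : ℤ}
    (hx : IsCoprime x (c : ℤ)) (hxy : (a : ℤ) ∣ y - x) :
    (a : ℤ) ∣ ivz a y - ivz c x := by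
  have hac' : (a : ℤ) ∣ (c : ℤ) := by exact_mod_cast hac
  have hxa : IsCoprime x (a : ℤ) := hx.of_isCoprime_of_dvd_right hac'
  have h1 : ivz a x = ivz a y := ivz_congr ((Int.modEq_iff_dvd).2 hxy)
  rw [← h1]
  exact kcrt_inv_unique (hac'.trans (kcrt_ivz hc hx)) (kcrt_ivz ha hxa)

theorem kcrt_kloo_two {a b : ℕ} (ha : a ≠ 0) (hb : b ≠ 0) (hab : a.Coprime b) {u v : ℤ}
    (hu : (a : ℤ) ∣ u * b - 1) (hv : (b : ℤ) ∣ v * a - 1) (w x : ℤ)
    (hx : IsCoprime x ((a * b : ℕ) : ℤ)) :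
    kloo (a * b) w x = kloo a (w * u) x * kloo b (w * v) x := by
  have hab0 : a * b ≠ 0 := mul_ne_zero ha hb
  unfold kloo
  have h1 : ∑ y ∈ (range (a * b)).filter (fun y ↦ y.Coprime (a * b)),
      ec (a * b) (w * ivz (a * b) x * (y + ivz (a * b) y)) =
      ∑ y ∈ (range (a * b)).filter (fun y ↦ y.Coprime (a * b)),
        (fun y : ℕ => ec a (w * u * ivz a x * (((y % a : ℕ) : ℤ) + ivz a ((y % a : ℕ) : ℤ)))) y *
        (fun y : ℕ => ec b (w * v * ivz b x * (((y % b : ℕ) : ℤ) + ivz b ((y % b : ℕ) : ℤ)))) y := by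
    refine Finset.sum_congr rfl fun y hy => ?_
    rw [Finset.mem_filter] at hy
    have hyc : IsCoprime (y : ℤ) ((a * b : ℕ) : ℤ) := Nat.isCoprime_iff_coprime.2 hy.2
    rw [kcrt_two ha hb hab hu hv]
    have hmod : ∀ c : ℕ, (c : ℤ) ∣ ((y % c : ℕ) : ℤ) - y := fun c =>
      (Int.natCast_modEq_iff.2 (Nat.mod_modEq y c)).symm.dvd
    congr 1
    · refine kcrt_ec_congr ha ?_
      have e1 := kcrt_ivz_dvd ha hab0 (dvd_mul_right a b) hx (y := x) (by simp)
      have e2 := kcrt_ivz_dvd ha hab0 (dvd_mul_right a b) hyc (hmod a)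
      have e3 := hmod a
      have : w * u * ivz a x * (((y % a : ℕ) : ℤ) + ivz a ((y % a : ℕ) : ℤ)) -
          w * ivz (a * b) x * (y + ivz (a * b) y) * u =
          (ivz a x - ivz (a * b) x) * (w * u * (((y % a : ℕ) : ℤ) + ivz a ((y % a : ℕ) : ℤ))) +
          (((((y % a : ℕ) : ℤ) - y) + (ivz a ((y % a : ℕ) : ℤ) - ivz (a * b) y)) *
            (w * u * ivz (a * b) x)) := by ring
      rw [this]
      exact dvd_add (Dvd.dvd.mul_right e1 _) (Dvd.dvd.mul_right (dvd_add e3 e2) _)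
    · refine kcrt_ec_congr hb ?_
      have e1 := kcrt_ivz_dvd hb hab0 (dvd_mul_left b a) hx (y := x) (by simp)
      have e2 := kcrt_ivz_dvd hb hab0 (dvd_mul_left b a) hyc (hmod b)
      have e3 := hmod b
      have : w * v * ivz b x * (((y % b : ℕ) : ℤ) + ivz b ((y % b : ℕ) : ℤ)) -
          w * ivz (a * b) x * (y + ivz (a * b) y) * v =
          (ivz b x - ivz (a * b) x) * (w * v * (((y % b : ℕ) : ℤ) + ivz b ((y % b : ℕ) : ℤ))) +
          (((((y % b : ℕ) : ℤ) - y) + (ivz b ((y % b : ℕ) : ℤ) - ivz (a * b) y)) *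
            (w * v * ivz (a * b) x)) := by ring
      rw [this]
      exact dvd_add (Dvd.dvd.mul_right e1 _) (Dvd.dvd.mul_right (dvd_add e3 e2) _)
  rw [h1, kcrt_sum ha hb hab _ _ (fun y => by simp only [Nat.mod_mod])
    (fun y => by simp only [Nat.mod_mod])]
  congr 1
  · refine Finset.sum_congr rfl fun y hy => ?_
    rw [Finset.mem_filter, Finset.mem_range] at hy
    simp only [Nat.mod_eq_of_lt hy.1]
  · refine Finset.sum_congr rfl fun y hy => ?_
    rw [Finset.mem_filter, Finset.mem_range] at hy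
    simp only [Nat.mod_eq_of_lt hy.1]

theorem kcrt_kloo_congr {c : ℕ} (hc : c ≠ 0) {w w' : ℤ} (h : (c : ℤ) ∣ w' - w) (x : ℤ) :
    kloo c w x = kloo c w' x := by
  unfold kloo
  refine Finset.sum_congr rfl fun y _ => kcrt_ec_congr hc ?_
  have : w' * ivz c x * (y + ivz c y) - w * ivz c x * (y + ivz c y) =
      (w' - w) * (ivz c x * (y + ivz c y)) := by ring
  rw [this]
  exact Dvd.dvd.mul_right h _

/-- the general form with arbitrary inverses. -/
theorem kcrt_gen (J : ℕ) : ∀ (r : Fin J → ℕ) (_ : ∀ j, 0 < r j)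
    (_ : ∀ i j, i ≠ j → (r i).Coprime (r j)) (v : Fin J → ℤ)
    (_ : ∀ j, (r j : ℤ) ∣ v j * ((∏ i, r i) / r j : ℕ) - 1) (w x : ℤ)
    (_ : IsCoprime x ((∏ j, r j : ℕ) : ℤ)),
    kloo (∏ j, r j) w x = ∏ j, kloo (r j) (w * v j) x ∧
      ∀ z, ec (∏ j, r j) z = ∏ j, ec (r j) (z * v j) := by
  induction J with
  | zero =>
    intro r _ _ v _ w x _
    simp only [Finset.univ_eq_empty, Finset.prod_empty]
    refine ⟨?_, fun z => ?_⟩
    · unfold kloo
      have : (range 1).filter (fun y ↦ y.Coprime 1) = {0} := by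
        ext y; simp
      rw [this, Finset.sum_singleton]
      have := kcrt_ec_self (c := 1) one_ne_zero (w * ivz 1 x * (((0 : ℕ) : ℤ) + ivz 1 ((0 : ℕ) : ℤ)))
      simpa using this
    · have := kcrt_ec_self (c := 1) one_ne_zero z
      simpa using this
  | succ J ih =>
    intro r hr hc v hv w x hx
    rw [Fin.prod_univ_succ] at hx ⊢
    set R : ℕ := ∏ i : Fin J, r i.succ with hR
    have hR0 : R ≠ 0 := Finset.prod_ne_zero_iff.2 fun i _ => (hr _).ne'
    have ha : r 0 ≠ 0 := (hr 0).ne'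
    have hcop : (r 0).Coprime R := Nat.Coprime.prod_right fun i _ => hc 0 i.succ (by simp [Fin.ext_iff])
    have hRcop : IsCoprime ((r 0 : ℕ) : ℤ) (R : ℤ) := Nat.isCoprime_iff_coprime.2 hcop
    have hi := kcrt_ivz hR0 hRcop
    have hv0 : ((r 0 : ℕ) : ℤ) ∣ v 0 * R - 1 := by
      have := hv 0
      rw [Fin.prod_univ_succ, Nat.mul_div_cancel_left _ (hr 0)] at this
      exact this
    have hxR : IsCoprime x (R : ℤ) := by
      push_cast at hx
      exact hx.of_mul_right_right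
    have hquot : ∀ j : Fin J, (∏ i, r i) / r j.succ = r 0 * (R / r j.succ) := by
      intro j
      rw [Fin.prod_univ_succ]
      exact Nat.mul_div_assoc _ (Finset.dvd_prod_of_mem (fun i : Fin J => r i.succ)
        (Finset.mem_univ j))
    have hrR : ∀ j : Fin J, ((r j.succ : ℕ) : ℤ) ∣ (R : ℤ) := fun j => by
      exact_mod_cast Finset.dvd_prod_of_mem (fun i : Fin J => r i.succ) (Finset.mem_univ j)
    -- inverses for the smaller product
    have hv' : ∀ j : Fin J, ((r j.succ : ℕ) : ℤ) ∣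
        (v j.succ * r 0) * ((∏ i : Fin J, r i.succ) / r j.succ : ℕ) - 1 := by
      intro j
      have h1 := hv j.succ
      rw [hquot j] at h1
      push_cast at h1 ⊢
      have : v j.succ * (r 0 : ℤ) * ((R : ℤ) / (r j.succ : ℤ)) - 1 =
        v j.succ * ((r 0 : ℤ) * ((R : ℤ) / (r j.succ : ℤ))) - 1 := by ring
      rw [hR] at this h1
      push_cast at this h1
      rw [this]
      exact h1
    obtain ⟨ih1, ih2⟩ := ih (fun j => r j.succ) (fun j => hr _)
      (fun i j hij => hc _ _ fun h => hij (Fin.succ_injective _ h)) (fun j => v j.succ * r 0) hv'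
      (w * ivz R (r 0)) x hxR
    have hcong : ∀ (j : Fin J) (z : ℤ), ((r j.succ : ℕ) : ℤ) ∣
        z * v j.succ - z * ivz R (r 0) * (v j.succ * r 0) := by
      intro j z
      have h1 := (hrR j).trans hi
      have : z * v j.succ - z * ivz R (r 0) * (v j.succ * r 0) =
        (ivz R (r 0) * r 0 - 1) * (-(z * v j.succ)) := by ring
      rw [this]
      exact Dvd.dvd.mul_right h1 _
    refine ⟨?_, fun z => ?_⟩
    · rw [kcrt_kloo_two ha hR0 hcop hv0 hi w x hx, ih1, Fin.prod_univ_succ]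
      congr 1
      refine Finset.prod_congr rfl fun j _ => ?_
      exact kcrt_kloo_congr (hr j.succ).ne' (hcong j w) x
    · rw [kcrt_two ha hR0 hcop hv0 hi z, ih2, Fin.prod_univ_succ]
      congr 1
      refine Finset.prod_congr rfl fun j _ => ?_
      exact kcrt_ec_congr (hr j.succ).ne' (hcong j z)

theorem kloo_crt (J : ℕ) (r : Fin J → ℕ) (hr : ∀ j, 0 < r j)
    (hc : ∀ i j, i ≠ j → (r i).Coprime (r j)) (w x : ℤ) (hx : IsCoprime x ((∏ j, r j : ℕ) : ℤ)) :
    kloo (∏ j, r j) w x * eI (∏ j, r j) (2 * w) x =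
      ((Real.sqrt ((∏ j, r j : ℕ) : ℝ) : ℝ) : ℂ) *
        ∏ j, kfun (r j) (w * ivz (r j) ((∏ j, r j) / r j : ℕ)) x := by
  have hR0 : (∏ j, r j) ≠ 0 := Finset.prod_ne_zero_iff.2 fun i _ => (hr _).ne'
  have hv : ∀ j, (r j : ℤ) ∣ ivz (r j) ((∏ i, r i) / r j : ℕ) * ((∏ i, r i) / r j : ℕ) - 1 := by
    intro j
    refine kcrt_ivz (hr j).ne' ?_
    have h1 : (∏ i, r i) / r j = ∏ i ∈ univ.erase j, r i := by
      rw [← Finset.mul_prod_erase univ r (Finset.mem_univ j),
        Nat.mul_div_cancel_left _ (hr j)]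
    rw [h1]
    exact Nat.isCoprime_iff_coprime.2 (Nat.Coprime.prod_left fun i hi =>
      hc i j (Finset.ne_of_mem_erase hi))
  obtain ⟨h1, h2⟩ := kcrt_gen J r hr hc (fun j => ivz (r j) ((∏ i, r i) / r j : ℕ)) hv w x hx
  have hxj : ∀ j, IsCoprime x (r j : ℤ) := fun j =>
    hx.of_isCoprime_of_dvd_right (by exact_mod_cast Finset.dvd_prod_of_mem r (Finset.mem_univ j))
  have h3 : eI (∏ j, r j) (2 * w) x =
      ∏ j, eI (r j) (2 * (w * ivz (r j) ((∏ i, r i) / r j : ℕ))) x := by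
    unfold eI
    rw [h2]
    refine Finset.prod_congr rfl fun j _ => kcrt_ec_congr (hr j).ne' ?_
    have e1 := kcrt_ivz_dvd (hr j).ne' hR0 (Finset.dvd_prod_of_mem r (Finset.mem_univ j)) hx
      (y := x) (by simp)
    have : 2 * (w * ivz (r j) ((∏ i, r i) / r j : ℕ)) * ivz (r j) x -
        2 * w * ivz (∏ j, r j) x * ivz (r j) ((∏ i, r i) / r j : ℕ) =
        (ivz (r j) x - ivz (∏ j, r j) x) *
          (2 * w * ivz (r j) ((∏ i, r i) / r j : ℕ)) := by ring
    rw [this]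
    exact Dvd.dvd.mul_right e1 _
  have h4 : ((Real.sqrt ((∏ j, r j : ℕ) : ℝ) : ℝ) : ℂ) =
      ∏ j, ((Real.sqrt (r j : ℝ) : ℝ) : ℂ) := by
    rw [Nat.cast_prod, Real.sqrt_prod _ (fun _ _ => Nat.cast_nonneg _), Complex.ofReal_prod]
  rw [h1, h3, h4, ← Finset.prod_mul_distrib, ← Finset.prod_mul_distrib]
  refine Finset.prod_congr rfl fun j _ => ?_
  unfold kfun
  rw [if_pos (hxj j)]
  have h5 : ((Real.sqrt (r j : ℝ) : ℝ) : ℂ) ≠ 0 := by
    have : 0 < Real.sqrt (r j : ℝ) := Real.sqrt_pos.2 (by exact_mod_cast hr j)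
    exact_mod_cast this.ne'
  field_simp

end Pool.Agent.Work.MP_af11aa_nt.W
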