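import Mathlib
import Pool.Agent.Work.MP_af11aa_nt.W.Arith
import Pool.Agent.Work.MP_af11aa_nt.K.Second

/-!
MODULE KTrunc (second moment and truncation).
-/

set_option autoImplicit false

namespace Pool.Agent.Work.MP_af11aa_nt.W

open Finset

theorem ktr_std (c : ℕ) [NeZero c] (z : ℤ) : ec c z = ZMod.stdAddChar ((z : ℤ) : ZMod c) :=
  (ZMod.stdAddChar_coe z).symm

theorem ktr_units {E : Type*} [AddCommMonoid E] (c : ℕ) [NeZero c] (f : ℕ → E) :
    ∑ x ∈ (range c).filter (fun x ↦ x.Coprime c), f x =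
      ∑ x : (ZMod c)ˣ, f (x : ZMod c).val := by
  symm
  refine Finset.sum_bij (fun (x : (ZMod c)ˣ) _ => (x : ZMod c).val) ?_ ?_ ?_ ?_
  · intro x _
    rw [Finset.mem_filter, Finset.mem_range]
    exact ⟨ZMod.val_lt _, ZMod.val_coe_unit_coprime x⟩
  · intro x _ y _ h
    exact Units.ext (ZMod.val_injective c h)
  · intro n hn
    rw [Finset.mem_filter, Finset.mem_range] at hn
    refine ⟨ZMod.unitOfCoprime n hn.2, Finset.mem_univ _, ?_⟩
    rw [ZMod.coe_unitOfCoprime, ZMod.val_cast_of_lt hn.1]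
  · intro x _
    rfl

theorem ktr_isUnit {c : ℕ} {m : ℤ} (hm : IsCoprime m (c : ℤ)) : IsUnit (m : ZMod c) := by
  obtain ⟨a, b, h⟩ := hm
  have h1 := congrArg (Int.cast : ℤ → ZMod c) h
  push_cast at h1
  rw [ZMod.natCast_self, mul_zero, add_zero, mul_comm] at h1
  exact IsUnit.of_mul_eq_one _ h1

theorem ktr_ivz {c : ℕ} [NeZero c] (x : ℤ) : ((ivz c x : ℤ) : ZMod c) = (x : ZMod c)⁻¹ := by
  unfold ivz
  rw [Int.cast_natCast, ZMod.natCast_zmod_val]

/-- the Kloosterman sum as a function on residue classes. -/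
noncomputable def ktrK (r : ℕ) [NeZero r] (u : ZMod r) : ℂ :=
  ∑ x : (ZMod r)ˣ, ZMod.stdAddChar (u * ((x : ZMod r) + ((x⁻¹ : (ZMod r)ˣ) : ZMod r)))

theorem ktr_kloo (r : ℕ) [NeZero r] (w x : ℤ) :
    kloo r w x = ktrK r ((w : ZMod r) * (x : ZMod r)⁻¹) := by
  unfold kloo ktrK
  rw [ktr_units r (fun y => ec r (w * ivz r x * (y + ivz r y)))]
  refine Finset.sum_congr rfl (fun y _ => ?_)
  rw [ktr_std]
  congr 1
  push_cast
  rw [ktr_ivz, ktr_ivz, Int.cast_natCast, ZMod.natCast_zmod_val]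
  congr 2
  exact ZMod.inv_coe_unit y

/-- the second moment over the units. -/
theorem ktr_moment (r : ℕ) [NeZero r] (hsq : Squarefree r) (w : ℤ) (hw : IsCoprime w (r : ℤ))
    (k : ℤ) (hk : IsCoprime k (r : ℤ)) :
    ∑ x ∈ (range r).filter (fun x ↦ x.Coprime r), ‖kloo r w ((x : ℤ) * k)‖ ^ 2 ≤
      (r : ℝ) ^ 2 * r.divisors.card := by
  obtain ⟨wu, hwu⟩ := ktr_isUnit hw
  obtain ⟨ku, hku⟩ := ktr_isUnit hk
  have h1 : ∑ x ∈ (range r).filter (fun x ↦ x.Coprime r), ‖kloo r w ((x : ℤ) * k)‖ ^ 2 =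
      ∑ x : (ZMod r)ˣ, ‖ktrK r (((wu * (x * ku)⁻¹ : (ZMod r)ˣ)) : ZMod r)‖ ^ 2 := by
    rw [ktr_units r (fun x => ‖kloo r w ((x : ℤ) * k)‖ ^ 2)]
    refine Finset.sum_congr rfl fun x _ => ?_
    rw [ktr_kloo]
    congr 3
    push_cast
    rw [ZMod.natCast_zmod_val, ← hwu, ← hku, ← Units.val_mul, ZMod.inv_coe_unit]
  have h2 : ∑ x : (ZMod r)ˣ, ‖ktrK r (((wu * (x * ku)⁻¹ : (ZMod r)ˣ)) : ZMod r)‖ ^ 2 =
      ∑ x : (ZMod r)ˣ, ‖ktrK r (x : ZMod r)‖ ^ 2 := by
    refine Fintype.sum_bijective (fun x : (ZMod r)ˣ => wu * (x * ku)⁻¹) ?_ _ _ (fun x => rfl)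
    constructor
    · intro x y h
      simpa using h
    · intro y
      refine ⟨y⁻¹ * wu * ku⁻¹, ?_⟩
      show wu * (y⁻¹ * wu * ku⁻¹ * ku)⁻¹ = y
      rw [mul_assoc (y⁻¹ * wu), inv_mul_cancel, mul_one, mul_inv_rev, inv_inv, mul_inv_cancel_left]
  have h3 : ∑ x : (ZMod r)ˣ, ‖ktrK r (x : ZMod r)‖ ^ 2 ≤ ∑ u : ZMod r, ‖ktrK r u‖ ^ 2 := by
    rw [← Finset.sum_image (s := univ) (g := fun x : (ZMod r)ˣ => (x : ZMod r))
      (f := fun u => ‖ktrK r u‖ ^ 2) (fun x _ y _ h => Units.ext h)]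
    exact Finset.sum_le_sum_of_subset_of_nonneg (Finset.subset_univ _)
      (fun _ _ _ => by positivity)
  have h4 := Pool.Agent.Work.MP_af11aa_nt.K.second_moment r hsq (fun _ => 1) (fun _ => by simp)
  simp only [one_mul] at h4
  rw [h1, h2]
  exact h3.trans h4

theorem kfun_moment (r : ℕ) (hr : 0 < r) (hsq : Squarefree r) (w : ℤ) (hw : IsCoprime w (r : ℤ)) :
    ∑ x ∈ range r, ‖kfun r w x‖ ^ 2 ≤ r * r.divisors.card := by
  have : NeZero r := ⟨hr.ne'⟩
  have hr0 : (0 : ℝ) < r := by exact_mod_cast hr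
  have h1 : ∑ x ∈ range r, ‖kfun r w x‖ ^ 2 =
      ∑ x ∈ (range r).filter (fun x ↦ x.Coprime r), (r : ℝ)⁻¹ * ‖kloo r w ((x : ℤ) * 1)‖ ^ 2 := by
    rw [Finset.sum_filter]
    refine Finset.sum_congr rfl fun x _ => ?_
    unfold kfun
    by_cases hx : x.Coprime r
    · rw [if_pos (Nat.isCoprime_iff_coprime.2 hx), if_pos hx, norm_mul, norm_mul, norm_eI, mul_one,
        norm_inv, Complex.norm_real, Real.norm_of_nonneg (Real.sqrt_nonneg _), mul_pow, inv_pow,
        Real.sq_sqrt hr0.le, mul_one]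
    · rw [if_neg (fun h => hx (Nat.isCoprime_iff_coprime.1 h)), if_neg hx]
      simp
  have h2 := ktr_moment r hsq w hw 1 isCoprime_one_left
  rw [h1, ← Finset.mul_sum]
  calc (r : ℝ)⁻¹ * ∑ x ∈ (range r).filter (fun x ↦ x.Coprime r), ‖kloo r w ((x : ℤ) * 1)‖ ^ 2
      ≤ (r : ℝ)⁻¹ * ((r : ℝ) ^ 2 * r.divisors.card) := by gcongr
    _ = r * r.divisors.card := by field_simp

theorem ktr_class (r X v : ℕ) (hr : 0 < r) :
    ((((Icc 1 X).filter (fun a ↦ a % r = v % r)).card : ℕ) : ℝ) ≤ (X : ℝ) / r + 1 := by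
  have h1 := Nat.Ioc_filter_modEq_card 0 X hr v
  have h2 : (Icc 1 X).filter (fun a ↦ a % r = v % r) =
      (Ioc 0 X).filter (fun a ↦ a ≡ v [MOD r]) := by
    ext a
    constructor
    · intro h
      rw [Finset.mem_filter, Finset.mem_Icc] at h
      rw [Finset.mem_filter, Finset.mem_Ioc]
      exact ⟨⟨by omega, h.1.2⟩, h.2⟩
    · intro h
      rw [Finset.mem_filter, Finset.mem_Ioc] at h
      rw [Finset.mem_filter, Finset.mem_Icc]
      exact ⟨⟨by omega, h.1.2⟩, h.2⟩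
  rw [h2]
  have hr0 : (0 : ℚ) < r := by exact_mod_cast hr
  have h3 : (((((Ioc 0 X).filter (fun a ↦ a ≡ v [MOD r])).card : ℕ) : ℤ) : ℚ) ≤
      (X : ℚ) / r + 1 := by
    rw [h1]
    push_cast
    refine max_le ?_ (by positivity)
    have e1 := Int.floor_le (((X : ℚ) - v) / r)
    have e2 := Int.lt_floor_add_one (((0 : ℚ) - v) / r)
    have e3 : ((X : ℚ) - v) / r = (X : ℚ) / r + (0 - v) / r := by ring
    rw [e3] at e1 ⊢
    linarith
  have h4 : ((((Ioc 0 X).filter (fun a ↦ a ≡ v [MOD r])).card : ℕ) : ℚ) ≤ (X : ℚ) / r + 1 := by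
    exact_mod_cast h3
  have h5 := (Rat.cast_le (K := ℝ)).2 h4
  push_cast at h5
  exact h5

theorem kloo_moment (r : ℕ) (hr : 0 < r) (hsq : Squarefree r) (w : ℤ) (hw : IsCoprime w (r : ℤ))
    (k : ℕ) (hk : k.Coprime r) (X : ℕ) :
    ∑ a ∈ (Icc 1 X).filter (fun a ↦ a.Coprime r), ‖kloo r w ((a * k : ℕ) : ℤ)‖ ^ 2 ≤
      ((X : ℝ) / r + 1) * ((r : ℝ) ^ 2 * r.divisors.card) := by
  have : NeZero r := ⟨hr.ne'⟩
  have hkc : IsCoprime (k : ℤ) (r : ℤ) := Nat.isCoprime_iff_coprime.2 hk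
  have h2 := ktr_moment r hsq w hw k hkc
  have h1 : ∑ a ∈ (Icc 1 X).filter (fun a ↦ a.Coprime r), ‖kloo r w ((a * k : ℕ) : ℤ)‖ ^ 2 =
      ∑ x ∈ (range r).filter (fun x ↦ x.Coprime r),
        ∑ a ∈ ((Icc 1 X).filter (fun a ↦ a.Coprime r)).filter (fun a => a % r = x),
          ‖kloo r w ((a * k : ℕ) : ℤ)‖ ^ 2 := by
    refine (Finset.sum_fiberwise_of_maps_to (fun a ha => ?_) _).symm
    rw [Finset.mem_filter] at ha
    rw [Finset.mem_filter, Finset.mem_range]
    refine ⟨Nat.mod_lt _ hr, ?_⟩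
    show (a % r).gcd r = 1
    rw [(Nat.mod_modEq a r).gcd_eq]
    exact ha.2
  rw [h1]
  calc ∑ x ∈ (range r).filter (fun x ↦ x.Coprime r),
        ∑ a ∈ ((Icc 1 X).filter (fun a ↦ a.Coprime r)).filter (fun a => a % r = x),
          ‖kloo r w ((a * k : ℕ) : ℤ)‖ ^ 2
      ≤ ∑ x ∈ (range r).filter (fun x ↦ x.Coprime r),
          ((X : ℝ) / r + 1) * ‖kloo r w ((x : ℤ) * k)‖ ^ 2 := by
        refine Finset.sum_le_sum fun x hx => ?_
        rw [Finset.mem_filter, Finset.mem_range] at hx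
        have h3 : ∀ a ∈ ((Icc 1 X).filter (fun a ↦ a.Coprime r)).filter (fun a => a % r = x),
            ‖kloo r w ((a * k : ℕ) : ℤ)‖ ^ 2 = ‖kloo r w ((x : ℤ) * k)‖ ^ 2 := by
          intro a ha
          rw [Finset.mem_filter] at ha
          have h4 : ((a * k : ℕ) : ℤ) ≡ (x : ℤ) * k [ZMOD r] := by
            push_cast
            refine Int.ModEq.mul_right _ ?_
            rw [← ha.2]
            exact (Int.natCast_modEq_iff.2 (Nat.mod_modEq a r)).symm
          rw [kloo_congr _ h4]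
        rw [Finset.sum_congr rfl h3, Finset.sum_const, nsmul_eq_mul]
        refine mul_le_mul_of_nonneg_right ?_ (by positivity)
        refine le_trans ?_ (ktr_class r X x hr)
        rw [Nat.mod_eq_of_lt hx.1]
        exact_mod_cast Finset.card_le_card (Finset.filter_subset_filter _
          (Finset.filter_subset _ _))
    _ = ((X : ℝ) / r + 1) * ∑ x ∈ (range r).filter (fun x ↦ x.Coprime r),
          ‖kloo r w ((x : ℤ) * k)‖ ^ 2 := by rw [Finset.mul_sum]
    _ ≤ _ := by gcongr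

theorem ktr_telescope {ι : Type*} [DecidableEq ι] (s : Finset ι) (F G : ι → ℂ)
    (h : ∀ i, ‖G i‖ ≤ ‖F i‖) :
    ‖∏ i ∈ s, F i - ∏ i ∈ s, G i‖ ≤
      ∑ j ∈ s, ‖F j - G j‖ * ∏ i ∈ s.erase j, ‖F i‖ := by
  induction s using Finset.induction_on with
  | empty => simp
  | insert a s ha ih =>
    rw [Finset.prod_insert ha, Finset.prod_insert ha, Finset.sum_insert ha,
      Finset.erase_insert ha]
    have e : F a * ∏ i ∈ s, F i - G a * ∏ i ∈ s, G i =
        (F a - G a) * ∏ i ∈ s, F i + G a * (∏ i ∈ s, F i - ∏ i ∈ s, G i) := by ring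
    rw [e]
    refine (norm_add_le _ _).trans (add_le_add ?_ ?_)
    · rw [norm_mul, norm_prod]
    · rw [norm_mul]
      calc ‖G a‖ * ‖∏ i ∈ s, F i - ∏ i ∈ s, G i‖
          ≤ ‖F a‖ * ∑ j ∈ s, ‖F j - G j‖ * ∏ i ∈ s.erase j, ‖F i‖ :=
            mul_le_mul (h a) ih (norm_nonneg _) (norm_nonneg _)
        _ = ∑ j ∈ s, ‖F j - G j‖ * ∏ i ∈ (insert a s).erase j, ‖F i‖ := by
            rw [Finset.mul_sum]
            refine Finset.sum_congr rfl fun j hj => ?_
            have hne : a ≠ j := fun h => ha (h ▸ hj)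
            rw [Finset.erase_insert_of_ne hne, Finset.prod_insert (fun h' =>
              ha (Finset.mem_of_mem_erase h'))]
            ring

theorem ktr_crt_two {a b : ℕ} (ha : a ≠ 0) (hb : b ≠ 0) (hab : a.Coprime b) (F G : ℕ → ℝ)
    (hF : ∀ y, F (y % a) = F y) (hG : ∀ y, G (y % b) = G y) :
    ∑ y ∈ range (a * b), F y * G y = (∑ y ∈ range a, F y) * ∑ y ∈ range b, G y := by
  rw [Finset.sum_mul_sum, ← Finset.sum_product']
  refine Finset.sum_nbij' (fun y => (y % a, y % b))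
    (fun p => (Nat.chineseRemainder hab p.1 p.2 : ℕ)) ?_ ?_ ?_ ?_ ?_
  · intro y _
    rw [Finset.mem_product, Finset.mem_range, Finset.mem_range]
    exact ⟨Nat.mod_lt _ (Nat.pos_of_ne_zero ha), Nat.mod_lt _ (Nat.pos_of_ne_zero hb)⟩
  · intro p _
    rw [Finset.mem_range]
    exact Nat.chineseRemainder_lt_mul hab _ _ ha hb
  · intro y hy
    rw [Finset.mem_range] at hy
    have h1 := (Nat.chineseRemainder hab (y % a) (y % b)).2.1
    have h2 := (Nat.chineseRemainder hab (y % a) (y % b)).2.2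
    have h3 : (Nat.chineseRemainder hab (y % a) (y % b) : ℕ) ≡ y [MOD a * b] :=
      (Nat.modEq_and_modEq_iff_modEq_mul hab).1
        ⟨h1.trans (Nat.mod_modEq y a), h2.trans (Nat.mod_modEq y b)⟩
    exact Nat.ModEq.eq_of_lt_of_lt h3 (Nat.chineseRemainder_lt_mul hab _ _ ha hb) hy
  · intro p hp
    rw [Finset.mem_product, Finset.mem_range, Finset.mem_range] at hp
    have h1 := (Nat.chineseRemainder hab p.1 p.2).2.1
    have h2 := (Nat.chineseRemainder hab p.1 p.2).2.2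
    refine Prod.ext ?_ ?_
    · exact Eq.trans h1 (Nat.mod_eq_of_lt hp.1)
    · exact Eq.trans h2 (Nat.mod_eq_of_lt hp.2)
  · intro y _
    simp only [hF, hG]

theorem ktr_mod_of_dvd {a b : ℕ} (hab : a ∣ b) {F : ℕ → ℝ} (hF : ∀ y, F (y % a) = F y) (y : ℕ) :
    F (y % b) = F y := by
  rw [← hF (y % b), Nat.mod_mod_of_dvd _ hab, hF]

theorem ktr_crt (J : ℕ) : ∀ (r : Fin J → ℕ) (_ : ∀ j, 0 < r j)
    (_ : ∀ i j, i ≠ j → (r i).Coprime (r j)) (F : Fin J → ℕ → ℝ)
    (_ : ∀ j y, F j (y % r j) = F j y),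
    ∑ x ∈ range (∏ j, r j), ∏ j, F j x = ∏ j, ∑ x ∈ range (r j), F j x := by
  induction J with
  | zero => intro r _ _ F _; simp
  | succ J ih =>
    intro r hr hc F hF
    rw [Fin.prod_univ_succ, Fin.prod_univ_succ]
    have hR0 : (∏ i : Fin J, r i.succ) ≠ 0 := Finset.prod_ne_zero_iff.2 fun i _ => (hr _).ne'
    have hcop : (r 0).Coprime (∏ i : Fin J, r i.succ) :=
      Nat.Coprime.prod_right fun i _ => hc 0 i.succ (by simp [Fin.ext_iff])
    have h1 : ∑ x ∈ range (r 0 * ∏ i : Fin J, r i.succ), ∏ j, F j x =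
        ∑ x ∈ range (r 0 * ∏ i : Fin J, r i.succ), F 0 x * ∏ j : Fin J, F j.succ x :=
      Finset.sum_congr rfl fun x _ => Fin.prod_univ_succ _
    rw [h1, ktr_crt_two (hr 0).ne' hR0 hcop (F 0) (fun x => ∏ j : Fin J, F j.succ x) (hF 0)
      (fun y => Finset.prod_congr rfl fun j _ =>
        ktr_mod_of_dvd (Finset.dvd_prod_of_mem (fun i : Fin J => r i.succ) (Finset.mem_univ j))
          (hF j.succ) y),
      ih (fun j => r j.succ) (fun j => hr _)
        (fun i j hij => hc _ _ fun h => hij (Fin.succ_injective _ h)) (fun j => F j.succ)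
        (fun j y => hF j.succ y)]

theorem ktr_divisors (J : ℕ) : ∀ (r : Fin J → ℕ)
    (_ : ∀ i j, i ≠ j → (r i).Coprime (r j)),
    (∏ j, r j).divisors.card = ∏ j, (r j).divisors.card := by
  induction J with
  | zero => intro r _; simp
  | succ J ih =>
    intro r hc
    rw [Fin.prod_univ_succ, Fin.prod_univ_succ]
    have hcop : (r 0).Coprime (∏ i : Fin J, r i.succ) :=
      Nat.Coprime.prod_right fun i _ => hc 0 i.succ (by simp [Fin.ext_iff])
    rw [hcop.card_divisors_mul, ih (fun j => r j.succ)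
      (fun i j hij => hc _ _ fun h => hij (Fin.succ_injective _ h))]

theorem ktr_first_moment (r : ℕ) (hr : 0 < r) (hsq : Squarefree r) (w : ℤ)
    (hw : IsCoprime w (r : ℤ)) : ∑ x ∈ range r, ‖kfun r w x‖ ≤ r * r.divisors.card := by
  have h1 := kfun_moment r hr hsq w hw
  have h2 : (∑ x ∈ range r, ‖kfun r w x‖) ^ 2 ≤ r * ∑ x ∈ range r, ‖kfun r w x‖ ^ 2 := by
    have := sq_sum_le_card_mul_sum_sq (s := range r) (f := fun x : ℕ => ‖kfun r w x‖)
    simpa using this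
  have hd : (1 : ℝ) ≤ r.divisors.card := by
    have : 0 < r.divisors.card := Finset.card_pos.2 ⟨1, by simp [hr.ne']⟩
    exact_mod_cast this
  have hr0 : (0 : ℝ) < r := by exact_mod_cast hr
  refine le_of_sq_le_sq ?_ (by positivity)
  calc (∑ x ∈ range r, ‖kfun r w x‖) ^ 2 ≤ r * (r * r.divisors.card) := by
        refine h2.trans ?_
        gcongr
    _ ≤ (r * r.divisors.card) ^ 2 := by nlinarith [mul_pos hr0 hr0]

theorem ktrunc_error (J : ℕ) (r : Fin J → ℕ) (hr : ∀ j, 0 < r j)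
    (hc : ∀ i j, i ≠ j → (r i).Coprime (r j)) (hsq : ∀ j, Squarefree (r j)) (w : Fin J → ℤ)
    (hw : ∀ j, IsCoprime (w j) (r j : ℤ)) (T : ℝ) (hT : 0 < T) :
    ∑ x ∈ range (∏ j, r j), ‖∏ j, kfun (r j) (w j) x - ∏ j, ktr T (r j) (w j) x‖ ≤
      J * ((∏ j, r j : ℕ) : ℝ) * ((∏ j, r j).divisors.card : ℝ) / T := by
  classical
  -- the functions
  set F : Fin J → ℕ → ℝ := fun j x => ‖kfun (r j) (w j) x‖ with hF
  set E : Fin J → ℕ → ℝ := fun j x => ‖kfun (r j) (w j) x - ktr T (r j) (w j) x‖ with hE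
  have hmod : ∀ (j : Fin J) (y : ℕ), ((y % r j : ℕ) : ℤ) ≡ y [ZMOD r j] := fun j y =>
    Int.natCast_modEq_iff.2 (Nat.mod_modEq y (r j))
  have hFp : ∀ j y, F j (y % r j) = F j y := fun j y => by
    simp only [hF, kfun_congr _ (hmod j y)]
  have hEp : ∀ j y, E j (y % r j) = E j y := fun j y => by
    simp only [hE, kfun_congr _ (hmod j y), ktr_congr _ _ (hmod j y)]
  have hEle : ∀ j x, E j x ≤ T⁻¹ * F j x ^ 2 := by
    intro j x
    simp only [hE, hF]
    unfold ktr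
    split_ifs with h
    · rw [sub_self, norm_zero]; positivity
    · rw [sub_zero]
      push Not at h
      rw [← div_eq_inv_mul, le_div_iff₀ hT, sq]
      exact mul_le_mul_of_nonneg_left h.le (norm_nonneg _)
  have h1 : ∀ x : ℕ, ‖∏ j, kfun (r j) (w j) x - ∏ j, ktr T (r j) (w j) x‖ ≤
      ∑ j, ∏ i, (if i = j then E i x else F i x) := by
    intro x
    refine (ktr_telescope univ (fun j => kfun (r j) (w j) x) (fun j => ktr T (r j) (w j) x)
      (fun j => norm_ktr_le_kfun T (r j) (w j) x)).trans (le_of_eq ?_)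
    refine Finset.sum_congr rfl fun j _ => ?_
    rw [← Finset.mul_prod_erase univ _ (Finset.mem_univ j), if_pos rfl]
    congr 1
    refine Finset.prod_congr rfl fun i hi => ?_
    rw [if_neg (Finset.ne_of_mem_erase hi)]
  have h2 : ∀ j : Fin J, ∑ x ∈ range (∏ j, r j), ∏ i, (if i = j then E i x else F i x) ≤
      ((∏ j, r j : ℕ) : ℝ) * ((∏ j, r j).divisors.card : ℝ) / T := by
    intro j
    rw [ktr_crt J r hr hc (fun i x => if i = j then E i x else F i x) (fun i y => by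
      by_cases h : i = j
      · simp only [if_pos h, hEp]
      · simp only [if_neg h, hFp])]
    rw [ktr_divisors J r hc]
    push_cast
    rw [← Finset.prod_mul_distrib]
    have e : (∏ i, (r i : ℝ) * ((r i).divisors.card : ℝ)) / T =
        ∏ i, (((r i : ℝ) * ((r i).divisors.card : ℝ)) * (if i = j then T⁻¹ else 1)) := by
      have e1 : ∏ i : Fin J, (if i = j then T⁻¹ else 1) = T⁻¹ := by
        rw [Finset.prod_ite_eq' univ j (fun _ => T⁻¹), if_pos (Finset.mem_univ j)]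
      rw [Finset.prod_mul_distrib (f := fun i => (r i : ℝ) * ((r i).divisors.card : ℝ))
        (g := fun i => if i = j then T⁻¹ else 1), e1, div_eq_mul_inv]
    rw [e]
    refine Finset.prod_le_prod (fun i _ => Finset.sum_nonneg fun x _ => ?_) fun i _ => ?_
    · split_ifs
      · exact norm_nonneg _
      · exact norm_nonneg _
    · by_cases h : i = j
      · simp only [if_pos h]
        calc ∑ x ∈ range (r i), E i x ≤ ∑ x ∈ range (r i), T⁻¹ * F i x ^ 2 :=
              Finset.sum_le_sum fun x _ => hEle i x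
          _ = T⁻¹ * ∑ x ∈ range (r i), F i x ^ 2 := by rw [Finset.mul_sum]
          _ ≤ T⁻¹ * ((r i : ℝ) * (r i).divisors.card) := by
              gcongr
              exact kfun_moment (r i) (hr i) (hsq i) (w i) (hw i)
          _ = _ := by ring
      · simp only [if_neg h, mul_one]
        exact ktr_first_moment (r i) (hr i) (hsq i) (w i) (hw i)
  calc ∑ x ∈ range (∏ j, r j), ‖∏ j, kfun (r j) (w j) x - ∏ j, ktr T (r j) (w j) x‖
      ≤ ∑ x ∈ range (∏ j, r j), ∑ j, ∏ i, (if i = j then E i x else F i x) :=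
        Finset.sum_le_sum fun x _ => h1 x
    _ = ∑ j, ∑ x ∈ range (∏ j, r j), ∏ i, (if i = j then E i x else F i x) :=
        Finset.sum_comm
    _ ≤ ∑ _j : Fin J, ((∏ j, r j : ℕ) : ℝ) * ((∏ j, r j).divisors.card : ℝ) / T :=
        Finset.sum_le_sum fun j _ => h2 j
    _ = _ := by
        rw [Finset.sum_const, Finset.card_univ, Fintype.card_fin, nsmul_eq_mul]
        ring

end Pool.Agent.Work.MP_af11aa_nt.W
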