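import Mathlib
import Pool.Agent.Work.MP_f2148a_nt.DivisorBound

/-!
MODULE GcdAvg (three small counting lemmas).

gcd_avg: gcd(h,n) ≤ ∑_{d | n, d | h} d, and #{0<|h|<H : d | h} ≤ 2 H / d.
gcd_avg_prod: product of J copies (Finset.prod_univ_sum).
card_zero: the number of h in the box with some h j = 0 is ≤ J (2H)^(J-1).
omega_bound: C^ω(n) ≤ C' n^ε.  (2^ω(n) ≤ d(n) ≤ C n^δ from
 Pool.Agent.Work.MP_f2148a_nt.exists_card_divisors_le : C^ω = (2^ω)^(log_2 C).)
-/

set_option autoImplicit false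

namespace Pool.Agent.Work.MP_af11aa_nt.W

open Finset

/-- Multiples of `d` in a symmetric interval. -/
private theorem ga_card_dvd (H d : ℕ) (hd : 0 < d) :
    (((Ioo (-(H : ℤ)) H).filter (· ≠ 0)).filter (fun h ↦ (d : ℤ) ∣ h)).card ≤ 2 * (H / d) := by
  have hsub : ((Ioo (-(H : ℤ)) H).filter (· ≠ 0)).filter (fun h ↦ (d : ℤ) ∣ h) ⊆
      ((Icc 1 (H / d)).image (fun t : ℕ ↦ (d : ℤ) * t)) ∪
        ((Icc 1 (H / d)).image (fun t : ℕ ↦ -((d : ℤ) * t))) := by
    intro h hh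
    rw [mem_filter, mem_filter, mem_Ioo] at hh
    obtain ⟨⟨⟨h1, h2⟩, h0⟩, k, hk⟩ := hh
    have hd' : (0 : ℤ) < d := by exact_mod_cast hd
    have hk0 : k ≠ 0 := by rintro rfl; exact h0 (by rw [hk, mul_zero])
    have hkn : 1 ≤ k.natAbs := Int.natAbs_pos.2 hk0
    have habs : d * k.natAbs < H := by
      have h3 : h.natAbs = d * k.natAbs := by rw [hk, Int.natAbs_mul]; simp
      omega
    have hle : k.natAbs ≤ H / d := by
      rw [Nat.le_div_iff_mul_le hd, mul_comm]; exact habs.le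
    rw [mem_union, mem_image, mem_image]
    rcases lt_or_gt_of_ne hk0 with hneg | hpos
    · right
      refine ⟨k.natAbs, mem_Icc.2 ⟨hkn, hle⟩, ?_⟩
      rw [hk]
      have : ((k.natAbs : ℕ) : ℤ) = -k := by omega
      rw [this]; ring
    · left
      refine ⟨k.natAbs, mem_Icc.2 ⟨hkn, hle⟩, ?_⟩
      rw [hk]
      have : ((k.natAbs : ℕ) : ℤ) = k := by omega
      rw [this]
  refine (card_le_card hsub).trans ((card_union_le _ _).trans ?_)
  have h1 := card_image_le (s := Icc 1 (H / d)) (f := fun t : ℕ ↦ (d : ℤ) * t)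
  have h2 := card_image_le (s := Icc 1 (H / d)) (f := fun t : ℕ ↦ -((d : ℤ) * t))
  rw [Nat.card_Icc] at h1 h2
  omega

theorem gcd_avg (H n : ℕ) (hn : 0 < n) :
    ∑ h ∈ (Ioo (-(H : ℤ)) H).filter (· ≠ 0), (Int.gcd h n : ℝ) ≤ 2 * H * n.divisors.card := by
  have hnat : ∑ h ∈ (Ioo (-(H : ℤ)) H).filter (· ≠ 0), Int.gcd h n ≤ 2 * H * n.divisors.card := by
    have hmaps : ∀ h ∈ (Ioo (-(H : ℤ)) H).filter (· ≠ 0), Int.gcd h n ∈ n.divisors := by
      intro h _
      rw [Nat.mem_divisors]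
      refine ⟨?_, hn.ne'⟩
      have := Int.gcd_dvd_right h (n : ℤ)
      exact_mod_cast this
    rw [← Finset.sum_fiberwise_of_maps_to hmaps]
    have hbound : ∀ d ∈ n.divisors, ∑ h ∈ ((Ioo (-(H : ℤ)) H).filter (· ≠ 0)).filter
        (fun h ↦ Int.gcd h n = d), Int.gcd h n ≤ 2 * H := by
      intro d hd
      have hdpos : 0 < d := Nat.pos_of_mem_divisors hd
      have h1 : ∑ h ∈ ((Ioo (-(H : ℤ)) H).filter (· ≠ 0)).filter
          (fun h ↦ Int.gcd h n = d), Int.gcd h n = (((Ioo (-(H : ℤ)) H).filter (· ≠ 0)).filter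
          (fun h ↦ Int.gcd h n = d)).card * d := by
        rw [Finset.sum_congr rfl (g := fun _ ↦ d) fun h hh ↦ (mem_filter.1 hh).2, sum_const,
          smul_eq_mul]
      rw [h1]
      have h2 : (((Ioo (-(H : ℤ)) H).filter (· ≠ 0)).filter (fun h ↦ Int.gcd h n = d)).card ≤
          2 * (H / d) := by
        refine (card_le_card ?_).trans (ga_card_dvd H d hdpos)
        intro h hh
        rw [mem_filter] at hh ⊢
        refine ⟨hh.1, ?_⟩
        rw [← hh.2]
        exact Int.gcd_dvd_left h (n : ℤ)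
      calc _ ≤ 2 * (H / d) * d := Nat.mul_le_mul_right d h2
        _ = 2 * (H / d * d) := by ring
        _ ≤ 2 * H := Nat.mul_le_mul_left 2 (Nat.div_mul_le_self H d)
    refine (Finset.sum_le_card_nsmul _ _ _ hbound).trans (le_of_eq ?_)
    rw [smul_eq_mul]; ring
  exact_mod_cast hnat

theorem gcd_avg_prod (J H n : ℕ) (hn : 0 < n) :
    ∑ h ∈ Fintype.piFinset (fun _ : Fin J ↦ (Ioo (-(H : ℤ)) H).filter (· ≠ 0)),
      ∏ j, (Int.gcd (h j) n : ℝ) ≤ (2 * H * n.divisors.card : ℝ) ^ J := by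
  have h1 := Finset.prod_univ_sum (fun _ : Fin J ↦ (Ioo (-(H : ℤ)) H).filter (· ≠ 0))
    (fun _ h ↦ (Int.gcd h n : ℝ))
  rw [← h1, prod_const, card_univ, Fintype.card_fin]
  exact pow_le_pow_left₀ (sum_nonneg fun _ _ ↦ by positivity) (gcd_avg H n hn) J

theorem card_zero (J H : ℕ) (hH : 0 < H) :
    (((Fintype.piFinset (fun _ : Fin J ↦ Ioo (-(H : ℤ)) H)).filter
      (fun h ↦ ∃ j, h j = 0)).card : ℝ) * H ≤ J * (2 * H : ℝ) ^ J := by
  classical
  set S : Finset ℤ := Ioo (-(H : ℤ)) H with hS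
  have hScard : S.card ≤ 2 * H := by
    rw [hS, Int.card_Ioo]; omega
  have hsub : (Fintype.piFinset (fun _ : Fin J ↦ S)).filter (fun h ↦ ∃ j, h j = 0) ⊆
      (univ : Finset (Fin J)).biUnion (fun j ↦ Fintype.piFinset
        (fun i : Fin J ↦ if i = j then ({0} : Finset ℤ) else S)) := by
    intro h hh
    rw [mem_filter, Fintype.mem_piFinset] at hh
    obtain ⟨hmem, j, hj⟩ := hh
    rw [mem_biUnion]
    refine ⟨j, mem_univ j, ?_⟩
    rw [Fintype.mem_piFinset]
    intro i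
    by_cases hij : i = j
    · rw [if_pos hij, hij, hj]; exact mem_singleton_self 0
    · rw [if_neg hij]; exact hmem i
  have hone : ∀ j : Fin J, (Fintype.piFinset
      (fun i : Fin J ↦ if i = j then ({0} : Finset ℤ) else S)).card * H ≤ (2 * H) ^ J := by
    intro j
    rw [Fintype.card_piFinset, ← Finset.mul_prod_erase univ _ (mem_univ j), if_pos rfl,
      card_singleton, one_mul]
    have h1 : ∏ i ∈ univ.erase j, (if i = j then ({0} : Finset ℤ) else S).card ≤
        (2 * H) ^ (J - 1) := by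
      refine (Finset.prod_le_pow_card _ _ (2 * H) ?_).trans (le_of_eq ?_)
      · intro i hi
        rw [if_neg (ne_of_mem_erase hi)]; exact hScard
      · rw [card_erase_of_mem (mem_univ j), card_univ, Fintype.card_fin]
    have hJ : 1 ≤ J := by have := j.2; omega
    calc (∏ i ∈ univ.erase j, (if i = j then ({0} : Finset ℤ) else S).card) * H
        ≤ (2 * H) ^ (J - 1) * (2 * H) := Nat.mul_le_mul h1 (by omega)
      _ = (2 * H) ^ J := by rw [← pow_succ]; congr 1; omega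
  have hnat : ((Fintype.piFinset (fun _ : Fin J ↦ S)).filter (fun h ↦ ∃ j, h j = 0)).card * H ≤
      J * (2 * H) ^ J := by
    calc _ ≤ (∑ j : Fin J, (Fintype.piFinset
            (fun i : Fin J ↦ if i = j then ({0} : Finset ℤ) else S)).card) * H :=
          Nat.mul_le_mul_right H ((card_le_card hsub).trans card_biUnion_le)
      _ = ∑ j : Fin J, (Fintype.piFinset
            (fun i : Fin J ↦ if i = j then ({0} : Finset ℤ) else S)).card * H := by
          rw [sum_mul]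
      _ ≤ ∑ _j : Fin J, (2 * H) ^ J := sum_le_sum fun j _ ↦ hone j
      _ = J * (2 * H) ^ J := by simp
  exact_mod_cast hnat

theorem omega_bound (C ε : ℝ) (hC : 1 ≤ C) (hε : 0 < ε) : ∃ C' : ℝ, 0 < C' ∧ ∀ n : ℕ, 0 < n →
    C ^ n.primeFactors.card * (n.divisors.card : ℝ) ≤ C' * (n : ℝ) ^ ε := by
  obtain ⟨k, hk⟩ : ∃ k : ℕ, C ≤ 2 ^ k := by
    obtain ⟨k, hk⟩ := pow_unbounded_of_one_lt C (by norm_num : (1 : ℝ) < 2)
    exact ⟨k, hk.le⟩
  have hk1 : (0 : ℝ) < (k : ℝ) + 1 := by positivity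
  obtain ⟨A, hA1, hA⟩ := Pool.Agent.Work.MP_f2148a_nt.exists_card_divisors_le (ε / (k + 1))
    (by positivity)
  refine ⟨A ^ (k + 1), by positivity, fun n hn ↦ ?_⟩
  have hω : (2 : ℝ) ^ n.primeFactors.card ≤ (n.divisors.card : ℝ) := by
    have h1 : 2 ^ n.primeFactors.card ≤ n.divisors.card := by
      rw [Nat.card_divisors hn.ne']
      refine Finset.pow_card_le_prod _ _ 2 ?_
      intro p hp
      have := (Nat.prime_of_mem_primeFactors hp).factorization_pos_of_dvd hn.ne'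
        (Nat.dvd_of_mem_primeFactors hp)
      omega
    exact_mod_cast h1
  have hd := hA n hn
  have hd0 : (0 : ℝ) ≤ (n.divisors.card : ℝ) := by positivity
  calc C ^ n.primeFactors.card * (n.divisors.card : ℝ)
      ≤ (2 ^ k) ^ n.primeFactors.card * (n.divisors.card : ℝ) := by gcongr
    _ = (2 ^ n.primeFactors.card) ^ k * (n.divisors.card : ℝ) := by
        rw [← pow_mul, ← pow_mul, mul_comm k]
    _ ≤ (n.divisors.card : ℝ) ^ k * (n.divisors.card : ℝ) := by gcongr
    _ = (n.divisors.card : ℝ) ^ (k + 1) := by rw [pow_succ]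
    _ ≤ (A * (n : ℝ) ^ (ε / (k + 1))) ^ (k + 1) := by gcongr
    _ = A ^ (k + 1) * (n : ℝ) ^ ε := by
        rw [mul_pow, ← Real.rpow_natCast ((n : ℝ) ^ (ε / (k + 1))), ← Real.rpow_mul (by positivity)]
        congr 2
        push_cast
        field_simp

end Pool.Agent.Work.MP_af11aa_nt.W
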