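import Mathlib
import Pool.Agent.Work.MP_af11aa_nt.W.Diff

/-!
Chinese remainder theorem for the sums in JacDiff and MomC.
-/

set_option autoImplicit false

namespace Pool.Agent.Work.MP_af11aa_nt.W

open Finset

/-- first projection -/
noncomputable def pr1 (a b : ℕ) : ZMod (a * b) →+* ZMod a := ZMod.castHom (dvd_mul_right a b) (ZMod a)

/-- second projection -/
noncomputable def pr2 (a b : ℕ) : ZMod (a * b) →+* ZMod b := ZMod.castHom (dvd_mul_left b a) (ZMod b)

lemma pr_chin {a b : ℕ} (h : a.Coprime b) (x : ZMod (a * b)) :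
    ZMod.chineseRemainder h x = (pr1 a b x, pr2 a b x) := by
  have h1 : ((RingHom.fst (ZMod a) (ZMod b)).comp (ZMod.chineseRemainder h).toRingHom) =
      pr1 a b := Subsingleton.elim _ _
  have h2 : ((RingHom.snd (ZMod a) (ZMod b)).comp (ZMod.chineseRemainder h).toRingHom) =
      pr2 a b := Subsingleton.elim _ _
  refine Prod.ext ?_ ?_
  · rw [← h1]; rfl
  · rw [← h2]; rfl

lemma crt_sum_mul {a b : ℕ} [NeZero a] [NeZero b] (h : a.Coprime b) {R : Type*} [CommSemiring R]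
    (F : ZMod a → R) (G : ZMod b → R) :
    ∑ x : ZMod (a * b), F (pr1 a b x) * G (pr2 a b x) = (∑ y, F y) * ∑ z, G z := by
  rw [Finset.sum_mul_sum, ← Fintype.sum_prod_type' (fun y z ↦ F y * G z)]
  refine Fintype.sum_equiv (ZMod.chineseRemainder h).toEquiv _ _ ?_
  intro x
  have h1 : (ZMod.chineseRemainder h).toEquiv x = (pr1 a b x, pr2 a b x) := pr_chin h x
  rw [h1]

lemma pr1_val {a b : ℕ} [NeZero a] [NeZero b] (x : ZMod (a * b)) : (pr1 a b x).val = x.val % a := by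
  have : pr1 a b x = ((x.val : ℕ) : ZMod a) := by
    conv_lhs => rw [← ZMod.natCast_zmod_val x]
    rw [map_natCast]
  rw [this, ZMod.val_natCast]

lemma pr2_val {a b : ℕ} [NeZero a] [NeZero b] (x : ZMod (a * b)) : (pr2 a b x).val = x.val % b := by
  have : pr2 a b x = ((x.val : ℕ) : ZMod b) := by
    conv_lhs => rw [← ZMod.natCast_zmod_val x]
    rw [map_natCast]
  rw [this, ZMod.val_natCast]

lemma crt_isUnit {a b : ℕ} (h : a.Coprime b) (x : ZMod (a * b)) :
    IsUnit x ↔ IsUnit (pr1 a b x) ∧ IsUnit (pr2 a b x) := by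
  rw [← Prod.isUnit_iff (x := (pr1 a b x, pr2 a b x)), ← pr_chin h]
  exact (MulEquiv.isUnit_map (ZMod.chineseRemainder h)).symm

lemma crt_Dl {G : Type*} [Add G] {a b : ℕ} [NeZero a] [NeZero b] {f : G → ℂ} {g : ZMod a → ℂ} {k : ZMod b → ℂ}
    {p : G → ZMod a} {q : G → ZMod b} (hp : ∀ x y, p (x + y) = p x + p y)
    (hq : ∀ x y, q (x + y) = q x + q y) (hf : ∀ x, f x = g (p x) * k (q x)) (t : List G) (x : G) :
    Dl t f x = Dl (t.map p) g (p x) * Dl (t.map q) k (q x) := by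
  have h1 : f = fun x ↦ (g ∘ p) x * (k ∘ q) x := by
    funext x
    exact hf x
  rw [h1, Dl_mul, Dl_comp t p p (fun x h ↦ hp x h), Dl_comp t q q (fun x h ↦ hq x h)]
  rfl

lemma ofFn_pr1 {J : ℕ} (a b : ℕ) (h : Fin J → ℤ) :
    (List.ofFn fun j ↦ ((h j : ℤ) : ZMod (a * b))).map (pr1 a b) =
      List.ofFn fun j ↦ ((h j : ℤ) : ZMod a) := by
  rw [List.map_ofFn]
  congr 1
  funext j
  simp

lemma ofFn_pr2 {J : ℕ} (a b : ℕ) (h : Fin J → ℤ) :
    (List.ofFn fun j ↦ ((h j : ℤ) : ZMod (a * b))).map (pr2 a b) =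
      List.ofFn fun j ↦ ((h j : ℤ) : ZMod b) := by
  rw [List.map_ofFn]
  congr 1
  funext j
  simp

lemma card_primeFactors_mul' {a b : ℕ} (h : a.Coprime b) :
    (a * b).primeFactors.card = a.primeFactors.card + b.primeFactors.card := by
  rw [h.primeFactors_mul, Finset.card_union_of_disjoint h.disjoint_primeFactors]

end Pool.Agent.Work.MP_af11aa_nt.W
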