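import Mathlib

/-!
MODULE StA (Stepanov, nonvanishing of the auxiliary polynomial).

f = ∏_{ρ∈S} (X + ρ), m = |S| ≥ 1, squarefree, f(0) ≠ 0 because 0 ∉ S; g = f^((l-1)/2).
Claim: ∑_j (r_j + s_j g) X^{jl} = 0 with deg r_j, deg s_j < D0, 2 D0 + m ≤ l, implies all r_j = s_j = 0.
Proof: otherwise let j0 be minimal with (r_{j0}, s_{j0}) ≠ (0,0), divide by X^{j0 l}:
r + s g ≡ 0 mod X^l  (r = r_{j0}, s = s_{j0}).  Multiply by (r - s g) f:
r² f - s² g² f = r² f - s² f^l ≡ 0 mod X^l  (g² f = f^l), and f^l = expand l f (char l, coefficients in F_l: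
ZMod.expand_card) ≡ f(0) mod X^l.  So X^l | r² f - s² f(0); degree ≤ 2(D0-1)+m < l, so r² f = f(0) s².
If s = 0 then r = 0 (f ≠ 0).  Otherwise r, s ≠ 0 and the root -ρ (ρ ∈ S) has odd multiplicity
2 mult(r) + 1 on the left, even multiplicity on the right: contradiction.
-/

set_option autoImplicit false

namespace Pool.Agent.Work.MP_af11aa_nt.W

open Finset Polynomial

variable {l : ℕ} [Fact l.Prime]

/-- the polynomial with the simple roots `-ρ`, `ρ ∈ S`. -/
noncomputable def fS (S : Finset (ZMod l)) : (ZMod l)[X] := ∏ ρ ∈ S, (X + C ρ)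

lemma fS_monic (S : Finset (ZMod l)) : (fS S).Monic :=
  monic_prod_of_monic _ _ fun _ _ ↦ monic_X_add_C _

lemma fS_ne_zero (S : Finset (ZMod l)) : fS S ≠ 0 := (fS_monic S).ne_zero

lemma fS_natDegree (S : Finset (ZMod l)) : (fS S).natDegree = S.card := by
  unfold fS
  rw [natDegree_prod_of_monic _ _ fun _ _ ↦ monic_X_add_C _]
  simp

lemma fS_degree (S : Finset (ZMod l)) : (fS S).degree = (S.card : WithBot ℕ) := by
  rw [degree_eq_natDegree (fS_ne_zero S), fS_natDegree]

lemma fS_eval (S : Finset (ZMod l)) (x : ZMod l) : (fS S).eval x = ∏ ρ ∈ S, (x + ρ) := by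
  unfold fS
  rw [eval_prod]
  simp

lemma fS_mult (S : Finset (ZMod l)) {ρ : ZMod l} (hρ : ρ ∈ S) :
    (fS S).rootMultiplicity (-ρ) = 1 := by
  have h1 : fS S = (X - C (-ρ)) * fS (S.erase ρ) := by
    unfold fS
    rw [← mul_prod_erase S _ hρ]
    simp
  have h2 : ¬ (fS (S.erase ρ)).IsRoot (-ρ) := by
    rw [IsRoot.def, fS_eval, prod_eq_zero_iff]
    rintro ⟨σ, hσ, h3⟩
    rw [mem_erase] at hσ
    exact hσ.1 (by linear_combination h3)
  rw [h1, rootMultiplicity_mul (by rw [← h1]; exact fS_ne_zero S), rootMultiplicity_X_sub_C_self,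
    rootMultiplicity_eq_zero h2]

/-- the key step. -/
lemma st_key (hl : l ≠ 2) (S : Finset (ZMod l)) (hS : S.Nonempty) (h0 : (0 : ZMod l) ∉ S)
    (D0 : ℕ) (hD : 2 * D0 + S.card ≤ l) (r s : (ZMod l)[X])
    (hr : r.degree < D0) (hs : s.degree < D0)
    (h : X ^ l ∣ r + s * fS S ^ ((l - 1) / 2)) : r = 0 ∧ s = 0 := by
  have hp : l.Prime := Fact.out
  have hodd : 2 * ((l - 1) / 2) + 1 = l := by
    have h1 := hp.eq_two_or_odd
    have h2 := hp.two_le
    omega
  by_contra hne
  have hD0 : 1 ≤ D0 := by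
    by_contra h1
    have h2 : D0 = 0 := by omega
    rw [h2, Nat.cast_zero, Nat.WithBot.lt_zero_iff, degree_eq_bot] at hr hs
    exact hne ⟨hr, hs⟩
  have hrn : r.natDegree ≤ D0 - 1 := by
    by_cases h1 : r = 0
    · rw [h1]; simp
    · have := (natDegree_lt_iff_degree_lt h1).2 hr
      omega
  have hsn : s.natDegree ≤ D0 - 1 := by
    by_cases h1 : s = 0
    · rw [h1]; simp
    · have := (natDegree_lt_iff_degree_lt h1).2 hs
      omega
  set c : ZMod l := (fS S).coeff 0 with hc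
  have hc0 : c ≠ 0 := by
    rw [hc, coeff_zero_eq_eval_zero, fS_eval, prod_ne_zero_iff]
    intro ρ hρ
    rw [zero_add]
    rintro rfl
    exact h0 hρ
  have hfl : X ^ l ∣ fS S ^ l - C c := by
    have h1 : fS S ^ l = expand (ZMod l) l (divX (fS S)) * X ^ l + C c := by
      rw [← ZMod.expand_card]
      conv_lhs => rw [← divX_mul_X_add (fS S)]
      rw [map_add, map_mul, expand_X, expand_C]
    rw [h1, add_sub_cancel_right]
    exact dvd_mul_left _ _
  have h1 : X ^ l ∣ r ^ 2 * fS S - s ^ 2 * C c := by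
    have h2 : r ^ 2 * fS S - s ^ 2 * C c =
        (r + s * fS S ^ ((l - 1) / 2)) * ((r - s * fS S ^ ((l - 1) / 2)) * fS S) +
          (fS S ^ l - C c) * s ^ 2 := by
      have h3 : fS S ^ l = fS S ^ ((l - 1) / 2) * fS S ^ ((l - 1) / 2) * fS S := by
        rw [← pow_add, ← pow_succ]
        congr 1
        omega
      rw [h3]
      ring
    rw [h2]
    exact dvd_add (Dvd.dvd.mul_right h _) (Dvd.dvd.mul_right hfl _)
  have h2 : (r ^ 2 * fS S - s ^ 2 * C c).natDegree < (X ^ l : (ZMod l)[X]).natDegree := by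
    rw [natDegree_X_pow]
    refine lt_of_le_of_lt (natDegree_sub_le _ _) (max_lt ?_ ?_)
    · refine lt_of_le_of_lt natDegree_mul_le ?_
      rw [fS_natDegree]
      have := natDegree_pow_le (p := r) (n := 2)
      have hcard := hS.card_pos
      have h3 : 2 * r.natDegree ≤ 2 * (D0 - 1) := by omega
      omega
    · refine lt_of_le_of_lt natDegree_mul_le ?_
      rw [natDegree_C]
      have := natDegree_pow_le (p := s) (n := 2)
      have h3 : 2 * s.natDegree ≤ 2 * (D0 - 1) := by omega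
      omega
  have h3 := eq_zero_of_dvd_of_natDegree_lt h1 h2
  have h4 : r ^ 2 * fS S = s ^ 2 * C c := sub_eq_zero.1 h3
  have hCc : (C c : (ZMod l)[X]) ≠ 0 := by rwa [Ne, C_eq_zero]
  have hs0 : s ≠ 0 := by
    rintro rfl
    apply hne
    refine ⟨?_, rfl⟩
    rw [zero_pow two_ne_zero, zero_mul, mul_eq_zero] at h4
    rcases h4 with h4 | h4
    · exact pow_eq_zero_iff two_ne_zero |>.1 h4
    · exact (fS_ne_zero S h4).elim
  have hr0 : r ≠ 0 := by
    rintro rfl
    rw [zero_pow two_ne_zero, zero_mul, eq_comm, mul_eq_zero] at h4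
    rcases h4 with h4 | h4
    · exact hs0 (pow_eq_zero_iff two_ne_zero |>.1 h4)
    · exact hCc h4
  obtain ⟨ρ, hρ⟩ := hS
  have h5 := congrArg (rootMultiplicity (-ρ)) h4
  rw [rootMultiplicity_mul (mul_ne_zero (pow_ne_zero _ hr0) (fS_ne_zero S)),
    rootMultiplicity_mul (mul_ne_zero (pow_ne_zero _ hs0) hCc), rootMultiplicity_C, fS_mult S hρ,
    pow_two, pow_two, rootMultiplicity_mul (mul_ne_zero hr0 hr0),
    rootMultiplicity_mul (mul_ne_zero hs0 hs0)] at h5
  omega

theorem st_nonzero (hl : l ≠ 2) (S : Finset (ZMod l)) (hS : S.Nonempty) (h0 : (0 : ZMod l) ∉ S)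
    (J D0 : ℕ) (hD : 2 * D0 + S.card ≤ l) (r s : Fin J → (ZMod l)[X])
    (hr : ∀ j, (r j).degree < D0) (hs : ∀ j, (s j).degree < D0)
    (h : ∑ j : Fin J, (r j + s j * fS S ^ ((l - 1) / 2)) * X ^ ((j : ℕ) * l) = 0) :
    ∀ j, r j = 0 ∧ s j = 0 := by
  have main : ∀ n : ℕ, ∀ j : Fin J, (j : ℕ) = n → r j = 0 ∧ s j = 0 := by
    intro n
    induction n using Nat.strong_induction_on with
    | _ n ih =>
      intro j hj
      refine st_key hl S hS h0 D0 hD (r j) (s j) (hr j) (hs j) ?_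
      rw [← add_sum_erase _ _ (mem_univ j)] at h
      have h1 : X ^ ((j : ℕ) * l) * X ^ l ∣ ∑ i ∈ univ.erase j,
          (r i + s i * fS S ^ ((l - 1) / 2)) * X ^ ((i : ℕ) * l) := by
        refine dvd_sum fun i hi ↦ ?_
        rcases lt_or_ge (i : ℕ) (j : ℕ) with h2 | h2
        · obtain ⟨h3, h4⟩ := ih i (by omega) i rfl
          rw [h3, h4]
          simp
        · have h3 : (j : ℕ) < i := by
            rw [mem_erase] at hi
            have : (i : ℕ) ≠ j := fun h4 ↦ hi.1 (Fin.ext h4)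
            omega
          refine Dvd.dvd.mul_left ?_ _
          rw [← pow_add]
          refine pow_dvd_pow _ ?_
          have : (j : ℕ) * l + l = (j + 1 : ℕ) * l := by ring
          rw [this]
          exact Nat.mul_le_mul_right _ (by omega)
      have h2 : X ^ ((j : ℕ) * l) * X ^ l ∣
          X ^ ((j : ℕ) * l) * (r j + s j * fS S ^ ((l - 1) / 2)) := by
        have h3 : X ^ ((j : ℕ) * l) * (r j + s j * fS S ^ ((l - 1) / 2)) =
            - ∑ i ∈ univ.erase j, (r i + s i * fS S ^ ((l - 1) / 2)) * X ^ ((i : ℕ) * l) := by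
          linear_combination h
        rw [h3]
        exact (dvd_neg).2 h1
      exact (mul_dvd_mul_iff_left (pow_ne_zero _ X_ne_zero)).1 h2
  exact fun j ↦ main _ j rfl

end Pool.Agent.Work.MP_af11aa_nt.W
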