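import Mathlib
import Pool.Agent.Work.MP_af11aa_nt.W.StA

/-!
MODULE StB (Stepanov, derivatives).

For fixed K, e define A_0 = id, A_{k+1}(r) = (K - k + e) • f' A_k(r) + f (A_k(r))', f = fS S.
Then D^k (f^K (r f^e) X^{jl}) = f^{K-k} (A_k(r) f^e) X^{jl} for k ≤ K, by induction:
D(f^{K-k} (u f^e) X^{jl}) = X^{jl} D(f^{K-k+e} u)  (the derivative of X^{jl} is 0 in characteristic l)
 = X^{jl} f^{K-k+e-1} ((K-k+e) f' u + f u'), and K-k+e-1 = (K-(k+1)) + e for k < K.
Degrees: deg f' < m, deg f = m, so deg A_{k+1}(r) < d + (k+1) m if deg A_k(r) < d + k m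
(also when d = 0: then everything is 0; degree takes values in WithBot ℕ).
-/

set_option autoImplicit false

namespace Pool.Agent.Work.MP_af11aa_nt.W

open Finset Polynomial

variable {l : ℕ} [Fact l.Prime]

lemma degree_mul_lt_aux {n m : ℕ} {p q : (ZMod l)[X]} (hp : p.degree < (n : WithBot ℕ))
    (hq : q.degree ≤ (m : WithBot ℕ)) : (q * p).degree < ((n + m : ℕ) : WithBot ℕ) := by
  by_cases h0 : p = 0
  · rw [h0, mul_zero, degree_zero]
    exact WithBot.bot_lt_coe _
  · have h1 := (natDegree_lt_iff_degree_lt h0).2 hp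
    have h2 := natDegree_le_iff_degree_le.2 hq
    refine lt_of_le_of_lt (natDegree_le_iff_degree_le.1 (natDegree_mul_le_of_le h2 le_rfl)) ?_
    exact_mod_cast (by omega : m + p.natDegree < n + m)

/-- the maps `A_k`. -/
noncomputable def stA (S : Finset (ZMod l)) (K e : ℕ) : ℕ → (ZMod l)[X] →ₗ[ZMod l] (ZMod l)[X]
  | 0 => LinearMap.id
  | k + 1 => ((K - k + e : ℕ) : ZMod l) • (LinearMap.mulLeft (ZMod l) (derivative (fS S))).comp
      (stA S K e k) + (LinearMap.mulLeft (ZMod l) (fS S)).comp (derivative.comp (stA S K e k))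

lemma stA_succ (S : Finset (ZMod l)) (K e k : ℕ) (r : (ZMod l)[X]) :
    stA S K e (k + 1) r = ((K - k + e : ℕ) : ZMod l) • (derivative (fS S) * stA S K e k r) +
      fS S * derivative (stA S K e k r) := rfl

theorem st_deriv (S : Finset (ZMod l)) (K e : ℕ) :
    ∃ A : ℕ → (ZMod l)[X] →ₗ[ZMod l] (ZMod l)[X],
      (∀ k ≤ K, ∀ (r : (ZMod l)[X]) (j : ℕ),
        derivative^[k] (fS S ^ K * (r * fS S ^ e) * X ^ (j * l)) =
          fS S ^ (K - k) * (A k r * fS S ^ e) * X ^ (j * l)) ∧
      (∀ (k : ℕ) (r : (ZMod l)[X]) (d : ℕ), r.degree < (d : ℕ) →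
        (A k r).degree < ((d + k * S.card : ℕ) : WithBot ℕ)) := by
  refine ⟨stA S K e, ?_, ?_⟩
  · intro k
    induction k with
    | zero =>
      intro _ r j
      simp [stA]
    | succ k ih =>
      intro hk r j
      rw [Function.iterate_succ_apply', ih (by omega) r j, stA_succ]
      obtain ⟨n, hn⟩ : ∃ n, K - k = n + 1 := ⟨K - k - 1, by omega⟩
      have hn' : K - (k + 1) = n := by omega
      rw [hn, hn']
      have hX : derivative (X ^ (j * l) : (ZMod l)[X]) = 0 := by
        rw [derivative_X_pow]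
        have : ((j * l : ℕ) : ZMod l) = 0 := by
          rw [Nat.cast_mul, ZMod.natCast_self, mul_zero]
        rw [this, C_0, zero_mul]
      set u := stA S K e k r with hu
      set f := fS S with hf
      have h1 : f ^ (n + 1) * (u * f ^ e) = u * f ^ (n + 1 + e) := by ring
      rw [h1, derivative_mul, hX, mul_zero, add_zero, derivative_mul, derivative_pow]
      have h2 : n + 1 + e - 1 = n + e := by omega
      rw [h2]
      simp only [smul_eq_C_mul]
      ring
  · intro k
    induction k with
    | zero =>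
      intro r d hr
      simpa [stA] using hr
    | succ k ih =>
      intro r d hr
      have h1 := ih r d hr
      rw [stA_succ]
      have h2 : ((d + (k + 1) * S.card : ℕ) : WithBot ℕ) = ((d + k * S.card + S.card : ℕ) : WithBot ℕ) := by
        congr 1
        ring
      rw [h2]
      refine lt_of_le_of_lt (degree_add_le _ _) (max_lt ?_ ?_)
      · refine lt_of_le_of_lt (degree_smul_le _ _) (degree_mul_lt_aux h1 ?_)
        exact (degree_derivative_le).trans (fS_degree S).le
      · refine degree_mul_lt_aux ?_ (fS_degree S).le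
        exact lt_of_le_of_lt degree_derivative_le h1

end Pool.Agent.Work.MP_af11aa_nt.W
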