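import Mathlib
import Pool.Agent.Work.MP_af11aa_nt.W.StB

/-!
MODULE StC (Stepanov, the count).

Let m = |S| ≤ d, f = fS S, g = f^((l-1)/2), a = 1 or -1, S_a = {x : g(x) = a} (so f(x) ≠ 0 on S_a).
For l ≤ some bound depending on d the claim is trivial (C large), so let l be large.
Put K = ⌊√l⌋, D0 = (l-m)/2 (natural division), J = K/2 + m + 3 (roughly K/2 + c with c = m + 3; any choice with
   2 J D0 > ∑_{k<K} (D0 + k m + J)   works: the right side is ≤ K D0 + m K²/2 + K J, the left side is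
   ≥ (K - 1 + 2m + 6) D0 ..., the surplus (2m+5) D0 ≈ (2m+5) l/2 beats m K²/2 + K J ≤ m l/2 + l/2 + (m+3) √l.)
Unknowns: r_j, s_j (j < J) in degreeLT D0: dimension 2 J D0.  Conditions: for each k < K the polynomial
   Q_k = ∑_j (A_k(r_j) + a • B_k(s_j)) X^j vanishes, where A, B come from st_deriv with e = 0, e = (l-1)/2;
   deg Q_k < D0 + k m + J, so this is a linear map into a space of dimension ∑_k (D0 + k m + J) < 2 J D0, hence has a
   nonzero kernel element (LinearMap.exists_ne_zero... / `LinearMap.ker_ne_bot_of_finrank_lt`).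
Take it; P = f^K ∑_j (r_j + s_j g) X^{jl} ≠ 0 by st_nonzero and f ≠ 0.
For x ∈ S_a and k < K: (D^k P)(x) = f(x)^{K-k} ∑_j (A_k(r_j)(x) + B_k(s_j)(x) g(x)) x^{jl} = f(x)^{K-k} Q_k(x) = 0, as
   x^{jl} = x^j (ZMod.pow_card).  Since K ≤ l, x is a root of P of multiplicity ≥ K
   (Polynomial.lt_rootMultiplicity_of_isRoot_iterate_derivative... : (K-1)! is a unit).
So K |S_a| ≤ deg P ≤ K m + D0 + m (l-1)/2 + (J-1) l (use card_roots / prod (X - x)^K ∣ P), and dividing by K = ⌊√l⌋:
   |S_a| ≤ m + (l/K) (1/2 + m/2 + (J - 1)) ≤ l/2 + C √l.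
-/

set_option autoImplicit false

namespace Pool.Agent.Work.MP_af11aa_nt.W

open Finset Polynomial

section

variable {l : ℕ} [Fact l.Prime]

lemma st_exists (m : ℕ) (A B : ℕ → (ZMod l)[X] →ₗ[ZMod l] (ZMod l)[X])
    (hA : ∀ (k : ℕ) (r : (ZMod l)[X]) (d : ℕ), r.degree < (d : ℕ) →
        (A k r).degree < ((d + k * m : ℕ) : WithBot ℕ))
    (hB : ∀ (k : ℕ) (r : (ZMod l)[X]) (d : ℕ), r.degree < (d : ℕ) →
        (B k r).degree < ((d + k * m : ℕ) : WithBot ℕ))
    (a : ZMod l) (K J D0 : ℕ) (hdim : ∑ k ∈ range K, (D0 + k * m + J) < 2 * J * D0) :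
    ∃ r s : Fin J → (ZMod l)[X], (∀ j, (r j).degree < D0) ∧ (∀ j, (s j).degree < D0) ∧
      (¬ ∀ j, r j = 0 ∧ s j = 0) ∧
      ∀ k < K, ∑ j : Fin J, (A k (r j) + C a * B k (s j)) * X ^ (j : ℕ) = 0 := by
  have : Module.Finite (ZMod l) (degreeLT (ZMod l) D0) :=
    Module.Finite.equiv (degreeLTEquiv (ZMod l) D0).symm
  have hfr : Module.finrank (ZMod l) (degreeLT (ZMod l) D0) = D0 := by
    rw [LinearEquiv.finrank_eq (degreeLTEquiv (ZMod l) D0), Module.finrank_fin_fun]
  let Ψ : ((Fin J → degreeLT (ZMod l) D0) × (Fin J → degreeLT (ZMod l) D0)) →ₗ[ZMod l]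
      ((k : Fin K) → Fin (D0 + k * m + J) → ZMod l) :=
    { toFun := fun v k i ↦ (∑ j : Fin J, (A k (v.1 j : (ZMod l)[X]) +
        C a * B k (v.2 j : (ZMod l)[X])) * X ^ (j : ℕ)).coeff i
      map_add' := by
        intro v w
        funext k i
        simp only [Prod.fst_add, Prod.snd_add, Pi.add_apply, Submodule.coe_add, map_add]
        rw [← coeff_add, ← sum_add_distrib]
        congr 1
        refine sum_congr rfl fun j _ ↦ ?_
        ring
      map_smul' := by
        intro c v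
        funext k i
        simp only [Prod.smul_fst, Prod.smul_snd, Pi.smul_apply, Submodule.coe_smul, map_smul,
          RingHom.id_apply]
        rw [smul_eq_mul, ← coeff_C_mul, mul_sum]
        congr 1
        refine sum_congr rfl fun j _ ↦ ?_
        simp only [smul_eq_C_mul]
        ring }
  have hker : LinearMap.ker Ψ ≠ ⊥ := by
    apply LinearMap.ker_ne_bot_of_finrank_lt
    rw [Module.finrank_prod, Module.finrank_pi_fintype, Module.finrank_pi_fintype]
    simp only [hfr, Module.finrank_fin_fun]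
    rw [Fin.sum_univ_eq_sum_range (fun k ↦ D0 + k * m + J) K]
    simp only [sum_const, card_univ, Fintype.card_fin, smul_eq_mul]
    calc _ < 2 * J * D0 := hdim
      _ = J * D0 + J * D0 := by ring
  obtain ⟨v, hv, hv0⟩ := Submodule.exists_mem_ne_zero_of_ne_bot hker
  rw [LinearMap.mem_ker] at hv
  have hr : ∀ j, ((v.1 j : (ZMod l)[X])).degree < (D0 : WithBot ℕ) :=
    fun j ↦ mem_degreeLT.1 (v.1 j).2
  have hs : ∀ j, ((v.2 j : (ZMod l)[X])).degree < (D0 : WithBot ℕ) :=
    fun j ↦ mem_degreeLT.1 (v.2 j).2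
  refine ⟨fun j ↦ (v.1 j : (ZMod l)[X]), fun j ↦ (v.2 j : (ZMod l)[X]), hr, hs, ?_, ?_⟩
  · intro hall
    apply hv0
    refine Prod.ext ?_ ?_
    · funext j
      exact Subtype.ext (hall j).1
    · funext j
      exact Subtype.ext (hall j).2
  · intro k hk
    ext i
    rw [coeff_zero]
    by_cases hi : i < D0 + k * m + J
    · have h1 := congrFun (congrFun hv ⟨k, hk⟩) ⟨i, hi⟩
      exact h1
    · rw [finsetSum_coeff]
      refine sum_eq_zero fun j _ ↦ ?_
      refine coeff_eq_zero_of_degree_lt ?_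
      have h1 : (A k (v.1 j : (ZMod l)[X]) + C a * B k (v.2 j : (ZMod l)[X])).degree <
          ((D0 + k * m : ℕ) : WithBot ℕ) := by
        refine lt_of_le_of_lt (degree_add_le _ _) (max_lt (hA k _ _ (hr j)) ?_)
        have := degree_mul_lt_aux (q := C a) (m := 0) (hB k _ _ (hs j)) degree_C_le
        simpa using this
      have h2 := degree_mul_lt_aux (q := (X : (ZMod l)[X]) ^ (j : ℕ)) (m := j) h1
        (degree_X_pow_le _)
      rw [mul_comm] at h2
      refine lt_of_lt_of_le h2 ?_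
      have := j.2
      exact_mod_cast (by omega : D0 + k * m + j ≤ i)

lemma st_bound (hl : l ≠ 2) (S : Finset (ZMod l)) (hS : S.Nonempty) (h0 : (0 : ZMod l) ∉ S)
    (a : ZMod l) (_ha : a = 1 ∨ a = -1) (K J D0 : ℕ) (hK : K ≤ l) (hK1 : 1 ≤ K) (hJ : 1 ≤ J)
    (hD : 2 * D0 + S.card ≤ l)
    (hdim : ∑ k ∈ range K, (D0 + k * S.card + J) < 2 * J * D0) :
    K * ((univ : Finset (ZMod l)).filter (fun x ↦ (fS S).eval x ^ ((l - 1) / 2) = a)).card ≤
      K * S.card + D0 + S.card * ((l - 1) / 2) + (J - 1) * l := by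
  have hp : l.Prime := Fact.out
  obtain ⟨A, hA1, hA2⟩ := st_deriv S K 0
  obtain ⟨B, hB1, hB2⟩ := st_deriv S K ((l - 1) / 2)
  obtain ⟨r, s, hr, hs, hne, hQ⟩ := st_exists S.card A B hA2 hB2 a K J D0 hdim
  set g := fS S ^ ((l - 1) / 2) with hg
  set P : (ZMod l)[X] := fS S ^ K * ∑ j : Fin J, (r j + s j * g) * X ^ ((j : ℕ) * l) with hP
  have hP0 : P ≠ 0 := by
    refine mul_ne_zero (pow_ne_zero _ (fS_ne_zero S)) fun h ↦ hne ?_
    exact st_nonzero hl S hS h0 J D0 hD r s hr hs h
  have hPsum : P = ∑ j : Fin J, (fS S ^ K * (r j * fS S ^ 0) * X ^ ((j : ℕ) * l) +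
      fS S ^ K * (s j * g) * X ^ ((j : ℕ) * l)) := by
    rw [hP, mul_sum]
    refine sum_congr rfl fun j _ ↦ ?_
    ring
  have hroot : ∀ x : ZMod l, (fS S).eval x ^ ((l - 1) / 2) = a →
      K ≤ P.rootMultiplicity x := by
    intro x hx
    have h1 : K - 1 < P.rootMultiplicity x := by
      apply lt_rootMultiplicity_of_isRoot_iterate_derivative_of_mem_nonZeroDivisors hP0
      · intro k hk
        have hkK : k < K := by omega
        rw [IsRoot.def, hPsum, iterate_derivative_sum]
        simp only [iterate_map_add, hA1 k hkK.le, hB1 k hkK.le]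
        rw [eval_finsetSum]
        have h2 := congrArg (eval x) (hQ k hkK)
        rw [eval_finsetSum, eval_zero] at h2
        have h3 : ∀ j : Fin J, eval x (fS S ^ (K - k) * (A k (r j) * fS S ^ 0) * X ^ ((j : ℕ) * l) +
            fS S ^ (K - k) * (B k (s j) * g) * X ^ ((j : ℕ) * l)) =
            (fS S).eval x ^ (K - k) * eval x ((A k (r j) + C a * B k (s j)) * X ^ (j : ℕ)) := by
          intro j
          have hgx : g.eval x = a := by rw [hg, eval_pow, hx]
          simp only [eval_add, eval_mul, eval_pow, eval_X, eval_C, hgx]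
          have h4 : x ^ ((j : ℕ) * l) = x ^ (j : ℕ) := by
            rw [pow_mul, ZMod.pow_card]
          rw [h4]
          ring
        simp only [h3]
        rw [← mul_sum, h2, mul_zero]
      · rw [mem_nonZeroDivisors_iff_ne_zero, Ne, ZMod.natCast_eq_zero_iff,
          hp.dvd_factorial]
        omega
    omega
  have hcard : K * ((univ : Finset (ZMod l)).filter
      (fun x ↦ (fS S).eval x ^ ((l - 1) / 2) = a)).card ≤ P.natDegree := by
    have h1 : ((univ : Finset (ZMod l)).filter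
        (fun x ↦ (fS S).eval x ^ ((l - 1) / 2) = a)).card * K ≤
        ∑ x ∈ (univ : Finset (ZMod l)).filter (fun x ↦ (fS S).eval x ^ ((l - 1) / 2) = a),
          P.roots.count x := by
      rw [← smul_eq_mul, ← sum_const]
      refine sum_le_sum fun x hx ↦ ?_
      rw [count_roots]
      exact hroot x (mem_filter.1 hx).2
    rw [mul_comm]
    refine h1.trans (le_trans ?_ (card_roots' P))
    rw [← Multiset.toFinset_sum_count_eq P.roots]
    refine sum_le_sum_of_subset_of_nonneg ?_ fun _ _ _ ↦ Nat.zero_le _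
    intro x hx
    rw [Multiset.mem_toFinset, ← Multiset.count_pos, count_roots]
    have := hroot x (mem_filter.1 hx).2
    omega
  refine hcard.trans ?_
  have hrn : ∀ j, (r j).natDegree ≤ D0 := by
    intro j
    by_cases h1 : r j = 0
    · rw [h1]; simp
    · exact ((natDegree_lt_iff_degree_lt h1).2 (hr j)).le
  have hsn : ∀ j, (s j).natDegree ≤ D0 := by
    intro j
    by_cases h1 : s j = 0
    · rw [h1]; simp
    · exact ((natDegree_lt_iff_degree_lt h1).2 (hs j)).le
  have hgn : g.natDegree ≤ S.card * ((l - 1) / 2) := by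
    rw [hg]
    refine natDegree_pow_le.trans ?_
    rw [fS_natDegree, mul_comm]
  rw [hP]
  refine natDegree_mul_le.trans ?_
  have h1 : (fS S ^ K).natDegree ≤ K * S.card := by
    refine natDegree_pow_le.trans ?_
    rw [fS_natDegree]
  have h2 : (∑ j : Fin J, (r j + s j * g) * X ^ ((j : ℕ) * l)).natDegree ≤
      D0 + S.card * ((l - 1) / 2) + (J - 1) * l := by
    refine natDegree_sum_le_of_forall_le _ _ fun j _ ↦ ?_
    refine natDegree_mul_le.trans ?_
    rw [natDegree_X_pow]
    have h3 : (r j + s j * g).natDegree ≤ D0 + S.card * ((l - 1) / 2) := by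
      refine (natDegree_add_le _ _).trans (max_le ?_ ?_)
      · have := hrn j
        omega
      · refine natDegree_mul_le.trans ?_
        have := hsn j
        omega
    have h4 : (j : ℕ) * l ≤ (J - 1) * l := Nat.mul_le_mul_right _ (by have := j.2; omega)
    omega
  omega

lemma st_arith (m l : ℕ) (hm : 1 ≤ m) (hl : 4 * m + 20 ≤ l) :
    let K := Nat.sqrt l
    let D0 := (l - m) / 2
    let J := K / 2 + m + 3
    2 * D0 + m ≤ l ∧ ∑ k ∈ range K, (D0 + k * m + J) < 2 * J * D0 := by
  intro K D0 J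
  have hK2 : K * K ≤ l := Nat.sqrt_le l
  have hK4 : 4 ≤ K := by
    rw [Nat.le_sqrt]
    omega
  have hD1 : 2 * D0 ≤ l - m := by omega
  have hD2 : l - m ≤ 2 * D0 + 1 := by omega
  refine ⟨by omega, ?_⟩
  have hsum : ∑ k ∈ range K, (D0 + k * m + J) = K * D0 + m * (∑ k ∈ range K, k) + K * J := by
    rw [sum_add_distrib, sum_add_distrib, sum_const, sum_const, card_range, smul_eq_mul,
      smul_eq_mul, ← sum_mul]
    ring
  have hgauss : 2 * ∑ k ∈ range K, k = K * (K - 1) := by
    rw [mul_comm, sum_range_id_mul_two]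
  rw [hsum]
  have hJ1 : K + 2 * m + 5 ≤ 2 * J := by omega
  have hJ2 : 2 * J ≤ K + 2 * m + 6 := by omega
  have hKK : K * (K - 1) ≤ l := le_trans (Nat.mul_le_mul_left _ (by omega)) hK2
  have h4K : 4 * K ≤ l := le_trans (Nat.mul_le_mul_right _ hK4) hK2
  -- doubled inequality
  have h1 : m * (2 * ∑ k ∈ range K, k) ≤ m * l := Nat.mul_le_mul_left _ (by rw [hgauss]; exact hKK)
  have h2 : K * (2 * J) ≤ l + (2 * m + 6) * K := by nlinarith
  have h3 : (K + 2 * m + 5) * (2 * D0) ≤ 2 * (2 * J * D0) := by nlinarith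
  have h4 : (2 * m + 5) * (l - m) ≤ (2 * m + 5) * (2 * D0 + 1) := Nat.mul_le_mul_left _ hD2
  have h5 : (2 * m + 5) * (l - m) + (2 * m + 5) * m = (2 * m + 5) * l := by
    rw [← mul_add]
    congr 1
    omega
  have h6 : (2 * m + 5) * (m + 1) + (2 * m + 6) * K < (m + 4) * l := by nlinarith
  nlinarith

end

theorem st_count (d : ℕ) : ∃ C : ℝ, 0 < C ∧ ∀ (l : ℕ) [Fact l.Prime], l ≠ 2 →
    ∀ S : Finset (ZMod l), S.Nonempty → S.card ≤ d → (0 : ZMod l) ∉ S →
    ∀ a : ZMod l, (a = 1 ∨ a = -1) →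
      (((univ : Finset (ZMod l)).filter
        (fun x ↦ (fS S).eval x ^ ((l - 1) / 2) = a)).card : ℝ) ≤ l / 2 + C * Real.sqrt l := by
  refine ⟨4 * d + 20, by positivity, ?_⟩
  intro l _ hl S hS hSd h0 a ha
  have hp : l.Prime := Fact.out
  have hlpos : (0 : ℝ) < l := by exact_mod_cast hp.pos
  set N := ((univ : Finset (ZMod l)).filter
        (fun x ↦ (fS S).eval x ^ ((l - 1) / 2) = a)).card with hN
  have hsq : Real.sqrt l * Real.sqrt l = l := Real.mul_self_sqrt hlpos.le
  have hsq1 : 1 ≤ Real.sqrt l := by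
    rw [Real.one_le_sqrt]
    exact_mod_cast hp.one_le
  have hm : 1 ≤ S.card := hS.card_pos
  rcases lt_or_ge l (4 * S.card + 20) with h1 | h1
  · have h2 : N ≤ l := by
      have := card_le_univ ((univ : Finset (ZMod l)).filter
        (fun x ↦ (fS S).eval x ^ ((l - 1) / 2) = a))
      rwa [ZMod.card] at this
    have h3 : (N : ℝ) ≤ l := by exact_mod_cast h2
    have h4 : Real.sqrt l ≤ 4 * d + 20 := by
      have h5 : (l : ℝ) ≤ 4 * d + 20 := by
        have : l ≤ 4 * d + 20 := by omega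
        exact_mod_cast this
      nlinarith
    nlinarith
  · obtain ⟨h2, h3⟩ := st_arith S.card l hm h1
    set K := Nat.sqrt l with hK
    set D0 := (l - S.card) / 2 with hD0
    set J := K / 2 + S.card + 3 with hJ
    have hK2 : K * K ≤ l := Nat.sqrt_le l
    have hK3 : l < (K + 1) * (K + 1) := Nat.lt_succ_sqrt l
    have hK4 : 4 ≤ K := by
      rw [hK, Nat.le_sqrt]
      omega
    have hKl : K ≤ l := le_trans (Nat.le_mul_of_pos_left K (by omega)) hK2
    have h4 := st_bound hl S hS h0 a ha K J D0 hKl (by omega) (by omega) h2 h3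
    rw [← hN] at h4
    have h5 : K * N * 2 ≤ 2 * K * S.card + l + S.card * l + (K + 2 * S.card + 4) * l := by
      have h6 : 2 * D0 ≤ l := by omega
      have h7 : 2 * ((l - 1) / 2) ≤ l := by omega
      have h8 : 2 * (J - 1) ≤ K + 2 * S.card + 4 := by omega
      have h9 : S.card * (2 * ((l - 1) / 2)) ≤ S.card * l := Nat.mul_le_mul_left _ h7
      have h10 : 2 * (J - 1) * l ≤ (K + 2 * S.card + 4) * l := Nat.mul_le_mul_right _ h8
      nlinarith
    have h6 : (K : ℝ) * N * 2 ≤ 2 * K * S.card + l + S.card * l + (K + 2 * S.card + 4) * l := by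
      exact_mod_cast h5
    have hKs : Real.sqrt l ≤ 2 * K := by
      rw [Real.sqrt_le_left (by positivity)]
      have : (l : ℝ) < (K + 1) * (K + 1) := by exact_mod_cast hK3
      have h7 : (4 : ℝ) ≤ K := by exact_mod_cast hK4
      nlinarith
    have hmd : (S.card : ℝ) ≤ d := by exact_mod_cast hSd
    have hKpos : (0 : ℝ) < K := by
      have : 0 < K := by omega
      exact_mod_cast this
    have hm0 : (0 : ℝ) ≤ S.card := Nat.cast_nonneg _
    -- l ≤ 2 K √l
    have h7 : (l : ℝ) ≤ 2 * K * Real.sqrt l := by nlinarith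
    have h8 : (K : ℝ) * (2 * N) ≤ K * (2 * S.card + l + (3 * S.card + 5) * (2 * Real.sqrt l)) := by
      nlinarith
    have h9 : (2 * N : ℝ) ≤ 2 * S.card + l + (3 * S.card + 5) * (2 * Real.sqrt l) :=
      le_of_mul_le_mul_left h8 hKpos
    nlinarith

/-- Weil's bound for products of distinct linear factors, with an unspecified constant.
If `l ≤ d` the bound is trivial.  Otherwise some `τ ∉ {-ρ}`: shift `x -> x + τ` so that `0 ∉ S`; the
value of `∏ χ (x + ρ) = χ (f x)` is `f(x)^((l-1)/2) ∈ {0, 1, -1}` (quadraticChar_eq_pow_of_char_ne_two'),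
`f` has at most `d` zeros, so the number of `x` with value `1` is `≥ l - d - |S_{-1}| ≥ l/2 - d - C √l`, similarly for
`-1`. -/
theorem stepanov (d : ℕ) : ∃ C : ℝ, 0 < C ∧ ∀ (l : ℕ) [Fact l.Prime], l ≠ 2 →
    ∀ S : Finset (ZMod l), S.Nonempty → S.card ≤ d →
      |((∑ x : ZMod l, ∏ ρ ∈ S, quadraticChar (ZMod l) (x + ρ) : ℤ) : ℝ)| ≤ C * Real.sqrt l := by
  obtain ⟨C, hC, hcount⟩ := st_count d
  refine ⟨2 * C + d, by positivity, ?_⟩
  intro l _ hl S hS hSd
  have hp : l.Prime := Fact.out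
  have hlpos : (0 : ℝ) < l := by exact_mod_cast hp.pos
  have hsq : Real.sqrt l * Real.sqrt l = l := Real.mul_self_sqrt hlpos.le
  have hsq1 : 1 ≤ Real.sqrt l := by
    rw [Real.one_le_sqrt]
    exact_mod_cast hp.one_le
  have hd0 : (0 : ℝ) ≤ d := Nat.cast_nonneg _
  -- the counts
  have key : ∀ S : Finset (ZMod l), S.Nonempty → S.card ≤ d → (0 : ZMod l) ∉ S →
      |((∑ x : ZMod l, ∏ ρ ∈ S, quadraticChar (ZMod l) (x + ρ) : ℤ) : ℝ)| ≤
        (2 * C + d) * Real.sqrt l := by
    intro S hS hSd h0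
    have h1 := hcount l hl S hS hSd h0 1 (Or.inl rfl)
    have h2 := hcount l hl S hS hSd h0 (-1) (Or.inr rfl)
    have hchar : ringChar (ZMod l) ≠ 2 := by rwa [ZMod.ringChar_zmod_n]
    have hl2 : Fintype.card (ZMod l) / 2 = (l - 1) / 2 := by
      rw [ZMod.card]
      have := hp.eq_two_or_odd
      omega
    have hval : ∀ x : ZMod l, ∏ ρ ∈ S, quadraticChar (ZMod l) (x + ρ) =
        quadraticChar (ZMod l) ((fS S).eval x) := by
      intro x
      rw [fS_eval, map_prod]
    have hpw : ∀ x : ZMod l, ((quadraticChar (ZMod l) ((fS S).eval x) : ℤ) : ZMod l) =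
        (fS S).eval x ^ ((l - 1) / 2) := by
      intro x
      rw [quadraticChar_eq_pow_of_char_ne_two' hchar, hl2]
    have hne1 : (1 : ZMod l) ≠ -1 := by
      intro h
      have h3 : (2 : ZMod l) = 0 := by linear_combination h
      have h4 : ((2 : ℕ) : ZMod l) = 0 := by exact_mod_cast h3
      rw [ZMod.natCast_eq_zero_iff, Nat.prime_dvd_prime_iff_eq hp Nat.prime_two] at h4
      exact hl h4
    set N1 := ((univ : Finset (ZMod l)).filter
        (fun x ↦ (fS S).eval x ^ ((l - 1) / 2) = 1)) with hN1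
    set N2 := ((univ : Finset (ZMod l)).filter
        (fun x ↦ (fS S).eval x ^ ((l - 1) / 2) = -1)) with hN2
    set N0 := ((univ : Finset (ZMod l)).filter (fun x ↦ (fS S).eval x = 0)) with hN0
    have hpt : ∀ x : ZMod l, quadraticChar (ZMod l) ((fS S).eval x) =
        (if (fS S).eval x ^ ((l - 1) / 2) = 1 then 1 else 0) -
        (if (fS S).eval x ^ ((l - 1) / 2) = -1 then 1 else 0) ∧
        (1 : ℤ) = (if (fS S).eval x ^ ((l - 1) / 2) = 1 then 1 else 0) +
        (if (fS S).eval x ^ ((l - 1) / 2) = -1 then 1 else 0) +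
        (if (fS S).eval x = 0 then 1 else 0) := by
      intro x
      by_cases hx : (fS S).eval x = 0
      · have h3 : (l - 1) / 2 ≠ 0 := by
          have := hp.two_le
          have := hp.eq_two_or_odd
          omega
        rw [hx, zero_pow h3]
        simp
      · rcases quadraticChar_dichotomy hx with h3 | h3
        · have h4 := hpw x
          rw [h3] at h4
          rw [h3, ← h4]
          simp [hx, hne1]
        · have h4 := hpw x
          rw [h3] at h4
          rw [h3, ← h4]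
          simp [hx, hne1.symm]
    have hsum1 : (∑ x : ZMod l, ∏ ρ ∈ S, quadraticChar (ZMod l) (x + ρ) : ℤ) =
        (N1.card : ℤ) - N2.card := by
      rw [sum_congr rfl fun x _ ↦ (hval x).trans (hpt x).1, sum_sub_distrib, hN1, hN2]
      simp
    have hsum2 : (l : ℤ) = N1.card + N2.card + N0.card := by
      have h3 : ∑ x : ZMod l, (1 : ℤ) = l := by simp
      rw [← h3, sum_congr rfl fun x _ ↦ (hpt x).2, sum_add_distrib, sum_add_distrib, hN1, hN2, hN0]
      simp
    have hN0d : N0.card ≤ d := by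
      refine le_trans ?_ hSd
      rw [← fS_natDegree S]
      refine le_trans ?_ (card_roots' (fS S))
      refine le_trans (card_le_card (t := (fS S).roots.toFinset) ?_)
        (Multiset.toFinset_card_le _)
      intro x hx
      rw [Multiset.mem_toFinset, mem_roots (fS_ne_zero S), IsRoot.def]
      exact (mem_filter.1 hx).2
    rw [hsum1]
    have h3 : (l : ℝ) = N1.card + N2.card + N0.card := by exact_mod_cast hsum2
    have h4 : (N0.card : ℝ) ≤ d := by exact_mod_cast hN0d
    push_cast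
    rw [abs_le]
    constructor <;> nlinarith
  rcases le_or_gt l d with h1 | h1
  · have h2 : |((∑ x : ZMod l, ∏ ρ ∈ S, quadraticChar (ZMod l) (x + ρ) : ℤ) : ℝ)| ≤ l := by
      push_cast
      refine (abs_sum_le_sum_abs _ _).trans ?_
      have h3 : ∀ x ∈ (univ : Finset (ZMod l)),
          |∏ ρ ∈ S, ((quadraticChar (ZMod l) (x + ρ) : ℤ) : ℝ)| ≤ 1 := by
        intro x _
        rw [abs_prod]
        refine prod_le_one (fun _ _ ↦ abs_nonneg _) fun ρ _ ↦ ?_
        by_cases h4 : x + ρ = 0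
        · rw [h4]
          simp
        · rcases quadraticChar_dichotomy h4 with h5 | h5 <;> rw [h5] <;> simp
      refine (sum_le_sum h3).trans ?_
      simp [ZMod.card]
    refine h2.trans ?_
    have h3 : (l : ℝ) ≤ d := by exact_mod_cast h1
    nlinarith
  · obtain ⟨τ, hτ⟩ : ∃ τ : ZMod l, τ ∉ S := by
      by_contra hno
      push Not at hno
      have h2 : (univ : Finset (ZMod l)).card ≤ S.card := card_le_card fun x _ ↦ hno x
      rw [card_univ, ZMod.card] at h2
      omega
    have h2 : (∑ x : ZMod l, ∏ ρ ∈ S, quadraticChar (ZMod l) (x + ρ) : ℤ) =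
        ∑ x : ZMod l, ∏ ρ ∈ S.image (· - τ), quadraticChar (ZMod l) (x + ρ) := by
      rw [← Equiv.sum_comp (Equiv.subRight τ)]
      refine sum_congr rfl fun x _ ↦ ?_
      rw [prod_image (fun a _ b _ h ↦ by simpa using h)]
      refine prod_congr rfl fun ρ _ ↦ ?_
      congr 1
      rw [Equiv.subRight_apply]
      ring
    rw [h2]
    refine key _ (hS.image _) (card_image_le.trans hSd) ?_
    intro h3
    rw [mem_image] at h3
    obtain ⟨ρ, hρ, h4⟩ := h3
    rw [sub_eq_zero] at h4
    exact hτ (h4 ▸ hρ)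

end Pool.Agent.Work.MP_af11aa_nt.W
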