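import Mathlib
import Pool.Agent.Work.MP_af11aa_nt.W.Diff
import Pool.Agent.Work.MP_af11aa_nt.W.StC

/-!
MODULE LegDiff (complete sums of the differenced Legendre symbol, prime modulus).

Dl t χ x = ∏_{ρ} χ(x+ρ)^{m_t(ρ)}; away from the zeros it is the product of χ(x+ρ) over the set of ρ with
m_t(ρ) odd, and the parity function c_t : ZMod l → ZMod 2 is never constant.
-/

set_option autoImplicit false

namespace Pool.Agent.Work.MP_af11aa_nt.W

open Finset ComplexConjugate

section

variable {l : ℕ} [hl : Fact l.Prime]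

/-- one differencing step on the data (shifts, parities) -/
def ldStep (s : Finset (ZMod l) × (ZMod l → ZMod 2)) (h : ZMod l) :
    Finset (ZMod l) × (ZMod l → ZMod 2) :=
  (s.1 ∪ s.1.image (· + h), fun ρ ↦ s.2 ρ + s.2 (ρ - h))

/-- the product of characters attached to the parities -/
noncomputable def ldP (c : ZMod l → ZMod 2) (x : ZMod l) : ℤ :=
  ∏ ρ, (if c ρ = 1 then quadraticChar (ZMod l) (x + ρ) else 1)

/-- the function attached to the data -/
noncomputable def ldF (s : Finset (ZMod l) × (ZMod l → ZMod 2)) (x : ZMod l) : ℂ :=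
  if ∀ ρ ∈ s.1, x + ρ ≠ 0 then ((ldP s.2 x : ℤ) : ℂ) else 0

/-- the invariant -/
structure ldInv (K : ℕ) (s : Finset (ZMod l) × (ZMod l → ZMod 2)) : Prop where
  supp : ∀ ρ, s.2 ρ ≠ 0 → ρ ∈ s.1
  card : s.1.card ≤ K
  nonconst : ∀ κ, ∃ ρ, s.2 ρ ≠ κ

lemma ld_ite (z w : ZMod 2) (q : ℤ) (h : z = 1 → q ^ 2 = 1) :
    (if z = 1 then q else 1) * (if w = 1 then q else 1) = if z + w = 1 then q else 1 := by
  have z2 : ∀ z : ZMod 2, z = 0 ∨ z = 1 := by decide
  rcases z2 z with rfl | rfl <;> rcases z2 w with rfl | rfl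
  · simp
  · simp
  · simp
  · rw [if_pos rfl, if_neg (by decide), ← sq, h rfl]

lemma ldF_Dh {K : ℕ} {s : Finset (ZMod l) × (ZMod l → ZMod 2)} (hs : ldInv K s) (h : ZMod l) :
    Dh h (ldF s) = ldF (ldStep s h) := by
  funext x
  have h2 : (∀ ρ ∈ (ldStep s h).1, x + ρ ≠ 0) ↔
      (∀ ρ ∈ s.1, x + ρ ≠ 0) ∧ (∀ ρ ∈ s.1, x + h + ρ ≠ 0) := by
    simp only [ldStep, Finset.mem_union, Finset.mem_image]
    constructor
    · intro H
      refine ⟨fun ρ hρ ↦ H ρ (Or.inl hρ), fun ρ hρ ↦ ?_⟩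
      have := H (ρ + h) (Or.inr ⟨ρ, hρ, rfl⟩)
      rwa [show x + (ρ + h) = x + h + ρ by ring] at this
    · rintro ⟨H1, H2⟩ ρ (hρ | ⟨ρ', hρ', rfl⟩)
      · exact H1 ρ hρ
      · rw [show x + (ρ' + h) = x + h + ρ' by ring]
        exact H2 ρ' hρ'
  unfold Dh ldF
  by_cases a : ∀ ρ ∈ s.1, x + ρ ≠ 0
  · by_cases b : ∀ ρ ∈ s.1, x + h + ρ ≠ 0
    · rw [if_pos a, if_pos b, if_pos (h2.2 ⟨a, b⟩)]
      have h3 : ldP s.2 x * ldP s.2 (x + h) = ldP (ldStep s h).2 x := by
        unfold ldP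
        have h4 : ∏ ρ, (if s.2 ρ = 1 then quadraticChar (ZMod l) (x + h + ρ) else 1) =
            ∏ ρ, (if s.2 (ρ - h) = 1 then quadraticChar (ZMod l) (x + ρ) else 1) := by
          rw [← Equiv.prod_comp (Equiv.addRight h)
            (fun ρ ↦ if s.2 (ρ - h) = 1 then quadraticChar (ZMod l) (x + ρ) else 1)]
          refine Finset.prod_congr rfl fun ρ _ ↦ ?_
          simp only [Equiv.coe_addRight, add_sub_cancel_right]
          rw [show x + (ρ + h) = x + h + ρ by ring]
        rw [h4, ← Finset.prod_mul_distrib]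
        refine Finset.prod_congr rfl fun ρ _ ↦ ?_
        exact ld_ite _ _ _ fun h5 ↦ quadraticChar_sq_one (a ρ (hs.supp ρ (by rw [h5]; decide)))
      rw [map_intCast, ← Int.cast_mul, h3]
    · rw [if_neg b, if_neg (fun H ↦ b (h2.1 H).2), map_zero, mul_zero]
  · rw [if_neg a, if_neg (fun H ↦ a (h2.1 H).1), zero_mul]

lemma ldInv_step {K : ℕ} {s : Finset (ZMod l) × (ZMod l → ZMod 2)} (hs : ldInv K s)
    {h : ZMod l} (hh : h ≠ 0) (h2 : l ≠ 2) : ldInv (2 * K) (ldStep s h) := by
  refine ⟨?_, ?_, ?_⟩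
  · intro ρ hρ
    simp only [ldStep, Finset.mem_union, Finset.mem_image] at hρ ⊢
    by_contra hcon
    push Not at hcon
    apply hρ
    have h1 : s.2 ρ = 0 := by
      by_contra h0
      exact hcon.1 (hs.supp ρ h0)
    have h2 : s.2 (ρ - h) = 0 := by
      by_contra h0
      exact hcon.2 (ρ - h) (hs.supp _ h0) (by ring)
    rw [h1, h2, add_zero]
  · simp only [ldStep]
    refine (Finset.card_union_le _ _).trans ?_
    have := Finset.card_image_le (s := s.1) (f := (· + h))
    have := hs.card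
    omega
  · intro κ
    by_contra hcon
    push Not at hcon
    simp only [ldStep] at hcon
    have z2 : ∀ z : ZMod 2, z + z = 0 := by decide
    have hstep : ∀ ρ, s.2 (ρ + h) = s.2 ρ + κ := by
      intro ρ
      have h3 := hcon (ρ + h)
      rw [add_sub_cancel_right] at h3
      rw [← h3]
      calc s.2 (ρ + h) = s.2 (ρ + h) + (s.2 ρ + s.2 ρ) := by rw [z2, add_zero]
        _ = s.2 ρ + (s.2 (ρ + h) + s.2 ρ) := by ring
    have hn : ∀ (n : ℕ) ρ, s.2 (ρ + n * h) = s.2 ρ + n * κ := by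
      intro n
      induction n with
      | zero => intro ρ; simp
      | succ n ih =>
        intro ρ
        have : ρ + ((n + 1 : ℕ) : ZMod l) * h = (ρ + n * h) + h := by push_cast; ring
        rw [this, hstep, ih]
        push_cast
        ring
    have hκ : κ = 0 := by
      have h3 := hn l 0
      rw [CharP.cast_eq_zero, zero_mul, add_zero] at h3
      have h4 : (l : ZMod 2) * κ = 0 := by
        have := h3.symm
        rwa [add_eq_left] at this
      have h5 : (l : ZMod 2) = 1 := by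
        have := hl.out.eq_two_or_odd
        rcases this with h6 | h6
        · exact absurd h6 h2
        · have h7 : ((l % 2 : ℕ) : ZMod 2) = (l : ZMod 2) := ZMod.natCast_mod l 2
          rw [h6] at h7
          rw [← h7]
          rfl
      rwa [h5, one_mul] at h4
    obtain ⟨ρ1, h1⟩ := hs.nonconst (s.2 0)
    apply h1
    have h3 := hn (ρ1 * h⁻¹).val 0
    rw [ZMod.natCast_zmod_val, hκ, mul_zero, add_zero, zero_add, mul_assoc, inv_mul_cancel₀ hh,
      mul_one] at h3
    exact h3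

lemma ldF_Dl (h2 : l ≠ 2) (t : List (ZMod l)) {K : ℕ}
    {s : Finset (ZMod l) × (ZMod l → ZMod 2)} (hs : ldInv K s) (ht : ∀ h ∈ t, h ≠ 0) :
    ∃ s', ldInv (2 ^ t.length * K) s' ∧ Dl t (ldF s) = ldF s' := by
  induction t generalizing s K with
  | nil => exact ⟨s, by simpa using hs, rfl⟩
  | cons h t ih =>
    obtain ⟨s', h3, h4⟩ := ih (ldInv_step hs (ht h (by simp)) h2) (fun x hx ↦ ht x (by simp [hx]))
    refine ⟨s', ?_, ?_⟩
    · have e2 : 2 ^ (h :: t).length * K = 2 ^ t.length * (2 * K) := by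
        rw [List.length_cons, pow_succ]; ring
      rw [e2]
      exact h3
    · rw [Dl_cons, ldF_Dh hs, h4]

end

theorem leg_diff (J : ℕ) : ∃ C : ℝ, 1 ≤ C ∧ ∀ (l : ℕ) [Fact l.Prime], l ≠ 2 →
    ∀ h : Fin J → ZMod l, (∀ j, h j ≠ 0) →
      ‖∑ x : ZMod l, Dl (List.ofFn h) (fun x ↦ ((quadraticChar (ZMod l) x : ℤ) : ℂ)) x‖ ≤
        C * Real.sqrt l := by
  obtain ⟨C, hC, hst⟩ := stepanov (2 ^ J)
  refine ⟨C + 2 ^ J, ?_, ?_⟩
  · have : (1 : ℝ) ≤ 2 ^ J := one_le_pow₀ (by norm_num)
    linarith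
  · intro l hl hl2 h hh
    have h0 : ldInv 1 (({0}, fun ρ ↦ if ρ = 0 then 1 else 0) :
        Finset (ZMod l) × (ZMod l → ZMod 2)) := by
      refine ⟨?_, by simp, ?_⟩
      · intro ρ hρ
        by_contra h1
        apply hρ
        rw [Finset.mem_singleton] at h1
        simp [h1]
      · intro κ
        by_cases hκ : κ = 1
        · refine ⟨1, ?_⟩
          simp [hκ]
        · refine ⟨0, ?_⟩
          simp only [if_true]
          exact fun h ↦ hκ h.symm
    have h1 : (fun x ↦ ((quadraticChar (ZMod l) x : ℤ) : ℂ)) =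
        ldF (({0}, fun ρ ↦ if ρ = 0 then 1 else 0) : Finset (ZMod l) × (ZMod l → ZMod 2)) := by
      funext x
      unfold ldF ldP
      simp only [Finset.mem_singleton, forall_eq, add_zero]
      have h3 : ∏ ρ : ZMod l, (if (if ρ = 0 then (1 : ZMod 2) else 0) = 1 then
          quadraticChar (ZMod l) (x + ρ) else 1) = quadraticChar (ZMod l) x := by
        rw [Finset.prod_eq_single 0]
        · simp
        · intro ρ _ hρ
          simp [hρ]
        · intro h
          exact absurd (Finset.mem_univ _) h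
      rw [h3]
      split_ifs with hx
      · rfl
      · push Not at hx
        rw [hx]
        simp
    obtain ⟨⟨P, c⟩, hs, hD⟩ := ldF_Dl hl2 (List.ofFn h) h0 (by
      intro x hx
      rw [List.mem_ofFn] at hx
      obtain ⟨j, rfl⟩ := hx
      exact hh j)
    rw [List.length_ofFn, mul_one] at hs
    rw [h1, hD]
    set S : Finset (ZMod l) := Finset.univ.filter (fun ρ ↦ c ρ = 1) with hS
    have z2 : ∀ z : ZMod 2, z = 0 ∨ z = 1 := by decide
    have hSne : S.Nonempty := by
      obtain ⟨ρ, hρ⟩ := hs.nonconst 0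
      refine ⟨ρ, ?_⟩
      rw [hS, Finset.mem_filter]
      exact ⟨Finset.mem_univ _, (z2 _).resolve_left hρ⟩
    have hScard : S.card ≤ 2 ^ J := by
      refine (Finset.card_le_card ?_).trans hs.card
      intro ρ hρ
      rw [hS, Finset.mem_filter] at hρ
      apply hs.supp
      simp only
      rw [hρ.2]
      decide
    have hb := hst l hl2 S hSne hScard
    have hprod : ∀ x, ldP c x = ∏ ρ ∈ S, quadraticChar (ZMod l) (x + ρ) := by
      intro x
      unfold ldP
      rw [hS, Finset.prod_filter]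
    have hle1 : ∀ x, ‖((ldP c x : ℤ) : ℂ)‖ ≤ 1 := by
      intro x
      rw [hprod, Int.cast_prod, norm_prod]
      refine Finset.prod_le_one (fun _ _ ↦ norm_nonneg _) fun ρ _ ↦ ?_
      by_cases hx : x + ρ = 0
      · rw [hx]; simp
      · rcases quadraticChar_dichotomy hx with h | h <;> rw [h] <;> simp
    have hdiff : ‖∑ x : ZMod l, ldF (P, c) x - ∑ x : ZMod l, ((ldP c x : ℤ) : ℂ)‖ ≤ P.card := by
      rw [← Finset.sum_sub_distrib]
      have hz : ∀ x ∈ (Finset.univ : Finset (ZMod l)), x ∉ P.image (fun ρ ↦ -ρ) →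
          ldF (P, c) x - ((ldP c x : ℤ) : ℂ) = 0 := by
        intro x _ hx
        unfold ldF
        rw [if_pos, sub_self]
        intro ρ hρ h3
        apply hx
        rw [Finset.mem_image]
        exact ⟨ρ, hρ, by linear_combination -h3⟩
      rw [← Finset.sum_subset (Finset.subset_univ (P.image (fun ρ ↦ -ρ))) hz]
      refine (norm_sum_le _ _).trans ?_
      refine (Finset.sum_le_card_nsmul _ _ 1 fun x hx ↦ ?_).trans ?_
      · obtain ⟨ρ, hρ, rfl⟩ := Finset.mem_image.1 hx
        unfold ldF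
        rw [if_neg, zero_sub, norm_neg]
        · exact hle1 _
        · intro H
          exact H ρ hρ (by ring)
      · rw [nsmul_eq_mul, mul_one]
        exact_mod_cast Finset.card_image_le
    have hcast : ∑ x : ZMod l, ((ldP c x : ℤ) : ℂ) =
        ((∑ x : ZMod l, ∏ ρ ∈ S, quadraticChar (ZMod l) (x + ρ) : ℤ) : ℂ) := by
      rw [Int.cast_sum]
      refine Finset.sum_congr rfl fun x _ ↦ ?_
      rw [hprod]
    have hnorm : ‖∑ x : ZMod l, ((ldP c x : ℤ) : ℂ)‖ ≤ C * Real.sqrt l := by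
      rw [hcast, Complex.norm_intCast]
      exact hb
    have hsqrt : (1 : ℝ) ≤ Real.sqrt l := by
      rw [Real.one_le_sqrt]
      exact_mod_cast hl.out.one_le
    have hPc : (P.card : ℝ) ≤ 2 ^ J := by exact_mod_cast hs.card
    calc ‖∑ x : ZMod l, ldF (P, c) x‖
        = ‖(∑ x : ZMod l, ldF (P, c) x - ∑ x : ZMod l, ((ldP c x : ℤ) : ℂ)) +
            ∑ x : ZMod l, ((ldP c x : ℤ) : ℂ)‖ := by rw [sub_add_cancel]
      _ ≤ P.card + C * Real.sqrt l := (norm_add_le _ _).trans (add_le_add hdiff hnorm)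
      _ ≤ (C + 2 ^ J) * Real.sqrt l := by nlinarith

end Pool.Agent.Work.MP_af11aa_nt.W
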