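import Mathlib
import Pool.Agent.Work.MP_af11aa_nt.W.LegDiff
import Pool.Agent.Work.MP_af11aa_nt.W.CrtAux

/-!
MODULE JacDiff (complete sums of the differenced Jacobi symbol, odd squarefree modulus r).

T_r(h) = ∑_{x mod r} Dl (h) (JZ r) x is multiplicative in r; induct over the prime factors.
-/

set_option autoImplicit false

namespace Pool.Agent.Work.MP_af11aa_nt.W

open Finset

lemma JZ_mul {a b : ℕ} [NeZero a] [NeZero b] (x : ZMod (a * b)) :
    JZ (a * b) x = JZ a (pr1 a b x) * JZ b (pr2 a b x) := by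
  unfold JZ
  rw [pr1_val, pr2_val, jacobiSym.mul_right, Int.cast_mul]
  congr 2
  · rw [jacobiSym.mod_left]; push_cast; rfl
  · rw [jacobiSym.mod_left]; push_cast; rfl

lemma JZ_prime {l : ℕ} [Fact l.Prime] (x : ZMod l) :
    JZ l x = ((quadraticChar (ZMod l) x : ℤ) : ℂ) := by
  unfold JZ
  rw [← jacobiSym.legendreSym.to_jacobiSym]
  unfold legendreSym
  congr 3
  simp

lemma norm_JZ_le (r : ℕ) (x : ZMod r) : ‖JZ r x‖ ≤ 1 := by
  unfold JZ
  rw [Complex.norm_intCast]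
  rcases jacobiSym.trichotomy (x.val : ℤ) r with h | h | h <;> rw [h] <;> simp

lemma jd_prime {J : ℕ} {C : ℝ} (hC1 : 1 ≤ C) {l : ℕ} [hl : Fact l.Prime]
    (hC : ∀ h : Fin J → ZMod l, (∀ j, h j ≠ 0) →
      ‖∑ x : ZMod l, Dl (List.ofFn h) (fun x ↦ ((quadraticChar (ZMod l) x : ℤ) : ℂ)) x‖ ≤
        C * Real.sqrt l) (h : Fin J → ℤ) :
    ‖∑ x : ZMod l, Dl (List.ofFn fun j ↦ ((h j : ℤ) : ZMod l)) (JZ l) x‖ ≤
        C * Real.sqrt l * ∏ j, Real.sqrt (Int.gcd (h j) l) := by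
  have hl0 : 0 < l := hl.out.pos
  have hg1 : ∀ j, (1 : ℝ) ≤ Real.sqrt (Int.gcd (h j) l) := by
    intro j
    rw [Real.one_le_sqrt]
    have : 0 < Int.gcd (h j) l := Int.gcd_pos_of_ne_zero_right _ (by exact_mod_cast hl0.ne')
    exact_mod_cast this
  have hprod : (1 : ℝ) ≤ ∏ j, Real.sqrt (Int.gcd (h j) l) := by
    have := Finset.prod_le_prod (s := Finset.univ) (f := fun _ : Fin J ↦ (1 : ℝ))
      (g := fun j ↦ Real.sqrt (Int.gcd (h j) l)) (fun _ _ ↦ zero_le_one) (fun j _ ↦ hg1 j)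
    simpa using this
  by_cases hj : ∀ j, ((h j : ℤ) : ZMod l) ≠ 0
  · have h1 := hC (fun j ↦ ((h j : ℤ) : ZMod l)) hj
    have h2 : JZ l = fun x ↦ ((quadraticChar (ZMod l) x : ℤ) : ℂ) := by
      funext x
      exact JZ_prime x
    rw [h2]
    refine h1.trans ?_
    have : 0 ≤ C * Real.sqrt l := by positivity
    nlinarith
  · push Not at hj
    obtain ⟨j0, hj0⟩ := hj
    have h1 : ‖∑ x : ZMod l, Dl (List.ofFn fun j ↦ ((h j : ℤ) : ZMod l)) (JZ l) x‖ ≤ l := by
      refine (norm_sum_le _ _).trans ?_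
      refine (Finset.sum_le_card_nsmul _ _ 1 fun x _ ↦ norm_Dl_le_one _ (norm_JZ_le l) x).trans ?_
      rw [Finset.card_univ, ZMod.card, nsmul_eq_mul, mul_one]
    have h2 : (Int.gcd (h j0) l : ℝ) = l := by
      rw [ZMod.intCast_zmod_eq_zero_iff_dvd] at hj0
      have : Int.gcd (h j0) l = l := by
        unfold Int.gcd
        rw [Int.natAbs_natCast]
        exact Nat.gcd_eq_right (Int.natCast_dvd.1 hj0)
      rw [this]
    have h3 : Real.sqrt l ≤ ∏ j, Real.sqrt (Int.gcd (h j) l) := by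
      rw [← Finset.mul_prod_erase Finset.univ _ (Finset.mem_univ j0), h2]
      have h4 : (1 : ℝ) ≤ ∏ j ∈ Finset.univ.erase j0, Real.sqrt (Int.gcd (h j) l) := by
        have := Finset.prod_le_prod (s := Finset.univ.erase j0) (f := fun _ : Fin J ↦ (1 : ℝ))
          (g := fun j ↦ Real.sqrt (Int.gcd (h j) l)) (fun _ _ ↦ zero_le_one) (fun j _ ↦ hg1 j)
        simpa using this
      have := Real.sqrt_nonneg (l : ℝ)
      nlinarith
    refine h1.trans ?_
    have h5 : (l : ℝ) = Real.sqrt l * Real.sqrt l := (Real.mul_self_sqrt (by positivity)).symm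
    have h6 := Real.sqrt_nonneg (l : ℝ)
    calc (l : ℝ) = Real.sqrt l * Real.sqrt l := h5
      _ ≤ Real.sqrt l * ∏ j, Real.sqrt (Int.gcd (h j) l) := mul_le_mul_of_nonneg_left h3 h6
      _ ≤ C * Real.sqrt l * ∏ j, Real.sqrt (Int.gcd (h j) l) := by
          apply mul_le_mul_of_nonneg_right _ (by positivity)
          nlinarith

lemma jd_mul {J a b : ℕ} [NeZero a] [NeZero b] (hab : a.Coprime b) (h : Fin J → ℤ) :
    ∑ x : ZMod (a * b), Dl (List.ofFn fun j ↦ ((h j : ℤ) : ZMod (a * b))) (JZ (a * b)) x =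
      (∑ x : ZMod a, Dl (List.ofFn fun j ↦ ((h j : ℤ) : ZMod a)) (JZ a) x) *
        ∑ x : ZMod b, Dl (List.ofFn fun j ↦ ((h j : ℤ) : ZMod b)) (JZ b) x := by
  rw [← crt_sum_mul hab]
  refine Finset.sum_congr rfl fun x _ ↦ ?_
  rw [crt_Dl (p := pr1 a b) (q := pr2 a b) (map_add _) (map_add _) JZ_mul, ofFn_pr1, ofFn_pr2]

theorem jac_diff (J : ℕ) : ∃ C : ℝ, 1 ≤ C ∧ ∀ (r : ℕ) [NeZero r], Odd r → Squarefree r →
    ∀ h : Fin J → ℤ,
      ‖∑ x : ZMod r, Dl (List.ofFn fun j ↦ ((h j : ℤ) : ZMod r)) (JZ r) x‖ ≤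
        C ^ r.primeFactors.card * Real.sqrt r * ∏ j, Real.sqrt (Int.gcd (h j) r) := by
  obtain ⟨C, hC1, hC⟩ := leg_diff J
  refine ⟨C, hC1, ?_⟩
  intro r
  induction r using Nat.recOnPosPrimePosCoprime with
  | zero => intro hne; exact absurd rfl (NeZero.ne 0)
  | one =>
    intro _ _ _ h
    have : ∑ x : ZMod 1, Dl (List.ofFn fun j ↦ ((h j : ℤ) : ZMod 1)) (JZ 1) x =
        Dl (List.ofFn fun j ↦ ((h j : ℤ) : ZMod 1)) (JZ 1) 0 := by
      rw [Fintype.sum_subsingleton _ (0 : ZMod 1)]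
    rw [this]
    simp only [Nat.primeFactors_one, Finset.card_empty, pow_zero, Nat.cast_one, Real.sqrt_one,
      one_mul]
    refine (norm_Dl_le_one _ (norm_JZ_le 1) _).trans ?_
    simp
  | prime_pow p n hp hn =>
    intro _ hodd hsq h
    have hn1 : n = 1 := by
      by_contra hne
      have : p * p ∣ p ^ n := by
        rw [← sq]
        exact pow_dvd_pow p (by omega)
      exact hp.one_lt.ne' (Nat.isUnit_iff.1 (hsq p this))
    subst hn1
    have : Fact p.Prime := ⟨hp⟩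
    have hp2 : p ≠ 2 := by
      rintro rfl
      rw [pow_one] at hodd
      exact absurd hodd (by decide)
    have key := jd_prime hC1 (hC p hp2) h
    have hcard : (p ^ 1).primeFactors.card = 1 := by
      rw [pow_one, hp.primeFactors, Finset.card_singleton]
    have hC' : C ^ 1 = C := pow_one C
    rw [hcard, hC']
    have e : ∀ (m : ℕ) [NeZero m], m = p →
        ‖∑ x : ZMod m, Dl (List.ofFn fun j ↦ ((h j : ℤ) : ZMod m)) (JZ m) x‖ ≤
        C * Real.sqrt m * ∏ j, Real.sqrt (Int.gcd (h j) m) := by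
      intro m _ hm
      subst hm
      exact key
    exact e (p ^ 1) (pow_one p)
  | coprime a b ha hb hab iha ihb =>
    intro _ hodd hsq h
    have : NeZero a := ⟨by omega⟩
    have : NeZero b := ⟨by omega⟩
    have hsq' := (Nat.squarefree_mul hab).1 hsq
    have hodd' := Nat.odd_mul.1 hodd
    have h1 := iha hodd'.1 hsq'.1 h
    have h2 := ihb hodd'.2 hsq'.2 h
    rw [jd_mul hab, norm_mul, card_primeFactors_mul' hab, pow_add]
    have h3 : Real.sqrt ((a * b : ℕ) : ℝ) = Real.sqrt a * Real.sqrt b := by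
      push_cast
      exact Real.sqrt_mul (by positivity) _
    have h4 : ∏ j, Real.sqrt (Int.gcd (h j) ((a * b : ℕ) : ℤ)) =
        (∏ j, Real.sqrt (Int.gcd (h j) a)) * ∏ j, Real.sqrt (Int.gcd (h j) b) := by
      rw [← Finset.prod_mul_distrib]
      refine Finset.prod_congr rfl fun j _ ↦ ?_
      rw [← Real.sqrt_mul (by positivity)]
      congr 1
      rw [← Nat.cast_mul]
      congr 1
      unfold Int.gcd
      simp only [Int.natAbs_natCast]
      exact Nat.Coprime.gcd_mul _ hab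
    rw [h3, h4]
    calc _ ≤ (C ^ a.primeFactors.card * Real.sqrt a * ∏ j, Real.sqrt (Int.gcd (h j) a)) *
          (C ^ b.primeFactors.card * Real.sqrt b * ∏ j, Real.sqrt (Int.gcd (h j) b)) :=
          mul_le_mul h1 h2 (norm_nonneg _) (by positivity)
      _ = _ := by ring

end Pool.Agent.Work.MP_af11aa_nt.W
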