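import Mathlib
import Pool.Agent.Work.MP_af11aa_nt.W.Diff

/-!
MODULE Vdc (q-van der Corput, iterated).

One step: `Φ` ρ-periodic, ‖Φ‖ ≤ K, `f` supported in [x0, x0+N), ρ H ≤ N.  Then
  |∑ Φ f|² ≤ (2 N K² / H) ∑_{|h|<H} |∑_n f(n) conj f(n+hρ)|.
Proof: H ∑_n Φ(n) f(n) = ∑_n Φ(n) ∑_{0≤h<H} f(n+hρ), where n runs over the N+(H-1)ρ ≤ 2N integers of
[x0-(H-1)ρ, x0+N) (substitute n -> n+hρ and use Φ(n+hρ)=Φ(n)).  Cauchy-Schwarz, open the square, and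
∑_{h,h'} ∑_n f(n+hρ) conj f(n+h'ρ) = ∑_{h,h'} A(h'-h), A(k) = ∑_n f(n) conj f(n+kρ); each k, |k|<H, occurs ≤ H times.
Induction on J: apply the step with Φ_0 to f = (∏_{j≥1} Φ_j) F; f(n) conj f(n+h ρ_0) =
(∏ Dh(hρ_0) Φ_{j+1}) * Dh(hρ_0) F; the new functions are ρ_{j+1}-periodic, bounded by K_{j+1}^2, the new F has
support in the same interval and norm ≤ 1.  Raise to the power 2^J, use (∑_{h} x_h)^{2^J} ≤ (2H)^{2^J-1} ∑ x_h^{2^J}
(inner_le_nnorm_mul_nnorm / Finset.inner... or `inner_mul_le_norm_mul_norm`, e.g. `Real.pow_sum_div_card_le_sum_pow`),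
and the induction hypothesis for each h.  (Fintype.piFinset over Fin (J+1): split off h 0 with Fin.consEquiv /
`Fin.cons`; List.ofFn_succ gives Dl (h0 :: t) F = Dl t (Dh h0 F).)
-/

set_option autoImplicit false

namespace Pool.Agent.Work.MP_af11aa_nt.W

open Finset ComplexConjugate

private lemma vdc_tsum {g : ℤ → ℂ} {B : Finset ℤ} (h : ∀ n, g n ≠ 0 → n ∈ B) :
    ∑' n, g n = ∑ n ∈ B, g n :=
  tsum_eq_sum fun n hn ↦ by
    by_contra h0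
    exact hn (h n h0)

private lemma vdc_step (N H : ℕ) (K : ℝ) (ρ : ℕ) (Φ f : ℤ → ℂ) (x0 : ℤ) (hH : 0 < H)
    (hρ : ρ * H ≤ N) (hper : ∀ n, Φ (n + ρ) = Φ n) (hK : ∀ n, ‖Φ n‖ ≤ K)
    (hf : ∀ n, f n ≠ 0 → x0 ≤ n ∧ n < x0 + N) :
    ‖∑ n ∈ Ico x0 (x0 + N), Φ n * f n‖ ^ 2 ≤ 2 * N * K ^ 2 / H *
      ∑ h ∈ Ioo (-(H : ℤ)) H, ‖∑ n ∈ Ico x0 (x0 + N), f n * conj (f (n + ρ * h))‖ := by
  have hHpos : (0 : ℝ) < H := by exact_mod_cast hH
  have hK0 : 0 ≤ K := (norm_nonneg _).trans (hK 0)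
  have hper' : ∀ (k : ℕ) (n : ℤ), Φ (n + ρ * k) = Φ n := by
    intro k
    induction k with
    | zero => intro n; simp
    | succ k ih =>
      intro n
      have : n + ρ * ((k + 1 : ℕ) : ℤ) = (n + ρ * k) + ρ := by push_cast; ring
      rw [this, hper, ih]
  set I' : Finset ℤ := Ico (x0 - ρ * (H - 1 : ℕ)) (x0 + N) with hI'
  have hcard : (I'.card : ℝ) ≤ 2 * N := by
    have h1 : I'.card ≤ 2 * N := by
      rw [hI', Int.card_Ico]
      have h2 : ρ * (H - 1) ≤ ρ * H := Nat.mul_le_mul_left _ (Nat.sub_le _ _)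
      have h3 : ((ρ * (H - 1) : ℕ) : ℤ) ≤ N := by exact_mod_cast h2.trans hρ
      push_cast at h3
      have h4 : x0 + N - (x0 - ρ * ((H - 1 : ℕ) : ℤ)) ≤ 2 * N := by linarith
      omega
    exact_mod_cast h1
  have hsupp : ∀ k < H, ∀ n : ℤ, f (n + ρ * k) ≠ 0 → n ∈ I' := by
    intro k hk n hn
    obtain ⟨h1, h2⟩ := hf _ hn
    rw [hI', mem_Ico]
    have h3 : (ρ : ℤ) * k ≤ ρ * ((H - 1 : ℕ) : ℤ) :=
      mul_le_mul_of_nonneg_left (by exact_mod_cast (by omega : k ≤ H - 1)) (by positivity)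
    have h4 : (0 : ℤ) ≤ ρ * k := by positivity
    constructor <;> linarith
  set S : ℂ := ∑ n ∈ Ico x0 (x0 + N), Φ n * f n with hS
  have hS1 : S = ∑' n, Φ n * f n := by
    rw [vdc_tsum (B := Ico x0 (x0 + N))]
    intro n hn
    rw [mem_Ico]
    exact hf n (right_ne_zero_of_mul hn)
  have hS2 : ∀ k < H, S = ∑ n ∈ I', Φ n * f (n + ρ * k) := by
    intro k hk
    rw [← vdc_tsum (g := fun n ↦ Φ n * f (n + ρ * k))
      (fun n hn ↦ hsupp k hk n (right_ne_zero_of_mul hn)), hS1,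
      ← (Equiv.addRight ((ρ : ℤ) * k)).tsum_eq]
    refine tsum_congr fun n ↦ ?_
    rw [Equiv.coe_addRight, hper']
  have hS3 : (H : ℂ) * S = ∑ n ∈ I', Φ n * ∑ k ∈ range H, f (n + ρ * k) := by
    have h1 : (H : ℂ) * S = ∑ k ∈ range H, S := by simp
    rw [h1, sum_congr rfl fun k hk ↦ hS2 k (mem_range.1 hk), sum_comm]
    exact sum_congr rfl fun n _ ↦ (mul_sum _ _ _).symm
  -- Cauchy-Schwarz
  have hCS : ((H : ℝ) * ‖S‖) ^ 2 ≤ (2 * N * K ^ 2) *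
      ∑ n ∈ I', ‖∑ k ∈ range H, f (n + ρ * k)‖ ^ 2 := by
    have h1 : (H : ℝ) * ‖S‖ ≤ ∑ n ∈ I', ‖Φ n‖ * ‖∑ k ∈ range H, f (n + ρ * k)‖ := by
      have h2 : (H : ℝ) * ‖S‖ = ‖(H : ℂ) * S‖ := by simp
      rw [h2, hS3]
      refine (norm_sum_le _ _).trans (le_of_eq ?_)
      exact sum_congr rfl fun n _ ↦ norm_mul _ _
    have h2 : (∑ n ∈ I', ‖Φ n‖ * ‖∑ k ∈ range H, f (n + ρ * k)‖) ^ 2 ≤
        (∑ n ∈ I', ‖Φ n‖ ^ 2) * ∑ n ∈ I', ‖∑ k ∈ range H, f (n + ρ * k)‖ ^ 2 :=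
      sum_mul_sq_le_sq_mul_sq _ _ _
    have h3 : ∑ n ∈ I', ‖Φ n‖ ^ 2 ≤ 2 * N * K ^ 2 := by
      calc ∑ n ∈ I', ‖Φ n‖ ^ 2 ≤ ∑ n ∈ I', K ^ 2 :=
            sum_le_sum fun n _ ↦ pow_le_pow_left₀ (norm_nonneg _) (hK n) 2
        _ = I'.card * K ^ 2 := by rw [sum_const, nsmul_eq_mul]
        _ ≤ 2 * N * K ^ 2 := mul_le_mul_of_nonneg_right hcard (by positivity)
    calc ((H : ℝ) * ‖S‖) ^ 2 ≤ (∑ n ∈ I', ‖Φ n‖ * ‖∑ k ∈ range H, f (n + ρ * k)‖) ^ 2 :=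
          pow_le_pow_left₀ (by positivity) h1 2
      _ ≤ _ := h2
      _ ≤ _ := mul_le_mul_of_nonneg_right h3 (sum_nonneg fun _ _ ↦ by positivity)
  -- opening the square
  have hopen : ∑ n ∈ I', ‖∑ k ∈ range H, f (n + ρ * k)‖ ^ 2 ≤
      H * ∑ h ∈ Ioo (-(H : ℤ)) H, ‖∑ n ∈ Ico x0 (x0 + N), f n * conj (f (n + ρ * h))‖ := by
    have h1 : ((∑ n ∈ I', ‖∑ k ∈ range H, f (n + ρ * k)‖ ^ 2 : ℝ) : ℂ) =
        ∑ k ∈ range H, ∑ k' ∈ range H,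
          ∑ n ∈ Ico x0 (x0 + N), f n * conj (f (n + ρ * ((k' : ℤ) - k))) := by
      have h2 : ∀ n : ℤ, ((‖∑ k ∈ range H, f (n + ρ * k)‖ ^ 2 : ℝ) : ℂ) =
          ∑ k ∈ range H, ∑ k' ∈ range H, f (n + ρ * k) * conj (f (n + ρ * k')) := by
        intro n
        rw [← sum_mul_sum, ← map_sum, Complex.mul_conj, Complex.normSq_eq_norm_sq]
      rw [Complex.ofReal_sum, sum_congr rfl fun n _ ↦ h2 n, sum_comm]
      refine sum_congr rfl fun k hk ↦ ?_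
      rw [sum_comm]
      refine sum_congr rfl fun k' _ ↦ ?_
      rw [← vdc_tsum (g := fun n ↦ f (n + ρ * k) * conj (f (n + ρ * k')))
        (fun n hn ↦ hsupp k (mem_range.1 hk) n (left_ne_zero_of_mul hn)),
        ← vdc_tsum (g := fun n ↦ f n * conj (f (n + ρ * ((k' : ℤ) - k))))
        (fun n hn ↦ by
          rw [mem_Ico]
          exact hf n (left_ne_zero_of_mul hn)),
        ← (Equiv.addRight ((ρ : ℤ) * k)).tsum_eq
          (fun n ↦ f n * conj (f (n + ρ * ((k' : ℤ) - k))))]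
      refine tsum_congr fun n ↦ ?_
      rw [Equiv.coe_addRight]
      congr 3
      ring
    have h2 : ∑ n ∈ I', ‖∑ k ∈ range H, f (n + ρ * k)‖ ^ 2 ≤
        ∑ k ∈ range H, ∑ k' ∈ range H,
          ‖∑ n ∈ Ico x0 (x0 + N), f n * conj (f (n + ρ * ((k' : ℤ) - k)))‖ := by
      have h3 := congrArg norm h1
      rw [Complex.norm_real, Real.norm_of_nonneg (sum_nonneg fun _ _ ↦ by positivity)] at h3
      rw [h3]
      refine (norm_sum_le _ _).trans (sum_le_sum fun k _ ↦ ?_)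
      exact norm_sum_le _ _
    refine h2.trans ?_
    have h3 : ∀ k ∈ range H, ∑ k' ∈ range H,
          ‖∑ n ∈ Ico x0 (x0 + N), f n * conj (f (n + ρ * ((k' : ℤ) - k)))‖ ≤
        ∑ h ∈ Ioo (-(H : ℤ)) H, ‖∑ n ∈ Ico x0 (x0 + N), f n * conj (f (n + ρ * h))‖ := by
      intro k hk
      rw [mem_range] at hk
      have h4 : ∑ k' ∈ range H,
          ‖∑ n ∈ Ico x0 (x0 + N), f n * conj (f (n + ρ * ((k' : ℤ) - k)))‖ =
          ∑ h ∈ (range H).image (fun k' : ℕ ↦ (k' : ℤ) - k),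
            ‖∑ n ∈ Ico x0 (x0 + N), f n * conj (f (n + ρ * h))‖ := by
        rw [sum_image]
        intro a _ b _ hab
        simp only at hab
        omega
      rw [h4]
      refine sum_le_sum_of_subset_of_nonneg ?_ fun _ _ _ ↦ norm_nonneg _
      intro h hh
      rw [mem_image] at hh
      obtain ⟨k', hk', rfl⟩ := hh
      rw [mem_range] at hk'
      rw [mem_Ioo]
      constructor <;> omega
    refine (sum_le_sum h3).trans ?_
    rw [sum_const, card_range, nsmul_eq_mul]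
  have hfin : (H : ℝ) ^ 2 * ‖S‖ ^ 2 ≤ (2 * N * K ^ 2) * (H *
      ∑ h ∈ Ioo (-(H : ℤ)) H, ‖∑ n ∈ Ico x0 (x0 + N), f n * conj (f (n + ρ * h))‖) := by
    rw [← mul_pow]
    exact hCS.trans (mul_le_mul_of_nonneg_left hopen (by positivity))
  rw [div_mul_eq_mul_div, le_div_iff₀ hHpos]
  have h1 : (H : ℝ) * (‖S‖ ^ 2 * H) ≤ H * (2 * N * K ^ 2 *
      ∑ h ∈ Ioo (-(H : ℤ)) H, ‖∑ n ∈ Ico x0 (x0 + N), f n * conj (f (n + ρ * h))‖) := by
    linarith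
  exact le_of_mul_le_mul_left h1 hHpos

theorem vdc_iter (J : ℕ) : ∃ C : ℝ, 0 < C ∧ ∀ (N H : ℕ) (K : Fin J → ℝ) (ρ : Fin J → ℕ)
    (Φ : Fin J → ℤ → ℂ) (F : ℤ → ℂ) (x0 : ℤ), 0 < N → 0 < H → (∀ j, ρ j * H ≤ N) →
    (∀ j n, Φ j (n + ρ j) = Φ j n) → (∀ j n, ‖Φ j n‖ ≤ K j) → (∀ n, ‖F n‖ ≤ 1) →
    (∀ n, F n ≠ 0 → x0 ≤ n ∧ n < x0 + N) →
    ‖∑ n ∈ Ico x0 (x0 + N), (∏ j, Φ j n) * F n‖ ^ (2 ^ J) ≤
      C * (∏ j, K j) ^ (2 ^ J) * (N : ℝ) ^ (2 ^ J - 1) / (H : ℝ) ^ J *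
        ∑ h ∈ Fintype.piFinset (fun _ : Fin J ↦ Ioo (-(H : ℤ)) H),
          ‖∑ n ∈ Ico x0 (x0 + N), Dl (List.ofFn fun j ↦ (ρ j : ℤ) * h j) F n‖ := by
  induction J with
  | zero =>
    refine ⟨1, one_pos, ?_⟩
    intro N H K ρ Φ F x0 _ _ _ _ _ _ _
    simp
  | succ J ih =>
    obtain ⟨C, hC, hIH⟩ := ih
    obtain ⟨m, hm⟩ : ∃ m, 2 ^ J = m + 1 := ⟨2 ^ J - 1, by have := Nat.one_le_two_pow (n := J); omega⟩
    refine ⟨2 ^ (2 * m + 1) * C, by positivity, ?_⟩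
    intro N H K ρ Φ F x0 hN hH hρ hper hK hF hsupp
    have hHpos : (0 : ℝ) < H := by exact_mod_cast hH
    have hK0 : ∀ j, 0 ≤ K j := fun j ↦ (norm_nonneg _).trans (hK j 0)
    set f : ℤ → ℂ := fun n ↦ (∏ j : Fin J, Φ j.succ n) * F n with hf
    have hstep := vdc_step N H (K 0) (ρ 0) (Φ 0) f x0 hH (hρ 0) (hper 0) (hK 0)
      (fun n hn ↦ hsupp n (right_ne_zero_of_mul hn))
    have hS : ∑ n ∈ Ico x0 (x0 + N), (∏ j, Φ j n) * F n =
        ∑ n ∈ Ico x0 (x0 + N), Φ 0 n * f n := by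
      refine sum_congr rfl fun n _ ↦ ?_
      rw [Fin.prod_univ_succ, hf, mul_assoc]
    rw [hS]
    set S := ∑ n ∈ Ico x0 (x0 + N), Φ 0 n * f n with hSdef
    -- the terms of the first step
    set X : ℤ → ℝ := fun h ↦ ‖∑ n ∈ Ico x0 (x0 + N), f n * conj (f (n + ρ 0 * h))‖ with hX
    have hXh : ∀ h : ℤ, X h ^ (2 ^ J) ≤
        C * (∏ j : Fin J, K j.succ ^ 2) ^ (2 ^ J) * (N : ℝ) ^ (2 ^ J - 1) / (H : ℝ) ^ J *
        ∑ t ∈ Fintype.piFinset (fun _ : Fin J ↦ Ioo (-(H : ℤ)) H),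
          ‖∑ n ∈ Ico x0 (x0 + N), Dl (List.ofFn fun j ↦ (ρ j.succ : ℤ) * t j)
            (Dh ((ρ 0 : ℤ) * h) F) n‖ := by
      intro h
      have h1 := hIH N H (fun j ↦ K j.succ ^ 2) (fun j ↦ ρ j.succ)
        (fun j ↦ Dh ((ρ 0 : ℤ) * h) (Φ j.succ)) (Dh ((ρ 0 : ℤ) * h) F) x0 hN hH
        (fun j ↦ hρ j.succ)
        (fun j n ↦ by
          simp only [Dh]
          rw [hper, add_right_comm, hper])
        (fun j n ↦ by
          simp only [Dh, norm_mul, Complex.norm_conj]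
          rw [pow_two]
          exact mul_le_mul (hK _ _) (hK _ _) (norm_nonneg _) (hK0 _))
        (fun n ↦ by
          simp only [Dh, norm_mul, Complex.norm_conj]
          exact mul_le_one₀ (hF _) (norm_nonneg _) (hF _))
        (fun n hn ↦ hsupp n (left_ne_zero_of_mul hn))
      refine le_trans (le_of_eq ?_) h1
      rw [hX]
      simp only
      congr 2
      refine sum_congr rfl fun n _ ↦ ?_
      rw [hf]
      simp only [Dh]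
      rw [map_mul, map_prod, prod_mul_distrib]
      ring
    -- the sums over h
    have hsplit : ∑ h ∈ Ioo (-(H : ℤ)) H, ∑ t ∈ Fintype.piFinset (fun _ : Fin J ↦ Ioo (-(H : ℤ)) H),
          ‖∑ n ∈ Ico x0 (x0 + N), Dl (List.ofFn fun j ↦ (ρ j.succ : ℤ) * t j)
            (Dh ((ρ 0 : ℤ) * h) F) n‖ =
        ∑ h ∈ Fintype.piFinset (fun _ : Fin (J + 1) ↦ Ioo (-(H : ℤ)) H),
          ‖∑ n ∈ Ico x0 (x0 + N), Dl (List.ofFn fun j ↦ (ρ j : ℤ) * h j) F n‖ := by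
      rw [← sum_product']
      refine sum_bij' (fun p _ ↦ (Fin.cons p.1 p.2 : Fin (J + 1) → ℤ))
        (fun h _ ↦ (h 0, Fin.tail h)) ?_ ?_ ?_ ?_ ?_
      · rintro ⟨h, t⟩ hp
        rw [mem_product, Fintype.mem_piFinset] at hp
        rw [Fintype.mem_piFinset]
        intro j
        refine Fin.cases ?_ (fun i ↦ ?_) j
        · simpa using hp.1
        · simpa using hp.2 i
      · intro h hh
        rw [Fintype.mem_piFinset] at hh
        rw [mem_product, Fintype.mem_piFinset]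
        exact ⟨hh 0, fun i ↦ hh i.succ⟩
      · rintro ⟨h, t⟩ _
        simp
      · intro h _
        simp
      · rintro ⟨h, t⟩ _
        simp only [List.ofFn_succ, Dl_cons, Fin.cons_zero, Fin.cons_succ]
    have hcard : ((Ioo (-(H : ℤ)) H).card : ℝ) ≤ 2 * H := by
      have h1 : (Ioo (-(H : ℤ)) H).card ≤ 2 * H := by
        rw [Int.card_Ioo]
        omega
      exact_mod_cast h1
    have hpm : (∑ h ∈ Ioo (-(H : ℤ)) H, X h) ^ (m + 1) ≤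
        (2 * H) ^ m * ∑ h ∈ Ioo (-(H : ℤ)) H, X h ^ (m + 1) := by
      have h1 := pow_sum_le_card_mul_sum_pow (s := Ioo (-(H : ℤ)) H) (f := X)
        (fun h _ ↦ norm_nonneg _) m
      refine h1.trans ?_
      refine mul_le_mul_of_nonneg_right (pow_le_pow_left₀ (by positivity) hcard m) ?_
      exact sum_nonneg fun h _ ↦ pow_nonneg (norm_nonneg _) _
    rw [hm] at hXh
    have hexp : 2 ^ (J + 1) = 2 * (m + 1) := by rw [pow_succ, hm]; ring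
    rw [hexp]
    have h1 : ‖S‖ ^ (2 * (m + 1)) ≤ (2 * N * K 0 ^ 2 / H) ^ (m + 1) *
        ((2 * H) ^ m * ∑ h ∈ Ioo (-(H : ℤ)) H, X h ^ (m + 1)) := by
      rw [pow_mul]
      refine (pow_le_pow_left₀ (by positivity) hstep (m + 1)).trans ?_
      rw [mul_pow]
      exact mul_le_mul_of_nonneg_left hpm (by positivity)
    refine h1.trans ?_
    have h2 := sum_le_sum fun h (_ : h ∈ Ioo (-(H : ℤ)) H) ↦ hXh h
    rw [← mul_sum, hsplit] at h2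
    have h3 : (2 * N * K 0 ^ 2 / H) ^ (m + 1) *
        ((2 * (H : ℝ)) ^ m * ∑ h ∈ Ioo (-(H : ℤ)) H, X h ^ (m + 1)) ≤
        (2 * N * K 0 ^ 2 / H) ^ (m + 1) * ((2 * (H : ℝ)) ^ m *
        (C * (∏ j : Fin J, K j.succ ^ 2) ^ (m + 1) * (N : ℝ) ^ (m + 1 - 1) / (H : ℝ) ^ J *
        ∑ h ∈ Fintype.piFinset (fun _ : Fin (J + 1) ↦ Ioo (-(H : ℤ)) H),
          ‖∑ n ∈ Ico x0 (x0 + N), Dl (List.ofFn fun j ↦ (ρ j : ℤ) * h j) F n‖)) := by
      refine mul_le_mul_of_nonneg_left (mul_le_mul_of_nonneg_left h2 (by positivity)) (by positivity)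
    refine h3.trans (le_of_eq ?_)
    rw [Fin.prod_univ_succ, prod_pow]
    have e1 : m + 1 - 1 = m := by omega
    have e2 : 2 * (m + 1) - 1 = 2 * m + 1 := by omega
    rw [e1, e2]
    generalize (∑ h ∈ Fintype.piFinset (fun _ : Fin (J + 1) ↦ Ioo (-(H : ℤ)) H),
          ‖∑ n ∈ Ico x0 (x0 + N), Dl (List.ofFn fun j ↦ (ρ j : ℤ) * h j) F n‖) = Z
    generalize (∏ j : Fin J, K j.succ) = P
    have hH0 : (H : ℝ) ≠ 0 := hHpos.ne'
    rw [div_pow, mul_pow, mul_pow, mul_pow, mul_pow, ← pow_mul, ← pow_mul]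
    field_simp
    ring

end Pool.Agent.Work.MP_af11aa_nt.W
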