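import Mathlib
import Pool.Agent.Work.MP_af11aa_nt.W.Vdc
import Pool.Agent.Work.MP_af11aa_nt.W.JacDiff
import Pool.Agent.Work.MP_af11aa_nt.W.GcdAvg

/-!
MODULE Reg1 (regime I: all factors but a Jacobi symbol are removed).

After the iterated van der Corput inequality the differenced function is a times r0 periodic; its complete
sum factors by the Chinese remainder theorem, and the incomplete sum is at most (N/(a r0)) |complete sum| + a r0.
-/

set_option autoImplicit false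

namespace Pool.Agent.Work.MP_af11aa_nt.W

open Finset

private lemma rg_shift {P : ℕ} {G : ℤ → ℂ} (hG : ∀ n, G (n + P) = G n) (u : ℤ) :
    ∑ i ∈ range P, G (u + i) = ∑ i ∈ range P, G i := by
  have hstep : ∀ u : ℤ, ∑ i ∈ range P, G (u + 1 + i) = ∑ i ∈ range P, G (u + i) := by
    intro u
    have h1 := Finset.sum_range_succ (fun i : ℕ ↦ G (u + i)) P
    have h2 := Finset.sum_range_succ' (fun i : ℕ ↦ G (u + i)) P
    rw [h1] at h2
    simp only [Nat.cast_add, Nat.cast_one, Nat.cast_zero, add_zero] at h2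
    rw [hG u] at h2
    have h3 := add_right_cancel h2
    rw [h3]
    refine sum_congr rfl fun i _ ↦ ?_
    congr 1
    ring
  induction u using Int.induction_on with
  | zero => simp
  | succ i ih => rw [hstep]; exact ih
  | pred i ih =>
    have := hstep (-(i : ℤ) - 1)
    rw [show -(i : ℤ) - 1 + 1 = -(i : ℤ) by ring] at this
    rw [← this]
    exact ih

private lemma rg_interval {P : ℕ} (hP : 0 < P) {G : ℤ → ℂ} (hG : ∀ n, G (n + P) = G n)
    (hb : ∀ n, ‖G n‖ ≤ 1) : ∀ (n : ℕ) (u : ℤ),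
    ‖∑ i ∈ range n, G (u + i)‖ ≤ (n : ℝ) / P * ‖∑ i ∈ range P, G i‖ + P := by
  intro n
  induction n using Nat.strong_induction_on with
  | _ n ih =>
    intro u
    have hP' : (0 : ℝ) < P := by exact_mod_cast hP
    by_cases hn : n < P
    · have h1 : ‖∑ i ∈ range n, G (u + i)‖ ≤ n := by
        refine (norm_sum_le_of_le _ fun i _ ↦ hb _).trans (le_of_eq ?_)
        rw [sum_const, card_range, nsmul_eq_mul, mul_one]
      have h2 : (n : ℝ) ≤ P := by exact_mod_cast hn.le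
      have h3 : 0 ≤ (n : ℝ) / P * ‖∑ i ∈ range P, G i‖ := by positivity
      linarith
    · obtain ⟨m, rfl⟩ : ∃ m, n = P + m := ⟨n - P, by omega⟩
      rw [Finset.sum_range_add]
      have h1 := ih m (by omega) (u + P)
      have h2 : ∀ i : ℕ, G (u + ((P + i : ℕ) : ℤ)) = G (u + P + i) := by
        intro i
        congr 1
        push_cast
        ring
      simp only [h2]
      refine (norm_add_le _ _).trans ?_
      rw [rg_shift hG u]
      push_cast
      have h3 : ((P : ℝ) + m) / P * ‖∑ i ∈ range P, G i‖ =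
          ‖∑ i ∈ range P, G i‖ + (m : ℝ) / P * ‖∑ i ∈ range P, G i‖ := by
        field_simp
      rw [h3]
      linarith

private lemma rg_Ico (G : ℤ → ℂ) (u v : ℤ) :
    ∑ n ∈ Ico u v, G n = ∑ i ∈ range (v - u).toNat, G (u + i) := by
  refine Finset.sum_nbij' (fun n ↦ (n - u).toNat) (fun i ↦ u + i) ?_ ?_ ?_ ?_ ?_
  · intro n hn
    rw [mem_Ico] at hn
    rw [mem_range]
    omega
  · intro i hi
    rw [mem_range] at hi
    rw [mem_Ico]
    omega
  · intro n hn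
    rw [mem_Ico] at hn
    omega
  · intro i _
    omega
  · intro n hn
    rw [mem_Ico] at hn
    congr 1
    omega

private lemma rg_per {a : ℕ} {V : ℤ → ℂ} (hV : ∀ n, V (n + a) = V n) (n : ℤ) :
    V (((n : ZMod a).val : ℕ) : ℤ) = V n ∨ a = 0 := by
  rcases Nat.eq_zero_or_pos a with h | h
  · exact Or.inr h
  · left
    haveI : NeZero a := ⟨h.ne'⟩
    rw [ZMod.val_intCast]
    have h1 : Function.Periodic V (a : ℤ) := hV
    have h2 := (h1.int_mul (n / a)) (n % a)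
    have h3 : n % a + n / a * a = n := Int.emod_add_ediv_mul n a
    simp only [Int.cast_natCast, Int.cast_id] at h2
    rw [h3] at h2
    exact h2.symm

/-- the complete sum over a period of a product -/
private lemma rg_complete {a r0 : ℕ} [NeZero a] [NeZero r0] (hc : a.Coprime r0) {V : ℤ → ℂ}
    (hV : ∀ n, V (n + a) = V n) (hV1 : ∀ n, ‖V n‖ ≤ 1) (g : ZMod r0 → ℂ) (β D : ℤ)
    (hD : IsUnit (D : ZMod r0)) :
    ‖∑ i ∈ range (a * r0), V i * g (((β + D * (i : ℤ) : ℤ)) : ZMod r0)‖ ≤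
      a * ‖∑ x : ZMod r0, g x‖ := by
  have hV' : ∀ n : ℤ, V n = V (((n : ZMod a).val : ℕ) : ℤ) := by
    intro n
    rcases rg_per hV n with h | h
    · exact h.symm
    · exact absurd h (NeZero.ne a)
  haveI : NeZero (a * r0) := ⟨mul_ne_zero (NeZero.ne a) (NeZero.ne r0)⟩
  have h1 : ∑ i ∈ range (a * r0), V i * g (((β + D * (i : ℤ) : ℤ)) : ZMod r0) =
      ∑ p : ZMod a × ZMod r0, V ((p.1.val : ℕ) : ℤ) * g ((β : ZMod r0) + (D : ZMod r0) * p.2) := by
    let e := (ZMod.chineseRemainder hc)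
    refine Finset.sum_nbij' (fun i ↦ ((i : ZMod a), (i : ZMod r0)))
      (fun p ↦ (e.symm p).val) ?_ ?_ ?_ ?_ ?_
    · intro i _
      exact mem_univ _
    · intro p _
      rw [mem_range]
      exact ZMod.val_lt _
    · intro i hi
      rw [mem_range] at hi
      have h2 : ((i : ZMod a), (i : ZMod r0)) = e ((i : ℕ) : ZMod (a * r0)) := by
        rw [map_natCast]
        rfl
      rw [h2, RingEquiv.symm_apply_apply, ZMod.val_natCast, Nat.mod_eq_of_lt hi]
    · intro p _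
      have h2 : (((e.symm p).val : ZMod a), ((e.symm p).val : ZMod r0)) =
          e (((e.symm p).val : ℕ) : ZMod (a * r0)) := by
        rw [map_natCast]
        rfl
      rw [h2, ZMod.natCast_zmod_val, RingEquiv.apply_symm_apply]
    · intro i _
      simp only
      rw [hV' (i : ℤ)]
      push_cast
      rfl
  rw [h1, Fintype.sum_prod_type]
  have h2 : ∀ x : ZMod a, ∑ y : ZMod r0, V ((x.val : ℕ) : ℤ) *
      g ((β : ZMod r0) + (D : ZMod r0) * y) = V ((x.val : ℕ) : ℤ) * ∑ x : ZMod r0, g x := by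
    intro x
    rw [← mul_sum]
    congr 1
    obtain ⟨w, hw⟩ := hD
    rw [← hw]
    exact Fintype.sum_equiv ((Units.mulLeft w).trans (Equiv.addLeft (β : ZMod r0))) _ _
      (fun y ↦ rfl)
  simp only
  rw [sum_congr rfl fun x _ ↦ h2 x, ← sum_mul, norm_mul]
  refine mul_le_mul_of_nonneg_right ?_ (norm_nonneg _)
  refine (norm_sum_le_of_le _ fun i _ ↦ hV1 _).trans (le_of_eq ?_)
  rw [sum_const, card_univ, ZMod.card, nsmul_eq_mul, mul_one]

/-- the inner sum -/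
private lemma rg_inner {J : ℕ} {C2 : ℝ} (hC2 : 1 ≤ C2)
    (hjac : ∀ (r : ℕ) [NeZero r], Odd r → Squarefree r →
    ∀ h : Fin J → ℤ,
      ‖∑ x : ZMod r, Dl (List.ofFn fun j ↦ ((h j : ℤ) : ZMod r)) (JZ r) x‖ ≤
        C2 ^ r.primeFactors.card * Real.sqrt r * ∏ j, Real.sqrt (Int.gcd (h j) r))
    {a D N r0 : ℕ} {r : Fin J → ℕ} {E : ℤ → ℂ} {β u v : ℤ} (ha : 0 < a) (hodd : Odd r0)
    (hsq : Squarefree r0) (hca : r0.Coprime a) (hcD : r0.Coprime D)
    (hcr : ∀ j, r0.Coprime (r j)) (hE : ∀ n, E (n + a) = E n) (hE1 : ∀ n, ‖E n‖ ≤ 1)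
    (huv : v - u ≤ N) (h : Fin J → ℤ) :
    ‖∑ n ∈ Ico u (u + N), Dl (List.ofFn fun j ↦ (r j : ℤ) * h j)
      (fun n ↦ if u ≤ n ∧ n < v then E n * ((jacobiSym (β + D * n) r0 : ℤ) : ℂ) else 0) n‖ ≤
      N / Real.sqrt r0 * (C2 ^ r0.primeFactors.card * ∏ j, (Int.gcd (h j) r0 : ℝ)) + a * r0 := by
  classical
  have hr0 : 0 < r0 := Nat.pos_of_ne_zero hsq.ne_zero
  have : NeZero r0 := ⟨hr0.ne'⟩
  have : NeZero a := ⟨ha.ne'⟩
  set t : List ℤ := List.ofFn fun j ↦ (r j : ℤ) * h j with ht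
  obtain ⟨u', v', hu', hv', hI⟩ := Dl_interval t u v
  have hv'' : v' ≤ u + N := by linarith
  have h1 : ∑ n ∈ Ico u (u + N), Dl t
      (fun n ↦ if u ≤ n ∧ n < v then E n * ((jacobiSym (β + D * n) r0 : ℤ) : ℂ) else 0) n =
      ∑ n ∈ Ico u' v', Dl t (fun n ↦ E n * ((jacobiSym (β + D * n) r0 : ℤ) : ℂ)) n := by
    rw [sum_congr rfl fun n _ ↦ hI (fun n ↦ E n * ((jacobiSym (β + D * n) r0 : ℤ) : ℂ)) n,
      ← sum_filter]
    refine sum_congr ?_ fun _ _ ↦ rfl
    ext n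
    rw [mem_filter, mem_Ico, mem_Ico]
    constructor
    · rintro ⟨_, h2⟩
      exact h2
    · rintro ⟨h2, h3⟩
      exact ⟨⟨by linarith, by linarith⟩, h2, h3⟩
  rw [h1]
  set g : ZMod r0 → ℂ := Dl (List.ofFn fun j ↦ (((D : ℤ) * ((r j : ℤ) * h j) : ℤ) : ZMod r0))
    (JZ r0) with hg
  have hjacfun : (fun n : ℤ ↦ ((jacobiSym (β + D * n) r0 : ℤ) : ℂ)) =
      JZ r0 ∘ fun n : ℤ ↦ (((β + (D : ℤ) * n : ℤ)) : ZMod r0) := by
    funext n
    simp only [Function.comp_apply, JZ]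
    rw [ZMod.val_intCast, ← jacobiSym.mod_left]
  have h2 : ∀ n, Dl t (fun n ↦ E n * ((jacobiSym (β + D * n) r0 : ℤ) : ℂ)) n =
      Dl t E n * g (((β + (D : ℤ) * n : ℤ)) : ZMod r0) := by
    intro n
    rw [Dl_mul]
    simp only
    rw [hjacfun, Dl_comp t (fun n : ℤ ↦ (((β + (D : ℤ) * n : ℤ)) : ZMod r0))
      (fun n : ℤ ↦ (((D : ℤ) * n : ℤ) : ZMod r0)) (by intro x y; push_cast; ring)]
    rw [ht, ofFn_map]
    rfl
  rw [sum_congr rfl fun n _ ↦ h2 n, rg_Ico]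
  -- periodicity
  have hV : ∀ n, Dl t E (n + a) = Dl t E n := Dl_periodic t hE
  have hV1 : ∀ n, ‖Dl t E n‖ ≤ 1 := norm_Dl_le_one t hE1
  have hJZ1 : ∀ x, ‖JZ r0 x‖ ≤ 1 := by
    intro x
    unfold JZ
    rcases jacobiSym.trichotomy (x.val : ℤ) r0 with h | h | h <;> rw [h] <;> simp
  have hg1 : ∀ x, ‖g x‖ ≤ 1 := norm_Dl_le_one _ hJZ1
  have hP : 0 < a * r0 := Nat.mul_pos ha hr0
  have hDu : IsUnit (((D : ℤ)) : ZMod r0) := by
    have := (ZMod.isUnit_iff_coprime D r0).2 hcD.symm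
    exact_mod_cast this
  have hcomp := rg_complete hca.symm hV hV1 g β (D : ℤ) hDu
  have hper : ∀ n : ℤ, Dl t E (n + (a * r0 : ℕ)) *
      g (((β + (D : ℤ) * (n + (a * r0 : ℕ)) : ℤ)) : ZMod r0) =
      Dl t E n * g (((β + (D : ℤ) * n : ℤ)) : ZMod r0) := by
    intro n
    have e1 : Dl t E (n + (a * r0 : ℕ)) = Dl t E n := by
      have h1 : Function.Periodic (Dl t E) (a : ℤ) := hV
      have h2 := (h1.int_mul (r0 : ℤ)) n
      simp only [Int.cast_natCast] at h2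
      rw [← h2]
      congr 1
      push_cast
      ring
    have e2 : (((β + (D : ℤ) * (n + (a * r0 : ℕ)) : ℤ)) : ZMod r0) =
        (((β + (D : ℤ) * n : ℤ)) : ZMod r0) := by
      push_cast
      simp
    rw [e1, e2]
  have hint := rg_interval hP (G := fun n ↦ Dl t E n * g (((β + (D : ℤ) * n : ℤ)) : ZMod r0))
    hper (by
      intro n
      rw [norm_mul]
      exact mul_le_one₀ (hV1 _) (norm_nonneg _) (hg1 _)) (v' - u').toNat u'
  refine hint.trans ?_
  have hr0' : (0 : ℝ) < r0 := by exact_mod_cast hr0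
  have ha' : (0 : ℝ) < a := by exact_mod_cast ha
  have hsum : ‖∑ x : ZMod r0, g x‖ ≤
      C2 ^ r0.primeFactors.card * Real.sqrt r0 * ∏ j, (Int.gcd (h j) r0 : ℝ) := by
    refine (hjac r0 hodd hsq fun j ↦ (D : ℤ) * ((r j : ℤ) * h j)).trans ?_
    refine mul_le_mul_of_nonneg_left ?_ (by positivity)
    refine prod_le_prod (fun _ _ ↦ Real.sqrt_nonneg _) fun j _ ↦ ?_
    have hgcd : Int.gcd ((D : ℤ) * ((r j : ℤ) * h j)) r0 = Int.gcd (h j) r0 := by
      have hco : Nat.Coprime (D * r j) r0 := (Nat.Coprime.mul_right hcD (hcr j)).symm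
      unfold Int.gcd
      rw [← mul_assoc, Int.natAbs_mul, Int.natAbs_mul, Int.natAbs_natCast, Int.natAbs_natCast,
        Int.natAbs_natCast]
      exact Nat.Coprime.gcd_mul_left_cancel (h j).natAbs hco
    rw [hgcd]
    have hpos : (1 : ℝ) ≤ (Int.gcd (h j) r0 : ℝ) := by
      have : 0 < Int.gcd (h j) r0 := Int.gcd_pos_of_ne_zero_right _ (by exact_mod_cast hr0.ne')
      exact_mod_cast this
    rw [Real.sqrt_le_left (by linarith)]
    nlinarith
  have hlen : (((v' - u').toNat : ℕ) : ℝ) ≤ N := by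
    have : (v' - u').toNat ≤ N := by omega
    exact_mod_cast this
  have hsqrt : 0 < Real.sqrt r0 := Real.sqrt_pos.2 hr0'
  have hss : Real.sqrt r0 * Real.sqrt r0 = r0 := Real.mul_self_sqrt hr0'.le
  have hprod : (0 : ℝ) ≤ ∏ j, (Int.gcd (h j) r0 : ℝ) := prod_nonneg fun _ _ ↦ by positivity
  have hfin : (((v' - u').toNat : ℕ) : ℝ) / ((a * r0 : ℕ) : ℝ) *
      ‖∑ i ∈ range (a * r0), (fun n ↦ Dl t E n * g (((β + (D : ℤ) * n : ℤ)) : ZMod r0)) i‖ ≤
      N / Real.sqrt r0 * (C2 ^ r0.primeFactors.card * ∏ j, (Int.gcd (h j) r0 : ℝ)) := by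
    calc _ ≤ (N : ℝ) / ((a * r0 : ℕ) : ℝ) * (a * (C2 ^ r0.primeFactors.card * Real.sqrt r0 *
          ∏ j, (Int.gcd (h j) r0 : ℝ))) := by
          apply mul_le_mul _ (hcomp.trans (mul_le_mul_of_nonneg_left hsum ha'.le))
            (norm_nonneg _) (by positivity)
          exact div_le_div_of_nonneg_right hlen (by positivity)
      _ = N / Real.sqrt r0 * (C2 ^ r0.primeFactors.card * ∏ j, (Int.gcd (h j) r0 : ℝ)) := by
          push_cast
          rw [div_mul_eq_mul_div, div_mul_eq_mul_div, div_eq_div_iff (by positivity) hsqrt.ne']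
          linear_combination ((N : ℝ) * a * C2 ^ r0.primeFactors.card *
            ∏ j, (Int.gcd (h j) r0 : ℝ)) * hss
  have hlast : (((a * r0 : ℕ) : ℕ) : ℝ) = a * r0 := by push_cast; ring
  rw [hlast] at hfin ⊢
  linarith

theorem regime_one (J : ℕ) (ε : ℝ) (hε : 0 < ε) : ∃ C : ℝ, 0 < C ∧
    ∀ (a D N H r0 : ℕ) (r : Fin J → ℕ) (Φ : Fin J → ℤ → ℂ) (K : ℝ) (E : ℤ → ℂ) (β u v : ℤ),
      0 < a → 0 < N → 0 < H → Odd r0 → Squarefree r0 → r0.Coprime a → r0.Coprime D →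
      (∀ j, r0.Coprime (r j)) → (∀ j, r j * H ≤ N) → (∀ j n, Φ j (n + r j) = Φ j n) →
      (∀ j n, ‖Φ j n‖ ≤ K) → 0 ≤ K → (∀ n, E (n + a) = E n) → (∀ n, ‖E n‖ ≤ 1) →
      v - u ≤ N →
      ‖∑ n ∈ Ico u v, (∏ j, Φ j n) * (E n * ((jacobiSym (β + D * n) r0 : ℤ) : ℂ))‖ ≤
        C * K ^ J * (r0 : ℝ) ^ ε * N *
          (1 / H + 1 / Real.sqrt r0 + a * r0 / N) ^ ((1 / 2 : ℝ) ^ J) := by
  classical
  obtain ⟨C1, hC1, hvdc⟩ := vdc_iter J
  obtain ⟨C2, hC2, hjac⟩ := jac_diff J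
  obtain ⟨C3, hC3, homega⟩ := omega_bound C2 (ε / (J + 1)) hC2 (by positivity)
  obtain ⟨M, hM⟩ : ∃ M : ℝ, M = J * 2 ^ J + 2 ^ J * C3 ^ (J + 1) + 2 ^ J := ⟨_, rfl⟩
  have hM0 : 0 < M := by rw [hM]; positivity
  have hC20 : 0 < C2 := by linarith
  refine ⟨(C1 * M) ^ ((1 / 2 : ℝ) ^ J), by positivity, ?_⟩
  intro a D N H r0 r Φ K E β u v ha hN hH hodd hsq hca hcD hcr hrH hΦ hΦK hK hE hE1 huv
  have hr0 : 0 < r0 := Nat.pos_of_ne_zero hsq.ne_zero
  have hr0' : (0 : ℝ) < r0 := by exact_mod_cast hr0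
  have ha' : (0 : ℝ) < a := by exact_mod_cast ha
  have hN' : (0 : ℝ) < N := by exact_mod_cast hN
  have hH' : (0 : ℝ) < H := by exact_mod_cast hH
  have hsqrt : 0 < Real.sqrt r0 := Real.sqrt_pos.2 hr0'
  set X : ℝ := 1 / H + 1 / Real.sqrt r0 + a * r0 / N with hX
  have hX0 : 0 < X := by rw [hX]; positivity
  set F : ℤ → ℂ := fun n ↦ if u ≤ n ∧ n < v then
    E n * ((jacobiSym (β + D * n) r0 : ℤ) : ℂ) else 0 with hF
  have hjb : ∀ n : ℤ, ‖((jacobiSym (β + D * n) r0 : ℤ) : ℂ)‖ ≤ 1 := by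
    intro n
    rcases jacobiSym.trichotomy (β + D * n) r0 with h | h | h <;> rw [h] <;> simp
  have hF1 : ∀ n, ‖F n‖ ≤ 1 := by
    intro n
    rw [hF]
    simp only
    split_ifs
    · rw [norm_mul]
      exact mul_le_one₀ (hE1 n) (norm_nonneg _) (hjb n)
    · simp
  set S := ∑ n ∈ Ico u v, (∏ j, Φ j n) * (E n * ((jacobiSym (β + D * n) r0 : ℤ) : ℂ)) with hS
  have hSF : S = ∑ n ∈ Ico u (u + N), (∏ j, Φ j n) * F n := by
    rw [hS]
    have h1 : ∀ n ∈ Ico u v, (∏ j, Φ j n) * (E n * ((jacobiSym (β + D * n) r0 : ℤ) : ℂ)) =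
        (∏ j, Φ j n) * F n := by
      intro n hn
      rw [mem_Ico] at hn
      rw [hF]
      simp only
      rw [if_pos hn]
    rw [sum_congr rfl h1]
    apply sum_subset
    · intro n hn
      rw [mem_Ico] at hn ⊢
      constructor <;> linarith [hn.1, hn.2]
    · intro n _ hn
      rw [mem_Ico] at hn
      rw [hF]
      simp only
      rw [if_neg hn, mul_zero]
  have hV := hvdc N H (fun _ ↦ K) r Φ F u hN hH hrH hΦ hΦK hF1 (by
    intro n hn
    by_cases h : u ≤ n ∧ n < v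
    · exact ⟨h.1, by linarith [h.2]⟩
    · exact absurd (by rw [hF]; simp only; rw [if_neg h]) hn)
  rw [← hSF, prod_const, card_univ, Fintype.card_fin] at hV
  -- the sum over h
  set B : Finset (Fin J → ℤ) := Fintype.piFinset (fun _ : Fin J ↦ Ioo (-(H : ℤ)) H) with hB
  set T : (Fin J → ℤ) → ℝ := fun h ↦
    ‖∑ n ∈ Ico u (u + N), Dl (List.ofFn fun j ↦ (r j : ℤ) * h j) F n‖ with hT
  have hTN : ∀ h, T h ≤ N := by
    intro h
    rw [hT]
    simp only
    refine (norm_sum_le_of_le _ fun n _ ↦ norm_Dl_le_one _ hF1 n).trans (le_of_eq ?_)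
    rw [sum_const, nsmul_eq_mul, mul_one, Int.card_Ico]
    simp
  have hTin : ∀ h, T h ≤ N / Real.sqrt r0 *
      (C2 ^ r0.primeFactors.card * ∏ j, (Int.gcd (h j) r0 : ℝ)) + a * r0 := fun h ↦
    rg_inner hC2 (fun r _ ↦ hjac r) ha hodd hsq hca hcD hcr hE hE1 huv h
  have hB0 : ∑ h ∈ B.filter (fun h ↦ ∃ j, h j = 0), T h ≤ H ^ J * N * (J * 2 ^ J / H) := by
    have h1 : ∑ h ∈ B.filter (fun h ↦ ∃ j, h j = 0), T h ≤
        ((B.filter (fun h ↦ ∃ j, h j = 0)).card : ℝ) * N := by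
      refine (sum_le_sum fun h _ ↦ hTN h).trans (le_of_eq ?_)
      rw [sum_const, nsmul_eq_mul]
    have h2 := card_zero J H hH
    refine h1.trans ?_
    have h3 : ((B.filter (fun h ↦ ∃ j, h j = 0)).card : ℝ) ≤ J * (2 * H : ℝ) ^ J / H := by
      rw [le_div_iff₀ hH']
      exact h2
    calc ((B.filter (fun h ↦ ∃ j, h j = 0)).card : ℝ) * N ≤ (J * (2 * H : ℝ) ^ J / H) * N :=
          mul_le_mul_of_nonneg_right h3 hN'.le
      _ = _ := by rw [mul_pow]; ring
  have hB1eq : B.filter (fun h ↦ ¬ ∃ j, h j = 0) =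
      Fintype.piFinset (fun _ : Fin J ↦ (Ioo (-(H : ℤ)) H).filter (· ≠ 0)) := by
    ext h
    simp only [hB, mem_filter, Fintype.mem_piFinset, not_exists]
    constructor
    · rintro ⟨h1, h2⟩ j
      exact ⟨h1 j, h2 j⟩
    · intro h1
      exact ⟨fun j ↦ (h1 j).1, fun j ↦ (h1 j).2⟩
  have hω : C2 ^ r0.primeFactors.card * (r0.divisors.card : ℝ) ^ J ≤
      C3 ^ (J + 1) * (r0 : ℝ) ^ ε := by
    have h1 := homega r0 hr0
    have hc1 : 1 ≤ C2 ^ r0.primeFactors.card := one_le_pow₀ hC2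
    have hd1 : (1 : ℝ) ≤ (r0.divisors.card : ℝ) := by
      have : 0 < r0.divisors.card := card_pos.2 ⟨1, Nat.one_mem_divisors.2 hr0.ne'⟩
      exact_mod_cast this
    calc C2 ^ r0.primeFactors.card * (r0.divisors.card : ℝ) ^ J
        ≤ (C2 ^ r0.primeFactors.card) ^ (J + 1) * (r0.divisors.card : ℝ) ^ (J + 1) := by
          apply mul_le_mul _ _ (by positivity) (by positivity)
          · exact le_self_pow₀ hc1 (by omega)
          · exact pow_le_pow_right₀ hd1 (by omega)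
      _ = (C2 ^ r0.primeFactors.card * (r0.divisors.card : ℝ)) ^ (J + 1) := by rw [mul_pow]
      _ ≤ (C3 * (r0 : ℝ) ^ (ε / (J + 1))) ^ (J + 1) := pow_le_pow_left₀ (by positivity) h1 _
      _ = C3 ^ (J + 1) * (r0 : ℝ) ^ ε := by
          rw [mul_pow, ← Real.rpow_natCast ((r0 : ℝ) ^ (ε / (J + 1))),
            ← Real.rpow_mul hr0'.le]
          congr 2
          push_cast
          field_simp
  have hB1 : ∑ h ∈ B.filter (fun h ↦ ¬ ∃ j, h j = 0), T h ≤
      H ^ J * N * (2 ^ J * C3 ^ (J + 1) * (r0 : ℝ) ^ ε / Real.sqrt r0 + 2 ^ J * (a * r0 / N)) := by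
    rw [hB1eq]
    refine (sum_le_sum fun h _ ↦ hTin h).trans ?_
    rw [sum_add_distrib, ← mul_sum, ← mul_sum, sum_const, nsmul_eq_mul]
    have h1 := gcd_avg_prod J H r0 hr0
    have h2 : ((Fintype.piFinset
        (fun _ : Fin J ↦ (Ioo (-(H : ℤ)) H).filter (· ≠ 0))).card : ℝ) ≤ (2 * H : ℝ) ^ J := by
      rw [Fintype.card_piFinset, prod_const, card_univ, Fintype.card_fin]
      have h3 : ((Ioo (-(H : ℤ)) H).filter (· ≠ 0)).card ≤ 2 * H := by
        refine (card_filter_le _ _).trans ?_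
        rw [Int.card_Ioo]
        omega
      have h4 : ((((Ioo (-(H : ℤ)) H).filter (· ≠ 0)).card : ℕ) : ℝ) ≤ 2 * H := by
        exact_mod_cast h3
      push_cast
      exact pow_le_pow_left₀ (by positivity) h4 J
    calc _ ≤ N / Real.sqrt r0 * (C2 ^ r0.primeFactors.card *
          (2 * H * r0.divisors.card : ℝ) ^ J) + (2 * H : ℝ) ^ J * (a * r0) := by
          apply add_le_add
          · apply mul_le_mul_of_nonneg_left _ (by positivity)
            exact mul_le_mul_of_nonneg_left h1 (by positivity)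
          · exact mul_le_mul_of_nonneg_right h2 (by positivity)
      _ = N / Real.sqrt r0 * (2 ^ J * H ^ J) * (C2 ^ r0.primeFactors.card *
          (r0.divisors.card : ℝ) ^ J) + (2 * H : ℝ) ^ J * (a * r0) := by
          rw [mul_pow, mul_pow]; ring
      _ ≤ N / Real.sqrt r0 * (2 ^ J * H ^ J) * (C3 ^ (J + 1) * (r0 : ℝ) ^ ε) +
          (2 * H : ℝ) ^ J * (a * r0) := by
          apply add_le_add _ le_rfl
          exact mul_le_mul_of_nonneg_left hω (by positivity)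
      _ = _ := by
          rw [mul_pow]
          field_simp
  have hr1 : (1 : ℝ) ≤ (r0 : ℝ) ^ ε := by
    apply Real.one_le_rpow _ hε.le
    exact_mod_cast hr0
  have hsumT : ∑ h ∈ B, T h ≤ H ^ J * N * (M * (r0 : ℝ) ^ ε * X) := by
    rw [← sum_filter_add_sum_filter_not B (fun h ↦ ∃ j, h j = 0)]
    refine (add_le_add hB0 hB1).trans ?_
    rw [← mul_add]
    apply mul_le_mul_of_nonneg_left _ (by positivity)
    have e1 : (J * 2 ^ J / H : ℝ) ≤ (J * 2 ^ J) * (r0 : ℝ) ^ ε * X := by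
      have : (1 / H : ℝ) ≤ (r0 : ℝ) ^ ε * X := by
        have h1 : (1 / H : ℝ) ≤ X := by
          rw [hX]
          have : 0 ≤ 1 / Real.sqrt r0 := by positivity
          have : (0 : ℝ) ≤ a * r0 / N := by positivity
          linarith
        nlinarith
      calc (J * 2 ^ J / H : ℝ) = (J * 2 ^ J) * (1 / H) := by ring
        _ ≤ (J * 2 ^ J) * ((r0 : ℝ) ^ ε * X) := mul_le_mul_of_nonneg_left this (by positivity)
        _ = _ := by ring
    have e2 : (2 ^ J * C3 ^ (J + 1) * (r0 : ℝ) ^ ε / Real.sqrt r0 : ℝ) ≤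
        (2 ^ J * C3 ^ (J + 1)) * (r0 : ℝ) ^ ε * X := by
      have h1 : 1 / Real.sqrt r0 ≤ X := by
        rw [hX]
        have : (0 : ℝ) ≤ 1 / H := by positivity
        have : (0 : ℝ) ≤ a * r0 / N := by positivity
        linarith
      calc (2 ^ J * C3 ^ (J + 1) * (r0 : ℝ) ^ ε / Real.sqrt r0 : ℝ)
          = (2 ^ J * C3 ^ (J + 1)) * (r0 : ℝ) ^ ε * (1 / Real.sqrt r0) := by ring
        _ ≤ _ := mul_le_mul_of_nonneg_left h1 (by positivity)
    have e3 : (2 ^ J * (a * r0 / N) : ℝ) ≤ 2 ^ J * (r0 : ℝ) ^ ε * X := by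
      have h1 : (a * r0 / N : ℝ) ≤ (r0 : ℝ) ^ ε * X := by
        have h2 : (a * r0 / N : ℝ) ≤ X := by
          rw [hX]
          have : 0 ≤ 1 / Real.sqrt r0 := by positivity
          have : (0 : ℝ) ≤ 1 / H := by positivity
          linarith
        nlinarith
      calc (2 ^ J * (a * r0 / N) : ℝ) ≤ 2 ^ J * ((r0 : ℝ) ^ ε * X) :=
            mul_le_mul_of_nonneg_left h1 (by positivity)
        _ = _ := by ring
    rw [hM]
    nlinarith
  have hmain : ‖S‖ ^ (2 ^ J) ≤ C1 * M * (K ^ J) ^ (2 ^ J) * (N : ℝ) ^ (2 ^ J) *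
      ((r0 : ℝ) ^ ε * X) := by
    refine hV.trans ?_
    calc C1 * (K ^ J) ^ (2 ^ J) * (N : ℝ) ^ (2 ^ J - 1) / (H : ℝ) ^ J * ∑ h ∈ B, T h
        ≤ C1 * (K ^ J) ^ (2 ^ J) * (N : ℝ) ^ (2 ^ J - 1) / (H : ℝ) ^ J *
          (H ^ J * N * (M * (r0 : ℝ) ^ ε * X)) := by
          apply mul_le_mul_of_nonneg_left hsumT
          positivity
      _ = C1 * M * (K ^ J) ^ (2 ^ J) * ((N : ℝ) ^ (2 ^ J - 1) * N) * ((r0 : ℝ) ^ ε * X) := by
          field_simp
      _ = _ := by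
          rw [← pow_succ]
          congr 3
          have : 0 < 2 ^ J := by positivity
          congr 1
          omega
  -- roots
  set q : ℝ := (1 / 2 : ℝ) ^ J with hq
  have hq0 : 0 < q := by rw [hq]; positivity
  have hq1 : q ≤ 1 := by
    rw [hq]
    exact pow_le_one₀ (by norm_num) (by norm_num)
  have hroot : ∀ x : ℝ, 0 ≤ x → (x ^ (2 ^ J : ℕ)) ^ q = x := by
    intro x hx
    rw [← Real.rpow_natCast, ← Real.rpow_mul hx]
    have : ((2 ^ J : ℕ) : ℝ) * q = 1 := by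
      rw [hq]
      push_cast
      rw [← mul_pow]
      norm_num
    rw [this, Real.rpow_one]
  have hKJ : 0 ≤ K ^ J := pow_nonneg hK J
  calc ‖S‖ = (‖S‖ ^ (2 ^ J : ℕ)) ^ q := (hroot _ (norm_nonneg _)).symm
    _ ≤ (C1 * M * (K ^ J) ^ (2 ^ J) * (N : ℝ) ^ (2 ^ J) * ((r0 : ℝ) ^ ε * X)) ^ q :=
        Real.rpow_le_rpow (by positivity) hmain hq0.le
    _ = (C1 * M) ^ q * K ^ J * N * (((r0 : ℝ) ^ ε) ^ q * X ^ q) := by
        rw [Real.mul_rpow (by positivity) (by positivity),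
          Real.mul_rpow (by positivity) (by positivity),
          Real.mul_rpow (by positivity) (by positivity), hroot _ hKJ, hroot _ hN'.le,
          Real.mul_rpow (x := (r0 : ℝ) ^ ε) (y := X) (by positivity) hX0.le]
    _ ≤ (C1 * M) ^ q * K ^ J * N * ((r0 : ℝ) ^ ε * X ^ q) := by
        apply mul_le_mul_of_nonneg_left _ (by positivity)
        apply mul_le_mul_of_nonneg_right _ (by positivity)
        calc ((r0 : ℝ) ^ ε) ^ q ≤ ((r0 : ℝ) ^ ε) ^ (1 : ℝ) :=
              Real.rpow_le_rpow_of_exponent_le hr1 hq1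
          _ = _ := Real.rpow_one _
    _ = _ := by ring

end Pool.Agent.Work.MP_af11aa_nt.W
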