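import Mathlib
import Pool.Agent.Work.MP_af11aa_nt.W.Diff
import Pool.Agent.Work.MP_af11aa_nt.K.Count
import Pool.Agent.Work.MP_af11aa_nt.K.Decomp

/-!
MODULE GoodPart (elementary facts on a1 and sfp; the classical `filter` in a1: use `simp only [a1]` with classical).

a = ∏_{l | a} l^{v_l(a)}.  Each prime l | a: either l² | a (then l^{v_l} divides sfp a), or v_l = 1 and
 l ≤ J (l divides J!; distinct such l have product dividing J!), or l | h_j for some j (l | gcd(h_j, a)), or l | a1.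
Hence a | a1 * sfp a * J! * ∏_j gcd(h_j, a), which is > 0 if all h_j ≠ 0 (even in general as a > 0).
a1 | a, a1 squarefree, gcd(a1, a / a1) = 1 as v_l(a) = 1 for l | a1.
coprime_count: every 1 ≤ n ≤ Λ is g·n' with g composed of primes of a, n' coprime to a (K.exists_split), so
 Λ ≤ #{g ≤ Λ : g.primeFactors ⊆ a.primeFactors} * #{n' ≤ Λ : (n',a)=1}, and K.count_factored.
-/

set_option autoImplicit false

namespace Pool.Agent.Work.MP_af11aa_nt.W

open Finset

open Classical in
/-- The primes of the good part. -/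
private noncomputable def gpS (J a : ℕ) (h : Fin J → ℤ) : Finset ℕ :=
  a.primeFactors.filter (fun l ↦ ¬ l ^ 2 ∣ a ∧ J < l ∧ ∀ j, ¬ (l : ℤ) ∣ h j)

private theorem gp_a1 (J a : ℕ) (h : Fin J → ℤ) : a1 J a h = ∏ l ∈ gpS J a h, l := rfl

private theorem gp_mem {J a : ℕ} {h : Fin J → ℤ} {l : ℕ} :
    l ∈ gpS J a h ↔ l ∈ a.primeFactors ∧ ¬ l ^ 2 ∣ a ∧ J < l ∧ ∀ j, ¬ (l : ℤ) ∣ h j := by
  unfold gpS; rw [mem_filter]

private theorem gp_prime {J a : ℕ} {h : Fin J → ℤ} {l : ℕ} (hl : l ∈ gpS J a h) : l.Prime :=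
  Nat.prime_of_mem_primeFactors (gp_mem.1 hl).1

private theorem gp_primeFactors (J a : ℕ) (h : Fin J → ℤ) :
    (a1 J a h).primeFactors = gpS J a h := by
  rw [gp_a1]; exact Nat.primeFactors_prod fun l hl ↦ gp_prime hl

theorem a1_dvd (J a : ℕ) (h : Fin J → ℤ) (ha : 0 < a) : a1 J a h ∣ a := by
  have _ := ha
  rw [gp_a1]
  exact Finset.prod_primes_dvd a (fun l hl ↦ (gp_prime hl).prime)
    fun l hl ↦ Nat.dvd_of_mem_primeFactors (gp_mem.1 hl).1

private theorem gp_sqfree (s : Finset ℕ) (hs : ∀ l ∈ s, l.Prime) : Squarefree (∏ l ∈ s, l) := by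
  classical
  induction s using Finset.induction_on with
  | empty => simp
  | insert l s hl ih =>
    rw [prod_insert hl]
    have hcop : Nat.Coprime l (∏ l ∈ s, l) := by
      refine Nat.Coprime.prod_right fun q hq ↦ ?_
      refine (Nat.coprime_primes (hs l (mem_insert_self _ _)) (hs q (mem_insert_of_mem hq))).2 ?_
      rintro rfl; exact hl hq
    rw [Nat.squarefree_mul hcop]
    exact ⟨(hs l (mem_insert_self _ _)).squarefree, ih fun q hq ↦ hs q (mem_insert_of_mem hq)⟩

theorem a1_sq (J a : ℕ) (h : Fin J → ℤ) : Squarefree (a1 J a h) := by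
  rw [gp_a1]; exact gp_sqfree _ fun l hl ↦ gp_prime hl

private theorem gp_pos (J a : ℕ) (h : Fin J → ℤ) : 0 < a1 J a h := by
  rw [gp_a1]; exact prod_pos fun l hl ↦ (gp_prime hl).pos

theorem a1_cop (J a : ℕ) (h : Fin J → ℤ) (ha : 0 < a) : (a1 J a h).Coprime (a / a1 J a h) := by
  have hdvd := a1_dvd J a h ha
  refine Nat.Coprime.symm (Nat.coprime_of_dvd fun l hl h1 h2 ↦ ?_)
  have hmem : l ∈ gpS J a h := by
    rw [← gp_primeFactors]; exact Nat.mem_primeFactors.2 ⟨hl, h2, (gp_pos J a h).ne'⟩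
  apply (gp_mem.1 hmem).2.1
  have h3 : l * l ∣ a1 J a h * (a / a1 J a h) := mul_dvd_mul h2 h1
  rw [Nat.mul_div_cancel' hdvd] at h3
  rwa [sq]

theorem a1_prime (J a : ℕ) (h : Fin J → ℤ) (l : ℕ) (hl : l ∈ (a1 J a h).primeFactors) :
    J < l ∧ ∀ j, ¬ (l : ℤ) ∣ h j := by
  rw [gp_primeFactors] at hl
  exact (gp_mem.1 hl).2.2

/-- shifts multiplied by integers prime to `a`. -/
theorem a1_mul (J a : ℕ) (h : Fin J → ℤ) (r : Fin J → ℕ) (hr : ∀ j, (r j).Coprime a) :
    a1 J a (fun j ↦ (r j : ℤ) * h j) = a1 J a h := by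
  rw [gp_a1, gp_a1]
  refine prod_congr ?_ fun _ _ ↦ rfl
  ext l
  rw [gp_mem, gp_mem]
  refine and_congr_right fun hl ↦ and_congr_right fun _ ↦ and_congr_right fun _ ↦ ?_
  refine forall_congr' fun j ↦ not_congr ?_
  have hlp := Nat.prime_of_mem_primeFactors hl
  have hla := Nat.dvd_of_mem_primeFactors hl
  constructor
  · intro hd
    rcases (Nat.prime_iff_prime_int.1 hlp).dvd_or_dvd hd with h1 | h1
    · exfalso
      have h2 : l ∣ r j := by exact_mod_cast h1
      have h3 : l ∣ Nat.gcd (r j) a := Nat.dvd_gcd h2 hla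
      rw [hr j] at h3
      exact hlp.one_lt.ne' (Nat.dvd_one.1 h3)
    · exact h1
  · intro hd; exact hd.mul_left _

theorem le_a1 (J a : ℕ) (h : Fin J → ℤ) (ha : 0 < a) :
    a ≤ a1 J a h * sfp a * J.factorial * ∏ j, Int.gcd (h j) a := by
  classical
  have hsfp : 0 < sfp a := by
    unfold sfp
    exact prod_pos fun l hl ↦ pow_pos (Nat.prime_of_mem_primeFactors (mem_filter.1 hl).1).pos _
  have hgcd : 0 < ∏ j, Int.gcd (h j) a := by
    refine prod_pos fun j _ ↦ ?_
    rw [Int.gcd_pos_iff]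
    right
    exact_mod_cast ha.ne'
  have hP : 0 < a1 J a h * sfp a * J.factorial * ∏ j, Int.gcd (h j) a := by
    have := gp_pos J a h
    have := J.factorial_pos
    positivity
  refine Nat.le_of_dvd hP ?_
  rw [← Nat.factorization_prime_le_iff_dvd ha.ne' hP.ne']
  intro l hl
  rw [← hl.pow_dvd_iff_le_factorization hP.ne']
  by_cases hla : l ∣ a
  · have hmem : l ∈ a.primeFactors := Nat.mem_primeFactors.2 ⟨hl, hla, ha.ne'⟩
    by_cases hsq : l ^ 2 ∣ a
    · have h1 : l ^ a.factorization l ∣ sfp a := by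
        unfold sfp
        exact Finset.dvd_prod_of_mem (fun l ↦ l ^ a.factorization l)
          (mem_filter.2 ⟨hmem, hsq⟩)
      exact ((h1.mul_left _).mul_right _).mul_right _
    · have hv : a.factorization l ≤ 1 := by
        by_contra hcon
        push Not at hcon
        exact hsq ((hl.pow_dvd_iff_le_factorization ha.ne').2 (by omega))
      have hdvd : l ∣ a1 J a h * sfp a * J.factorial * ∏ j, Int.gcd (h j) a := by
        by_cases hJ : l ≤ J
        · have : l ∣ J.factorial := Nat.dvd_factorial hl.pos hJ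
          exact (this.mul_left _).mul_right _
        · by_cases hh : ∃ j, (l : ℤ) ∣ h j
          · obtain ⟨j, hj⟩ := hh
            have h2 : l ∣ Int.gcd (h j) a := by
              have : (l : ℤ) ∣ ((Int.gcd (h j) a : ℕ) : ℤ) :=
                Int.dvd_coe_gcd hj (by exact_mod_cast hla)
              exact_mod_cast this
            exact (h2.trans (Finset.dvd_prod_of_mem (fun j ↦ Int.gcd (h j) a) (mem_univ j))).mul_left _
          · push Not at hh
            have h2 : l ∣ a1 J a h := by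
              rw [gp_a1]
              exact Finset.dvd_prod_of_mem (fun l ↦ l)
                (gp_mem.2 ⟨hmem, hsq, by omega, hh⟩)
            exact ((h2.mul_right _).mul_right _).mul_right _
      calc l ^ a.factorization l ∣ l ^ 1 := pow_dvd_pow l hv
        _ = l := pow_one l
        _ ∣ _ := hdvd
  · rw [Nat.factorization_eq_zero_of_not_dvd hla, pow_zero]
    exact one_dvd _

theorem coprime_count (ε : ℝ) (hε : 0 < ε) : ∃ C : ℝ, 0 < C ∧ ∀ a Λ : ℕ, 0 < a → 0 < Λ →
    (Λ : ℝ) ≤ C * ((a : ℝ) * Λ) ^ ε * (((Icc 1 Λ).filter (fun x ↦ x.Coprime a)).card : ℝ) := by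
  classical
  obtain ⟨C, hC, hcount⟩ := K.count_factored ε hε
  refine ⟨C, hC, fun a Λ ha hΛ ↦ ?_⟩
  have hΛ1 : (1 : ℝ) ≤ Λ := by exact_mod_cast hΛ
  have h1 := hcount a ha Λ hΛ1
  rw [Nat.floor_natCast] at h1
  set A := (Icc 1 Λ).filter (fun k ↦ k.primeFactors ⊆ a.primeFactors) with hA
  set B := (Icc 1 Λ).filter (fun x ↦ x.Coprime a) with hB
  have hex : ∀ c : ℕ, ∃ r : ℕ × ℕ, 0 < c →
      c = r.2 * r.1 ∧ r.2.Coprime a ∧ r.1.primeFactors ⊆ a.primeFactors := by
    intro c
    by_cases hc : 0 < c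
    · obtain ⟨r, hr⟩ := K.exists_split a ha c hc
      exact ⟨r, fun _ ↦ hr⟩
    · exact ⟨(0, 0), fun h ↦ absurd h hc⟩
  choose r hr using hex
  have hcard : (Icc 1 Λ).card ≤ (A ×ˢ B).card := by
    refine Finset.card_le_card_of_injOn r ?_ ?_
    · intro c hc
      rw [Finset.mem_coe, mem_Icc] at hc
      obtain ⟨h2, h3, h4⟩ := hr c (by omega)
      have hr1 : 0 < (r c).1 := by
        rcases Nat.eq_zero_or_pos (r c).1 with h0 | h0
        · rw [h0, mul_zero] at h2; omega
        · exact h0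
      have hr2 : 0 < (r c).2 := by
        rcases Nat.eq_zero_or_pos (r c).2 with h0 | h0
        · rw [h0, zero_mul] at h2; omega
        · exact h0
      have h5 : (r c).1 ≤ c := (Nat.le_mul_of_pos_left _ hr2).trans h2.ge
      have h6 : (r c).2 ≤ c := (Nat.le_mul_of_pos_right _ hr1).trans h2.ge
      rw [Finset.mem_coe, mem_product, hA, hB, mem_filter, mem_filter, mem_Icc, mem_Icc]
      exact ⟨⟨⟨hr1, h5.trans hc.2⟩, h4⟩, ⟨hr2, h6.trans hc.2⟩, h3⟩
    · intro c hc c' hc' hcc
      rw [Finset.mem_coe, mem_Icc] at hc hc'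
      have h2 := (hr c (by omega)).1
      have h3 := (hr c' (by omega)).1
      calc c = (r c).2 * (r c).1 := h2
        _ = (r c').2 * (r c').1 := by rw [hcc]
        _ = c' := h3.symm
  rw [Nat.card_Icc, card_product] at hcard
  have h2 : (Λ : ℝ) ≤ (A.card : ℝ) * B.card := by
    have h9 : Λ ≤ A.card * B.card := by
      rw [Nat.add_sub_cancel] at hcard
      exact hcard
    rw [← Nat.cast_mul]
    exact Nat.cast_le.2 h9
  refine h2.trans ?_
  exact mul_le_mul_of_nonneg_right h1 (Nat.cast_nonneg _)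

end Pool.Agent.Work.MP_af11aa_nt.W
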