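import Mathlib

/-!
MODULE Incomp (from complete to incomplete sums).

weights: pw a L 0 = L/a, pw a L k = min (L/a) (1/(2 |k|)) with |k| = |k.valMinAbs| for k ≠ 0.
pw_sum: ∑_k pw ≤ L/a + ∑_{1≤j≤a/2} 2·1/(2j) ≤ L/a + 1 + log a.
incomplete: g(y) = (1/a) ∑_k ĝ(k) e(-k y/a), ĝ(k) = ∑_x g(x) e(k x/a).  With k = k' D⁻¹:
∑_{n∈[u,v)} g(β + D n) = (1/a) ∑_{k'} ĝ(k' D⁻¹) e(-k' D⁻¹ β/a) ∑_{n∈[u,v)} e(-k' n/a), and the geometric sum is
≤ L trivially and ≤ 2/|1 - e(k'/a)| = 1/|sin(π k'/a)| ≤ a/(2|k'|) for k' ≠ 0 (sin(π t) ≥ 2t on [0,1/2]).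
-/

set_option autoImplicit false

namespace Pool.Agent.Work.MP_af11aa_nt.W

open Finset

noncomputable section

/-- the weights of the completion of sums. -/
def pw (a L : ℕ) (k : ZMod a) : ℝ :=
  if k = 0 then (L : ℝ) / a else min ((L : ℝ) / a) (1 / (2 * |(k.valMinAbs : ℝ)|))

theorem pw_nonneg (a L : ℕ) (k : ZMod a) : 0 ≤ pw a L k := by
  unfold pw; split_ifs <;> positivity

private theorem ic_fiber (a : ℕ) (j : ℕ) [NeZero a] :
    ((univ : Finset (ZMod a)).filter (fun k => k.valMinAbs.natAbs = j)).card ≤ 2 := by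
  classical
  have hsub : (univ : Finset (ZMod a)).filter (fun k => k.valMinAbs.natAbs = j) ⊆
      {(j : ZMod a), -(j : ZMod a)} := by
    intro k hk
    rw [mem_filter] at hk
    have h1 := ZMod.coe_valMinAbs k
    rw [mem_insert, mem_singleton]
    rcases Int.natAbs_eq k.valMinAbs with h | h
    · left
      rw [← h1, h, hk.2]
      simp
    · right
      rw [← h1, h, hk.2]
      simp
  exact (card_le_card hsub).trans (card_le_two)

theorem pw_sum (a L : ℕ) [NeZero a] : ∑ k : ZMod a, pw a L k ≤ L / a + 1 + Real.log a := by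
  classical
  have ha : 0 < a := Nat.pos_of_ne_zero (NeZero.ne a)
  have h1 : ∑ k : ZMod a, pw a L k = pw a L 0 + ∑ k ∈ univ.erase (0 : ZMod a), pw a L k := by
    rw [add_sum_erase _ _ (mem_univ _)]
  have h0 : pw a L 0 = L / a := by unfold pw; rw [if_pos rfl]
  have hmaps : ∀ k ∈ univ.erase (0 : ZMod a), k.valMinAbs.natAbs ∈ Icc 1 a := by
    intro k hk
    rw [mem_erase] at hk
    rw [mem_Icc]
    constructor
    · rw [Nat.one_le_iff_ne_zero, Ne, Int.natAbs_eq_zero, ZMod.valMinAbs_eq_zero]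
      exact hk.1
    · exact (ZMod.natAbs_valMinAbs_le k).trans (Nat.div_le_self _ _)
  have h2 : ∑ k ∈ univ.erase (0 : ZMod a), pw a L k ≤ ∑ j ∈ Icc 1 a, (1 : ℝ) / j := by
    rw [← sum_fiberwise_of_maps_to hmaps]
    refine sum_le_sum fun j hj => ?_
    rw [mem_Icc] at hj
    have hj0 : (0 : ℝ) < j := by exact_mod_cast (by omega : 0 < j)
    calc ∑ k ∈ (univ.erase (0 : ZMod a)).filter (fun k => k.valMinAbs.natAbs = j), pw a L k
        ≤ ∑ k ∈ (univ.erase (0 : ZMod a)).filter (fun k => k.valMinAbs.natAbs = j),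
          (1 : ℝ) / (2 * j) := by
          refine sum_le_sum fun k hk => ?_
          rw [mem_filter, mem_erase] at hk
          unfold pw
          rw [if_neg hk.1.1]
          refine (min_le_right _ _).trans (le_of_eq ?_)
          congr 2
          have h3 : |(k.valMinAbs : ℝ)| = ((k.valMinAbs.natAbs : ℕ) : ℝ) := by
            rw [Nat.cast_natAbs, Int.cast_abs]
          rw [h3, hk.2]
      _ = (((univ.erase (0 : ZMod a)).filter (fun k => k.valMinAbs.natAbs = j)).card : ℝ) *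
          (1 / (2 * j)) := by rw [sum_const, nsmul_eq_mul]
      _ ≤ 2 * (1 / (2 * j)) := by
          have h4 : ((univ.erase (0 : ZMod a)).filter
              (fun k => k.valMinAbs.natAbs = j)).card ≤ 2 :=
            (card_le_card (filter_subset_filter _ (erase_subset _ _))).trans (ic_fiber a j)
          have h5 : (((univ.erase (0 : ZMod a)).filter
              (fun k => k.valMinAbs.natAbs = j)).card : ℝ) ≤ 2 := by exact_mod_cast h4
          exact mul_le_mul_of_nonneg_right h5 (by positivity)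
      _ = 1 / j := by field_simp
  have h3 : ∑ j ∈ Icc 1 a, (1 : ℝ) / j ≤ 1 + Real.log a := by
    have h4 := harmonic_le_one_add_log a
    rw [harmonic_eq_sum_Icc] at h4
    push_cast at h4
    simpa [one_div] using h4
  rw [h1, h0]
  linarith

private theorem ic_inv (a : ℕ) [NeZero a] (g : ZMod a → ℂ) (D : ZMod a) (hD : IsUnit D)
    (y : ZMod a) : (a : ℂ) * g y = ∑ k : ZMod a,
      (∑ x : ZMod a, g x * ZMod.stdAddChar (k * D⁻¹ * x)) * ZMod.stdAddChar (-(k * D⁻¹ * y)) := by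
  classical
  have hDi : IsUnit (D⁻¹ : ZMod a) := by
    rw [isUnit_iff_exists_inv]
    exact ⟨D, ZMod.inv_mul_of_unit D hD⟩
  have h1 : ∀ k : ZMod a, (∑ x : ZMod a, g x * ZMod.stdAddChar (k * D⁻¹ * x)) *
      ZMod.stdAddChar (-(k * D⁻¹ * y)) =
      ∑ x : ZMod a, g x * ZMod.stdAddChar (k * (D⁻¹ * (x - y))) := by
    intro k
    rw [sum_mul]
    refine sum_congr rfl fun x _ => ?_
    rw [mul_assoc, ← AddChar.map_add_eq_mul]
    congr 2
    ring
  rw [sum_congr rfl fun k _ => h1 k, sum_comm]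
  have h2 : ∀ x : ZMod a, ∑ k : ZMod a, g x * ZMod.stdAddChar (k * (D⁻¹ * (x - y))) =
      if x = y then (a : ℂ) * g x else 0 := by
    intro x
    rw [← mul_sum, AddChar.sum_mulShift _ (ZMod.isPrimitive_stdAddChar a)]
    have h3 : D⁻¹ * (x - y) = 0 ↔ x = y := by
      rw [hDi.mul_right_eq_zero, sub_eq_zero]
    by_cases h : x = y
    · rw [if_pos (h3.2 h), if_pos h, ZMod.card]; ring
    · rw [if_neg (fun h4 => h (h3.1 h4)), if_neg h]; simp
  rw [sum_congr rfl fun x _ => h2 x]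
  rw [sum_ite_eq' univ y]
  simp

private theorem ic_geom (z : ℂ) (hz : ‖z‖ = 1) (hz1 : z ≠ 1) (u v : ℤ) :
    ‖∑ n ∈ Ico u v, z ^ n‖ ≤ 2 / ‖1 - z‖ := by
  have hz0 : z ≠ 0 := by
    intro h; rw [h] at hz; simp at hz
  have h1z : (0 : ℝ) < ‖1 - z‖ := norm_pos_iff.2 (sub_ne_zero.2 (Ne.symm hz1))
  rcases le_or_gt v u with h | h
  · rw [Ico_eq_empty (by omega)]
    simp only [sum_empty, norm_zero]
    positivity
  · obtain ⟨m, hm⟩ : ∃ m : ℕ, v = u + m := ⟨(v - u).toNat, by omega⟩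
    have key : ∀ m : ℕ, (1 - z) * ∑ n ∈ Ico u (u + m), z ^ n = z ^ u * (1 - z ^ m) := by
      intro m
      induction m with
      | zero => simp
      | succ m ih =>
        have h2 : Ico u (u + ((m + 1 : ℕ) : ℤ)) = insert (u + m : ℤ) (Ico u (u + m)) := by
          ext x
          simp only [mem_Ico, mem_insert]
          push_cast
          omega
        rw [h2, sum_insert (by simp), mul_add, ih, zpow_add₀ hz0, zpow_natCast, pow_succ]
        ring
    have h3 := key m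
    rw [← hm] at h3
    rw [le_div_iff₀ h1z, mul_comm, ← norm_mul, h3, norm_mul, norm_zpow, hz, one_zpow, one_mul]
    calc ‖1 - z ^ m‖ ≤ ‖(1 : ℂ)‖ + ‖z ^ m‖ := norm_sub_le _ _
      _ = 2 := by rw [norm_pow, hz]; norm_num

private theorem ic_norm_char (a : ℕ) [NeZero a] (x : ZMod a) : ‖ZMod.stdAddChar x‖ = 1 := by
  rw [ZMod.stdAddChar_apply]
  exact Circle.norm_coe _

private theorem ic_lower (a : ℕ) [NeZero a] (k : ZMod a) :
    4 * |(k.valMinAbs : ℝ)| / a ≤ ‖1 - ZMod.stdAddChar (-k)‖ := by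
  have ha : 0 < a := Nat.pos_of_ne_zero (NeZero.ne a)
  have haR : (0 : ℝ) < a := by exact_mod_cast ha
  obtain ⟨j, hj⟩ : ∃ j : ℤ, j = k.valMinAbs := ⟨_, rfl⟩
  have hk : -k = ((-j : ℤ) : ZMod a) := by
    rw [hj]; simp
  rw [hk, ZMod.stdAddChar_coe, ← hj]
  obtain ⟨t, ht⟩ : ∃ t : ℝ, t = 2 * Real.pi * (-j) / a := ⟨_, rfl⟩
  have h1 : Complex.exp (2 * Real.pi * Complex.I * ((-j : ℤ) : ℂ) / a) =
      Complex.exp (Complex.I * (t : ℂ)) := by
    congr 1
    rw [ht]
    push_cast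
    ring
  rw [h1, norm_sub_rev, Complex.norm_exp_I_mul_ofReal_sub_one, Real.norm_eq_abs, abs_mul, abs_two]
  have ht2 : t / 2 = -(Real.pi * j / a) := by rw [ht]; ring
  rw [ht2, Real.sin_neg, abs_neg]
  have hjb : |(j : ℝ)| ≤ a / 2 := by
    have h2 := ZMod.valMinAbs_mem_Ioc k
    rw [← hj] at h2
    obtain ⟨h3, h4⟩ := h2
    have h3' : -(a : ℝ) < j * 2 := by exact_mod_cast h3
    have h4' : (j : ℝ) * 2 ≤ a := by exact_mod_cast h4
    rw [abs_le]
    constructor <;> linarith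
  have h5 : |Real.sin (Real.pi * j / a)| = Real.sin (Real.pi * |(j : ℝ)| / a) := by
    have hle : Real.pi * |(j : ℝ)| / a ≤ Real.pi := by
      rw [div_le_iff₀ haR]
      nlinarith [Real.pi_pos, abs_nonneg (j : ℝ)]
    rcases le_total 0 (j : ℝ) with h | h
    · rw [abs_of_nonneg h] at hle ⊢
      rw [abs_of_nonneg]
      exact Real.sin_nonneg_of_nonneg_of_le_pi (by positivity) hle
    · rw [abs_of_nonpos h] at hle ⊢
      have h6 : Real.sin (Real.pi * j / a) = - Real.sin (Real.pi * -j / a) := by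
        rw [← Real.sin_neg]; congr 1; ring
      rw [h6, abs_neg, abs_of_nonneg]
      apply Real.sin_nonneg_of_nonneg_of_le_pi _ hle
      have : 0 ≤ -(j : ℝ) := by linarith
      positivity
  rw [h5]
  have h6 := Real.mul_le_sin (x := Real.pi * |(j : ℝ)| / a) (by positivity) (by
    rw [div_le_iff₀ haR]
    nlinarith [Real.pi_pos, abs_nonneg (j : ℝ)])
  have h7 : 2 / Real.pi * (Real.pi * |(j : ℝ)| / a) = 2 * |(j : ℝ)| / a := by
    field_simp
  rw [h7] at h6
  calc 4 * |(j : ℝ)| / a = 2 * (2 * |(j : ℝ)| / a) := by ring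
    _ ≤ 2 * Real.sin (Real.pi * |(j : ℝ)| / a) := by linarith

private theorem ic_weight (a L : ℕ) [NeZero a] (k : ZMod a) (u v : ℤ) (huv : v - u ≤ L) :
    ‖∑ n ∈ Ico u v, ZMod.stdAddChar (-(k * (n : ZMod a)))‖ ≤ a * pw a L k := by
  have ha : 0 < a := Nat.pos_of_ne_zero (NeZero.ne a)
  have haR : (0 : ℝ) < a := by exact_mod_cast ha
  have htriv : ‖∑ n ∈ Ico u v, ZMod.stdAddChar (-(k * (n : ZMod a)))‖ ≤ a * ((L : ℝ) / a) := by
    have h1 : (a : ℝ) * ((L : ℝ) / a) = L := by field_simp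
    rw [h1]
    calc ‖∑ n ∈ Ico u v, ZMod.stdAddChar (-(k * (n : ZMod a)))‖
        ≤ ∑ n ∈ Ico u v, ‖ZMod.stdAddChar (-(k * (n : ZMod a)))‖ := norm_sum_le _ _
      _ = ((Ico u v).card : ℝ) := by
          rw [sum_congr rfl fun n _ => ic_norm_char a _]; simp
      _ ≤ L := by
          rw [Int.card_Ico]
          have : (v - u).toNat ≤ L := by omega
          exact_mod_cast this
  unfold pw
  by_cases hk : k = 0
  · rw [if_pos hk]; exact htriv
  · rw [if_neg hk, mul_min_of_nonneg _ _ haR.le]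
    refine le_min htriv ?_
    obtain ⟨z, hz⟩ : ∃ z : ℂ, z = ZMod.stdAddChar (-k) := ⟨_, rfl⟩
    have hzn : ‖z‖ = 1 := by rw [hz]; exact ic_norm_char a _
    have hz1 : z ≠ 1 := by
      intro h
      rw [hz, ← (ZMod.stdAddChar (N := a)).map_zero_eq_one] at h
      have := ZMod.injective_stdAddChar h
      exact hk (neg_eq_zero.1 this)
    have hterm : ∀ n : ℤ, ZMod.stdAddChar (-(k * (n : ZMod a))) = z ^ n := by
      intro n
      rw [hz, ← AddChar.map_zsmul_eq_zpow]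
      congr 1
      rw [zsmul_eq_mul]
      ring
    rw [sum_congr rfl fun n _ => hterm n]
    refine (ic_geom z hzn hz1 u v).trans ?_
    have hlow := ic_lower a k
    rw [← hz] at hlow
    have hkpos : 0 < |(k.valMinAbs : ℝ)| := by
      rw [abs_pos]
      have : k.valMinAbs ≠ 0 := by rwa [Ne, ZMod.valMinAbs_eq_zero]
      exact_mod_cast this
    calc 2 / ‖1 - z‖ ≤ 2 / (4 * |(k.valMinAbs : ℝ)| / a) :=
          div_le_div_of_nonneg_left (by norm_num) (by positivity) hlow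
      _ = a * (1 / (2 * |(k.valMinAbs : ℝ)|)) := by
          field_simp
          ring

theorem incomplete (a L : ℕ) [NeZero a] (g : ZMod a → ℂ) (D : ZMod a) (hD : IsUnit D)
    (β : ZMod a) (u v : ℤ) (huv : v - u ≤ L) :
    ‖∑ n ∈ Ico u v, g (β + D * (n : ZMod a))‖ ≤
      ∑ k : ZMod a, pw a L k * ‖∑ x : ZMod a, g x * ZMod.stdAddChar (k * D⁻¹ * x)‖ := by
  have ha : 0 < a := Nat.pos_of_ne_zero (NeZero.ne a)
  have haR : (0 : ℝ) < a := by exact_mod_cast ha
  obtain ⟨G, hG⟩ : ∃ G : ZMod a → ℂ,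
      G = fun k => ∑ x : ZMod a, g x * ZMod.stdAddChar (k * D⁻¹ * x) := ⟨_, rfl⟩
  have hGk : ∀ k, ∑ x : ZMod a, g x * ZMod.stdAddChar (k * D⁻¹ * x) = G k := fun k => by
    rw [hG]
  have h1 : (a : ℂ) * ∑ n ∈ Ico u v, g (β + D * (n : ZMod a)) =
      ∑ k : ZMod a, G k * ZMod.stdAddChar (-(k * D⁻¹ * β)) *
        ∑ n ∈ Ico u v, ZMod.stdAddChar (-(k * (n : ZMod a))) := by
    rw [mul_sum]
    have h2 : ∀ n ∈ Ico u v, (a : ℂ) * g (β + D * (n : ZMod a)) =
        ∑ k : ZMod a, G k * ZMod.stdAddChar (-(k * D⁻¹ * β)) *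
          ZMod.stdAddChar (-(k * (n : ZMod a))) := by
      intro n _
      rw [ic_inv a g D hD]
      refine sum_congr rfl fun k _ => ?_
      rw [hGk, mul_assoc (G k), ← AddChar.map_add_eq_mul]
      congr 2
      have h3 : D⁻¹ * D = 1 := ZMod.inv_mul_of_unit D hD
      linear_combination (-(k * (n : ZMod a))) * h3
    rw [sum_congr rfl h2, sum_comm]
    refine sum_congr rfl fun k _ => ?_
    rw [mul_sum]
  have h4 : (a : ℝ) * ‖∑ n ∈ Ico u v, g (β + D * (n : ZMod a))‖ ≤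
      a * ∑ k : ZMod a, pw a L k * ‖∑ x : ZMod a, g x * ZMod.stdAddChar (k * D⁻¹ * x)‖ := by
    have h5 : (a : ℝ) * ‖∑ n ∈ Ico u v, g (β + D * (n : ZMod a))‖ =
        ‖(a : ℂ) * ∑ n ∈ Ico u v, g (β + D * (n : ZMod a))‖ := by
      rw [norm_mul, Complex.norm_natCast]
    rw [h5, h1, mul_sum]
    refine (norm_sum_le _ _).trans (sum_le_sum fun k _ => ?_)
    rw [norm_mul, norm_mul, ic_norm_char, mul_one, hGk]
    have h6 := ic_weight a L k u v huv
    calc ‖G k‖ * ‖∑ n ∈ Ico u v, ZMod.stdAddChar (-(k * (n : ZMod a)))‖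
        ≤ ‖G k‖ * (a * pw a L k) := mul_le_mul_of_nonneg_left h6 (norm_nonneg _)
      _ = a * (pw a L k * ‖G k‖) := by ring
  exact le_of_mul_le_mul_left h4 haR

end

end Pool.Agent.Work.MP_af11aa_nt.W
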