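import Mathlib
import Pool.Agent.Work.MP_af11aa_nt.W.Diff

/-!
MODULE MomP (fourth moment, prime modulus l > J).

Notation: all in F = ZMod l, t = List.ofFn h.  Dl t (EZ l u) (x) = 1_{x ∈ Y} e(u R(x)), with a finite
set P_t of shifts, Y = {x : x + ρ ≠ 0 for ρ ∈ P_t}, and R(x) = ∑_ρ c_t(ρ) (x+ρ)⁻¹.  The function c_t is not
zero because its J-th moment is (-1)^J J! ∏ h_j.  The fourth moment counts solutions of
y1+y2 = y3+y4, R(y1)+R(y2) = R(y3)+R(y4).
-/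

set_option autoImplicit false

namespace Pool.Agent.Work.MP_af11aa_nt.W

open Finset ComplexConjugate

section

variable {l : ℕ} [hl : Fact l.Prime]

/-- one differencing step on the data (shifts, coefficients) -/
def mpStep (s : Finset (ZMod l) × (ZMod l → ZMod l)) (h : ZMod l) :
    Finset (ZMod l) × (ZMod l → ZMod l) :=
  (s.1 ∪ s.1.image (· + h), fun ρ ↦ s.2 ρ - s.2 (ρ - h))

/-- the function attached to the data -/
noncomputable def mpF (s : Finset (ZMod l) × (ZMod l → ZMod l)) (u x : ZMod l) : ℂ :=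
  if ∀ ρ ∈ s.1, x + ρ ≠ 0 then ZMod.stdAddChar (u * ∑ ρ, s.2 ρ * (x + ρ)⁻¹) else 0

lemma mpF_Dh (s : Finset (ZMod l) × (ZMod l → ZMod l)) (u h : ZMod l) :
    Dh h (mpF s u) = mpF (mpStep s h) u := by
  funext x
  have h1 : ∑ ρ, (mpStep s h).2 ρ * (x + ρ)⁻¹ =
      ∑ ρ, s.2 ρ * (x + ρ)⁻¹ - ∑ ρ, s.2 ρ * (x + h + ρ)⁻¹ := by
    simp only [mpStep, sub_mul]
    rw [Finset.sum_sub_distrib]
    congr 1
    rw [← Equiv.sum_comp (Equiv.addRight h)]
    refine Finset.sum_congr rfl fun ρ _ ↦ ?_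
    simp only [Equiv.coe_addRight, add_sub_cancel_right]
    congr 2
    ring
  have h2 : (∀ ρ ∈ (mpStep s h).1, x + ρ ≠ 0) ↔
      (∀ ρ ∈ s.1, x + ρ ≠ 0) ∧ (∀ ρ ∈ s.1, x + h + ρ ≠ 0) := by
    simp only [mpStep, Finset.mem_union, Finset.mem_image]
    constructor
    · intro H
      refine ⟨fun ρ hρ ↦ H ρ (Or.inl hρ), fun ρ hρ ↦ ?_⟩
      have := H (ρ + h) (Or.inr ⟨ρ, hρ, rfl⟩)
      rwa [show x + (ρ + h) = x + h + ρ by ring] at this
    · rintro ⟨H1, H2⟩ ρ (hρ | ⟨ρ', hρ', rfl⟩)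
      · exact H1 ρ hρ
      · rw [show x + (ρ' + h) = x + h + ρ' by ring]
        exact H2 ρ' hρ'
  unfold Dh mpF
  rw [h1]
  by_cases a : ∀ ρ ∈ s.1, x + ρ ≠ 0
  · by_cases b : ∀ ρ ∈ s.1, x + h + ρ ≠ 0
    · rw [if_pos a, if_pos b, if_pos (h2.2 ⟨a, b⟩), ← AddChar.map_neg_eq_conj,
        ← AddChar.map_add_eq_mul]
      congr 1
      ring
    · rw [if_neg b, if_neg (fun H ↦ b (h2.1 H).2), map_zero, mul_zero]
  · rw [if_neg a, if_neg (fun H ↦ a (h2.1 H).1), zero_mul]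

lemma mpF_Dl (t : List (ZMod l)) (s : Finset (ZMod l) × (ZMod l → ZMod l)) (u : ZMod l) :
    Dl t (mpF s u) = mpF (t.foldl mpStep s) u := by
  induction t generalizing s with
  | nil => rfl
  | cons h t ih => rw [Dl_cons, mpF_Dh, ih, List.foldl_cons]

lemma mpF_EZ (u : ZMod l) : EZ l u = mpF ({0}, fun ρ ↦ if ρ = 0 then 1 else 0) u := by
  funext x
  unfold EZ mpF
  simp only [Finset.mem_singleton, forall_eq, add_zero, ite_mul, one_mul, zero_mul]
  rw [Finset.sum_ite_eq' Finset.univ (0 : ZMod l), if_pos (Finset.mem_univ _), add_zero]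
  by_cases hx : x = 0
  · simp [hx]
  · rw [if_pos (isUnit_iff_ne_zero.2 hx), if_pos hx]

/-- moments of the coefficients -/
def mpM (k : ℕ) (c : ZMod l → ZMod l) : ZMod l := ∑ ρ, ρ ^ k * c ρ

lemma mpM_step (k : ℕ) (c : ZMod l → ZMod l) (h : ZMod l) :
    mpM k (fun ρ ↦ c ρ - c (ρ - h)) = - ∑ i ∈ range k, (k.choose i : ZMod l) * h ^ (k - i) * mpM i c := by
  unfold mpM
  have h1 : ∑ ρ, ρ ^ k * (c ρ - c (ρ - h)) = ∑ ρ, ρ ^ k * c ρ - ∑ ρ, (ρ + h) ^ k * c ρ := by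
    simp only [mul_sub]
    rw [Finset.sum_sub_distrib]
    congr 1
    rw [← Equiv.sum_comp (Equiv.addRight h)]
    refine Finset.sum_congr rfl fun ρ _ ↦ ?_
    simp only [Equiv.coe_addRight, add_sub_cancel_right]
  rw [h1]
  have h2 : ∑ ρ, (ρ + h) ^ k * c ρ =
      ∑ i ∈ range (k + 1), (k.choose i : ZMod l) * h ^ (k - i) * ∑ ρ, ρ ^ i * c ρ := by
    simp_rw [Finset.mul_sum]
    rw [Finset.sum_comm]
    refine Finset.sum_congr rfl fun ρ _ ↦ ?_
    rw [add_pow, Finset.sum_mul]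
    refine Finset.sum_congr rfl fun i _ ↦ ?_
    ring
  rw [h2, Finset.sum_range_succ]
  simp

/-- the invariant -/
structure mpInv (m K : ℕ) (s : Finset (ZMod l) × (ZMod l → ZMod l)) : Prop where
  supp : ∀ ρ, s.2 ρ ≠ 0 → ρ ∈ s.1
  low : ∀ i, i < m → mpM i s.2 = 0
  top : mpM m s.2 ≠ 0
  card : s.1.card ≤ K

lemma mpInv_step {m K : ℕ} {s : Finset (ZMod l) × (ZMod l → ZMod l)} (hs : mpInv m K s)
    {h : ZMod l} (hh : h ≠ 0) (hm : m + 1 < l) : mpInv (m + 1) (2 * K) (mpStep s h) := by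
  refine ⟨?_, ?_, ?_, ?_⟩
  · intro ρ hρ
    simp only [mpStep, Finset.mem_union, Finset.mem_image] at hρ ⊢
    by_contra hcon
    push Not at hcon
    apply hρ
    have h1 : s.2 ρ = 0 := by
      by_contra h0
      exact hcon.1 (hs.supp ρ h0)
    have h2 : s.2 (ρ - h) = 0 := by
      by_contra h0
      exact hcon.2 (ρ - h) (hs.supp _ h0) (by ring)
    rw [h1, h2, sub_zero]
  · intro i hi
    simp only [mpStep]
    rw [mpM_step, neg_eq_zero]
    refine Finset.sum_eq_zero fun j hj ↦ ?_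
    rw [hs.low j (by have := Finset.mem_range.1 hj; omega), mul_zero]
  · simp only [mpStep]
    rw [mpM_step, neg_ne_zero, Finset.sum_range_succ, Finset.sum_eq_zero, zero_add]
    · refine mul_ne_zero (mul_ne_zero ?_ (pow_ne_zero _ hh)) hs.top
      rw [Nat.choose_succ_self_right]
      intro h0
      rw [ZMod.natCast_eq_zero_iff] at h0
      exact absurd (Nat.le_of_dvd (by omega) h0) (by omega)
    · intro j hj
      rw [hs.low j (Finset.mem_range.1 hj), mul_zero]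
  · simp only [mpStep]
    refine (Finset.card_union_le _ _).trans ?_
    have := Finset.card_image_le (s := s.1) (f := (· + h))
    have := hs.card
    omega

lemma mpInv_fold (t : List (ZMod l)) {m K : ℕ} {s : Finset (ZMod l) × (ZMod l → ZMod l)}
    (hs : mpInv m K s) (ht : ∀ h ∈ t, h ≠ 0) (hm : m + t.length < l) :
    mpInv (m + t.length) (2 ^ t.length * K) (t.foldl mpStep s) := by
  induction t generalizing s m K with
  | nil => simpa using hs
  | cons h t ih =>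
    rw [List.length_cons] at hm
    have h1 := mpInv_step hs (ht h (by simp)) (by omega)
    have h2 := ih h1 (fun x hx ↦ ht x (by simp [hx])) (by omega)
    rw [List.foldl_cons, List.length_cons, pow_succ]
    have e1 : m + (t.length + 1) = m + 1 + t.length := by ring
    have e2 : 2 ^ t.length * 2 * K = 2 ^ t.length * (2 * K) := by ring
    rw [e1, e2]
    exact h2

open Polynomial in
/-- the equation `R(y) + R(s-y) = w` has few solutions -/
lemma mp_roots (P : Finset (ZMod l)) (c : ZMod l → ZMod l) {ρ0 : ZMod l} (h0 : ρ0 ∈ P)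
    (hc : c ρ0 ≠ 0) (s w : ZMod l) (hs : - s - ρ0 ∉ P) :
    (Finset.univ.filter (fun y : ZMod l ↦ (∀ ρ ∈ P, y + ρ ≠ 0) ∧ (∀ ρ ∈ P, s - y + ρ ≠ 0) ∧
      ∑ ρ ∈ P, c ρ * (y + ρ)⁻¹ + ∑ ρ ∈ P, c ρ * (s - y + ρ)⁻¹ = w)).card ≤ 2 * P.card := by
  classical
  set A : (ZMod l)[X] := ∏ ρ ∈ P, (X + C ρ) with hA
  set B : (ZMod l)[X] := ∏ ρ ∈ P, (X - C (s + ρ)) with hB
  set A1 : (ZMod l)[X] := ∑ ρ ∈ P, C (c ρ) * ∏ σ ∈ P.erase ρ, (X + C σ) with hA1
  set B1 : (ZMod l)[X] := ∑ ρ ∈ P, C (c ρ) * ∏ σ ∈ P.erase ρ, (X - C (s + σ)) with hB1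
  set p : (ZMod l)[X] := A1 * B - A * B1 - C w * (A * B) with hp
  have dlin : ∀ a : ZMod l, (X + C a : (ZMod l)[X]).natDegree ≤ 1 := fun a ↦
    (natDegree_X_add_C a).le
  have dlin' : ∀ a : ZMod l, (X - C a : (ZMod l)[X]).natDegree ≤ 1 := fun a ↦
    (natDegree_X_sub_C a).le
  have dprod : ∀ (T : Finset (ZMod l)) (f : ZMod l → (ZMod l)[X]), (∀ a, (f a).natDegree ≤ 1) →
      (∏ a ∈ T, f a).natDegree ≤ T.card := by
    intro T f hf
    refine (natDegree_prod_le T f).trans ?_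
    refine (Finset.sum_le_card_nsmul _ _ 1 fun a _ ↦ hf a).trans ?_
    simp
  have dA : A.natDegree ≤ P.card := dprod P _ dlin
  have dB : B.natDegree ≤ P.card := dprod P _ fun a ↦ dlin' _
  have dA1 : A1.natDegree ≤ P.card := by
    refine natDegree_sum_le_of_forall_le _ _ fun ρ _ ↦ ?_
    refine (natDegree_C_mul_le _ _).trans ((dprod _ _ dlin).trans ?_)
    exact Finset.card_le_card (Finset.erase_subset _ _)
  have dB1 : B1.natDegree ≤ P.card := by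
    refine natDegree_sum_le_of_forall_le _ _ fun ρ _ ↦ ?_
    refine (natDegree_C_mul_le _ _).trans ((dprod _ _ fun a ↦ dlin' _).trans ?_)
    exact Finset.card_le_card (Finset.erase_subset _ _)
  have dp : p.natDegree ≤ 2 * P.card := by
    rw [hp]
    refine (natDegree_sub_le _ _).trans (max_le ((natDegree_sub_le _ _).trans (max_le ?_ ?_)) ?_)
    · exact natDegree_mul_le.trans (by omega)
    · exact natDegree_mul_le.trans (by omega)
    · refine (natDegree_C_mul_le _ _).trans (natDegree_mul_le.trans (by omega))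
  have eA : ∀ y, A.eval y = ∏ ρ ∈ P, (y + ρ) := by
    intro y; rw [hA, eval_prod]; simp
  have eB : ∀ y, B.eval y = ∏ ρ ∈ P, (y - (s + ρ)) := by
    intro y; rw [hB, eval_prod]; simp
  have eA1 : ∀ y, A1.eval y = ∑ ρ ∈ P, c ρ * ∏ σ ∈ P.erase ρ, (y + σ) := by
    intro y; rw [hA1, eval_finsetSum]; simp [eval_prod]
  have eB1 : ∀ y, B1.eval y = ∑ ρ ∈ P, c ρ * ∏ σ ∈ P.erase ρ, (y - (s + σ)) := by
    intro y; rw [hB1, eval_finsetSum]; simp [eval_prod]
  have hp0 : p ≠ 0 := by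
    intro h
    have h1 : p.eval (-ρ0) = 0 := by rw [h, eval_zero]
    rw [hp, eval_sub, eval_sub, eval_mul, eval_mul, eval_mul, eval_mul, eA, eB, eA1] at h1
    have z1 : ∏ ρ ∈ P, (-ρ0 + ρ) = 0 := Finset.prod_eq_zero h0 (by ring)
    rw [z1, zero_mul, zero_mul, mul_zero, sub_zero, sub_zero] at h1
    have z2 : ∑ ρ ∈ P, c ρ * ∏ σ ∈ P.erase ρ, (-ρ0 + σ) = c ρ0 * ∏ σ ∈ P.erase ρ0, (-ρ0 + σ) := by
      refine Finset.sum_eq_single_of_mem ρ0 h0 fun ρ _ hne ↦ ?_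
      rw [Finset.prod_eq_zero (Finset.mem_erase.2 ⟨hne.symm, h0⟩) (by ring), mul_zero]
    rw [z2] at h1
    refine absurd h1 (mul_ne_zero (mul_ne_zero hc ?_) ?_)
    · rw [Finset.prod_ne_zero_iff]
      intro σ hσ h2
      rw [Finset.mem_erase] at hσ
      apply hσ.1
      linear_combination h2
    · rw [Finset.prod_ne_zero_iff]
      intro σ hσ h2
      apply hs
      have : -s - ρ0 = σ := by linear_combination h2
      rw [this]
      exact hσ
  have hsub : Finset.univ.filter (fun y : ZMod l ↦ (∀ ρ ∈ P, y + ρ ≠ 0) ∧ (∀ ρ ∈ P, s - y + ρ ≠ 0) ∧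
      ∑ ρ ∈ P, c ρ * (y + ρ)⁻¹ + ∑ ρ ∈ P, c ρ * (s - y + ρ)⁻¹ = w) ⊆ p.roots.toFinset := by
    intro y hy
    rw [Finset.mem_filter] at hy
    obtain ⟨_, h1, h2, h3⟩ := hy
    rw [Multiset.mem_toFinset, mem_roots hp0, IsRoot.def]
    have hA' : A1.eval y = A.eval y * ∑ ρ ∈ P, c ρ * (y + ρ)⁻¹ := by
      rw [eA1, eA, Finset.mul_sum]
      refine Finset.sum_congr rfl fun ρ hρ ↦ ?_
      rw [← Finset.mul_prod_erase P _ hρ]
      have := h1 ρ hρ
      field_simp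
    have hB' : B1.eval y = - (B.eval y * ∑ ρ ∈ P, c ρ * (s - y + ρ)⁻¹) := by
      rw [eB1, eB, Finset.mul_sum, ← Finset.sum_neg_distrib]
      refine Finset.sum_congr rfl fun ρ hρ ↦ ?_
      rw [← Finset.mul_prod_erase P _ hρ]
      have := h2 ρ hρ
      have e : y - (s + ρ) = -(s - y + ρ) := by ring
      rw [e]
      field_simp
    rw [hp, eval_sub, eval_sub, eval_mul, eval_mul, eval_mul, eval_mul, eval_C, hA', hB', ← h3]
    ring
  refine (Finset.card_le_card hsub).trans ((Multiset.toFinset_card_le _).trans ?_)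
  exact (card_roots' p).trans dp

/-- orthogonality -/
lemma mp_orth {ι : Type} (A : Finset ι) (w s : ι → ZMod l) :
    ∑ u : ZMod l, ∑ v : ZMod l, ‖∑ a ∈ A, (ZMod.stdAddChar (u * w a + v * s a) : ℂ)‖ ^ 2 =
      (l : ℝ) ^ 2 * ∑ a ∈ A, ((A.filter (fun b ↦ w b = w a ∧ s b = s a)).card : ℝ) := by
  classical
  have h1 : ∀ u v : ZMod l, ((‖∑ a ∈ A, (ZMod.stdAddChar (u * w a + v * s a) : ℂ)‖ ^ 2 : ℝ) : ℂ) =
      ∑ a ∈ A, ∑ b ∈ A, (ZMod.stdAddChar (u * (w a - w b)) : ℂ) *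
        ZMod.stdAddChar (v * (s a - s b)) := by
    intro u v
    rw [← Complex.normSq_eq_norm_sq, ← Complex.mul_conj, map_sum, Finset.sum_mul_sum]
    refine Finset.sum_congr rfl fun a _ ↦ Finset.sum_congr rfl fun b _ ↦ ?_
    rw [← AddChar.map_neg_eq_conj, ← AddChar.map_add_eq_mul, ← AddChar.map_add_eq_mul]
    congr 1
    ring
  have hprim := ZMod.isPrimitive_stdAddChar l
  have h2 : ((∑ u : ZMod l, ∑ v : ZMod l,
      ‖∑ a ∈ A, (ZMod.stdAddChar (u * w a + v * s a) : ℂ)‖ ^ 2 : ℝ) : ℂ) =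
      (((l : ℝ) ^ 2 * ∑ a ∈ A, ((A.filter (fun b ↦ w b = w a ∧ s b = s a)).card : ℝ) : ℝ) : ℂ) := by
    push_cast
    have h1' : ∀ u v : ZMod l, ((‖∑ a ∈ A, (ZMod.stdAddChar (u * w a + v * s a) : ℂ)‖ : ℝ) : ℂ) ^ 2 =
        ∑ a ∈ A, ∑ b ∈ A, (ZMod.stdAddChar (u * (w a - w b)) : ℂ) *
          ZMod.stdAddChar (v * (s a - s b)) := by
      intro u v
      rw [← h1 u v]
      push_cast
      rfl
    simp_rw [h1']
    have h3 : ∀ u : ZMod l, ∑ v : ZMod l, ∑ a ∈ A, ∑ b ∈ A,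
        (ZMod.stdAddChar (u * (w a - w b)) : ℂ) * ZMod.stdAddChar (v * (s a - s b)) =
        ∑ a ∈ A, ∑ b ∈ A, (ZMod.stdAddChar (u * (w a - w b)) : ℂ) *
          ∑ v : ZMod l, (ZMod.stdAddChar (v * (s a - s b)) : ℂ) := by
      intro u
      rw [Finset.sum_comm]
      refine Finset.sum_congr rfl fun a _ ↦ ?_
      rw [Finset.sum_comm]
      refine Finset.sum_congr rfl fun b _ ↦ ?_
      rw [Finset.mul_sum]
    simp_rw [h3]
    rw [Finset.sum_comm, Finset.mul_sum]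
    refine Finset.sum_congr rfl fun a _ ↦ ?_
    rw [Finset.sum_comm, Finset.card_filter, Nat.cast_sum, Finset.mul_sum]
    refine Finset.sum_congr rfl fun b _ ↦ ?_
    rw [← Finset.sum_mul, AddChar.sum_mulShift _ hprim, AddChar.sum_mulShift _ hprim, ZMod.card]
    by_cases hw : w a - w b = 0
    · by_cases hs : s a - s b = 0
      · rw [if_pos hw, if_pos hs, if_pos ⟨(sub_eq_zero.1 hw).symm, (sub_eq_zero.1 hs).symm⟩]
        push_cast
        ring
      · have : ¬ (w b = w a ∧ s b = s a) := fun h ↦ hs (sub_eq_zero.2 h.2.symm)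
        rw [if_neg hs, if_neg this]
        simp
    · have : ¬ (w b = w a ∧ s b = s a) := fun h ↦ hw (sub_eq_zero.2 h.1.symm)
      rw [if_neg hw, if_neg this]
      simp
  exact_mod_cast h2

/-- counting solutions -/
lemma mp_count (P : Finset (ZMod l)) (c : ZMod l → ZMod l) {ρ0 : ZMod l} (h0 : ρ0 ∈ P)
    (hc : c ρ0 ≠ 0) {K : ℕ} (hK : P.card ≤ K) (Y : Finset (ZMod l))
    (hY : ∀ y, y ∈ Y ↔ ∀ ρ ∈ P, y + ρ ≠ 0) :
    ∑ a ∈ Y ×ˢ Y, (((Y ×ˢ Y).filter (fun b ↦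
      ∑ ρ ∈ P, c ρ * (b.1 + ρ)⁻¹ + ∑ ρ ∈ P, c ρ * (b.2 + ρ)⁻¹ =
        ∑ ρ ∈ P, c ρ * (a.1 + ρ)⁻¹ + ∑ ρ ∈ P, c ρ * (a.2 + ρ)⁻¹ ∧
      b.1 + b.2 = a.1 + a.2)).card : ℝ) ≤ 3 * K * (l : ℝ) ^ 2 := by
  classical
  set N : ZMod l × ZMod l → ℕ := fun a ↦ ((Y ×ˢ Y).filter (fun b ↦
      ∑ ρ ∈ P, c ρ * (b.1 + ρ)⁻¹ + ∑ ρ ∈ P, c ρ * (b.2 + ρ)⁻¹ =
        ∑ ρ ∈ P, c ρ * (a.1 + ρ)⁻¹ + ∑ ρ ∈ P, c ρ * (a.2 + ρ)⁻¹ ∧
      b.1 + b.2 = a.1 + a.2)).card with hN
  have hgood : ∀ a : ZMod l × ZMod l, -(a.1 + a.2) - ρ0 ∉ P → N a ≤ 2 * K := by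
    intro a ha
    refine le_trans ?_ ((mp_roots P c h0 hc (a.1 + a.2)
      (∑ ρ ∈ P, c ρ * (a.1 + ρ)⁻¹ + ∑ ρ ∈ P, c ρ * (a.2 + ρ)⁻¹) ha).trans (by omega))
    refine Finset.card_le_card_of_injOn Prod.fst ?_ ?_
    · intro b hb
      rw [Finset.mem_coe, Finset.mem_filter, Finset.mem_product] at hb
      obtain ⟨⟨h1, h2⟩, h3, h4⟩ := hb
      have e : a.1 + a.2 - b.1 = b.2 := by rw [← h4]; ring
      rw [Finset.mem_coe, Finset.mem_filter, e]
      exact ⟨Finset.mem_univ _, (hY _).1 h1, (hY _).1 h2, h3⟩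
    · intro b hb b' hb' hbb
      rw [Finset.mem_coe, Finset.mem_filter, Finset.mem_product] at hb hb'
      have h4 := hb.2.2
      have h5 := hb'.2.2
      refine Prod.ext hbb ?_
      have : b.1 + b.2 = b'.1 + b'.2 := h4.trans h5.symm
      rw [hbb] at this
      exact add_left_cancel this
  have hall : ∀ a : ZMod l × ZMod l, N a ≤ l := by
    intro a
    have : N a ≤ (Finset.univ : Finset (ZMod l)).card := by
      refine Finset.card_le_card_of_injOn Prod.fst (fun _ _ ↦ Finset.mem_coe.2 (Finset.mem_univ _)) ?_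
      intro b hb b' hb' hbb
      rw [Finset.mem_coe, Finset.mem_filter, Finset.mem_product] at hb hb'
      have h4 := hb.2.2
      have h5 := hb'.2.2
      refine Prod.ext hbb ?_
      have : b.1 + b.2 = b'.1 + b'.2 := h4.trans h5.symm
      rw [hbb] at this
      exact add_left_cancel this
    rwa [Finset.card_univ, ZMod.card] at this
  have hbad : ((Y ×ˢ Y).filter (fun a ↦ -(a.1 + a.2) - ρ0 ∈ P)).card ≤ K * l := by
    have : ((Y ×ˢ Y).filter (fun a ↦ -(a.1 + a.2) - ρ0 ∈ P)).card ≤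
        (P ×ˢ (Finset.univ : Finset (ZMod l))).card := by
      refine Finset.card_le_card_of_injOn (fun a ↦ (-(a.1 + a.2) - ρ0, a.1)) ?_ ?_
      · intro a ha
        rw [Finset.mem_coe, Finset.mem_filter] at ha
        rw [Finset.mem_coe, Finset.mem_product]
        exact ⟨ha.2, Finset.mem_univ _⟩
      · intro a _ b _ hab
        simp only [Prod.mk.injEq] at hab
        refine Prod.ext hab.2 ?_
        have h1 := hab.1
        rw [hab.2] at h1
        linear_combination -h1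
    rw [Finset.card_product, Finset.card_univ, ZMod.card] at this
    exact this.trans (Nat.mul_le_mul_right _ hK)
  have hlR : (1 : ℝ) ≤ l := by exact_mod_cast hl.out.one_le
  have hYc : (Y ×ˢ Y).card ≤ l * l := by
    rw [Finset.card_product]
    have : Y.card ≤ l := by
      have := Finset.card_le_univ Y
      rwa [ZMod.card] at this
    exact Nat.mul_le_mul this this
  have hsum : ∑ a ∈ Y ×ˢ Y, N a ≤ 3 * K * l ^ 2 := by
    rw [← Finset.sum_filter_add_sum_filter_not (Y ×ˢ Y) (fun a ↦ -(a.1 + a.2) - ρ0 ∈ P)]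
    have b1 : ∑ a ∈ (Y ×ˢ Y).filter (fun a ↦ -(a.1 + a.2) - ρ0 ∈ P), N a ≤ (K * l) * l := by
      refine (Finset.sum_le_card_nsmul _ _ l fun a _ ↦ hall a).trans ?_
      rw [smul_eq_mul]
      exact Nat.mul_le_mul_right _ hbad
    have b2 : ∑ a ∈ (Y ×ˢ Y).filter (fun a ↦ ¬ -(a.1 + a.2) - ρ0 ∈ P), N a ≤ (l * l) * (2 * K) := by
      refine (Finset.sum_le_card_nsmul _ _ (2 * K) fun a ha ↦
        hgood a (Finset.mem_filter.1 ha).2).trans ?_
      rw [smul_eq_mul]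
      exact Nat.mul_le_mul_right _ ((Finset.card_le_card (Finset.filter_subset _ _)).trans hYc)
    calc _ ≤ (K * l) * l + (l * l) * (2 * K) := Nat.add_le_add b1 b2
      _ = 3 * K * l ^ 2 := by ring
  exact_mod_cast hsum

lemma mp_core (s : Finset (ZMod l) × (ZMod l → ZMod l)) {m K : ℕ} (hs : mpInv m K s) :
    ∑ u : ZMod l, ∑ v : ZMod l, ‖∑ x : ZMod l, mpF s u x * ZMod.stdAddChar (v * x)‖ ^ 4 ≤
      3 * K * (l : ℝ) ^ 4 := by
  classical
  obtain ⟨P, c⟩ := s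
  have hex : ∃ ρ0, ρ0 ∈ P ∧ c ρ0 ≠ 0 := by
    by_contra hcon
    push Not at hcon
    apply hs.top
    unfold mpM
    refine Finset.sum_eq_zero fun ρ _ ↦ ?_
    by_cases h : c ρ = 0
    · simp [h]
    · exact absurd (hcon ρ (hs.supp ρ h)) h
  obtain ⟨ρ0, h0, hc⟩ := hex
  set Y : Finset (ZMod l) := Finset.univ.filter (fun y ↦ ∀ ρ ∈ P, y + ρ ≠ 0) with hYdef
  have hY : ∀ y, y ∈ Y ↔ ∀ ρ ∈ P, y + ρ ≠ 0 := by
    intro y
    rw [hYdef, Finset.mem_filter]
    simp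
  set R : ZMod l → ZMod l := fun y ↦ ∑ ρ ∈ P, c ρ * (y + ρ)⁻¹ with hR
  have hR' : ∀ y, ∑ ρ, c ρ * (y + ρ)⁻¹ = R y := by
    intro y
    rw [hR]
    refine (Finset.sum_subset (Finset.subset_univ P) fun ρ _ hρ ↦ ?_).symm
    have : c ρ = 0 := by
      by_contra h
      exact hρ (hs.supp ρ h)
    rw [this, zero_mul]
  have hT : ∀ u v : ZMod l, ∑ x : ZMod l, mpF (P, c) u x * (ZMod.stdAddChar (v * x) : ℂ) =
      ∑ y ∈ Y, (ZMod.stdAddChar (u * R y + v * y) : ℂ) := by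
    intro u v
    rw [hYdef, Finset.sum_filter]
    refine Finset.sum_congr rfl fun x _ ↦ ?_
    unfold mpF
    simp only
    split_ifs with h
    · rw [hR', AddChar.map_add_eq_mul]
    · rw [zero_mul]
  have hT4 : ∀ u v : ZMod l, ‖∑ x : ZMod l, mpF (P, c) u x * (ZMod.stdAddChar (v * x) : ℂ)‖ ^ 4 =
      ‖∑ a ∈ Y ×ˢ Y, (ZMod.stdAddChar (u * (R a.1 + R a.2) + v * (a.1 + a.2)) : ℂ)‖ ^ 2 := by
    intro u v
    have e4 : ∀ z : ℂ, ‖z‖ ^ 4 = ‖z * z‖ ^ 2 := by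
      intro z
      rw [norm_mul]
      ring
    rw [hT u v, e4, Finset.sum_mul_sum, ← Finset.sum_product']
    congr 2
    refine Finset.sum_congr rfl fun a _ ↦ ?_
    rw [← AddChar.map_add_eq_mul]
    congr 1
    ring
  simp_rw [hT4]
  rw [mp_orth (Y ×ˢ Y) (fun a ↦ R a.1 + R a.2) (fun a ↦ a.1 + a.2)]
  have := mp_count P c h0 hc hs.card Y hY
  calc _ ≤ (l : ℝ) ^ 2 * (3 * K * (l : ℝ) ^ 2) := by
        apply mul_le_mul_of_nonneg_left this (by positivity)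
    _ = 3 * K * (l : ℝ) ^ 4 := by ring

end

theorem fourth_moment_prime (J : ℕ) : ∃ C : ℝ, 1 ≤ C ∧ ∀ (l : ℕ) [Fact l.Prime], J < l →
    ∀ h : Fin J → ZMod l, (∀ j, h j ≠ 0) →
      ∑ u : ZMod l, ∑ v : ZMod l,
        ‖∑ x : ZMod l, Dl (List.ofFn h) (EZ l u) x * ZMod.stdAddChar (v * x)‖ ^ 4 ≤
        C * (l : ℝ) ^ 4 := by
  refine ⟨3 * 2 ^ J, ?_, ?_⟩
  · have : (1 : ℝ) ≤ 2 ^ J := one_le_pow₀ (by norm_num)
    linarith
  · intro l hl hJ h hh
    have h0 : mpInv 0 1 (({0}, fun ρ ↦ if ρ = 0 then 1 else 0) :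
        Finset (ZMod l) × (ZMod l → ZMod l)) := by
      refine ⟨?_, fun i hi ↦ by omega, ?_, by simp⟩
      · intro ρ hρ
        by_contra h1
        apply hρ
        rw [Finset.mem_singleton] at h1
        simp [h1]
      · simp [mpM]
    have h1 := mpInv_fold (List.ofFn h) h0 (by
      intro x hx
      rw [List.mem_ofFn] at hx
      obtain ⟨j, rfl⟩ := hx
      exact hh j) (by rw [List.length_ofFn]; omega)
    have h2 := mp_core _ h1
    rw [List.length_ofFn, mul_one] at h2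
    have h3 : ∀ u, Dl (List.ofFn h) (EZ l u) = mpF ((List.ofFn h).foldl mpStep
        ({0}, fun ρ ↦ if ρ = 0 then 1 else 0)) u := by
      intro u
      rw [mpF_EZ, mpF_Dl]
    simp_rw [h3]
    push_cast at h2
    exact h2

end Pool.Agent.Work.MP_af11aa_nt.W
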