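import Mathlib
import Pool.Agent.Work.MP_af11aa_nt.W.MomP
import Pool.Agent.Work.MP_af11aa_nt.W.CrtAux
import Pool.Agent.Work.MP_af11aa_nt.K.Crt

/-!
MODULE MomC (fourth moment, squarefree modulus).

T_a(u,v) = ∑_{x mod a} Dl(h)(EZ a u)(x) e(v x/a) is multiplicative (with twists by units in u and v), so
the fourth moments multiply.
-/

set_option autoImplicit false

namespace Pool.Agent.Work.MP_af11aa_nt.W

open Finset

/-- the complete sum -/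
noncomputable def mcT (a : ℕ) [NeZero a] {J : ℕ} (h : Fin J → ℤ) (u v : ZMod a) : ℂ :=
  ∑ x : ZMod a, Dl (List.ofFn fun j ↦ ((h j : ℤ) : ZMod a)) (EZ a u) x * ZMod.stdAddChar (v * x)

lemma EZ_mul {a b : ℕ} [NeZero a] [NeZero b] (hab : a.Coprime b) (u x : ZMod (a * b)) :
    EZ (a * b) u x = EZ a (((b : ZMod a))⁻¹ * pr1 a b u) (pr1 a b x) *
      EZ b (((a : ZMod b))⁻¹ * pr2 a b u) (pr2 a b x) := by
  unfold EZ
  by_cases hx : IsUnit x
  · obtain ⟨h1, h2⟩ := (crt_isUnit hab x).1 hx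
    rw [if_pos hx, if_pos h1, if_pos h2]
    have h3 := K.std_crt hab (u * x⁻¹)
    rw [h3]
    have hinv : x * x⁻¹ = 1 := ZMod.mul_inv_of_unit x hx
    have i1 : (pr1 a b x)⁻¹ = pr1 a b x⁻¹ := by
      have e : pr1 a b x * pr1 a b x⁻¹ = 1 := by rw [← map_mul, hinv, map_one]
      have e' : pr1 a b x * (pr1 a b x)⁻¹ = 1 := ZMod.mul_inv_of_unit _ h1
      exact h1.mul_left_cancel (e'.trans e.symm)
    have i2 : (pr2 a b x)⁻¹ = pr2 a b x⁻¹ := by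
      have e : pr2 a b x * pr2 a b x⁻¹ = 1 := by rw [← map_mul, hinv, map_one]
      have e' : pr2 a b x * (pr2 a b x)⁻¹ = 1 := ZMod.mul_inv_of_unit _ h2
      exact h2.mul_left_cancel (e'.trans e.symm)
    rw [i1, i2]
    have e1 : ((b : ZMod a))⁻¹ * (ZMod.castHom (dvd_mul_right a b) (ZMod a)) (u * x⁻¹) =
        ((b : ZMod a))⁻¹ * pr1 a b u * pr1 a b x⁻¹ := by
      unfold pr1
      rw [map_mul, mul_assoc]
    have e2 : ((a : ZMod b))⁻¹ * (ZMod.castHom (dvd_mul_left b a) (ZMod b)) (u * x⁻¹) =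
        ((a : ZMod b))⁻¹ * pr2 a b u * pr2 a b x⁻¹ := by
      unfold pr2
      rw [map_mul, mul_assoc]
    rw [e1, e2]
  · rw [if_neg hx]
    by_cases h1 : IsUnit (pr1 a b x)
    · rw [if_neg (fun h2 ↦ hx ((crt_isUnit hab x).2 ⟨h1, h2⟩)), mul_zero]
    · rw [if_neg h1, zero_mul]

lemma mcT_mul {a b : ℕ} [NeZero a] [NeZero b] (hab : a.Coprime b) {J : ℕ} (h : Fin J → ℤ)
    (u v : ZMod (a * b)) :
    mcT (a * b) h u v =
      mcT a h (((b : ZMod a))⁻¹ * pr1 a b u) (((b : ZMod a))⁻¹ * pr1 a b v) *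
        mcT b h (((a : ZMod b))⁻¹ * pr2 a b u) (((a : ZMod b))⁻¹ * pr2 a b v) := by
  unfold mcT
  rw [← crt_sum_mul hab]
  refine Finset.sum_congr rfl fun x _ ↦ ?_
  rw [crt_Dl (p := pr1 a b) (q := pr2 a b) (map_add _) (map_add _) (EZ_mul hab u), ofFn_pr1,
    ofFn_pr2, K.std_crt hab (v * x)]
  have e1 : ((b : ZMod a))⁻¹ * (ZMod.castHom (dvd_mul_right a b) (ZMod a)) (v * x) =
      ((b : ZMod a))⁻¹ * pr1 a b v * pr1 a b x := by
    unfold pr1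
    rw [map_mul, mul_assoc]
  have e2 : ((a : ZMod b))⁻¹ * (ZMod.castHom (dvd_mul_left b a) (ZMod b)) (v * x) =
      ((a : ZMod b))⁻¹ * pr2 a b v * pr2 a b x := by
    unfold pr2
    rw [map_mul, mul_assoc]
  rw [e1, e2]
  ring

/-- the fourth moment -/
noncomputable def mcM (a : ℕ) [NeZero a] {J : ℕ} (h : Fin J → ℤ) : ℝ :=
  ∑ u : ZMod a, ∑ v : ZMod a, ‖mcT a h u v‖ ^ 4

lemma mc_twist {a : ℕ} [NeZero a] {w : ZMod a} (hw : IsUnit w) (F : ZMod a → ℝ) :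
    ∑ u : ZMod a, F (w * u) = ∑ u : ZMod a, F u := by
  obtain ⟨w, rfl⟩ := hw
  exact Equiv.sum_comp (Units.mulLeft w) F

lemma mc_isUnit {a b : ℕ} (hab : a.Coprime b) : IsUnit (((b : ZMod a))⁻¹) := by
  have h : (b : ZMod a) * ((b : ZMod a))⁻¹ = 1 := ZMod.coe_mul_inv_eq_one b hab.symm
  exact IsUnit.of_mul_eq_one_right _ h

lemma mcM_mul {a b : ℕ} [NeZero a] [NeZero b] (hab : a.Coprime b) {J : ℕ} (h : Fin J → ℤ) :
    mcM (a * b) h = mcM a h * mcM b h := by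
  unfold mcM
  have h1 : ∀ u v : ZMod (a * b), ‖mcT (a * b) h u v‖ ^ 4 =
      ‖mcT a h (((b : ZMod a))⁻¹ * pr1 a b u) (((b : ZMod a))⁻¹ * pr1 a b v)‖ ^ 4 *
        ‖mcT b h (((a : ZMod b))⁻¹ * pr2 a b u) (((a : ZMod b))⁻¹ * pr2 a b v)‖ ^ 4 := by
    intro u v
    rw [mcT_mul hab, norm_mul, mul_pow]
  simp_rw [h1]
  have h2 : ∀ u : ZMod (a * b), ∑ v : ZMod (a * b),
      ‖mcT a h (((b : ZMod a))⁻¹ * pr1 a b u) (((b : ZMod a))⁻¹ * pr1 a b v)‖ ^ 4 *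
        ‖mcT b h (((a : ZMod b))⁻¹ * pr2 a b u) (((a : ZMod b))⁻¹ * pr2 a b v)‖ ^ 4 =
      (∑ v : ZMod a, ‖mcT a h (((b : ZMod a))⁻¹ * pr1 a b u) v‖ ^ 4) *
        ∑ v : ZMod b, ‖mcT b h (((a : ZMod b))⁻¹ * pr2 a b u) v‖ ^ 4 := by
    intro u
    rw [crt_sum_mul hab
      (fun v ↦ ‖mcT a h (((b : ZMod a))⁻¹ * pr1 a b u) (((b : ZMod a))⁻¹ * v)‖ ^ 4)
      (fun v ↦ ‖mcT b h (((a : ZMod b))⁻¹ * pr2 a b u) (((a : ZMod b))⁻¹ * v)‖ ^ 4)]
    rw [mc_twist (mc_isUnit hab)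
        (fun v ↦ ‖mcT a h (((b : ZMod a))⁻¹ * pr1 a b u) v‖ ^ 4),
      mc_twist (mc_isUnit hab.symm)
        (fun v ↦ ‖mcT b h (((a : ZMod b))⁻¹ * pr2 a b u) v‖ ^ 4)]
  simp_rw [h2]
  rw [crt_sum_mul hab
    (fun u ↦ ∑ v : ZMod a, ‖mcT a h (((b : ZMod a))⁻¹ * u) v‖ ^ 4)
    (fun u ↦ ∑ v : ZMod b, ‖mcT b h (((a : ZMod b))⁻¹ * u) v‖ ^ 4)]
  rw [mc_twist (mc_isUnit hab) (fun u ↦ ∑ v : ZMod a, ‖mcT a h u v‖ ^ 4),
    mc_twist (mc_isUnit hab.symm) (fun u ↦ ∑ v : ZMod b, ‖mcT b h u v‖ ^ 4)]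

lemma mcM_nonneg (a : ℕ) [NeZero a] {J : ℕ} (h : Fin J → ℤ) : 0 ≤ mcM a h :=
  Finset.sum_nonneg fun _ _ ↦ Finset.sum_nonneg fun _ _ ↦ by positivity

lemma norm_EZ_le (a : ℕ) [NeZero a] (u x : ZMod a) : ‖EZ a u x‖ ≤ 1 := by
  unfold EZ
  split_ifs
  · rw [AddChar.norm_apply]
  · simp

theorem fourth_moment (J : ℕ) : ∃ C : ℝ, 1 ≤ C ∧ ∀ (a : ℕ) [NeZero a] (h : Fin J → ℤ),
    Squarefree a → (∀ l ∈ a.primeFactors, J < l ∧ ∀ j, ¬ (l : ℤ) ∣ h j) →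
      ∑ u : ZMod a, ∑ v : ZMod a,
        ‖∑ x : ZMod a, Dl (List.ofFn fun j ↦ ((h j : ℤ) : ZMod a)) (EZ a u) x *
          ZMod.stdAddChar (v * x)‖ ^ 4 ≤ C ^ a.primeFactors.card * (a : ℝ) ^ 4 := by
  obtain ⟨C, hC1, hC⟩ := fourth_moment_prime J
  refine ⟨C, hC1, ?_⟩
  intro a
  induction a using Nat.recOnPosPrimePosCoprime with
  | zero => intro hne; exact absurd rfl (NeZero.ne 0)
  | one =>
    intro _ h _ _
    simp only [Nat.primeFactors_one, Finset.card_empty, pow_zero, Nat.cast_one, one_pow, mul_one]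
    rw [Fintype.sum_subsingleton _ (0 : ZMod 1), Fintype.sum_subsingleton _ (0 : ZMod 1),
      Fintype.sum_subsingleton _ (0 : ZMod 1)]
    apply pow_le_one₀ (norm_nonneg _)
    rw [norm_mul]
    refine mul_le_one₀ (norm_Dl_le_one _ (norm_EZ_le 1 _) _) (norm_nonneg _) ?_
    rw [AddChar.norm_apply]
  | prime_pow p n hp hn =>
    intro _ h hsq hl
    have hn1 : n = 1 := by
      by_contra hne
      have : p * p ∣ p ^ n := by
        rw [← sq]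
        exact pow_dvd_pow p (by omega)
      exact hp.one_lt.ne' (Nat.isUnit_iff.1 (hsq p this))
    subst hn1
    have : Fact p.Prime := ⟨hp⟩
    have hmem : p ∈ (p ^ 1).primeFactors := by
      rw [pow_one, hp.primeFactors]
      exact Finset.mem_singleton_self p
    obtain ⟨hJ, hj⟩ := hl p hmem
    have key := hC p hJ (fun j ↦ ((h j : ℤ) : ZMod p)) (by
      intro j h0
      rw [ZMod.intCast_zmod_eq_zero_iff_dvd] at h0
      exact hj j h0)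
    have hcard : (p ^ 1).primeFactors.card = 1 := by
      rw [pow_one, hp.primeFactors, Finset.card_singleton]
    have hC' : C ^ 1 = C := pow_one C
    rw [hcard, hC']
    have e : ∀ (m : ℕ) [NeZero m], m = p →
        ∑ u : ZMod m, ∑ v : ZMod m,
        ‖∑ x : ZMod m, Dl (List.ofFn fun j ↦ ((h j : ℤ) : ZMod m)) (EZ m u) x *
          ZMod.stdAddChar (v * x)‖ ^ 4 ≤ C * (m : ℝ) ^ 4 := by
      intro m _ hm
      subst hm
      exact key
    exact e (p ^ 1) (pow_one p)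
  | coprime a b ha hb hab iha ihb =>
    intro _ h hsq hl
    have : NeZero a := ⟨by omega⟩
    have : NeZero b := ⟨by omega⟩
    have hsq' := (Nat.squarefree_mul hab).1 hsq
    have hpf : (a * b).primeFactors = a.primeFactors ∪ b.primeFactors := hab.primeFactors_mul
    have h1 := iha h hsq'.1 (fun l hla ↦ hl l (by rw [hpf]; exact Finset.mem_union_left _ hla))
    have h2 := ihb h hsq'.2 (fun l hlb ↦ hl l (by rw [hpf]; exact Finset.mem_union_right _ hlb))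
    have h3 : mcM (a * b) h ≤ C ^ (a * b).primeFactors.card * ((a * b : ℕ) : ℝ) ^ 4 := by
      rw [mcM_mul hab, card_primeFactors_mul' hab, pow_add]
      push_cast
      calc mcM a h * mcM b h ≤ (C ^ a.primeFactors.card * (a : ℝ) ^ 4) *
            (C ^ b.primeFactors.card * (b : ℝ) ^ 4) :=
            mul_le_mul h1 h2 (mcM_nonneg b h) (by positivity)
        _ = _ := by ring
    exact h3

end Pool.Agent.Work.MP_af11aa_nt.W
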