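import Mathlib
import Pool.Agent.Work.MP_af11aa_nt.W.MomC
import Pool.Agent.Work.MP_af11aa_nt.W.Incomp
import Pool.Agent.Work.MP_af11aa_nt.W.GoodPart
import Pool.Agent.Work.MP_af11aa_nt.W.GcdAvg
import Pool.Agent.Work.MP_af11aa_nt.W.Arith

/-!
MODULE R2Core (regime II, average over the common dilation λ, fixed shifts s).

a = A1 A2, A1 = a1 J a s (squarefree, coprime to A2, primes l > J not dividing any s_j), Λ < A1.
eInv a θ x = eInv A1 θ1 x * eInv A2 θ2 x with θ1 = θ ivz A1 A2, θ2 = θ ivz A2 A1 (CRT; (x,a)=1 iff (x,A1)=(x,A2)=1).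
So Dl(λ s)(n ↦ eInv a θ (β+Dn)) = U(n) V(n), V is A2-periodic and bounded by 1,
U(n) = g_λ(β + D n mod A1), g_λ = Dl(ofFn (D λ s_j mod A1)) (EZ A1 θ1)  (Dl_comp; eInv A1 θ1 x = EZ A1 θ1 (x mod A1)).
Split n = α + A2 μ into the classes mod A2: the μ run over an interval of length ≤ L = N/A2 + 1 (natural division),
and `incomplete` (with D := D A2, a unit mod A1) bounds the class by ∑_k pw A1 L k |ĝ_λ(k (D A2)⁻¹)|,
 ĝ_λ(v) = ∑_x g_λ(x) e(v x).  Substituting x = λ y (λ is prime to A1) and EZ A1 θ1 (λ y) = EZ A1 (θ1 λ⁻¹) y: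
 ĝ_λ(v) = T(θ1 λ⁻¹, λ v),  T(u,v) = ∑_y Dl(ofFn (D s_j))(EZ A1 u)(y) e(v y).
The points (θ1 λ⁻¹, λ v), λ ∈ 𝓛 = {1 ≤ λ ≤ Λ, (λ,a) = 1}, are distinct since Λ < A1 and θ1 is a unit.  So by Hölder
 ∑_{λ∈𝓛} |ĝ_λ(v)| ≤ |𝓛|^{3/4} (∑_{u,v} |T|^4)^{1/4} ≤ |𝓛|^{3/4} C^{ω(A1)} A1   (fourth_moment with h = D s).
Sum over k (pw_sum) and over the A2 classes: ≤ |𝓛|^{3/4} C^ω A1 A2 (L/A1 + 1 + log A1) ≤
 |𝓛|^{3/4} C^ω (N + A2 + a + a log a) ≤ C' a^ε |𝓛|^{3/4} (N + a)   (omega_bound, log a ≤ C a^{ε/2}).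
-/

set_option autoImplicit false

namespace Pool.Agent.Work.MP_af11aa_nt.W

open Finset

/-! ### Chinese remainder theorem for `eInv` -/

theorem r2_ec_add (c : ℕ) (z w : ℤ) : ec c (z + w) = ec c z * ec c w := by
  unfold ec
  rw [← Complex.exp_add]
  congr 1
  push_cast
  ring

theorem r2_ec_mul {m c : ℕ} (hm : m ≠ 0) (hc : c ≠ 0) (z : ℤ) :
    ec (m * c) (m * z) = ec c z := by
  unfold ec
  congr 1
  have h1 : (m : ℂ) ≠ 0 := by exact_mod_cast hm
  have h2 : (c : ℂ) ≠ 0 := by exact_mod_cast hc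
  push_cast
  field_simp

theorem r2_ec_self {c : ℕ} (hc : c ≠ 0) (z : ℤ) : ec c (c * z) = 1 := by
  unfold ec
  have h2 : (c : ℂ) ≠ 0 := by exact_mod_cast hc
  have : 2 * (Real.pi : ℂ) * Complex.I * ((c * z : ℤ) : ℂ) / c = z * (2 * Real.pi * Complex.I) := by
    push_cast
    field_simp
  rw [this]
  exact Complex.exp_int_mul_two_pi_mul_I z

theorem r2_ec_congr {c : ℕ} (hc : c ≠ 0) {z w : ℤ} (h : (c : ℤ) ∣ w - z) :
    ec c z = ec c w := by
  obtain ⟨t, ht⟩ := h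
  have : w = z + c * t := by linarith
  rw [this, r2_ec_add, r2_ec_self hc, mul_one]

theorem r2_ivz {c : ℕ} (hc : c ≠ 0) {x : ℤ} (hx : IsCoprime x (c : ℤ)) :
    (c : ℤ) ∣ ivz c x * x - 1 := by
  have : NeZero c := ⟨hc⟩
  rw [← ZMod.intCast_zmod_eq_zero_iff_dvd]
  have hu : IsUnit (x : ZMod c) := by
    obtain ⟨a, b, h⟩ := hx
    have h1 := congrArg (Int.cast : ℤ → ZMod c) h
    push_cast at h1
    rw [ZMod.natCast_self, mul_zero, add_zero, mul_comm] at h1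
    exact IsUnit.of_mul_eq_one _ h1
  unfold ivz
  push_cast
  rw [ZMod.natCast_zmod_val, ZMod.inv_mul_of_unit _ hu, sub_self]

theorem r2_inv_unique {c : ℤ} {u v w : ℤ} (h1 : c ∣ u * w - 1) (h2 : c ∣ v * w - 1) :
    c ∣ v - u := by
  have h3 : v - u = v * (u * w - 1) * (-1) + u * (v * w - 1) := by ring
  rw [h3]
  exact dvd_add (Dvd.dvd.mul_right (Dvd.dvd.mul_left h1 _) _) (Dvd.dvd.mul_left h2 _)

theorem r2_two {a b : ℕ} (ha : a ≠ 0) (hb : b ≠ 0) (hab : a.Coprime b) {u v : ℤ}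
    (hu : (a : ℤ) ∣ u * b - 1) (hv : (b : ℤ) ∣ v * a - 1) (z : ℤ) :
    ec (a * b) z = ec a (z * u) * ec b (z * v) := by
  have hcop : IsCoprime (b : ℤ) (a : ℤ) := Nat.isCoprime_iff_coprime.2 hab.symm
  have h3 : ((a * b : ℕ) : ℤ) ∣ (u * b + v * a) - 1 := by
    push_cast
    refine hcop.symm.mul_dvd ?_ ?_
    · have : u * b + v * a - 1 = (u * b - 1) + v * a := by ring
      rw [this]
      exact dvd_add hu (dvd_mul_left _ _)
    · have : u * b + v * a - 1 = (v * a - 1) + u * b := by ring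
      rw [this]
      exact dvd_add hv (dvd_mul_left _ _)
  rw [← r2_ec_mul hb ha (z * u), ← r2_ec_mul ha hb (z * v), mul_comm b a,
    ← r2_ec_add]
  refine r2_ec_congr (mul_ne_zero ha hb) ?_
  have : (b : ℤ) * (z * u) + a * (z * v) - z = ((u * b + v * a) - 1) * z := by ring
  rw [this]
  exact Dvd.dvd.mul_right h3 _

theorem r2_ivz_dvd {a c : ℕ} (ha : a ≠ 0) (hc : c ≠ 0) (hac : a ∣ c) {x : ℤ}
    (hx : IsCoprime x (c : ℤ)) : (a : ℤ) ∣ ivz a x - ivz c x := by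
  have hac' : (a : ℤ) ∣ (c : ℤ) := by exact_mod_cast hac
  have hxa : IsCoprime x (a : ℤ) := hx.of_isCoprime_of_dvd_right hac'
  exact r2_inv_unique (hac'.trans (r2_ivz hc hx)) (r2_ivz ha hxa)

theorem r2_eInv_mul {a b : ℕ} (ha : a ≠ 0) (hb : b ≠ 0) (hab : a.Coprime b) (z x : ℤ) :
    eInv (a * b) z x = eInv a (z * ivz a b) x * eInv b (z * ivz b a) x := by
  have hcop : IsCoprime ((b : ℕ) : ℤ) (a : ℤ) := Nat.isCoprime_iff_coprime.2 hab.symm
  have hu := r2_ivz ha hcop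
  have hv := r2_ivz hb hcop.symm
  by_cases hx : IsCoprime x ((a * b : ℕ) : ℤ)
  · have hxa : IsCoprime x (a : ℤ) := hx.of_isCoprime_of_dvd_right (by push_cast; exact dvd_mul_right _ _)
    have hxb : IsCoprime x (b : ℤ) := hx.of_isCoprime_of_dvd_right (by push_cast; exact dvd_mul_left _ _)
    unfold eInv
    rw [if_pos hx, if_pos hxa, if_pos hxb]
    unfold eI
    rw [r2_two ha hb hab hu hv]
    congr 1
    · refine r2_ec_congr ha ?_
      have e1 := r2_ivz_dvd ha (mul_ne_zero ha hb) (dvd_mul_right a b) hx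
      have : z * ivz a b * ivz a x - z * ivz (a * b) x * ivz a b =
          (ivz a x - ivz (a * b) x) * (z * ivz a b) := by ring
      rw [this]
      exact Dvd.dvd.mul_right e1 _
    · refine r2_ec_congr hb ?_
      have e1 := r2_ivz_dvd hb (mul_ne_zero ha hb) (dvd_mul_left b a) hx
      have : z * ivz b a * ivz b x - z * ivz (a * b) x * ivz b a =
          (ivz b x - ivz (a * b) x) * (z * ivz b a) := by ring
      rw [this]
      exact Dvd.dvd.mul_right e1 _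
  · have hn : ¬ (IsCoprime x (a : ℤ) ∧ IsCoprime x (b : ℤ)) := fun h =>
      hx (by push_cast; exact h.1.mul_right h.2)
    unfold eInv
    rw [if_neg hx]
    by_cases hxa : IsCoprime x (a : ℤ)
    · rw [if_neg (fun h => hn ⟨hxa, h⟩), mul_zero]
    · rw [if_neg hxa, zero_mul]

theorem r2_unit_iff (a : ℕ) (x : ℤ) : IsCoprime x (a : ℤ) ↔ IsUnit (x : ZMod a) := by
  rw [ZMod.coe_int_isUnit_iff_isCoprime, isCoprime_comm]

theorem r2_eInv_eq (a : ℕ) [NeZero a] (z x : ℤ) :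
    eInv a z x = EZ a (z : ZMod a) (x : ZMod a) := by
  unfold eInv EZ
  by_cases hx : IsCoprime x (a : ℤ)
  · rw [if_pos hx, if_pos ((r2_unit_iff a x).1 hx)]
    unfold eI ec
    have : (z : ZMod a) * (x : ZMod a)⁻¹ = ((z * ivz a x : ℤ) : ZMod a) := by
      unfold ivz
      push_cast
      rw [ZMod.natCast_zmod_val]
    rw [this, ZMod.stdAddChar_coe]
  · rw [if_neg hx, if_neg (fun h' => hx ((r2_unit_iff a x).2 h'))]

theorem r2_EZ_mul (a : ℕ) [NeZero a] (θ l y : ZMod a) (hl : IsUnit l) :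
    EZ a θ (l * y) = EZ a (θ * l⁻¹) y := by
  unfold EZ
  by_cases hy : IsUnit y
  · rw [if_pos (hl.mul hy), if_pos hy]
    have : θ * (l * y)⁻¹ = θ * l⁻¹ * y⁻¹ := by
      obtain ⟨l, rfl⟩ := hl
      obtain ⟨y, rfl⟩ := hy
      rw [← Units.val_mul, ZMod.inv_coe_unit, ZMod.inv_coe_unit, ZMod.inv_coe_unit, mul_inv,
        Units.val_mul, mul_assoc]
    rw [this]
  · have hn : ¬ IsUnit (l * y) := fun h => hy (isUnit_of_mul_isUnit_right h)
    rw [if_neg hn, if_neg hy]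

/-! ### Splitting into residue classes -/

theorem r2_classes {A N : ℕ} (hA : 0 < A) (U V : ℤ → ℂ) (hV : ∀ n, V (n + A) = V n)
    (hV1 : ∀ n, ‖V n‖ ≤ 1) (u v : ℤ) (huv : v - u ≤ N) (B : ℝ)
    (hB : ∀ (α u' v' : ℤ), v' - u' ≤ (N / A + 1 : ℕ) → ‖∑ m ∈ Ico u' v', U (α + A * m)‖ ≤ B) :
    ‖∑ n ∈ Ico u v, U n * V n‖ ≤ A * B := by
  have hAz : (0 : ℤ) < A := by exact_mod_cast hA
  have hVm : ∀ (α m : ℤ), V (α + A * m) = V α := by
    intro α m
    have h1 : ∀ k : ℕ, ∀ n : ℤ, V (n + A * k) = V n := by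
      intro k
      induction k with
      | zero => intro n; simp
      | succ k ih =>
        intro n
        have : n + (A : ℤ) * ((k + 1 : ℕ) : ℤ) = (n + A * k) + A := by push_cast; ring
        rw [this, hV, ih]
    obtain ⟨k, rfl | rfl⟩ := m.eq_nat_or_neg
    · exact h1 k α
    · have := h1 k (α + A * (-(k : ℤ)))
      rw [← this]
      congr 1
      ring
  have hmaps : ∀ n ∈ Ico u v, (n % (A : ℤ)).toNat ∈ range A := by
    intro n _
    rw [mem_range]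
    have := Int.emod_lt_of_pos n hAz
    have := Int.emod_nonneg n hAz.ne'
    omega
  rw [← Finset.sum_fiberwise_of_maps_to hmaps]
  refine (norm_sum_le _ _).trans ?_
  have hcl : ∀ α ∈ range A, ‖∑ n ∈ Ico u v with (n % (A : ℤ)).toNat = α, U n * V n‖ ≤ B := by
    intro α hα
    rw [mem_range] at hα
    have hs : ∑ n ∈ Ico u v with (n % (A : ℤ)).toNat = α, U n * V n =
        (∑ m ∈ Ico (-(((α : ℤ) - u) / A)) (-(((α : ℤ) - v) / A)), U (α + A * m)) * V α := by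
      rw [Finset.sum_mul]
      refine Finset.sum_nbij' (fun n => n / (A : ℤ)) (fun m => (α : ℤ) + A * m) ?_ ?_ ?_ ?_ ?_
      · intro n hn
        rw [mem_filter, mem_Ico] at hn
        obtain ⟨⟨h1, h2⟩, h3⟩ := hn
        have h4 : n % (A : ℤ) = α := by
          have := Int.emod_nonneg n hAz.ne'
          omega
        have h5 := Int.emod_add_mul_ediv n A
        rw [h4] at h5
        rw [mem_Ico]
        constructor
        · have : 0 ≤ ((α : ℤ) - u) + A * (n / A) := by linarith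
          have h6 : 0 ≤ (((α : ℤ) - u) + A * (n / A)) / A := Int.ediv_nonneg this hAz.le
          rw [Int.add_mul_ediv_left _ _ hAz.ne'] at h6
          linarith
        · have : ((α : ℤ) - v) + A * (n / A) < 0 := by linarith
          have h6 : (((α : ℤ) - v) + A * (n / A)) / A < 0 := Int.ediv_neg_of_neg_of_pos this hAz
          rw [Int.add_mul_ediv_left _ _ hAz.ne'] at h6
          linarith
      · intro m hm
        rw [mem_Ico] at hm
        obtain ⟨h1, h2⟩ := hm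
        rw [mem_filter, mem_Ico]
        refine ⟨⟨?_, ?_⟩, ?_⟩
        · have h3 : 0 ≤ (((α : ℤ) - u) + A * m) / A := by
            rw [Int.add_mul_ediv_left _ _ hAz.ne']; linarith
          by_contra hc
          have h4 : ((α : ℤ) - u) + A * m < 0 := by linarith [not_le.1 hc]
          have := Int.ediv_neg_of_neg_of_pos h4 hAz
          linarith
        · have h3 : (((α : ℤ) - v) + A * m) / A < 0 := by
            rw [Int.add_mul_ediv_left _ _ hAz.ne']; linarith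
          by_contra hc
          have h4 : 0 ≤ ((α : ℤ) - v) + A * m := by linarith [not_lt.1 hc]
          have := Int.ediv_nonneg h4 hAz.le
          linarith
        · rw [Int.add_mul_emod_self_left, Int.emod_eq_of_lt (by positivity) (by exact_mod_cast hα)]
          simp
      · intro n hn
        rw [mem_filter] at hn
        have h4 : n % (A : ℤ) = α := by
          have := Int.emod_nonneg n hAz.ne'
          omega
        have h5 := Int.emod_add_mul_ediv n A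
        rw [h4] at h5
        exact h5
      · intro m _
        show ((α : ℤ) + A * m) / A = m
        rw [Int.add_mul_ediv_left _ _ hAz.ne', Int.ediv_eq_zero_of_lt (by positivity)
          (by exact_mod_cast hα), zero_add]
      · intro n hn
        rw [mem_filter] at hn
        have h4 : n % (A : ℤ) = α := by
          have := Int.emod_nonneg n hAz.ne'
          omega
        have h5 := Int.emod_add_mul_ediv n A
        rw [h4] at h5
        show U n * V n = U ((α : ℤ) + A * (n / A)) * V α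
        rw [← hVm α (n / A), h5]
    rw [hs, norm_mul]
    have hlen : -(((α : ℤ) - v) / A) - -(((α : ℤ) - u) / A) ≤ ((N / A + 1 : ℕ) : ℤ) := by
      have h1 : ((α : ℤ) - u) / A ≤ (((α : ℤ) - v) + N) / A :=
        Int.ediv_le_ediv hAz (by linarith)
      have h2 : (((α : ℤ) - v) + N) / A ≤ ((α : ℤ) - v) / A + ((N / A : ℕ) : ℤ) + 1 := by
        have h3 : (((α : ℤ) - v) + N) / A < ((α : ℤ) - v) / A + ((N / A : ℕ) : ℤ) + 1 + 1 := by
          rw [Int.ediv_lt_iff_lt_mul hAz]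
          have e1 := Int.lt_ediv_add_one_mul_self ((α : ℤ) - v) hAz
          have e2 := Int.lt_ediv_add_one_mul_self (N : ℤ) hAz
          push_cast
          nlinarith
        linarith
      push_cast at h1 h2 ⊢
      linarith
    calc _ ≤ B * 1 := mul_le_mul (hB α _ _ hlen) (hV1 _) (norm_nonneg _)
          ((norm_nonneg _).trans (hB α _ _ hlen))
      _ = B := mul_one _
  calc _ ≤ ∑ _α ∈ range A, B := Finset.sum_le_sum hcl
    _ = A * B := by rw [Finset.sum_const, card_range, nsmul_eq_mul]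

/-! ### The Fourier transform and the dilation -/

theorem r2_hat (A : ℕ) [NeZero A] (J : ℕ) (D : ℤ) (s : Fin J → ℤ) (θ v : ZMod A) (l : ℤ)
    (hl : IsUnit (l : ZMod A)) :
    ∑ x : ZMod A, Dl (List.ofFn fun j => (D : ZMod A) * ((l * s j : ℤ) : ZMod A)) (EZ A θ) x *
        ZMod.stdAddChar (v * x) =
      ∑ y : ZMod A, Dl (List.ofFn fun j => ((D * s j : ℤ) : ZMod A))
        (EZ A (θ * (l : ZMod A)⁻¹)) y * ZMod.stdAddChar ((v * (l : ZMod A)) * y) := by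
  have h0 : EZ A (θ * (l : ZMod A)⁻¹) = EZ A θ ∘ fun y => (l : ZMod A) * y := by
    funext y
    exact (r2_EZ_mul A θ l y hl).symm
  have h1 : Dl (List.ofFn fun j => ((D * s j : ℤ) : ZMod A)) (EZ A (θ * (l : ZMod A)⁻¹)) =
      Dl (List.ofFn fun j => (D : ZMod A) * ((l * s j : ℤ) : ZMod A)) (EZ A θ) ∘
        fun y => (l : ZMod A) * y := by
    rw [h0, Dl_comp _ (fun y => (l : ZMod A) * y) (fun h => (l : ZMod A) * h)
      (fun x h => mul_add _ _ _), List.map_ofFn]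
    congr 3
    funext j
    simp only [Function.comp_apply]
    push_cast
    ring
  rw [h1]
  obtain ⟨w, hw⟩ := hl
  refine (Fintype.sum_equiv (Units.mulLeft w) _ _ fun y => ?_).symm
  rw [Units.mulLeft_apply, hw, Function.comp_apply]
  congr 2
  ring

theorem r2_holder {ι : Type} (S : Finset ι) (f : ι → ℝ) (hf : ∀ i, 0 ≤ f i) (M K : ℝ)
    (hM : ∑ i ∈ S, f i ^ 4 ≤ M) (hK : M ≤ K ^ 4) (hK0 : 0 ≤ K) :
    ∑ i ∈ S, f i ≤ (S.card : ℝ) ^ (3 / 4 : ℝ) * K := by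
  have h1 : (∑ i ∈ S, f i) ^ 2 ≤ S.card * ∑ i ∈ S, f i ^ 2 := sq_sum_le_card_mul_sum_sq
  have h2 : (∑ i ∈ S, f i ^ 2) ^ 2 ≤ S.card * ∑ i ∈ S, (f i ^ 2) ^ 2 := sq_sum_le_card_mul_sum_sq
  have h3 : ∑ i ∈ S, (f i ^ 2) ^ 2 = ∑ i ∈ S, f i ^ 4 :=
    Finset.sum_congr rfl fun i _ => by ring
  rw [h3] at h2
  have hc : (0 : ℝ) ≤ S.card := by positivity
  have h4 : (∑ i ∈ S, f i) ^ 4 ≤ (S.card : ℝ) ^ 3 * K ^ 4 := by
    calc (∑ i ∈ S, f i) ^ 4 = ((∑ i ∈ S, f i) ^ 2) ^ 2 := by ring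
      _ ≤ (S.card * ∑ i ∈ S, f i ^ 2) ^ 2 := by
          refine pow_le_pow_left₀ (by positivity) h1 2
      _ = (S.card : ℝ) ^ 2 * (∑ i ∈ S, f i ^ 2) ^ 2 := by ring
      _ ≤ (S.card : ℝ) ^ 2 * (S.card * ∑ i ∈ S, f i ^ 4) := by gcongr
      _ ≤ (S.card : ℝ) ^ 2 * (S.card * K ^ 4) := by
          gcongr
          exact hM.trans hK
      _ = (S.card : ℝ) ^ 3 * K ^ 4 := by ring
  have h5 : ((S.card : ℝ) ^ (3 / 4 : ℝ)) ^ 4 = (S.card : ℝ) ^ 3 := by
    rw [← Real.rpow_natCast, ← Real.rpow_mul hc, ← Real.rpow_natCast]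
    norm_num
  have h6 : (∑ i ∈ S, f i) ^ 4 ≤ ((S.card : ℝ) ^ (3 / 4 : ℝ) * K) ^ 4 := by
    rw [mul_pow, h5]
    exact h4
  exact le_of_pow_le_pow_left₀ (by norm_num) (by positivity) h6

theorem r2_inj {A : ℕ} [NeZero A] (H : ZMod A → ZMod A → ℝ) (hH0 : ∀ u v, 0 ≤ H u v)
    (θ : ZMod A) (hθ : IsUnit θ) (S : Finset ℕ) (hS : ∀ l ∈ S, l < A ∧ IsUnit (l : ZMod A))
    (v : ZMod A) :
    ∑ l ∈ S, H (θ * (l : ZMod A)⁻¹) (v * (l : ZMod A)) ≤ ∑ u, ∑ v', H u v' := by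
  classical
  have hinj : Set.InjOn (fun l : ℕ => θ * (l : ZMod A)⁻¹) S := by
    intro l hl l' hl' heq
    have h1 : (l : ZMod A)⁻¹ = (l' : ZMod A)⁻¹ := hθ.mul_left_cancel heq
    have e1 := ZMod.inv_mul_of_unit _ (hS l hl).2
    have e2 := ZMod.inv_mul_of_unit _ (hS l' hl').2
    have h2 : (l : ZMod A) = (l' : ZMod A) := by
      calc (l : ZMod A) = l * ((l' : ZMod A)⁻¹ * l') := by rw [e2, mul_one]
        _ = ((l : ZMod A)⁻¹ * l) * l' := by rw [h1]; ring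
        _ = l' := by rw [e1, one_mul]
    rw [ZMod.natCast_eq_natCast_iff'] at h2
    rwa [Nat.mod_eq_of_lt (hS l hl).1, Nat.mod_eq_of_lt (hS l' hl').1] at h2
  calc ∑ l ∈ S, H (θ * (l : ZMod A)⁻¹) (v * (l : ZMod A))
      ≤ ∑ l ∈ S, ∑ v', H (θ * (l : ZMod A)⁻¹) v' := by
        refine Finset.sum_le_sum fun l _ => ?_
        exact Finset.single_le_sum (f := fun v' => H (θ * (l : ZMod A)⁻¹) v')
          (fun v' _ => hH0 _ v') (Finset.mem_univ _)
    _ = ∑ u ∈ S.image (fun l : ℕ => θ * (l : ZMod A)⁻¹), ∑ v', H u v' := by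
        rw [Finset.sum_image hinj]
    _ ≤ ∑ u, ∑ v', H u v' :=
        Finset.sum_le_univ_sum_of_nonneg fun u => Finset.sum_nonneg fun v' _ => hH0 u v'

theorem r2_avg (J : ℕ) (C : ℝ) (hC1 : 1 ≤ C) (A : ℕ) [NeZero A] (h : Fin J → ℤ)
    (hC : ∑ u : ZMod A, ∑ v : ZMod A,
        ‖∑ x : ZMod A, Dl (List.ofFn fun j ↦ ((h j : ℤ) : ZMod A)) (EZ A u) x *
          ZMod.stdAddChar (v * x)‖ ^ 4 ≤ C ^ A.primeFactors.card * (A : ℝ) ^ 4)
    (θ : ZMod A) (hθ : IsUnit θ) (S : Finset ℕ) (hS : ∀ l ∈ S, l < A ∧ IsUnit (l : ZMod A))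
    (v : ZMod A) :
    ∑ l ∈ S, ‖∑ x : ZMod A, Dl (List.ofFn fun j ↦ ((h j : ℤ) : ZMod A))
        (EZ A (θ * (l : ZMod A)⁻¹)) x * ZMod.stdAddChar ((v * (l : ZMod A)) * x)‖ ≤
      (S.card : ℝ) ^ (3 / 4 : ℝ) * (C ^ A.primeFactors.card * A) := by
  have h1 := r2_inj (fun u v : ZMod A =>
      ‖∑ x : ZMod A, Dl (List.ofFn fun j ↦ ((h j : ℤ) : ZMod A)) (EZ A u) x *
          ZMod.stdAddChar (v * x)‖ ^ 4) (fun u v => by positivity) θ hθ S hS v
  have h2 : C ^ A.primeFactors.card * (A : ℝ) ^ 4 ≤ (C ^ A.primeFactors.card * (A : ℝ)) ^ 4 := by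
    rw [mul_pow]
    refine mul_le_mul_of_nonneg_right ?_ (by positivity)
    exact le_self_pow₀ (one_le_pow₀ hC1) (by norm_num)
  exact r2_holder S (fun l : ℕ => ‖∑ x : ZMod A, Dl (List.ofFn fun j ↦ ((h j : ℤ) : ZMod A))
        (EZ A (θ * (l : ZMod A)⁻¹)) x * ZMod.stdAddChar ((v * (l : ZMod A)) * x)‖)
    (fun _ => norm_nonneg _) _ _ (h1.trans hC) h2 (by positivity)

theorem r2_main (J : ℕ) (C : ℝ) (hC1 : 1 ≤ C)
    (hC : ∀ (a : ℕ) [NeZero a] (h : Fin J → ℤ),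
      Squarefree a → (∀ l ∈ a.primeFactors, J < l ∧ ∀ j, ¬ (l : ℤ) ∣ h j) →
        ∑ u : ZMod a, ∑ v : ZMod a,
          ‖∑ x : ZMod a, Dl (List.ofFn fun j ↦ ((h j : ℤ) : ZMod a)) (EZ a u) x *
            ZMod.stdAddChar (v * x)‖ ^ 4 ≤ C ^ a.primeFactors.card * (a : ℝ) ^ 4)
    (A1 A2 D N Λ : ℕ) [NeZero A1] [NeZero A2] (hcop : A1.Coprime A2) (hsq : Squarefree A1)
    (s : Fin J → ℤ) (hs : ∀ l ∈ A1.primeFactors, J < l ∧ ∀ j, ¬ (l : ℤ) ∣ s j)
    (θ β : ℤ) (u v : ℕ → ℤ) (hD : D.Coprime (A1 * A2)) (hΛ : Λ < A1)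
    (hθ : IsCoprime θ ((A1 * A2 : ℕ) : ℤ)) (huv : ∀ x, v x - u x ≤ N) :
    ∑ x ∈ (Icc 1 Λ).filter (fun x ↦ x.Coprime (A1 * A2)),
        ‖∑ n ∈ Ico (u x) (v x),
          Dl (List.ofFn fun j ↦ (x : ℤ) * s j)
            (fun n : ℤ ↦ eInv (A1 * A2) θ (β + D * n)) n‖ ≤
      A2 * (((N / A2 + 1 : ℕ) : ℝ) / A1 + 1 + Real.log A1) *
        ((((Icc 1 Λ).filter (fun x ↦ x.Coprime (A1 * A2))).card : ℝ) ^ (3 / 4 : ℝ) *
          (C ^ A1.primeFactors.card * A1)) := by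
  classical
  have hA1 : A1 ≠ 0 := NeZero.ne _
  have hA2 : A2 ≠ 0 := NeZero.ne _
  set θ1 : ℤ := θ * ivz A1 A2 with hθ1
  set θ2 : ℤ := θ * ivz A2 A1 with hθ2
  set S := (Icc 1 Λ).filter (fun x ↦ x.Coprime (A1 * A2)) with hSdef
  set L := N / A2 + 1 with hL
  -- units modulo `A1`
  have hDu : IsUnit ((D : ℤ) : ZMod A1) := by
    rw [← r2_unit_iff]
    exact Nat.isCoprime_iff_coprime.2 (Nat.Coprime.coprime_mul_right_right hD)
  have hA2u : IsUnit ((A2 : ℤ) : ZMod A1) := by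
    rw [← r2_unit_iff]
    exact Nat.isCoprime_iff_coprime.2 hcop.symm
  have hDA : IsUnit (((D : ℤ) : ZMod A1) * ((A2 : ℤ) : ZMod A1)) := hDu.mul hA2u
  have hθu : IsUnit (θ1 : ZMod A1) := by
    rw [hθ1, Int.cast_mul]
    refine IsUnit.mul ?_ ?_
    · rw [← r2_unit_iff]
      refine hθ.of_isCoprime_of_dvd_right ?_
      push_cast
      exact dvd_mul_right _ _
    · have h1 : ((ivz A1 A2 : ℤ) : ZMod A1) * ((A2 : ℤ) : ZMod A1) = 1 := by
        unfold ivz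
        push_cast
        rw [ZMod.natCast_zmod_val]
        have := ZMod.inv_mul_of_unit _ hA2u
        push_cast at this
        exact this
      exact IsUnit.of_mul_eq_one _ h1
  have hSu : ∀ l ∈ S, l < A1 ∧ IsUnit (l : ZMod A1) := by
    intro l hl
    rw [hSdef, mem_filter, mem_Icc] at hl
    refine ⟨lt_of_le_of_lt hl.1.2 hΛ, ?_⟩
    have h1 : IsCoprime ((l : ℕ) : ℤ) (A1 : ℤ) :=
      Nat.isCoprime_iff_coprime.2 (Nat.Coprime.coprime_mul_right_right hl.2)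
    have := (r2_unit_iff A1 l).1 h1
    simpa using this
  -- the fourth moment with shifts `D s`
  have hmom := hC A1 (fun j => (D : ℤ) * s j) hsq (fun l hl => by
    refine ⟨(hs l hl).1, fun j hj => ?_⟩
    have hlp : l.Prime := Nat.prime_of_mem_primeFactors hl
    rcases (Nat.prime_iff_prime_int.1 hlp).dvd_or_dvd hj with h1 | h1
    · have h2 : l ∣ D := by exact_mod_cast h1
      have h3 : l ∣ A1 * A2 := (Nat.dvd_of_mem_primeFactors hl).mul_right _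
      have h4 := Nat.dvd_gcd h2 h3
      rw [hD] at h4
      exact hlp.one_lt.ne' (Nat.dvd_one.1 h4)
    · exact (hs l hl).2 j h1)
  -- the Fourier transforms
  set G : ℕ → ZMod A1 → ℝ := fun l k =>
    ‖∑ x : ZMod A1, Dl (List.ofFn fun j => ((D : ℤ) : ZMod A1) * (((l : ℤ) * s j : ℤ) : ZMod A1))
      (EZ A1 (θ1 : ZMod A1)) x * ZMod.stdAddChar (k * x)‖ with hG
  have hGle : ∀ k, ∑ l ∈ S, G l k ≤ (S.card : ℝ) ^ (3 / 4 : ℝ) *
      (C ^ A1.primeFactors.card * A1) := by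
    intro k
    refine le_trans (le_of_eq ?_) (r2_avg J C hC1 A1 (fun j => (D : ℤ) * s j) hmom θ1 hθu S hSu k)
    refine Finset.sum_congr rfl fun l hl => ?_
    simp only [hG]
    have hlu : IsUnit ((l : ℤ) : ZMod A1) := by simpa using (hSu l hl).2
    rw [r2_hat A1 J D s θ1 k l hlu]
    simp only [Int.cast_natCast]
  -- bound for one dilation
  have hone : ∀ l ∈ S, ‖∑ n ∈ Ico (u l) (v l), Dl (List.ofFn fun j ↦ (l : ℤ) * s j)
      (fun n : ℤ ↦ eInv (A1 * A2) θ (β + D * n)) n‖ ≤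
      A2 * ∑ k : ZMod A1, pw A1 L k *
        G l (k * (((D : ℤ) : ZMod A1) * ((A2 : ℤ) : ZMod A1))⁻¹) := by
    intro l _
    have hfac : (fun n : ℤ ↦ eInv (A1 * A2) θ (β + D * n)) = fun n =>
        (fun n : ℤ => eInv A1 θ1 (β + D * n)) n * (fun n : ℤ => eInv A2 θ2 (β + D * n)) n := by
      funext n
      exact r2_eInv_mul hA1 hA2 hcop θ _
    rw [hfac]
    simp only [Dl_mul]
    refine r2_classes (Nat.pos_of_ne_zero hA2) _ _ ?_ ?_ _ _ (huv l) _ ?_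
    · refine Dl_periodic _ ?_
      intro n
      refine eInv_congr _ ?_
      refine (Int.modEq_iff_dvd).2 ⟨-(D : ℤ), ?_⟩
      ring
    · exact norm_Dl_le_one _ fun n => norm_eInv_le _ _ _
    · intro α u' v' hlen
      have hU : ∀ n : ℤ, Dl (List.ofFn fun j ↦ (l : ℤ) * s j)
          (fun n : ℤ => eInv A1 θ1 (β + D * n)) n =
          Dl (List.ofFn fun j => ((D : ℤ) : ZMod A1) * (((l : ℤ) * s j : ℤ) : ZMod A1))
            (EZ A1 (θ1 : ZMod A1)) ((β : ZMod A1) + ((D : ℤ) : ZMod A1) * (n : ZMod A1)) := by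
        intro n
        have h0 : (fun n : ℤ => eInv A1 θ1 (β + D * n)) = EZ A1 (θ1 : ZMod A1) ∘
            fun n : ℤ => ((β : ZMod A1) + ((D : ℤ) : ZMod A1) * (n : ZMod A1)) := by
          funext m
          rw [r2_eInv_eq, Function.comp_apply]
          push_cast
          rfl
        rw [h0, Dl_comp _ (fun n : ℤ => ((β : ZMod A1) + ((D : ℤ) : ZMod A1) * (n : ZMod A1)))
          (fun h : ℤ => ((D : ℤ) : ZMod A1) * (h : ZMod A1)) (fun x h => by push_cast; ring),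
          List.map_ofFn]
        rfl
      have hinc := incomplete A1 L
        (Dl (List.ofFn fun j => ((D : ℤ) : ZMod A1) * (((l : ℤ) * s j : ℤ) : ZMod A1))
            (EZ A1 (θ1 : ZMod A1))) (((D : ℤ) : ZMod A1) * ((A2 : ℤ) : ZMod A1)) hDA
        ((β : ZMod A1) + ((D : ℤ) : ZMod A1) * (α : ZMod A1)) u' v' hlen
      refine le_trans (le_of_eq ?_) hinc
      congr 1
      refine Finset.sum_congr rfl fun m _ => ?_
      rw [hU]
      congr 1
      push_cast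
      ring
  calc ∑ x ∈ S, ‖∑ n ∈ Ico (u x) (v x), Dl (List.ofFn fun j ↦ (x : ℤ) * s j)
            (fun n : ℤ ↦ eInv (A1 * A2) θ (β + D * n)) n‖
      ≤ ∑ l ∈ S, A2 * ∑ k : ZMod A1, pw A1 L k *
          G l (k * (((D : ℤ) : ZMod A1) * ((A2 : ℤ) : ZMod A1))⁻¹) := Finset.sum_le_sum hone
    _ = A2 * ∑ k : ZMod A1, pw A1 L k *
          ∑ l ∈ S, G l (k * (((D : ℤ) : ZMod A1) * ((A2 : ℤ) : ZMod A1))⁻¹) := by
        rw [← Finset.mul_sum, Finset.sum_comm]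
        simp only [Finset.mul_sum]
    _ ≤ A2 * ∑ k : ZMod A1, pw A1 L k *
          ((S.card : ℝ) ^ (3 / 4 : ℝ) * (C ^ A1.primeFactors.card * A1)) := by
        refine mul_le_mul_of_nonneg_left (Finset.sum_le_sum fun k _ => ?_) (by positivity)
        exact mul_le_mul_of_nonneg_left (hGle _) (pw_nonneg _ _ _)
    _ = A2 * (∑ k : ZMod A1, pw A1 L k) *
          ((S.card : ℝ) ^ (3 / 4 : ℝ) * (C ^ A1.primeFactors.card * A1)) := by
        rw [← Finset.sum_mul, mul_assoc]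
    _ ≤ A2 * ((L : ℝ) / A1 + 1 + Real.log A1) *
          ((S.card : ℝ) ^ (3 / 4 : ℝ) * (C ^ A1.primeFactors.card * A1)) := by
        have := pw_sum A1 L
        gcongr

theorem r2_core (J : ℕ) (ε : ℝ) (hε : 0 < ε) : ∃ C : ℝ, 0 < C ∧
    ∀ (a D N Λ : ℕ) (s : Fin J → ℤ) (θ β : ℤ) (u v : ℕ → ℤ),
      0 < a → D.Coprime a → 0 < Λ → Λ < a1 J a s → IsCoprime θ (a : ℤ) →
      (∀ x, v x - u x ≤ N) →
      ∑ x ∈ (Icc 1 Λ).filter (fun x ↦ x.Coprime a),
        ‖∑ n ∈ Ico (u x) (v x),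
          Dl (List.ofFn fun j ↦ (x : ℤ) * s j) (fun n : ℤ ↦ eInv a θ (β + D * n)) n‖ ≤
        C * (a : ℝ) ^ ε *
          (((Icc 1 Λ).filter (fun x ↦ x.Coprime a)).card : ℝ) ^ (3 / 4 : ℝ) * (N + a) := by
  obtain ⟨C, hC1, hC⟩ := fourth_moment J
  obtain ⟨C', hC'0, hC'⟩ := omega_bound C (ε / 2) hC1 (by positivity)
  refine ⟨C' * (2 + 2 / ε), by positivity, fun a D N Λ s θ β u v ha hD hΛ hΛ1 hθ huv => ?_⟩
  have hdvd : a1 J a s ∣ a := a1_dvd J a s ha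
  obtain ⟨A2, hA2⟩ := hdvd
  have hcop := a1_cop J a s ha
  have hsq := a1_sq J a s
  have hpr := a1_prime J a s
  generalize a1 J a s = A1 at *
  have hA1p : 0 < A1 := by
    rcases Nat.eq_zero_or_pos A1 with h | h
    · rw [h, zero_mul] at hA2; omega
    · exact h
  have hA2p : 0 < A2 := by
    rcases Nat.eq_zero_or_pos A2 with h | h
    · rw [h, mul_zero] at hA2; omega
    · exact h
  have hdiv : a / A1 = A2 := by
    rw [hA2]
    exact Nat.mul_div_cancel_left _ hA1p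
  rw [hdiv] at hcop
  subst hA2
  have : NeZero A1 := ⟨hA1p.ne'⟩
  have : NeZero A2 := ⟨hA2p.ne'⟩
  refine (r2_main J C hC1 hC A1 A2 D N Λ hcop hsq s (fun l hl => hpr l hl) θ β u v hD hΛ1 hθ
    huv).trans ?_
  set K := (((Icc 1 Λ).filter (fun x ↦ x.Coprime (A1 * A2))).card : ℝ) ^ (3 / 4 : ℝ) with hK
  have hK0 : 0 ≤ K := by positivity
  have hr1 : (1 : ℝ) ≤ A1 := by exact_mod_cast hA1p
  have hr2 : (1 : ℝ) ≤ A2 := by exact_mod_cast hA2p
  have ha1 : (1 : ℝ) ≤ ((A1 * A2 : ℕ) : ℝ) := by exact_mod_cast ha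
  have hac : ((A1 * A2 : ℕ) : ℝ) = (A1 : ℝ) * A2 := by push_cast; ring
  -- the length
  have hL : (A2 : ℝ) * ((N / A2 + 1 : ℕ) : ℝ) ≤ N + A2 := by
    have : A2 * (N / A2 + 1) ≤ N + A2 := by
      have := Nat.mul_div_le N A2
      rw [mul_add, mul_one]
      omega
    exact_mod_cast this
  have hlog : Real.log A1 ≤ Real.log ((A1 * A2 : ℕ) : ℝ) := by
    refine Real.log_le_log (by positivity) ?_
    rw [hac]
    nlinarith
  have hlog0 : 0 ≤ Real.log ((A1 * A2 : ℕ) : ℝ) := Real.log_nonneg ha1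
  have hlogb : Real.log ((A1 * A2 : ℕ) : ℝ) ≤ 2 / ε * ((A1 * A2 : ℕ) : ℝ) ^ (ε / 2) := by
    have := Real.log_le_rpow_div (x := ((A1 * A2 : ℕ) : ℝ)) (by positivity)
      (show (0 : ℝ) < ε / 2 by positivity)
    refine this.trans (le_of_eq ?_)
    field_simp
  have hpow1 : (1 : ℝ) ≤ ((A1 * A2 : ℕ) : ℝ) ^ (ε / 2) := Real.one_le_rpow ha1 (by positivity)
  -- omega
  have hom : C ^ A1.primeFactors.card ≤ C' * ((A1 * A2 : ℕ) : ℝ) ^ (ε / 2) := by
    have h1 := hC' (A1 * A2) ha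
    refine le_trans ?_ h1
    have h2 : A1.primeFactors.card ≤ (A1 * A2).primeFactors.card :=
      Finset.card_le_card (Nat.primeFactors_mono (dvd_mul_right _ _) ha.ne')
    have h3 : (1 : ℝ) ≤ ((A1 * A2).divisors.card : ℝ) := by
      have : 0 < (A1 * A2).divisors.card := Finset.card_pos.2 ⟨1, by simp [ha.ne']⟩
      exact_mod_cast this
    calc C ^ A1.primeFactors.card ≤ C ^ (A1 * A2).primeFactors.card :=
          pow_le_pow_right₀ hC1 h2
      _ = C ^ (A1 * A2).primeFactors.card * 1 := (mul_one _).symm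
      _ ≤ _ := by gcongr
  have hmain : (A2 : ℝ) * (((N / A2 + 1 : ℕ) : ℝ) / A1 + 1 + Real.log A1) * A1 ≤
      (2 + 2 / ε) * ((A1 * A2 : ℕ) : ℝ) ^ (ε / 2) * (N + ((A1 * A2 : ℕ) : ℝ)) := by
    have e1 : (A2 : ℝ) * (((N / A2 + 1 : ℕ) : ℝ) / A1 + 1 + Real.log A1) * A1 =
        A2 * ((N / A2 + 1 : ℕ) : ℝ) + ((A1 * A2 : ℕ) : ℝ) * (1 + Real.log A1) := by
      rw [hac]
      field_simp
      ring
    rw [e1]
    have e2 : (A2 : ℝ) ≤ ((A1 * A2 : ℕ) : ℝ) := by rw [hac]; nlinarith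
    have hN : (0 : ℝ) ≤ N := by positivity
    calc A2 * ((N / A2 + 1 : ℕ) : ℝ) + ((A1 * A2 : ℕ) : ℝ) * (1 + Real.log A1)
        ≤ (N + ((A1 * A2 : ℕ) : ℝ)) + ((A1 * A2 : ℕ) : ℝ) *
          (1 + Real.log ((A1 * A2 : ℕ) : ℝ)) := by
          have := hL.trans (add_le_add (le_refl (N : ℝ)) e2)
          gcongr
      _ ≤ (2 + Real.log ((A1 * A2 : ℕ) : ℝ)) * (N + ((A1 * A2 : ℕ) : ℝ)) := by nlinarith
      _ ≤ ((2 + 2 / ε) * ((A1 * A2 : ℕ) : ℝ) ^ (ε / 2)) * (N + ((A1 * A2 : ℕ) : ℝ)) := by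
          refine mul_le_mul_of_nonneg_right ?_ (by positivity)
          nlinarith
      _ = _ := by ring
  calc (A2 : ℝ) * (((N / A2 + 1 : ℕ) : ℝ) / A1 + 1 + Real.log A1) *
        (K * (C ^ A1.primeFactors.card * A1))
      = ((A2 : ℝ) * (((N / A2 + 1 : ℕ) : ℝ) / A1 + 1 + Real.log A1) * A1) *
          C ^ A1.primeFactors.card * K := by ring
    _ ≤ ((2 + 2 / ε) * ((A1 * A2 : ℕ) : ℝ) ^ (ε / 2) * (N + ((A1 * A2 : ℕ) : ℝ))) *
          (C' * ((A1 * A2 : ℕ) : ℝ) ^ (ε / 2)) * K := by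
        gcongr
    _ = C' * (2 + 2 / ε) * (((A1 * A2 : ℕ) : ℝ) ^ (ε / 2) * ((A1 * A2 : ℕ) : ℝ) ^ (ε / 2)) * K *
          (N + ((A1 * A2 : ℕ) : ℝ)) := by ring
    _ = C' * (2 + 2 / ε) * ((A1 * A2 : ℕ) : ℝ) ^ ε * K * (N + ((A1 * A2 : ℕ) : ℝ)) := by
        rw [← Real.rpow_add (by positivity), add_halves]

end Pool.Agent.Work.MP_af11aa_nt.W
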