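import Mathlib
import Pool.Agent.Work.MP_af11aa_nt.W.Vdc
import Pool.Agent.Work.MP_af11aa_nt.W.R2Core

/-!
MODULE Reg2 (regime II: everything but e(θ/x mod a) is removed).

S = ∑_{n∈I} ∏ Φ_j(n) E(n), E(n) = eInv a θ (β + D n), I = [u,v) inside Ico u (u+N).  𝓛 = {1 ≤ λ ≤ Λ : (λ,a) = 1}.
For each λ ∈ 𝓛 apply vdc_iter with ρ_j = λ r_j (Φ_j is also λ r_j-periodic; λ r_j H ≤ N) and F = 1_I E, average
over λ, and use r2_core for the good shifts.
-/

set_option autoImplicit false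

namespace Pool.Agent.Work.MP_af11aa_nt.W

open Finset

lemma r2_periodic {f : ℤ → ℂ} {r : ℕ} (h : ∀ n, f (n + r) = f n) (k : ℕ) (n : ℤ) :
    f (n + (k * r : ℕ)) = f n := by
  induction k with
  | zero => simp
  | succ k ih =>
    have : n + (((k + 1) * r : ℕ) : ℤ) = (n + (k * r : ℕ)) + r := by push_cast; ring
    rw [this, h, ih]

/-- the differenced sum over the window is an incomplete sum over an interval -/
lemma r2_window (N : ℕ) (u v : ℤ) (hv : v ≤ u + N) (t : List ℤ) :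
    ∃ u' v' : ℤ, v' - u' ≤ N ∧ ∀ E : ℤ → ℂ,
      ∑ n ∈ Ico u (u + N), Dl t (fun n ↦ if u ≤ n ∧ n < v then E n else 0) n =
        ∑ n ∈ Ico u' v', Dl t E n := by
  obtain ⟨u', v', h1, h2, h3⟩ := Dl_interval t u v
  refine ⟨u', v', by linarith, fun E ↦ ?_⟩
  rw [Finset.sum_congr rfl fun n _ ↦ h3 E n, ← Finset.sum_filter]
  refine Finset.sum_congr ?_ fun _ _ ↦ rfl
  ext n
  rw [mem_filter, mem_Ico, mem_Ico]
  constructor
  · rintro ⟨_, h⟩; exact h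
  · rintro ⟨h4, h5⟩
    exact ⟨⟨h1.trans h4, lt_of_lt_of_le h5 (h2.trans hv)⟩, h4, h5⟩

/-- the final numerical step -/
lemma r2_final {J : ℕ} {x C B Q : ℝ} (hx : 0 ≤ x) (hC : 1 ≤ C) (hB : 0 ≤ B) (hQ : 0 ≤ Q)
    (h : x ^ (2 ^ J) ≤ C * B ^ (2 ^ J) * Q) : x ≤ C * B * Q ^ ((1 / 2 : ℝ) ^ J) := by
  have h2J : (2 ^ J : ℕ) ≠ 0 := by positivity
  have hy : 0 ≤ C * B * Q ^ ((1 / 2 : ℝ) ^ J) := by positivity
  rw [← pow_le_pow_iff_left₀ hx hy h2J]
  refine h.trans ?_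
  rw [mul_pow, mul_pow, ← Real.rpow_natCast (Q ^ ((1 / 2 : ℝ) ^ J)), ← Real.rpow_mul hQ]
  have e : (1 / 2 : ℝ) ^ J * ((2 ^ J : ℕ) : ℝ) = 1 := by
    push_cast
    rw [← mul_pow]
    norm_num
  rw [e, Real.rpow_one]
  apply mul_le_mul_of_nonneg_right _ hQ
  apply mul_le_mul_of_nonneg_right _ (by positivity)
  exact le_self_pow₀ hC h2J

theorem regime_two (J : ℕ) (ε : ℝ) (hε : 0 < ε) : ∃ C : ℝ, 0 < C ∧
    ∀ (a D N H Λ : ℕ) (r : Fin J → ℕ) (Φ : Fin J → ℤ → ℂ) (K : ℝ) (θ β u v : ℤ),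
      0 < a → D.Coprime a → 0 < N → 0 < H → 0 < Λ → (∀ j, (r j).Coprime a) →
      (∀ j, Λ * r j * H ≤ N) → (∀ j n, Φ j (n + r j) = Φ j n) → (∀ j n, ‖Φ j n‖ ≤ K) → 0 ≤ K →
      IsCoprime θ (a : ℤ) → v - u ≤ N →
      ‖∑ n ∈ Ico u v, (∏ j, Φ j n) * eInv a θ (β + D * n)‖ ≤
        C * K ^ J * ((a : ℝ) * Λ) ^ ε * N *
          (1 / H + (Λ : ℝ) ^ (-(1 / 4) : ℝ) * (1 + a / N) + Λ * sfp a / a) ^ ((1 / 2 : ℝ) ^ J) := by
  classical
  obtain ⟨C1, hC1, hvdc⟩ := vdc_iter J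
  obtain ⟨C2, hC2, hcore⟩ := r2_core J (ε / 2) (by positivity)
  obtain ⟨C3, hC3, hcop⟩ := coprime_count ε hε
  obtain ⟨C4, hC4, hdiv⟩ := omega_bound 1 (ε / (J + 1)) le_rfl (by positivity)
  set C5 : ℝ := C1 * 2 ^ J * (J + J.factorial * C4 ^ J + C2 * C3 ^ (1 / 4 : ℝ)) with hC5
  have hC5nn : 0 ≤ C5 := by positivity
  refine ⟨max 1 C5, lt_of_lt_of_le one_pos (le_max_left _ _), ?_⟩
  intro a D N H Λ r Φ K θ β u v ha hD hN hH hΛ hr hrH hper hK hK0 hθ huv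
  have haR : (1 : ℝ) ≤ a := by exact_mod_cast ha
  have hNR : (1 : ℝ) ≤ N := by exact_mod_cast hN
  have hHR : (1 : ℝ) ≤ H := by exact_mod_cast hH
  have hΛR : (1 : ℝ) ≤ Λ := by exact_mod_cast hΛ
  have hA1 : (1 : ℝ) ≤ (a : ℝ) * Λ := by nlinarith
  set A : ℝ := (a : ℝ) * Λ with hA
  set E : ℤ → ℂ := fun n ↦ eInv a θ (β + D * n) with hE
  have hE1 : ∀ n, ‖E n‖ ≤ 1 := fun n ↦ norm_eInv_le _ _ _
  set F : ℤ → ℂ := fun n ↦ if u ≤ n ∧ n < v then E n else 0 with hF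
  have hF1 : ∀ n, ‖F n‖ ≤ 1 := by
    intro n
    simp only [hF]
    split_ifs
    · exact hE1 n
    · simp
  have hvu : v ≤ u + N := by linarith
  set L : Finset ℕ := (Icc 1 Λ).filter (fun x ↦ x.Coprime a) with hL
  have hL1 : 1 ≤ L.card := by
    refine Finset.card_pos.2 ⟨1, ?_⟩
    rw [hL, mem_filter, mem_Icc]
    exact ⟨⟨le_rfl, hΛ⟩, Nat.coprime_one_left a⟩
  have hL1R : (1 : ℝ) ≤ L.card := by exact_mod_cast hL1
  -- the sum
  set S : ℂ := ∑ n ∈ Ico u v, (∏ j, Φ j n) * eInv a θ (β + D * n) with hS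
  have hSF : S = ∑ n ∈ Ico u (u + N), (∏ j, Φ j n) * F n := by
    have h1 : ∀ n, (∏ j, Φ j n) * F n = if u ≤ n ∧ n < v then (∏ j, Φ j n) * E n else 0 := by
      intro n
      simp only [hF]
      split_ifs <;> simp
    rw [Finset.sum_congr rfl fun n _ ↦ h1 n, ← Finset.sum_filter, hS]
    refine Finset.sum_congr ?_ fun _ _ ↦ rfl
    ext n
    rw [mem_filter, mem_Ico, mem_Ico]
    constructor
    · rintro ⟨h4, h5⟩
      exact ⟨⟨h4, lt_of_lt_of_le h5 hvu⟩, h4, h5⟩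
    · rintro ⟨_, h⟩; exact h
  set BX : Finset (Fin J → ℤ) := Fintype.piFinset (fun _ : Fin J ↦ Ioo (-(H : ℤ)) H) with hBX
  set Sh : ℕ → (Fin J → ℤ) → ℂ := fun x h ↦
    ∑ n ∈ Ico u (u + N), Dl (List.ofFn fun j ↦ (x : ℤ) * ((r j : ℤ) * h j)) F n with hSh
  set Wt : ℝ := C1 * (K ^ J) ^ (2 ^ J) * (N : ℝ) ^ (2 ^ J - 1) / (H : ℝ) ^ J with hWt
  have hWt0 : 0 ≤ Wt := by positivity
  have hstep : ∀ x ∈ L, ‖S‖ ^ (2 ^ J) ≤ Wt * ∑ h ∈ BX, ‖Sh x h‖ := by
    intro x hx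
    rw [hL, mem_filter, mem_Icc] at hx
    have h1 := hvdc N H (fun _ ↦ K) (fun j ↦ x * r j) Φ F u hN hH
      (fun j ↦ le_trans (Nat.mul_le_mul_right _ (Nat.mul_le_mul_right _ hx.1.2)) (hrH j))
      (fun j n ↦ r2_periodic (hper j) x n) hK hF1 (by
        intro n hn
        simp only [hF] at hn
        have h2 : u ≤ n ∧ n < v := by
          by_contra hcon
          rw [if_neg hcon] at hn
          exact hn rfl
        exact ⟨h2.1, lt_of_lt_of_le h2.2 hvu⟩)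
    rw [Finset.prod_const, Finset.card_univ, Fintype.card_fin, ← hSF] at h1
    refine h1.trans (le_of_eq ?_)
    rw [hWt]
    congr 1
    refine Finset.sum_congr rfl fun h _ ↦ ?_
    simp only [hSh]
    congr 2
    funext n
    congr 2
    funext j
    push_cast
    ring
  have hshN : ∀ x h, ‖Sh x h‖ ≤ N := by
    intro x h
    simp only [hSh]
    refine (norm_sum_le _ _).trans ?_
    refine (Finset.sum_le_card_nsmul _ _ 1 fun n _ ↦ norm_Dl_le_one _ hF1 n).trans ?_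
    rw [Int.card_Ico, nsmul_eq_mul, mul_one]
    have : (u + (N : ℤ) - u).toNat = N := by omega
    rw [this]
  have htriv : ∀ h, ∑ x ∈ L, ‖Sh x h‖ ≤ L.card * N := by
    intro h
    refine (Finset.sum_le_card_nsmul _ _ (N : ℝ) fun x _ ↦ hshN x h).trans ?_
    rw [nsmul_eq_mul]
  have hgood : ∀ h, Λ < a1 J a h → ∑ x ∈ L, ‖Sh x h‖ ≤
      C2 * (a : ℝ) ^ (ε / 2) * (L.card : ℝ) ^ (3 / 4 : ℝ) * (N + a) := by
    intro h hh
    have hw : ∀ x : ℕ, ∃ p : ℤ × ℤ, p.2 - p.1 ≤ N ∧ ∀ E : ℤ → ℂ,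
        ∑ n ∈ Ico u (u + N), Dl (List.ofFn fun j ↦ (x : ℤ) * ((r j : ℤ) * h j))
          (fun n ↦ if u ≤ n ∧ n < v then E n else 0) n =
        ∑ n ∈ Ico p.1 p.2, Dl (List.ofFn fun j ↦ (x : ℤ) * ((r j : ℤ) * h j)) E n := by
      intro x
      obtain ⟨u', v', h1, h2⟩ := r2_window N u v hvu
        (List.ofFn fun j ↦ (x : ℤ) * ((r j : ℤ) * h j))
      exact ⟨(u', v'), h1, h2⟩
    choose p hp1 hp2 using hw
    have h1 := hcore a D N Λ (fun j ↦ (r j : ℤ) * h j) θ β (fun x ↦ (p x).1) (fun x ↦ (p x).2)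
      ha hD hΛ (by rw [a1_mul J a h r hr]; exact hh) hθ hp1
    refine le_trans (le_of_eq ?_) h1
    refine Finset.sum_congr rfl fun x _ ↦ ?_
    congr 1
    exact hp2 x E
  -- the three classes of shifts
  set B0 : Finset (Fin J → ℤ) := BX.filter (fun h ↦ ∃ j, h j = 0) with hB0
  set B1 : Finset (Fin J → ℤ) := BX.filter (fun h ↦ (¬ ∃ j, h j = 0) ∧ a1 J a h ≤ Λ) with hB1
  have hB0c : (B0.card : ℝ) * H ≤ J * (2 * H : ℝ) ^ J := card_zero J H hH
  have hB1c : (B1.card : ℝ) * a ≤ Λ * sfp a * J.factorial * (2 * H * a.divisors.card : ℝ) ^ J := by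
    have h1 : ∀ h ∈ B1, (a : ℝ) ≤ Λ * sfp a * J.factorial * ∏ j, (Int.gcd (h j) a : ℝ) := by
      intro h hh
      rw [hB1, mem_filter] at hh
      have h2 := le_a1 J a h ha
      have h3 : a ≤ Λ * sfp a * J.factorial * ∏ j, Int.gcd (h j) a := by
        refine h2.trans ?_
        gcongr
        exact hh.2.2
      exact_mod_cast h3
    have h2 : (B1.card : ℝ) * a ≤
        ∑ h ∈ B1, (Λ * sfp a * J.factorial * ∏ j, (Int.gcd (h j) a : ℝ)) := by
      have := Finset.card_nsmul_le_sum B1 _ (a : ℝ) h1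
      rwa [nsmul_eq_mul] at this
    refine h2.trans ?_
    rw [← Finset.mul_sum]
    apply mul_le_mul_of_nonneg_left _ (by positivity)
    refine le_trans ?_ (gcd_avg_prod J H a ha)
    refine Finset.sum_le_sum_of_subset_of_nonneg ?_ fun _ _ _ ↦ by positivity
    intro h hh
    rw [hB1, mem_filter, hBX, Fintype.mem_piFinset] at hh
    rw [Fintype.mem_piFinset]
    intro j
    rw [mem_filter]
    refine ⟨hh.1 j, fun h0 ↦ hh.2.1 ⟨j, h0⟩⟩
  have hBXc : (BX.card : ℝ) ≤ (2 * H : ℝ) ^ J := by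
    have : BX.card ≤ (2 * H) ^ J := by
      rw [hBX, Fintype.card_piFinset, Finset.prod_const, Finset.card_univ, Fintype.card_fin]
      apply Nat.pow_le_pow_left
      rw [Int.card_Ioo]
      omega
    exact_mod_cast this
  -- total
  set G : ℝ := C2 * (a : ℝ) ^ (ε / 2) * (L.card : ℝ) ^ (3 / 4 : ℝ) * (N + a) with hG
  have hG0 : 0 ≤ G := by positivity
  have hsum : ∑ h ∈ BX, ∑ x ∈ L, ‖Sh x h‖ ≤
      B0.card * (L.card * N) + B1.card * (L.card * N) + (2 * H : ℝ) ^ J * G := by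
    have h1 : ∀ h ∈ BX, ∑ x ∈ L, ‖Sh x h‖ ≤
        (if ∃ j, h j = 0 then (L.card * N : ℝ) else 0) +
          (if (¬ ∃ j, h j = 0) ∧ a1 J a h ≤ Λ then (L.card * N : ℝ) else 0) + G := by
      intro h _
      by_cases hz : ∃ j, h j = 0
      · rw [if_pos hz, if_neg (fun h ↦ h.1 hz)]
        have := htriv h
        linarith
      · by_cases hs : a1 J a h ≤ Λ
        · rw [if_neg hz, if_pos ⟨hz, hs⟩]
          have := htriv h
          linarith
        · rw [if_neg hz, if_neg (fun h ↦ hs h.2)]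
          have := hgood h (not_le.1 hs)
          linarith
    refine (Finset.sum_le_sum h1).trans ?_
    rw [Finset.sum_add_distrib, Finset.sum_add_distrib, ← Finset.sum_filter, ← Finset.sum_filter,
      Finset.sum_const, Finset.sum_const, Finset.sum_const, nsmul_eq_mul, nsmul_eq_mul,
      nsmul_eq_mul]
    have : (BX.card : ℝ) * G ≤ (2 * H : ℝ) ^ J * G := mul_le_mul_of_nonneg_right hBXc hG0
    linarith
  have hmain : (L.card : ℝ) * ‖S‖ ^ (2 ^ J) ≤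
      Wt * (B0.card * (L.card * N) + B1.card * (L.card * N) + (2 * H : ℝ) ^ J * G) := by
    have h1 : (L.card : ℝ) * ‖S‖ ^ (2 ^ J) ≤ ∑ x ∈ L, Wt * ∑ h ∈ BX, ‖Sh x h‖ := by
      have := Finset.card_nsmul_le_sum L _ _ hstep
      rwa [nsmul_eq_mul] at this
    refine h1.trans ?_
    rw [← Finset.mul_sum, Finset.sum_comm]
    exact mul_le_mul_of_nonneg_left hsum hWt0
  -- estimates of the three parts
  set Q : ℝ := 1 / H + (Λ : ℝ) ^ (-(1 / 4) : ℝ) * (1 + a / N) + Λ * sfp a / a with hQ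
  have hQ0 : 0 ≤ Q := by positivity
  have hAε : (1 : ℝ) ≤ A ^ ε := Real.one_le_rpow hA1 hε.le
  have p0 : (B0.card : ℝ) ≤ (2 * H : ℝ) ^ J * (J * (1 / H)) := by
    rw [← le_div_iff₀ (by positivity)] at hB0c
    refine hB0c.trans (le_of_eq ?_)
    field_simp
  have hd : (a.divisors.card : ℝ) ^ J ≤ C4 ^ J * A ^ ε := by
    have h1 := hdiv a ha
    rw [one_pow, one_mul] at h1
    calc (a.divisors.card : ℝ) ^ J ≤ (C4 * (a : ℝ) ^ (ε / (J + 1))) ^ J := by gcongr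
      _ = C4 ^ J * ((a : ℝ) ^ (ε / (J + 1))) ^ J := mul_pow _ _ _
      _ ≤ C4 ^ J * A ^ ε := by
          apply mul_le_mul_of_nonneg_left _ (by positivity)
          rw [← Real.rpow_natCast, ← Real.rpow_mul (by positivity)]
          calc (a : ℝ) ^ (ε / (J + 1) * (J : ℝ)) ≤ (a : ℝ) ^ ε := by
                apply Real.rpow_le_rpow_of_exponent_le haR
                rw [div_mul_eq_mul_div, div_le_iff₀ (by positivity)]
                exact mul_le_mul_of_nonneg_left (by linarith) hε.le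
            _ ≤ A ^ ε := by
                apply Real.rpow_le_rpow (by positivity) _ hε.le
                rw [hA]
                exact le_mul_of_one_le_right (by positivity) hΛR
  have p1 : (B1.card : ℝ) ≤ (2 * H : ℝ) ^ J * (J.factorial * C4 ^ J * A ^ ε * (Λ * sfp a / a)) := by
    rw [← le_div_iff₀ (by positivity)] at hB1c
    refine hB1c.trans ?_
    rw [mul_pow (2 * (H : ℝ))]
    calc Λ * sfp a * J.factorial * ((2 * H : ℝ) ^ J * (a.divisors.card : ℝ) ^ J) / a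
        = (2 * H : ℝ) ^ J * (J.factorial * (a.divisors.card : ℝ) ^ J * (Λ * sfp a / a)) := by
          field_simp
      _ ≤ (2 * H : ℝ) ^ J * (J.factorial * (C4 ^ J * A ^ ε) * (Λ * sfp a / a)) := by gcongr
      _ = _ := by ring
  have p2 : G ≤ (L.card * N) * (C2 * C3 ^ (1 / 4 : ℝ) * A ^ ε *
      ((Λ : ℝ) ^ (-(1 / 4) : ℝ) * (1 + a / N))) := by
    have h1 := hcop a Λ ha hΛ
    rw [← hA, ← hL] at h1
    have hLc : (L.card : ℝ) ^ (3 / 4 : ℝ) = L.card * (L.card : ℝ) ^ (-(1 / 4) : ℝ) := by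
      rw [← Real.rpow_one_add' (by positivity) (by norm_num)]
      norm_num
    have h2 : (L.card : ℝ) ^ (-(1 / 4) : ℝ) ≤
        C3 ^ (1 / 4 : ℝ) * A ^ (ε / 2) * (Λ : ℝ) ^ (-(1 / 4) : ℝ) := by
      have h3 : (Λ : ℝ) ^ (1 / 4 : ℝ) ≤ (C3 * A ^ ε * L.card) ^ (1 / 4 : ℝ) :=
        Real.rpow_le_rpow (by positivity) h1 (by norm_num)
      rw [Real.mul_rpow (by positivity) (by positivity), Real.mul_rpow (by positivity)
        (by positivity), ← Real.rpow_mul (by positivity)] at h3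
      have h4 : A ^ (ε * (1 / 4)) ≤ A ^ (ε / 2) :=
        Real.rpow_le_rpow_of_exponent_le hA1 (by linarith)
      rw [Real.rpow_neg (by positivity), Real.rpow_neg (by positivity)]
      have h5 : 0 < (L.card : ℝ) ^ (1 / 4 : ℝ) := by positivity
      have h6 : 0 < (Λ : ℝ) ^ (1 / 4 : ℝ) := by positivity
      rw [inv_le_iff_one_le_mul₀ h5, mul_assoc, mul_comm ((Λ : ℝ) ^ (1 / 4 : ℝ))⁻¹, ← mul_assoc,
        ← div_eq_mul_inv, one_le_div h6]
      refine h3.trans ?_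
      have h7 : 0 ≤ C3 ^ (1 / 4 : ℝ) := by positivity
      exact mul_le_mul_of_nonneg_right (mul_le_mul_of_nonneg_left h4 h7) h5.le
    have h3 : (a : ℝ) ^ (ε / 2) ≤ A ^ (ε / 2) := by
      apply Real.rpow_le_rpow (by positivity) _ (by positivity)
      rw [hA]
      exact le_mul_of_one_le_right (by positivity) hΛR
    have h4 : A ^ (ε / 2) * A ^ (ε / 2) = A ^ ε := by
      rw [← Real.rpow_add (by positivity)]
      congr 1
      ring
    rw [hG, hLc]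
    calc C2 * (a : ℝ) ^ (ε / 2) * (L.card * (L.card : ℝ) ^ (-(1 / 4) : ℝ)) * (N + a)
        ≤ C2 * A ^ (ε / 2) * (L.card *
            (C3 ^ (1 / 4 : ℝ) * A ^ (ε / 2) * (Λ : ℝ) ^ (-(1 / 4) : ℝ))) * (N + a) := by gcongr
      _ = (L.card * N) * (C2 * C3 ^ (1 / 4 : ℝ) * (A ^ (ε / 2) * A ^ (ε / 2)) *
            ((Λ : ℝ) ^ (-(1 / 4) : ℝ) * (1 + a / N))) := by
          field_simp
      _ = _ := by rw [h4]
  have hpow : ‖S‖ ^ (2 ^ J) ≤ C5 * (K ^ J * A ^ ε * N) ^ (2 ^ J) * Q := by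
    have hLN : (0 : ℝ) < L.card := by positivity
    have h1 : (L.card : ℝ) * ‖S‖ ^ (2 ^ J) ≤ (L.card : ℝ) * (Wt * N * (2 * H : ℝ) ^ J *
        (J * (1 / H) + J.factorial * C4 ^ J * A ^ ε * (Λ * sfp a / a) +
          C2 * C3 ^ (1 / 4 : ℝ) * A ^ ε * ((Λ : ℝ) ^ (-(1 / 4) : ℝ) * (1 + a / N)))) := by
      refine hmain.trans ?_
      have q0 : (B0.card : ℝ) * (L.card * N) ≤ (2 * H : ℝ) ^ J * (J * (1 / H)) * (L.card * N) :=
        mul_le_mul_of_nonneg_right p0 (by positivity)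
      have q1 : (B1.card : ℝ) * (L.card * N) ≤
          (2 * H : ℝ) ^ J * (J.factorial * C4 ^ J * A ^ ε * (Λ * sfp a / a)) * (L.card * N) :=
        mul_le_mul_of_nonneg_right p1 (by positivity)
      have q2 : (2 * H : ℝ) ^ J * G ≤ (2 * H : ℝ) ^ J * ((L.card * N) *
          (C2 * C3 ^ (1 / 4 : ℝ) * A ^ ε * ((Λ : ℝ) ^ (-(1 / 4) : ℝ) * (1 + a / N)))) :=
        mul_le_mul_of_nonneg_left p2 (by positivity)
      calc _ ≤ Wt * ((2 * H : ℝ) ^ J * (J * (1 / H)) * (L.card * N) +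
            (2 * H : ℝ) ^ J * (J.factorial * C4 ^ J * A ^ ε * (Λ * sfp a / a)) * (L.card * N) +
            (2 * H : ℝ) ^ J * ((L.card * N) *
          (C2 * C3 ^ (1 / 4 : ℝ) * A ^ ε * ((Λ : ℝ) ^ (-(1 / 4) : ℝ) * (1 + a / N))))) :=
            mul_le_mul_of_nonneg_left (add_le_add (add_le_add q0 q1) q2) hWt0
        _ = _ := by ring
    have h2 := le_of_mul_le_mul_left h1 hLN
    refine h2.trans ?_
    have h2J : 1 ≤ 2 ^ J := Nat.one_le_two_pow
    have hWN : Wt * N * (2 * H : ℝ) ^ J = C1 * 2 ^ J * (K ^ J * N) ^ (2 ^ J) := by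
      rw [hWt, mul_pow, mul_pow]
      have h3 : (N : ℝ) ^ (2 ^ J) = (N : ℝ) ^ (2 ^ J - 1) * N := by
        rw [← pow_succ]
        congr 1
        omega
      rw [h3]
      field_simp
    rw [hWN]
    have h3 : J * (1 / H) + J.factorial * C4 ^ J * A ^ ε * (Λ * sfp a / a) +
          C2 * C3 ^ (1 / 4 : ℝ) * A ^ ε * ((Λ : ℝ) ^ (-(1 / 4) : ℝ) * (1 + a / N)) ≤
        (J + J.factorial * C4 ^ J + C2 * C3 ^ (1 / 4 : ℝ)) * (A ^ ε * Q) := by
      have e0 : (1 / H : ℝ) ≤ A ^ ε * Q := by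
        have : (1 / H : ℝ) ≤ Q := by
          rw [hQ]
          have h5 : (0 : ℝ) ≤ (Λ : ℝ) ^ (-(1 / 4) : ℝ) * (1 + a / N) := by positivity
          have h6 : (0 : ℝ) ≤ Λ * sfp a / a := by positivity
          linarith
        exact this.trans (le_mul_of_one_le_left hQ0 hAε)
      have e1 : (Λ * sfp a / a : ℝ) ≤ Q := by
        rw [hQ]
        have h5 : (0 : ℝ) ≤ (Λ : ℝ) ^ (-(1 / 4) : ℝ) * (1 + a / N) := by positivity
        have h6 : (0 : ℝ) ≤ 1 / H := by positivity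
        linarith
      have e2 : (Λ : ℝ) ^ (-(1 / 4) : ℝ) * (1 + a / N) ≤ Q := by
        rw [hQ]
        have h5 : (0 : ℝ) ≤ Λ * sfp a / a := by positivity
        have h6 : (0 : ℝ) ≤ 1 / H := by positivity
        linarith
      calc _ ≤ J * (A ^ ε * Q) + J.factorial * C4 ^ J * A ^ ε * Q +
            C2 * C3 ^ (1 / 4 : ℝ) * A ^ ε * Q := by gcongr
        _ = _ := by ring
    have h4 : A ^ ε ≤ (A ^ ε) ^ (2 ^ J) := le_self_pow₀ hAε (by positivity)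
    calc C1 * 2 ^ J * (K ^ J * N) ^ (2 ^ J) *
          (J * (1 / H) + J.factorial * C4 ^ J * A ^ ε * (Λ * sfp a / a) +
          C2 * C3 ^ (1 / 4 : ℝ) * A ^ ε * ((Λ : ℝ) ^ (-(1 / 4) : ℝ) * (1 + a / N)))
        ≤ C1 * 2 ^ J * (K ^ J * N) ^ (2 ^ J) *
          ((J + J.factorial * C4 ^ J + C2 * C3 ^ (1 / 4 : ℝ)) * (A ^ ε * Q)) := by gcongr
      _ ≤ C1 * 2 ^ J * (K ^ J * N) ^ (2 ^ J) *
          ((J + J.factorial * C4 ^ J + C2 * C3 ^ (1 / 4 : ℝ)) * ((A ^ ε) ^ (2 ^ J) * Q)) := by gcongr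
      _ = C5 * (K ^ J * A ^ ε * N) ^ (2 ^ J) * Q := by
          rw [hC5, mul_pow, mul_pow, mul_pow]
          ring
  have hpow' : ‖S‖ ^ (2 ^ J) ≤ max 1 C5 * (K ^ J * A ^ ε * N) ^ (2 ^ J) * Q := by
    refine hpow.trans ?_
    gcongr
    exact le_max_right _ _
  have := r2_final (norm_nonneg S) (le_max_left _ _) (by positivity) hQ0 hpow'
  refine this.trans (le_of_eq ?_)
  ring

end Pool.Agent.Work.MP_af11aa_nt.W
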