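import Mathlib
import Pool.Agent.Work.MP_af11aa_nt.W.Reg1
import Pool.Agent.Work.MP_af11aa_nt.W.Reg2

set_option autoImplicit false

namespace Pool.Agent.Work.MP_af11aa_nt.W

open Finset

noncomputable section

/-- a sum over a residue class as a sum over an interval. -/
lemma class_interval (D : ℕ) (hD : 0 < D) (β x x' : ℕ) (hx : x ≤ x') :
    ∃ u v : ℤ, v - u ≤ ((x' - x) / D + 1 : ℕ) ∧ ∀ f : ℤ → ℂ,
      ∑ b ∈ (Ioc x x').filter (fun b ↦ b ≡ β [MOD D]), f b = ∑ n ∈ Ico u v, f (β + D * n) := by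
  have hD' : (0 : ℤ) < D := by exact_mod_cast hD
  refine ⟨((x : ℤ) - β) / D + 1, ((x' : ℤ) - β) / D + 1, ?_, ?_⟩
  · have h1 := Int.emod_add_mul_ediv ((x : ℤ) - β) D
    have h2 := Int.emod_add_mul_ediv ((x' : ℤ) - β) D
    have h3 := Int.emod_lt_of_pos ((x : ℤ) - β) hD'
    have h4 := Int.emod_nonneg ((x' : ℤ) - β) hD'.ne'
    have h5 : (D : ℤ) * (((x' : ℤ) - β) / D - ((x : ℤ) - β) / D) < (x' - x : ℕ) + D := by
      push_cast [hx]
      linarith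
    have h6 : (((x' - x : ℕ) : ℤ)) < D * (((x' - x : ℕ) : ℤ) / D + 1) := by
      have h7 := Int.emod_add_mul_ediv (((x' - x : ℕ) : ℤ)) D
      have h8 := Int.emod_lt_of_pos (((x' - x : ℕ) : ℤ)) hD'
      linarith
    have h9 : (D : ℤ) * (((x' : ℤ) - β) / D - ((x : ℤ) - β) / D) <
        D * (((x' - x : ℕ) : ℤ) / D + 1 + 1) := by
      linarith
    have h10 := lt_of_mul_lt_mul_left h9 hD'.le
    push_cast
    omega
  · intro f
    refine Finset.sum_bij' (fun b _ ↦ ((b : ℤ) - β) / D) (fun n _ ↦ (β + D * n).toNat) ?_ ?_ ?_ ?_ ?_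
    · intro b hb
      rw [mem_filter, mem_Ioc] at hb
      have hdvd : (D : ℤ) ∣ (b : ℤ) - β := (Nat.modEq_iff_dvd.1 hb.2.symm)
      obtain ⟨k, hk⟩ := hdvd
      rw [mem_Ico, hk, Int.mul_ediv_cancel_left _ hD'.ne']
      constructor
      · have : ((x : ℤ) - β) / D < k := by
          apply Int.ediv_lt_of_lt_mul hD'
          have := hb.1.1
          rw [mul_comm, ← hk]; omega
        omega
      · have : k ≤ ((x' : ℤ) - β) / D := by
          apply Int.le_ediv_of_mul_le hD'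
          rw [mul_comm, ← hk]
          have := hb.1.2
          omega
        omega
    · intro n hn
      rw [mem_Ico] at hn
      have h1 : ((x : ℤ) - β) / D < n := by omega
      have h2 : n ≤ ((x' : ℤ) - β) / D := by omega
      have h3 : (x : ℤ) - β < n * D := Int.lt_mul_of_ediv_lt hD' h1
      have h4 : n * D ≤ (x' : ℤ) - β := Int.mul_le_of_le_ediv hD' h2
      have h5 : (0 : ℤ) ≤ β + D * n := by nlinarith [h3, Int.natCast_nonneg x]
      rw [mem_filter, mem_Ioc]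
      refine ⟨⟨?_, ?_⟩, ?_⟩
      · zify
        rw [Int.toNat_of_nonneg h5]
        linarith
      · zify
        rw [Int.toNat_of_nonneg h5]
        linarith
      · rw [← Int.natCast_modEq_iff, Int.toNat_of_nonneg h5]
        exact Int.modEq_iff_dvd.2 ⟨-n, by ring⟩
    · intro b hb
      rw [mem_filter, mem_Ioc] at hb
      have hdvd : (D : ℤ) ∣ (b : ℤ) - β := (Nat.modEq_iff_dvd.1 hb.2.symm)
      obtain ⟨k, hk⟩ := hdvd
      rw [hk, Int.mul_ediv_cancel_left _ hD'.ne', ← hk]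
      simp
    · intro n hn
      rw [mem_Ico] at hn
      have h1 : ((x : ℤ) - β) / D < n := by omega
      have h3 : (x : ℤ) - β < n * D := Int.lt_mul_of_ediv_lt hD' h1
      have h5 : (0 : ℤ) ≤ β + D * n := by nlinarith [h3, Int.natCast_nonneg x]
      rw [Int.toNat_of_nonneg h5, add_sub_cancel_left, Int.mul_ediv_cancel_left _ hD'.ne']
    · intro b hb
      rw [mem_filter, mem_Ioc] at hb
      have hdvd : (D : ℤ) ∣ (b : ℤ) - β := (Nat.modEq_iff_dvd.1 hb.2.symm)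
      obtain ⟨k, hk⟩ := hdvd
      rw [hk, Int.mul_ediv_cancel_left _ hD'.ne', ← hk]
      congr 1
      ring

/-- the small exponent. -/
def eta : ℝ := 1 / 10 ^ 10

lemma periodic_nat {Φ : ℤ → ℂ} {r : ℕ} (h : ∀ n, Φ (n + r) = Φ n) (k : ℕ) (n : ℤ) :
    Φ (n + k * r) = Φ n := by
  induction k with
  | zero => simp
  | succ k ih =>
    have : n + ((k + 1 : ℕ) : ℤ) * r = (n + k * r) + r := by push_cast; ring
    rw [this, h, ih]

lemma rp_le {t : ℝ} (ht : 1 ≤ t) {a b : ℝ} (h : a ≤ b) : t ^ a ≤ t ^ b :=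
  Real.rpow_le_rpow_of_exponent_le ht h

lemma rp_pos {t : ℝ} (ht : 1 ≤ t) (a : ℝ) : 0 < t ^ a := Real.rpow_pos_of_pos (by linarith) _

lemma rp_mul {t : ℝ} (ht : 1 ≤ t) (a b : ℝ) : t ^ a * t ^ b = t ^ (a + b) :=
  (Real.rpow_add (by linarith) a b).symm

lemma rp_div {t : ℝ} (ht : 1 ≤ t) (a b : ℝ) : t ^ a / t ^ b = t ^ (a - b) :=
  (Real.rpow_sub (by linarith) a b).symm

lemma floor_half {x : ℝ} (hx : 1 ≤ x) : x / 2 ≤ (⌊x⌋₊ : ℝ) ∧ 1 ≤ ⌊x⌋₊ ∧ (⌊x⌋₊ : ℝ) ≤ x := by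
  have h1 : 1 ≤ ⌊x⌋₊ := Nat.one_le_floor_iff x |>.2 hx
  refine ⟨?_, h1, Nat.floor_le (by linarith)⟩
  have h2 := Nat.lt_floor_add_one x
  have h3 : (1 : ℝ) ≤ (⌊x⌋₊ : ℝ) := by exact_mod_cast h1
  linarith

/-- the power of a small quantity. -/
lemma pow_small {t c α : ℝ} (ht : 1 ≤ t) (hc : 1 ≤ c) (J : ℕ) {z : ℝ} (hz0 : 0 ≤ z)
    (hz : z ≤ c * t ^ α) : z ^ ((1 / 2 : ℝ) ^ J) ≤ c * t ^ (α * (1 / 2 : ℝ) ^ J) := by
  have hp : (0 : ℝ) ≤ (1 / 2 : ℝ) ^ J := by positivity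
  have hp1 : (1 / 2 : ℝ) ^ J ≤ 1 := pow_le_one₀ (by norm_num) (by norm_num)
  calc z ^ ((1 / 2 : ℝ) ^ J) ≤ (c * t ^ α) ^ ((1 / 2 : ℝ) ^ J) := Real.rpow_le_rpow hz0 hz hp
    _ = c ^ ((1 / 2 : ℝ) ^ J) * t ^ (α * (1 / 2 : ℝ) ^ J) := by
        rw [Real.mul_rpow (by linarith) (rp_pos ht _).le, ← Real.rpow_mul (by linarith)]
    _ ≤ c * t ^ (α * (1 / 2 : ℝ) ^ J) := by
        refine mul_le_mul_of_nonneg_right ?_ (rp_pos ht _).le
        calc c ^ ((1 / 2 : ℝ) ^ J) ≤ c ^ (1 : ℝ) := Real.rpow_le_rpow_of_exponent_le hc hp1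
          _ = c := Real.rpow_one c

/-- the length of the interval in the residue class. -/
lemma N_bounds {t : ℝ} (ht : 1 ≤ t) {X a D : ℕ} (ha : 0 < a) (hD : 0 < D)
    {α : ℝ} (hα : 0 ≤ α) (h : t ^ α ≤ (X : ℝ) / (a * D)) :
    t ^ α ≤ ((X / (a * D) + 1 : ℕ) : ℝ) ∧
      ((X / (a * D) + 1 : ℕ) : ℝ) ≤ 2 * ((X : ℝ) / (a * D)) := by
  have ha' : (0 : ℝ) < a := by exact_mod_cast ha
  have hD' : (0 : ℝ) < D := by exact_mod_cast hD
  have h1 : (X : ℝ) / (a * D) < ((X / (a * D) + 1 : ℕ) : ℝ) := by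
    rw [div_lt_iff₀ (by positivity)]
    have := Nat.lt_mul_of_div_lt (Nat.lt_succ_self (X / (a * D))) (Nat.mul_pos ha hD)
    calc (X : ℝ) < (((X / (a * D)).succ * (a * D) : ℕ) : ℝ) := by exact_mod_cast this
      _ = _ := by push_cast; ring
  have h2 : ((X / (a * D) : ℕ) : ℝ) ≤ (X : ℝ) / (a * D) := by
    have := @Nat.cast_div_le ℝ _ _ _ X (a * D)
    simpa using this
  have h3 : (1 : ℝ) ≤ t ^ α := Real.one_le_rpow ht hα
  refine ⟨h.trans h1.le, ?_⟩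
  push_cast
  linarith

theorem fixA_small : ∃ C : ℝ, 0 < C ∧ ∀ (t : ℝ) (X a D r0 : ℕ) (r : Fin 14 → ℕ)
    (Φ : Fin 14 → ℤ → ℂ) (θ : ℤ) (β x x' : ℕ),
    1 ≤ t → 0 < a → 0 < D → x ≤ x' → x' * a ≤ X → t ^ (1 / 3 - 2 * eta) ≤ X →
    (D : ℝ) ≤ t ^ (14 * eta) → (∀ j, (r j : ℝ) ≤ t ^ (1 / 13 + eta)) →
    t ^ (1 / 24 : ℝ) ≤ r0 → (r0 : ℝ) ≤ t ^ (1 / 24 + eta) → Odd r0 → Squarefree r0 →
    r0.Coprime a → r0.Coprime D → (∀ j, r0.Coprime (r j)) →
    (∀ j n, Φ j (n + r j) = Φ j n) → (∀ j n, ‖Φ j n‖ ≤ t ^ (7 * eta)) →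
    (a : ℝ) ≤ t ^ (1 / 12 : ℝ) →
    ‖∑ b ∈ (Ioc x x').filter (fun b ↦ b ≡ β [MOD D]), (∏ j, Φ j b) *
      (eInv a θ b * ((jacobiSym b r0 : ℤ) : ℂ))‖ ≤
      C * ((X : ℝ) / (a * D)) * t ^ (-(1 / 10 ^ 7) : ℝ) := by
  obtain ⟨C, hC, hreg⟩ := regime_one 14 (1 / 10 ^ 8) (by norm_num)
  refine ⟨C * 8, by positivity, ?_⟩
  intro t X a D r0 r Φ θ β x x' ht ha hD hx hx' hX hDt hr hr01 hr02 hodd hsq hra hrD hrr hper hΦ hat
  have ha' : (0 : ℝ) < a := by exact_mod_cast ha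
  have hD' : (0 : ℝ) < D := by exact_mod_cast hD
  obtain ⟨u, v, huv, hsum⟩ := class_interval D hD β x x' hx
  rw [hsum (fun b ↦ (∏ j, Φ j b) * (eInv a θ b * ((jacobiSym b r0 : ℤ) : ℂ)))]
  set N : ℕ := X / (a * D) + 1 with hN
  have huN : v - u ≤ N := by
    refine huv.trans ?_
    have h1 : (x' - x) / D ≤ X / (a * D) := by
      rw [← Nat.div_div_eq_div_mul]
      apply Nat.div_le_div_right
      calc x' - x ≤ x' := Nat.sub_le _ _
        _ ≤ X / a := (Nat.le_div_iff_mul_le ha).2 hx'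
    have h2 : (x' - x) / D + 1 ≤ N := by omega
    exact_mod_cast h2
  -- the length
  have hlen : t ^ (1 / 4 - 16 * eta) ≤ (X : ℝ) / (a * D) := by
    rw [le_div_iff₀ (by positivity)]
    calc t ^ (1 / 4 - 16 * eta) * (a * D)
        ≤ t ^ (1 / 4 - 16 * eta) * (t ^ (1 / 12 : ℝ) * t ^ (14 * eta)) := by
          have := rp_pos ht (1 / 4 - 16 * eta)
          gcongr
      _ = t ^ (1 / 3 - 2 * eta) := by
          rw [rp_mul ht, rp_mul ht]; congr 1; ring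
      _ ≤ X := hX
  have he : (0 : ℝ) < eta := by unfold eta; positivity
  have he' : eta = 1 / 10 ^ 10 := rfl
  obtain ⟨hN1, hN2⟩ := N_bounds ht ha hD (by rw [he']; norm_num) hlen
  rw [← hN] at hN1 hN2
  have hNpos : (0 : ℝ) < N := lt_of_lt_of_le (rp_pos ht _) hN1
  -- the number of shifts
  set R : ℝ := t ^ (1 / 13 + eta) with hR
  have hRpos : 0 < R := rp_pos ht _
  have hNR : 1 ≤ (N : ℝ) / R := by
    rw [le_div_iff₀ hRpos, one_mul]
    exact (rp_le ht (by rw [he']; norm_num)).trans hN1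
  obtain ⟨hH1, hH2, hH3⟩ := floor_half hNR
  set H : ℕ := ⌊(N : ℝ) / R⌋₊ with hH
  have hHpos : (0 : ℝ) < H := by exact_mod_cast hH2
  have hrH : ∀ j, r j * H ≤ N := by
    intro j
    have h1 : (r j : ℝ) * H ≤ N := by
      calc (r j : ℝ) * H ≤ R * (N / R) := by
            have := hr j
            gcongr
        _ = N := by field_simp
    exact_mod_cast h1
  have hmain := hreg a D N H r0 r (fun j n ↦ Φ j (β + D * n)) (t ^ (7 * eta))
    (fun n ↦ eInv a θ (β + D * n)) β u v ha (Nat.succ_pos _) (by omega) hodd hsq hra hrD hrr hrH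
    (fun j n ↦ by
      have h1 : (β : ℤ) + D * (n + r j) = (β + D * n) + D * r j := by ring
      rw [h1, periodic_nat (hper j)])
    (fun j n ↦ hΦ j _) (rp_pos ht _).le
    (fun n ↦ by
      apply eInv_congr
      refine Int.modEq_iff_dvd.2 ⟨-D, by ring⟩)
    (fun n ↦ norm_eInv_le _ _ _) huN
  refine (le_trans (le_of_eq ?_) hmain).trans ?_
  · rfl
  -- numerics
  have hz : (1 : ℝ) / H + 1 / Real.sqrt r0 + a * r0 / N ≤ 4 * t ^ (-(1 / 48) : ℝ) := by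
    have h1 : (1 : ℝ) / H ≤ 2 * t ^ (-(1 / 48) : ℝ) := by
      calc (1 : ℝ) / H ≤ 1 / ((N : ℝ) / R / 2) := by
            apply one_div_le_one_div_of_le _ hH1
            positivity
        _ = 2 * (R / N) := by field_simp
        _ ≤ 2 * (R / t ^ (1 / 4 - 16 * eta)) := by
            have := rp_pos ht (1 / 4 - 16 * eta)
            gcongr
        _ = 2 * t ^ (1 / 13 + eta - (1 / 4 - 16 * eta)) := by rw [hR, rp_div ht]
        _ ≤ 2 * t ^ (-(1 / 48) : ℝ) := by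
            have := rp_le ht (a := 1 / 13 + eta - (1 / 4 - 16 * eta)) (b := -(1 / 48))
              (by rw [he']; norm_num)
            linarith
    have h2 : (1 : ℝ) / Real.sqrt r0 ≤ t ^ (-(1 / 48) : ℝ) := by
      have h3 : t ^ (1 / 48 : ℝ) ≤ Real.sqrt r0 := by
        apply Real.le_sqrt_of_sq_le
        rw [← Real.rpow_natCast, ← Real.rpow_mul (by linarith)]
        norm_num
        exact hr01
      rw [Real.rpow_neg (by linarith), ← one_div]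
      exact one_div_le_one_div_of_le (rp_pos ht _) h3
    have h3 : (a : ℝ) * r0 / N ≤ t ^ (-(1 / 48) : ℝ) := by
      calc (a : ℝ) * r0 / N ≤ t ^ (1 / 12 : ℝ) * t ^ (1 / 24 + eta) / t ^ (1 / 4 - 16 * eta) := by
            have := rp_pos ht (1 / 4 - 16 * eta)
            have := rp_pos ht (1 / 12)
            gcongr
        _ = t ^ (1 / 12 + (1 / 24 + eta) - (1 / 4 - 16 * eta)) := by rw [rp_mul ht, rp_div ht]
        _ ≤ _ := rp_le ht (by rw [he']; norm_num)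
    linarith
  have hz0 : (0 : ℝ) ≤ 1 / H + 1 / Real.sqrt r0 + a * r0 / N := by positivity
  have hpow := pow_small ht (by norm_num : (1 : ℝ) ≤ 4) 14 hz0 hz
  have hr0t : (r0 : ℝ) ^ (1 / 10 ^ 8 : ℝ) ≤ t ^ (1 / 10 ^ 8 : ℝ) := by
    apply Real.rpow_le_rpow (by positivity) _ (by norm_num)
    calc (r0 : ℝ) ≤ t ^ (1 / 24 + eta) := hr02
      _ ≤ t ^ (1 : ℝ) := rp_le ht (by rw [he']; norm_num)
      _ = t := Real.rpow_one t
  have hK : (t ^ (7 * eta)) ^ 14 = t ^ (98 * eta) := by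
    rw [← Real.rpow_natCast, ← Real.rpow_mul (by linarith)]
    congr 1; push_cast; ring
  rw [hK]
  have p1 := rp_pos ht (98 * eta)
  have p2 := rp_pos ht (1 / 10 ^ 8)
  have p3 := rp_pos ht (-(1 / 48) * (1 / 2 : ℝ) ^ 14)
  have hXa : 0 ≤ (X : ℝ) / (a * D) := by positivity
  calc C * t ^ (98 * eta) * (r0 : ℝ) ^ (1 / 10 ^ 8 : ℝ) * N *
        (1 / H + 1 / Real.sqrt r0 + a * r0 / N) ^ ((1 / 2 : ℝ) ^ 14)
      ≤ C * t ^ (98 * eta) * t ^ (1 / 10 ^ 8 : ℝ) * (2 * ((X : ℝ) / (a * D))) *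
        (4 * t ^ (-(1 / 48) * (1 / 2 : ℝ) ^ 14)) := by
        gcongr
    _ = C * 8 * ((X : ℝ) / (a * D)) *
        (t ^ (98 * eta) * t ^ (1 / 10 ^ 8 : ℝ) * t ^ (-(1 / 48) * (1 / 2 : ℝ) ^ 14)) := by ring
    _ = C * 8 * ((X : ℝ) / (a * D)) *
        t ^ (98 * eta + 1 / 10 ^ 8 + -(1 / 48) * (1 / 2 : ℝ) ^ 14) := by
        rw [rp_mul ht, rp_mul ht]
    _ ≤ C * 8 * ((X : ℝ) / (a * D)) * t ^ (-(1 / 10 ^ 7) : ℝ) := by
        refine mul_le_mul_of_nonneg_left (rp_le ht ?_) (by positivity)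
        rw [he']; norm_num

lemma jac_add (r0 : ℕ) (n : ℤ) : jacobiSym (n + r0) r0 = jacobiSym n r0 := by
  rw [jacobiSym.mod_left (n + r0), Int.add_emod_right, ← jacobiSym.mod_left]

lemma jac_norm_le (n : ℤ) (r0 : ℕ) : ‖((jacobiSym n r0 : ℤ) : ℂ)‖ ≤ 1 := by
  rcases jacobiSym.trichotomy n r0 with h | h | h <;> rw [h] <;> simp

theorem fixA_large : ∃ C : ℝ, 0 < C ∧ ∀ (t : ℝ) (X a D r0 : ℕ) (r : Fin 14 → ℕ)
    (Φ : Fin 14 → ℤ → ℂ) (θ : ℤ) (β x x' : ℕ),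
    1 ≤ t → 0 < a → 0 < D → x ≤ x' → x' * a ≤ X → t ^ (1 / 3 - 2 * eta) ≤ X →
    (X : ℝ) ≤ t ^ (1 / 3 + 4 * eta) → a * a ≤ X →
    (D : ℝ) ≤ t ^ (14 * eta) → (∀ j, (r j : ℝ) ≤ t ^ (1 / 13 + eta)) →
    (r0 : ℝ) ≤ t ^ (1 / 24 + eta) → r0.Coprime a → (∀ j, (r j).Coprime a) → D.Coprime a →
    IsCoprime θ (a : ℤ) →
    (∀ j n, Φ j (n + r j) = Φ j n) → (∀ j n, ‖Φ j n‖ ≤ t ^ (7 * eta)) →
    t ^ (1 / 12 : ℝ) ≤ a → (sfp a : ℝ) ≤ t ^ (1 / 24 : ℝ) →
    ‖∑ b ∈ (Ioc x x').filter (fun b ↦ b ≡ β [MOD D]), (∏ j, Φ j b) *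
      (eInv a θ b * ((jacobiSym b r0 : ℤ) : ℂ))‖ ≤
      C * ((X : ℝ) / (a * D)) * t ^ (-(1 / 10 ^ 7) : ℝ) := by
  obtain ⟨C, hC, hreg⟩ := regime_two 15 (1 / 10 ^ 8) (by norm_num)
  refine ⟨C * 14, by positivity, ?_⟩
  intro t X a D r0 r Φ θ β x x' ht ha hD hx hx' hX hX2 haX hDt hr hr02 hra hrja hDa hθ hper hΦ
    hat hsf
  have ha' : (0 : ℝ) < a := by exact_mod_cast ha
  have hD' : (0 : ℝ) < D := by exact_mod_cast hD
  have he : (0 : ℝ) < eta := by unfold eta; positivity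
  have he' : eta = 1 / 10 ^ 10 := rfl
  obtain ⟨u, v, huv, hsum⟩ := class_interval D hD β x x' hx
  rw [hsum (fun b ↦ (∏ j, Φ j b) * (eInv a θ b * ((jacobiSym b r0 : ℤ) : ℂ)))]
  set N : ℕ := X / (a * D) + 1 with hN
  have huN : v - u ≤ N := by
    refine huv.trans ?_
    have h1 : (x' - x) / D ≤ X / (a * D) := by
      rw [← Nat.div_div_eq_div_mul]
      apply Nat.div_le_div_right
      calc x' - x ≤ x' := Nat.sub_le _ _
        _ ≤ X / a := (Nat.le_div_iff_mul_le ha).2 hx'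
    have h2 : (x' - x) / D + 1 ≤ N := by omega
    exact_mod_cast h2
  have hXpos : (0 : ℝ) < X := lt_of_lt_of_le (rp_pos ht _) hX
  have haX' : (a : ℝ) * a ≤ X := by exact_mod_cast haX
  -- the length
  have hlen : t ^ (1 / 6 - 15 * eta) ≤ (X : ℝ) / (a * D) := by
    have h1 : t ^ (1 / 6 - eta) ≤ (X : ℝ) / a := by
      rw [le_div_iff₀ ha']
      have h2 : t ^ (1 / 6 - eta) * t ^ (1 / 6 - eta) ≤ X := by
        rw [rp_mul ht]
        refine le_trans (le_of_eq ?_) hX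
        congr 1; ring
      have h3 := rp_pos ht (1 / 6 - eta)
      by_contra hcon
      push Not at hcon
      rcases le_total (t ^ (1 / 6 - eta)) (a : ℝ) with h4 | h4
      · nlinarith
      · nlinarith
    rw [← div_div, le_div_iff₀ hD']
    calc t ^ (1 / 6 - 15 * eta) * D ≤ t ^ (1 / 6 - 15 * eta) * t ^ (14 * eta) := by
          have := rp_pos ht (1 / 6 - 15 * eta)
          gcongr
      _ = t ^ (1 / 6 - eta) := by rw [rp_mul ht]; congr 1; ring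
      _ ≤ _ := h1
  obtain ⟨hN1, hN2⟩ := N_bounds ht ha hD (by rw [he']; norm_num) hlen
  rw [← hN] at hN1 hN2
  have hNpos : (0 : ℝ) < N := lt_of_lt_of_le (rp_pos ht _) hN1
  have hNX : (X : ℝ) / (a * D) ≤ N := by
    have := Nat.lt_mul_of_div_lt (Nat.lt_succ_self (X / (a * D))) (Nat.mul_pos ha hD)
    rw [div_le_iff₀ (by positivity)]
    calc (X : ℝ) ≤ (((X / (a * D)).succ * (a * D) : ℕ) : ℝ) := by exact_mod_cast this.le
      _ = _ := by rw [hN]; push_cast; ring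
  -- the dilations
  have hΛ0 : 1 ≤ t ^ (1 / 50 : ℝ) := Real.one_le_rpow ht (by norm_num)
  obtain ⟨hΛ1, hΛ2, hΛ3⟩ := floor_half hΛ0
  set Λ : ℕ := ⌊t ^ (1 / 50 : ℝ)⌋₊ with hΛ
  have hΛpos : (0 : ℝ) < Λ := by exact_mod_cast hΛ2
  -- the number of shifts
  set R : ℝ := t ^ (1 / 50 : ℝ) * t ^ (1 / 13 + eta) with hR
  have hR' : R = t ^ (1 / 50 + (1 / 13 + eta)) := by rw [hR, rp_mul ht]
  have hRpos : 0 < R := by rw [hR']; exact rp_pos ht _
  have hNR : 1 ≤ (N : ℝ) / R := by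
    rw [le_div_iff₀ hRpos, one_mul, hR']
    exact (rp_le ht (by rw [he']; norm_num)).trans hN1
  obtain ⟨hH1, hH2, hH3⟩ := floor_half hNR
  set H : ℕ := ⌊(N : ℝ) / R⌋₊ with hH
  have hHpos : (0 : ℝ) < H := by exact_mod_cast hH2
  -- the functions
  set r' : Fin 15 → ℕ := Fin.snoc (α := fun _ ↦ ℕ) r r0 with hr'
  set Φ' : Fin 15 → ℤ → ℂ := Fin.snoc (α := fun _ ↦ ℤ → ℂ) (fun j n ↦ Φ j (β + D * n))
    (fun n ↦ ((jacobiSym (β + D * n) r0 : ℤ) : ℂ)) with hΦ'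
  have hr'R : ∀ j, (r' j : ℝ) ≤ t ^ (1 / 13 + eta) := by
    intro j
    refine Fin.lastCases ?_ (fun i ↦ ?_) j
    · rw [hr', Fin.snoc_last]
      exact hr02.trans (rp_le ht (by rw [he']; norm_num))
    · rw [hr', Fin.snoc_castSucc]
      exact hr i
  have hmain := hreg a D N H Λ r' Φ' (t ^ (7 * eta)) θ β u v ha hDa (Nat.succ_pos _) (by omega)
    (by omega)
    (fun j ↦ by
      refine Fin.lastCases ?_ (fun i ↦ ?_) j
      · rw [hr', Fin.snoc_last]; exact hra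
      · rw [hr', Fin.snoc_castSucc]; exact hrja i)
    (fun j ↦ by
      have h1 : ((Λ * r' j * H : ℕ) : ℝ) ≤ N := by
        push_cast
        calc (Λ : ℝ) * r' j * H ≤ t ^ (1 / 50 : ℝ) * t ^ (1 / 13 + eta) * (N / R) := by
              have := hr'R j
              gcongr
          _ = N := by rw [← hR]; field_simp
      exact_mod_cast h1)
    (fun j n ↦ by
      refine Fin.lastCases ?_ (fun i ↦ ?_) j
      · rw [hr', hΦ', Fin.snoc_last, Fin.snoc_last]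
        have h1 : (β : ℤ) + D * (n + r0) = (β + D * n) + D * r0 := by ring
        rw [h1]
        have := periodic_nat (Φ := fun n ↦ ((jacobiSym n r0 : ℤ) : ℂ)) (r := r0)
          (fun n ↦ by rw [jac_add]) D (β + D * n)
        exact this
      · rw [hr', hΦ', Fin.snoc_castSucc, Fin.snoc_castSucc]
        have h1 : (β : ℤ) + D * (n + r i) = (β + D * n) + D * r i := by ring
        rw [h1, periodic_nat (hper i)])
    (fun j n ↦ by
      refine Fin.lastCases ?_ (fun i ↦ ?_) j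
      · rw [hΦ', Fin.snoc_last]
        exact (jac_norm_le _ _).trans (Real.one_le_rpow ht (by positivity))
      · rw [hΦ', Fin.snoc_castSucc]
        exact hΦ i _)
    (rp_pos ht _).le hθ huN
  have hprod : ∀ n : ℤ, ∏ j, Φ' j n = (∏ j, Φ j (β + D * n)) *
      ((jacobiSym (β + D * n) r0 : ℤ) : ℂ) := by
    intro n
    rw [Fin.prod_univ_castSucc (n := 14), hΦ', Fin.snoc_last]
    congr 1
  have hsame : ∑ n ∈ Ico u v, (∏ j, Φ' j n) * eInv a θ (β + D * n) =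
      ∑ n ∈ Ico u v, (∏ j, Φ j (β + D * n)) *
        (eInv a θ (β + D * n) * ((jacobiSym (β + D * n) r0 : ℤ) : ℂ)) := by
    refine Finset.sum_congr rfl fun n _ ↦ ?_
    rw [hprod]
    ring
  rw [hsame] at hmain
  refine hmain.trans ?_
  -- numerics
  have hz : (1 : ℝ) / H + (Λ : ℝ) ^ (-(1 / 4) : ℝ) * (1 + a / N) + Λ * sfp a / a ≤
      7 * t ^ (-(1 / 200) + 14 * eta) := by
    have h1 : (1 : ℝ) / H ≤ 2 * t ^ (-(1 / 200) + 14 * eta) := by
      calc (1 : ℝ) / H ≤ 1 / ((N : ℝ) / R / 2) := by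
            apply one_div_le_one_div_of_le _ hH1
            positivity
        _ = 2 * (R / N) := by field_simp
        _ ≤ 2 * (R / t ^ (1 / 6 - 15 * eta)) := by
            have := rp_pos ht (1 / 6 - 15 * eta)
            gcongr
        _ = 2 * t ^ (1 / 50 + (1 / 13 + eta) - (1 / 6 - 15 * eta)) := by rw [hR', rp_div ht]
        _ ≤ 2 * t ^ (-(1 / 200) + 14 * eta) := by
            have := rp_le ht (a := 1 / 50 + (1 / 13 + eta) - (1 / 6 - 15 * eta))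
              (b := -(1 / 200) + 14 * eta) (by rw [he']; norm_num)
            linarith
    have h2 : (Λ : ℝ) ^ (-(1 / 4) : ℝ) ≤ 2 * t ^ (-(1 / 200) : ℝ) := by
      calc (Λ : ℝ) ^ (-(1 / 4) : ℝ) ≤ (t ^ (1 / 50 : ℝ) / 2) ^ (-(1 / 4) : ℝ) := by
            apply Real.rpow_le_rpow_of_nonpos _ hΛ1 (by norm_num)
            have := rp_pos ht (1 / 50); positivity
        _ = t ^ (-(1 / 200) : ℝ) / (2 : ℝ) ^ (-(1 / 4) : ℝ) := by
            rw [Real.div_rpow (rp_pos ht _).le (by norm_num), ← Real.rpow_mul (by linarith)]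
            norm_num
        _ = (2 : ℝ) ^ (1 / 4 : ℝ) * t ^ (-(1 / 200) : ℝ) := by
            rw [Real.rpow_neg (by norm_num : (0 : ℝ) ≤ 2) (1 / 4)]
            field_simp
        _ ≤ 2 * t ^ (-(1 / 200) : ℝ) := by
            have h3 : (2 : ℝ) ^ (1 / 4 : ℝ) ≤ (2 : ℝ) ^ (1 : ℝ) :=
              Real.rpow_le_rpow_of_exponent_le (by norm_num) (by norm_num)
            rw [Real.rpow_one] at h3
            have := rp_pos ht (-(1 / 200))
            gcongr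
    have h3 : (1 : ℝ) + a / N ≤ 2 * t ^ (14 * eta) := by
      have h4 : (a : ℝ) / N ≤ t ^ (14 * eta) := by
        calc (a : ℝ) / N ≤ a / ((X : ℝ) / (a * D)) := by gcongr
          _ = (a * a) * D / X := by field_simp
          _ ≤ X * D / X := by gcongr
          _ = D := by field_simp
          _ ≤ _ := hDt
      have h5 : (1 : ℝ) ≤ t ^ (14 * eta) := Real.one_le_rpow ht (by positivity)
      linarith
    have h4 : (Λ : ℝ) ^ (-(1 / 4) : ℝ) * (1 + a / N) ≤ 4 * t ^ (-(1 / 200) + 14 * eta) := by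
      calc (Λ : ℝ) ^ (-(1 / 4) : ℝ) * (1 + a / N) ≤
          (2 * t ^ (-(1 / 200) : ℝ)) * (2 * t ^ (14 * eta)) := by
            have := rp_pos ht (-(1 / 200))
            gcongr
        _ = 4 * (t ^ (-(1 / 200) : ℝ) * t ^ (14 * eta)) := by ring
        _ = _ := by rw [rp_mul ht]
    have h5 : (Λ : ℝ) * sfp a / a ≤ t ^ (-(1 / 200) + 14 * eta) := by
      calc (Λ : ℝ) * sfp a / a ≤ t ^ (1 / 50 : ℝ) * t ^ (1 / 24 : ℝ) / t ^ (1 / 12 : ℝ) := by
            have := rp_pos ht (1 / 12)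
            have := rp_pos ht (1 / 50)
            gcongr
        _ = t ^ ((1 / 50 : ℝ) + 1 / 24 - 1 / 12) := by rw [rp_mul ht, rp_div ht]
        _ ≤ _ := rp_le ht (by rw [he']; norm_num)
    linarith
  have hz0 : (0 : ℝ) ≤ 1 / H + (Λ : ℝ) ^ (-(1 / 4) : ℝ) * (1 + a / N) + Λ * sfp a / a := by
    positivity
  have hpow := pow_small ht (by norm_num : (1 : ℝ) ≤ 7) 15 hz0 hz
  have haΛ : ((a : ℝ) * Λ) ^ (1 / 10 ^ 8 : ℝ) ≤ t ^ (1 / 10 ^ 8 : ℝ) := by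
    apply Real.rpow_le_rpow (by positivity) _ (by norm_num)
    have h1 : (a : ℝ) ≤ t ^ (1 / 2 : ℝ) := by
      have h2 : (a : ℝ) ^ 2 ≤ (t ^ (1 / 2 : ℝ)) ^ 2 := by
        have h3 : (t ^ (1 / 2 : ℝ)) ^ 2 = t ^ (1 : ℝ) := by
          rw [← Real.rpow_natCast, ← Real.rpow_mul (by linarith)]; norm_num
        rw [h3, sq]
        exact haX'.trans (hX2.trans (rp_le ht (by rw [he']; norm_num)))
      exact le_of_sq_le_sq h2 (rp_pos ht _).le
    calc (a : ℝ) * Λ ≤ t ^ (1 / 2 : ℝ) * t ^ (1 / 50 : ℝ) := by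
          have := rp_pos ht (1 / 2)
          gcongr
      _ = t ^ ((1 / 2 : ℝ) + 1 / 50) := rp_mul ht _ _
      _ ≤ t ^ (1 : ℝ) := rp_le ht (by norm_num)
      _ = t := Real.rpow_one t
  have hK : (t ^ (7 * eta)) ^ 15 = t ^ (105 * eta) := by
    rw [← Real.rpow_natCast, ← Real.rpow_mul (by linarith)]
    congr 1; push_cast; ring
  rw [hK]
  have p1 := rp_pos ht (105 * eta)
  have p2 := rp_pos ht (1 / 10 ^ 8)
  have p3 := rp_pos ht ((-(1 / 200) + 14 * eta) * (1 / 2 : ℝ) ^ 15)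
  have hXa : 0 ≤ (X : ℝ) / (a * D) := by positivity
  calc C * t ^ (105 * eta) * ((a : ℝ) * Λ) ^ (1 / 10 ^ 8 : ℝ) * N *
        (1 / H + (Λ : ℝ) ^ (-(1 / 4) : ℝ) * (1 + a / N) + Λ * sfp a / a) ^ ((1 / 2 : ℝ) ^ 15)
      ≤ C * t ^ (105 * eta) * t ^ (1 / 10 ^ 8 : ℝ) * (2 * ((X : ℝ) / (a * D))) *
        (7 * t ^ ((-(1 / 200) + 14 * eta) * (1 / 2 : ℝ) ^ 15)) := by
        gcongr
    _ = C * 14 * ((X : ℝ) / (a * D)) *
        (t ^ (105 * eta) * t ^ (1 / 10 ^ 8 : ℝ) *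
          t ^ ((-(1 / 200) + 14 * eta) * (1 / 2 : ℝ) ^ 15)) := by ring
    _ = C * 14 * ((X : ℝ) / (a * D)) *
        t ^ (105 * eta + 1 / 10 ^ 8 + (-(1 / 200) + 14 * eta) * (1 / 2 : ℝ) ^ 15) := by
        rw [rp_mul ht, rp_mul ht]
    _ ≤ C * 14 * ((X : ℝ) / (a * D)) * t ^ (-(1 / 10 ^ 7) : ℝ) := by
        refine mul_le_mul_of_nonneg_left (rp_le ht ?_) (by positivity)
        rw [he']; norm_num

end

end Pool.Agent.Work.MP_af11aa_nt.W
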