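import Mathlib
import Pool.Agent.Work.MP_af11aa_nt.W.Diff

/-!
MODULE SqFull (few integers have a large powerful part; sfp is defined in Diff.lean).

a = sfp a * u, so the sum is ≤ (∑_{s powerful, s > S} 1/s)(∑_{u≤A} 1/u), and ∑_{u ≤ A} 1/u ≤ 1 + log A.
A powerful s (every prime exponent ≥ 2; s = sfp a is) is x² y³ (exponent e = 2i + 3j, j ∈ {0,1}).
∑_{x² y³ > S} 1/(x² y³): for fixed y, ∑_{x > √(S/y³)} 1/x² ≤ 2 min(1, (S/y³)^{-1/2}) ≤ 2 y^{3/2} S^{-1/2}, so the double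
sum is ≤ 2 S^{-1/2} ∑_y y^{-3/2} ≤ C S^{-1/2}.
-/

set_option autoImplicit false

namespace Pool.Agent.Work.MP_af11aa_nt.W

open Finset

private theorem SqFull_inner (T : ℝ) (hT : 0 < T) (A : ℕ) :
    ∑ x ∈ (Icc 1 A).filter (fun x : ℕ => T < (x : ℝ) ^ 2), (1 : ℝ) / (x : ℝ) ^ 2 ≤
      2 / Real.sqrt T := by
  have h1 : (Icc 1 A).filter (fun x : ℕ => T < (x : ℝ) ^ 2) ⊆ Ioo ⌊Real.sqrt T⌋₊ (A + 1) := by
    intro x hx
    rw [mem_filter, mem_Icc] at hx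
    rw [mem_Ioo]
    have hx0 : (0 : ℝ) < x := by exact_mod_cast (show 0 < x by omega)
    refine ⟨?_, by omega⟩
    rw [Nat.floor_lt (Real.sqrt_nonneg _)]
    exact (Real.sqrt_lt' hx0).2 hx.2
  calc ∑ x ∈ (Icc 1 A).filter (fun x : ℕ => T < (x : ℝ) ^ 2), (1 : ℝ) / (x : ℝ) ^ 2
      ≤ ∑ x ∈ Ioo ⌊Real.sqrt T⌋₊ (A + 1), (1 : ℝ) / (x : ℝ) ^ 2 :=
        sum_le_sum_of_subset_of_nonneg h1 fun x _ _ => by positivity
    _ = ∑ x ∈ Ioo ⌊Real.sqrt T⌋₊ (A + 1), ((x : ℝ) ^ 2)⁻¹ :=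
        sum_congr rfl fun x _ => one_div _
    _ ≤ 2 / ((⌊Real.sqrt T⌋₊ : ℝ) + 1) := sum_Ioo_inv_sq_le _ _
    _ ≤ 2 / Real.sqrt T := by
        apply div_le_div_of_nonneg_left (by norm_num) (Real.sqrt_pos.2 hT)
        exact (Nat.lt_floor_add_one _).le

private theorem SqFull_harmonic (A : ℕ) :
    ∑ u ∈ Icc 1 A, (1 : ℝ) / u ≤ 1 + Real.log A := by
  have h := harmonic_le_one_add_log A
  rw [harmonic_eq_sum_Icc] at h
  push_cast at h
  simpa [one_div] using h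

private theorem SqFull_xy (a : ℕ) (ha : a ≠ 0) :
    ∃ x y : ℕ, sfp a = x ^ 2 * y ^ 3 := by
  refine ⟨∏ l ∈ a.primeFactors.filter (fun l ↦ l ^ 2 ∣ a),
      l ^ (if Even (a.factorization l) then a.factorization l / 2 else
        (a.factorization l - 3) / 2),
    ∏ l ∈ a.primeFactors.filter (fun l ↦ l ^ 2 ∣ a),
      l ^ (if Even (a.factorization l) then 0 else 1), ?_⟩
  rw [← prod_pow, ← prod_pow, ← prod_mul_distrib]
  unfold sfp
  refine prod_congr rfl fun l hl => ?_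
  rw [mem_filter] at hl
  have hp : l.Prime := Nat.prime_of_mem_primeFactors hl.1
  have h2 : 2 ≤ a.factorization l := (hp.pow_dvd_iff_le_factorization ha).1 hl.2
  rw [← pow_mul, ← pow_mul, ← pow_add]
  congr 1
  by_cases he : Even (a.factorization l)
  · rw [if_pos he, if_pos he]
    rw [Nat.even_iff] at he
    omega
  · rw [if_neg he, if_neg he]
    rw [Nat.even_iff] at he
    omega

private theorem SqFull_dvd (a : ℕ) (ha : a ≠ 0) : sfp a ∣ a := by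
  have h1 : ∏ l ∈ a.primeFactors, l ^ a.factorization l = a :=
    Nat.prod_factorization_pow_eq_self ha
  unfold sfp
  conv_rhs => rw [← h1]
  exact prod_dvd_prod_of_subset _ _ _ (filter_subset _ _)

theorem sqfull_sum : ∃ C : ℝ, 0 < C ∧ ∀ (A : ℕ) (S : ℝ), 1 ≤ A → 1 ≤ S →
    ∑ a ∈ (Icc 1 A).filter (fun a ↦ S < (sfp a : ℝ)), (1 : ℝ) / a ≤
      C * (1 + Real.log A) * S ^ (-(1 / 2) : ℝ) := by
  have hsum : Summable (fun n : ℕ => 1 / (n : ℝ) ^ (3 / 2 : ℝ)) :=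
    Real.summable_one_div_nat_rpow.2 (by norm_num)
  set K : ℝ := ∑' n : ℕ, 1 / (n : ℝ) ^ (3 / 2 : ℝ) with hK
  have hK0 : 0 ≤ K := tsum_nonneg fun n => by positivity
  refine ⟨2 * (K + 1), by positivity, fun A S hA hS => ?_⟩
  have hS0 : 0 < S := by linarith
  have hx : ∀ a : ℕ, ∃ xy : ℕ × ℕ, a ≠ 0 → sfp a = xy.1 ^ 2 * xy.2 ^ 3 := by
    intro a
    by_cases ha : a = 0
    · exact ⟨(0, 0), fun h => absurd ha h⟩
    · obtain ⟨x, y, h⟩ := SqFull_xy a ha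
      exact ⟨(x, y), fun _ => h⟩
  choose φ hφ using hx
  have hlog : 0 ≤ 1 + Real.log A := by
    have : 0 ≤ Real.log A := Real.log_nonneg (by exact_mod_cast hA)
    linarith
  set F : Finset ℕ := (Icc 1 A).filter (fun a ↦ S < (sfp a : ℝ)) with hF
  set g : (ℕ × ℕ) × ℕ → ℝ := fun t => 1 / (t.1.1 : ℝ) ^ 2 * (1 / (t.1.2 : ℝ) ^ 3) * (1 / t.2) with hg
  set ψ : ℕ → (ℕ × ℕ) × ℕ := fun a => (φ a, a / sfp a) with hψ
  have hFa : ∀ a ∈ F, a ≠ 0 ∧ a ≤ A ∧ S < (sfp a : ℝ) := by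
    intro a ha
    rw [hF, mem_filter, mem_Icc] at ha
    exact ⟨by omega, ha.1.2, ha.2⟩
  have hfac : ∀ a ∈ F, a = (φ a).1 ^ 2 * (φ a).2 ^ 3 * (a / sfp a) := by
    intro a ha
    rw [← hφ a (hFa a ha).1, Nat.mul_div_cancel' (SqFull_dvd a (hFa a ha).1)]
  have hinj : Set.InjOn ψ F := by
    intro a ha b hb hab
    have h1 := hfac a ha
    have h2 := hfac b hb
    simp only [hψ, Prod.mk.injEq] at hab
    rw [hab.1, hab.2] at h1
    rw [h1, ← h2]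
  set T : Finset ((ℕ × ℕ) × ℕ) := ((Icc 1 A ×ˢ Icc 1 A).filter
    (fun xy : ℕ × ℕ => S < (xy.1 : ℝ) ^ 2 * (xy.2 : ℝ) ^ 3)) ×ˢ Icc 1 A with hT
  have hmem : ∀ a ∈ F, ψ a ∈ T := by
    intro a ha
    obtain ⟨h0, hA', hSa⟩ := hFa a ha
    have h1 := hfac a ha
    have hx0 : (φ a).1 ≠ 0 := by
      intro h
      rw [h] at h1
      simp at h1
      exact h0 h1
    have hy0 : (φ a).2 ≠ 0 := by
      intro h
      rw [h] at h1
      simp at h1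
      exact h0 h1
    have hu0 : a / sfp a ≠ 0 := by
      intro h
      rw [h, mul_zero] at h1
      exact h0 h1
    have hxA : (φ a).1 ≤ a := Nat.le_of_dvd (Nat.pos_of_ne_zero h0) (by
      conv_rhs => rw [h1]
      exact ((dvd_pow_self _ (by norm_num)).mul_right _).mul_right _)
    have hyA : (φ a).2 ≤ a := Nat.le_of_dvd (Nat.pos_of_ne_zero h0) (by
      conv_rhs => rw [h1]
      exact ((dvd_pow_self _ (by norm_num)).mul_left _).mul_right _)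
    have huA : a / sfp a ≤ a := Nat.div_le_self _ _
    rw [hT, mem_product, mem_filter, mem_product, mem_Icc, mem_Icc, mem_Icc]
    refine ⟨⟨⟨⟨?_, ?_⟩, ?_, ?_⟩, ?_⟩, ?_, ?_⟩
    · exact Nat.one_le_iff_ne_zero.2 hx0
    · exact hxA.trans hA'
    · exact Nat.one_le_iff_ne_zero.2 hy0
    · exact hyA.trans hA'
    · rw [hφ a h0] at hSa
      push_cast at hSa
      exact hSa
    · exact Nat.one_le_iff_ne_zero.2 hu0
    · exact huA.trans hA'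
  have hg0 : ∀ t, 0 ≤ g t := fun t => by
    simp only [hg]
    positivity
  have hstep1 : ∑ a ∈ F, (1 : ℝ) / a ≤ ∑ t ∈ T, g t := by
    calc ∑ a ∈ F, (1 : ℝ) / a = ∑ a ∈ F, g (ψ a) := by
          refine sum_congr rfl fun a ha => ?_
          simp only [hg, hψ]
          conv_lhs => rw [hfac a ha]
          push_cast
          rw [one_div_mul_one_div, one_div_mul_one_div]
      _ = ∑ t ∈ F.image ψ, g t := (sum_image hinj).symm
      _ ≤ ∑ t ∈ T, g t := by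
          apply sum_le_sum_of_subset_of_nonneg
          · intro t ht
            obtain ⟨a, ha, rfl⟩ := mem_image.1 ht
            exact hmem a ha
          · intro t _ _
            exact hg0 t
  have hstep2 : ∑ t ∈ T, g t = (∑ xy ∈ (Icc 1 A ×ˢ Icc 1 A).filter
      (fun xy : ℕ × ℕ => S < (xy.1 : ℝ) ^ 2 * (xy.2 : ℝ) ^ 3),
        1 / (xy.1 : ℝ) ^ 2 * (1 / (xy.2 : ℝ) ^ 3)) * ∑ u ∈ Icc 1 A, (1 : ℝ) / u := by
    rw [hT, sum_product, sum_mul]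
    refine sum_congr rfl fun xy _ => ?_
    rw [mul_sum]
  have hstep3 : ∑ xy ∈ (Icc 1 A ×ˢ Icc 1 A).filter
      (fun xy : ℕ × ℕ => S < (xy.1 : ℝ) ^ 2 * (xy.2 : ℝ) ^ 3),
        1 / (xy.1 : ℝ) ^ 2 * (1 / (xy.2 : ℝ) ^ 3) ≤ 2 * K * S ^ (-(1 / 2) : ℝ) := by
    have e1 : ∑ xy ∈ (Icc 1 A ×ˢ Icc 1 A).filter
      (fun xy : ℕ × ℕ => S < (xy.1 : ℝ) ^ 2 * (xy.2 : ℝ) ^ 3),
        1 / (xy.1 : ℝ) ^ 2 * (1 / (xy.2 : ℝ) ^ 3) =
        ∑ y ∈ Icc 1 A, ∑ x ∈ (Icc 1 A).filter (fun x : ℕ => S < (x : ℝ) ^ 2 * (y : ℝ) ^ 3),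
          1 / (x : ℝ) ^ 2 * (1 / (y : ℝ) ^ 3) := by
      rw [sum_filter, sum_product_right]
      refine sum_congr rfl fun y _ => ?_
      rw [sum_filter]
    rw [e1]
    have e2 : ∀ y ∈ Icc 1 A,
        ∑ x ∈ (Icc 1 A).filter (fun x : ℕ => S < (x : ℝ) ^ 2 * (y : ℝ) ^ 3),
          1 / (x : ℝ) ^ 2 * (1 / (y : ℝ) ^ 3) ≤
        2 * S ^ (-(1 / 2) : ℝ) * (1 / (y : ℝ) ^ (3 / 2 : ℝ)) := by
      intro y hy
      rw [mem_Icc] at hy
      have hy0 : (0 : ℝ) < y := by exact_mod_cast (show 0 < y by omega)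
      have hT0 : 0 < S / (y : ℝ) ^ 3 := by positivity
      have e3 : (Icc 1 A).filter (fun x : ℕ => S < (x : ℝ) ^ 2 * (y : ℝ) ^ 3) =
          (Icc 1 A).filter (fun x : ℕ => S / (y : ℝ) ^ 3 < (x : ℝ) ^ 2) := by
        apply filter_congr
        intro x _
        rw [div_lt_iff₀ (by positivity)]
      rw [← sum_mul, e3]
      calc (∑ x ∈ (Icc 1 A).filter (fun x : ℕ => S / (y : ℝ) ^ 3 < (x : ℝ) ^ 2),
            1 / (x : ℝ) ^ 2) * (1 / (y : ℝ) ^ 3)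
          ≤ (2 / Real.sqrt (S / (y : ℝ) ^ 3)) * (1 / (y : ℝ) ^ 3) :=
            mul_le_mul_of_nonneg_right (SqFull_inner _ hT0 A) (by positivity)
        _ = 2 * S ^ (-(1 / 2) : ℝ) * (1 / (y : ℝ) ^ (3 / 2 : ℝ)) := by
            have hsq : Real.sqrt (S / (y : ℝ) ^ 3) = S ^ (1 / 2 : ℝ) / (y : ℝ) ^ (3 / 2 : ℝ) := by
              rw [Real.sqrt_eq_rpow, Real.div_rpow hS0.le (by positivity), ← Real.rpow_natCast,
                ← Real.rpow_mul hy0.le]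
              norm_num
            have h3 : (y : ℝ) ^ 3 = (y : ℝ) ^ (3 / 2 : ℝ) * (y : ℝ) ^ (3 / 2 : ℝ) := by
              rw [← Real.rpow_add hy0, ← Real.rpow_natCast]
              norm_num
            rw [hsq, h3, Real.rpow_neg hS0.le]
            have hY : 0 < (y : ℝ) ^ (3 / 2 : ℝ) := Real.rpow_pos_of_pos hy0 _
            have hSS : 0 < S ^ (1 / 2 : ℝ) := Real.rpow_pos_of_pos hS0 _
            field_simp
    refine (sum_le_sum e2).trans ?_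
    rw [← mul_sum]
    have e4 : ∑ y ∈ Icc 1 A, 1 / (y : ℝ) ^ (3 / 2 : ℝ) ≤ K :=
      hsum.sum_le_tsum _ fun n _ => by positivity
    have hSS : 0 < S ^ (-(1 / 2) : ℝ) := Real.rpow_pos_of_pos hS0 _
    calc 2 * S ^ (-(1 / 2) : ℝ) * ∑ y ∈ Icc 1 A, 1 / (y : ℝ) ^ (3 / 2 : ℝ)
        ≤ 2 * S ^ (-(1 / 2) : ℝ) * K := mul_le_mul_of_nonneg_left e4 (by positivity)
      _ = 2 * K * S ^ (-(1 / 2) : ℝ) := by ring
  have hSS : 0 < S ^ (-(1 / 2) : ℝ) := Real.rpow_pos_of_pos hS0 _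
  have hH0 : 0 ≤ ∑ u ∈ Icc 1 A, (1 : ℝ) / u := sum_nonneg fun u _ => by positivity
  calc ∑ a ∈ F, (1 : ℝ) / a ≤ ∑ t ∈ T, g t := hstep1
    _ = _ := hstep2
    _ ≤ (2 * K * S ^ (-(1 / 2) : ℝ)) * (1 + Real.log A) :=
        mul_le_mul hstep3 (SqFull_harmonic A) hH0 (by positivity)
    _ ≤ 2 * (K + 1) * (1 + Real.log A) * S ^ (-(1 / 2) : ℝ) := by
        have : 0 ≤ 2 * (1 + Real.log A) * S ^ (-(1 / 2) : ℝ) := by positivity
        nlinarith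

end Pool.Agent.Work.MP_af11aa_nt.W
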