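import Mathlib
import Pool.Agent.Work.MP_af11aa_nt.W.FixA
import Pool.Agent.Work.MP_af11aa_nt.W.Weight
import Pool.Agent.Work.MP_af11aa_nt.W.SqFull

set_option autoImplicit false

namespace Pool.Agent.Work.MP_af11aa_nt.W

open Finset

noncomputable section

/-- partial sums from residue classes. -/
lemma class_split (D : ℕ) (hD : 0 < D) (H : ℤ → ℂ) (hH : ∀ x, H (x + D) = H x) {B M : ℝ}
    (hB : ∀ x, ‖H x‖ ≤ B) (a x x' : ℕ) (G : ℕ → ℂ)
    (hG : ∀ β : ℕ, ‖∑ b ∈ (Ioc x x').filter (fun b ↦ b ≡ β [MOD D]), G b‖ ≤ M) :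
    ‖∑ b ∈ Ioc x x', H ((a * b : ℕ) : ℤ) * G b‖ ≤ D * (B * M) := by
  classical
  have hmod : ∀ b β : ℕ, b ≡ β [MOD D] → H ((a * b : ℕ) : ℤ) = H ((a * β : ℕ) : ℤ) := by
    have hper : ∀ (k : ℕ) (z : ℤ), H (z + k * D) = H z := fun k z ↦ periodic_nat hH k z
    have hmain : ∀ b β : ℕ, β ≤ b → b ≡ β [MOD D] →
        H ((a * b : ℕ) : ℤ) = H ((a * β : ℕ) : ℤ) := by
      intro b β hle h
      obtain ⟨k, hk⟩ := (Nat.modEq_iff_dvd' hle).1 h.symm
      have h1 : b = β + D * k := by omega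
      rw [h1]
      have h2 : ((a * (β + D * k) : ℕ) : ℤ) = ((a * β : ℕ) : ℤ) + (a * k : ℕ) * D := by
        push_cast; ring
      rw [h2, hper]
    intro b β h
    rcases le_total β b with h1 | h1
    · exact hmain b β h1 h
    · exact (hmain β b h1 h.symm).symm
  have h1 : ∑ b ∈ Ioc x x', H ((a * b : ℕ) : ℤ) * G b =
      ∑ β ∈ range D, ∑ b ∈ (Ioc x x').filter (fun b ↦ b % D = β), H ((a * b : ℕ) : ℤ) * G b := by
    rw [Finset.sum_fiberwise_of_maps_to]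
    intro b _
    exact mem_range.2 (Nat.mod_lt _ hD)
  rw [h1]
  have hB0 : 0 ≤ B := le_trans (norm_nonneg _) (hB 0)
  have hM0 : 0 ≤ M := le_trans (norm_nonneg _) (hG 0)
  calc ‖∑ β ∈ range D, ∑ b ∈ (Ioc x x').filter (fun b ↦ b % D = β), H ((a * b : ℕ) : ℤ) * G b‖
      ≤ ∑ β ∈ range D, B * M := by
        refine (norm_sum_le _ _).trans (Finset.sum_le_sum fun β hβ ↦ ?_)
        have h2 : ∑ b ∈ (Ioc x x').filter (fun b ↦ b % D = β), H ((a * b : ℕ) : ℤ) * G b =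
            H ((a * β : ℕ) : ℤ) * ∑ b ∈ (Ioc x x').filter (fun b ↦ b ≡ β [MOD D]), G b := by
          rw [Finset.mul_sum]
          have hs : (Ioc x x').filter (fun b ↦ b % D = β) =
              (Ioc x x').filter (fun b ↦ b ≡ β [MOD D]) := by
            apply Finset.filter_congr
            intro b _
            unfold Nat.ModEq
            rw [Nat.mod_eq_of_lt (mem_range.1 hβ)]
          rw [hs]
          refine Finset.sum_congr rfl fun b hb ↦ ?_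
          rw [hmod b β (mem_filter.1 hb).2]
        rw [h2, norm_mul]
        exact mul_le_mul (hB _) (hG β) (norm_nonneg _) hB0
    _ = D * (B * M) := by rw [Finset.sum_const, card_range, nsmul_eq_mul]

lemma q_half (q a : ℕ) (ha : 0 < a) : (q : ℝ) / 2 ≤ (a : ℝ) * ((max a (q / a) : ℕ) : ℝ) := by
  have h1 : q < a * (q / a + 1) := Nat.lt_mul_div_succ q ha
  have h2 : q ≤ 2 * (a * max a (q / a)) := by
    have h3 : a * (q / a) ≤ a * max a (q / a) := Nat.mul_le_mul_left a (le_max_right _ _)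
    have h4 : a * a ≤ a * max a (q / a) := Nat.mul_le_mul_left a (le_max_left _ _)
    nlinarith
  have h3 : (q : ℝ) ≤ 2 * (a * ((max a (q / a) : ℕ) : ℝ)) := by exact_mod_cast h2
  linarith

lemma harmonic_subset (A : Finset ℕ) (X : ℕ) (hA : ∀ a ∈ A, 1 ≤ a ∧ a ≤ X) :
    ∑ a ∈ A, (1 : ℝ) / a ≤ 1 + Real.log X := by
  calc ∑ a ∈ A, (1 : ℝ) / a ≤ ∑ a ∈ Icc 1 X, (1 : ℝ) / a :=
        Finset.sum_le_sum_of_subset_of_nonneg (fun a ha ↦ mem_Icc.2 (hA a ha))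
          fun a _ _ ↦ by positivity
    _ = (harmonic X : ℝ) := by
        rw [harmonic_eq_sum_Icc]; push_cast; simp
    _ ≤ 1 + Real.log X := harmonic_le_one_add_log X

theorem pair_sum : ∃ C : ℝ, 0 < C ∧ ∀ (t : ℝ) (X D k q m r0 : ℕ) (B y s : ℝ) (σ : Bool)
    (r : Fin 14 → ℕ) (A : Finset ℕ) (Φ : ℕ → Fin 14 → ℤ → ℂ) (θ : ℕ → ℤ) (P : ℕ → ℂ) (H : ℤ → ℂ),
    1 ≤ t → 0 < D → 0 < k → 0 < q → 0 < m → t ^ (1 / 3 - 2 * eta) ≤ X →
    (X : ℝ) ≤ t ^ (1 / 3 + 4 * eta) → (D : ℝ) ≤ t ^ (14 * eta) →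
    (∀ j, (r j : ℝ) ≤ t ^ (1 / 13 + eta)) →
    t ^ (1 / 24 : ℝ) ≤ r0 → (r0 : ℝ) ≤ t ^ (1 / 24 + eta) → Odd r0 → Squarefree r0 →
    r0.Coprime D → (∀ j, r0.Coprime (r j)) →
    (∀ a ∈ A, 0 < a ∧ a * a ≤ X ∧ r0.Coprime a ∧ (∀ j, (r j).Coprime a) ∧ D.Coprime a ∧
      IsCoprime (θ a) (a : ℤ) ∧ ‖P a‖ ≤ 1) →
    (∀ x, H (x + D) = H x) → (∀ x, ‖H x‖ ≤ B) →
    (∀ a j n, Φ a j (n + r j) = Φ a j n) → (∀ a j n, ‖Φ a j n‖ ≤ t ^ (7 * eta)) →
    y ∈ Set.Ico (1 / (m : ℝ)) (2 / m) →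
    ‖∑ a ∈ A, ∑ b ∈ Ioc (max a (q / a)) (X / a),
      H ((a * b : ℕ) : ℤ) * (P a * ((∏ j, Φ a j b) *
        (eInv a (θ a) b * ((jacobiSym b r0 : ℤ) : ℂ)))) * wgt m k y s σ ((a * b : ℕ) : ℝ)‖ ≤
      C * (B * X / (k * Real.sqrt q)) * (1 + m / (k * q)) * (1 + Real.log X) *
        t ^ (-(1 / 10 ^ 7) : ℝ) := by
  classical
  obtain ⟨C1, hC1, hS⟩ := fixA_small
  obtain ⟨C2, hC2, hL⟩ := fixA_large
  obtain ⟨C3, hC3, hW⟩ := weight_sum
  obtain ⟨C4, hC4, hF⟩ := sqfull_sum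
  refine ⟨4 * C3 * (C1 + C2 + C4), by positivity, ?_⟩
  intro t X D k q m r0 B y s σ r A Φ θ P H ht hD hk hq hm hX1 hX2 hDt hr hr01 hr02 hodd hsq hrD hrr
    hA hHp hHB hper hΦ hy
  have he : (0 : ℝ) < eta := by unfold eta; positivity
  have he' : eta = 1 / 10 ^ 10 := rfl
  have hB0 : 0 ≤ B := le_trans (norm_nonneg _) (hHB 0)
  have hD' : (0 : ℝ) < D := by exact_mod_cast hD
  have hk' : (0 : ℝ) < k := by exact_mod_cast hk
  have hq' : (0 : ℝ) < q := by exact_mod_cast hq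
  have hm' : (0 : ℝ) < m := by exact_mod_cast hm
  have hXpos : (0 : ℝ) < X := lt_of_lt_of_le (rp_pos ht _) hX1
  have hXn : 1 ≤ X := by
    have : 0 < X := by exact_mod_cast hXpos
    omega
  set τ : ℝ := t ^ (-(1 / 10 ^ 7) : ℝ) with hτ
  have hτ0 : 0 < τ := rp_pos ht _
  set W0 : ℝ := C3 / (k * Real.sqrt (q / 2)) * (1 + m / (k * (q / 2))) with hW0
  have hW0p : 0 < W0 := by positivity
  -- the inner function
  let G : ℕ → ℕ → ℂ := fun a b ↦ P a * ((∏ j, Φ a j b) *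
        (eInv a (θ a) b * ((jacobiSym b r0 : ℤ) : ℂ)))
  have hGn : ∀ a ∈ A, ∀ b, ‖G a b‖ ≤ t ^ (98 * eta) := by
    intro a ha b
    simp only [G]
    rw [norm_mul, norm_mul, norm_mul]
    have h1 : ‖∏ j, Φ a j b‖ ≤ t ^ (98 * eta) := by
      rw [norm_prod]
      calc ∏ j, ‖Φ a j b‖ ≤ ∏ _j : Fin 14, t ^ (7 * eta) :=
            Finset.prod_le_prod (fun _ _ ↦ norm_nonneg _) fun j _ ↦ hΦ a j b
        _ = t ^ (98 * eta) := by
            rw [Finset.prod_const, Finset.card_univ, Fintype.card_fin, ← Real.rpow_natCast,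
              ← Real.rpow_mul (by linarith)]
            congr 1; push_cast; ring
    have h2 : ‖eInv a (θ a) b‖ * ‖((jacobiSym b r0 : ℤ) : ℂ)‖ ≤ 1 := by
      have := norm_eInv_le a (θ a) b
      have h3 := jac_norm_le b r0
      exact mul_le_one₀ this (norm_nonneg _) h3
    calc ‖P a‖ * (‖∏ j, Φ a j b‖ * (‖eInv a (θ a) b‖ * ‖((jacobiSym b r0 : ℤ) : ℂ)‖))
        ≤ 1 * (t ^ (98 * eta) * 1) := by
          have := (hA a ha).2.2.2.2.2.2
          have := rp_pos ht (98 * eta)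
          gcongr
      _ = _ := by ring
  -- partial sums, good case
  have hgood : ∀ a ∈ A, ((a : ℝ) ≤ t ^ (1 / 12 : ℝ) ∨ (sfp a : ℝ) ≤ t ^ (1 / 24 : ℝ)) →
      ∀ x x' : ℕ, x ≤ x' → x' ≤ X / a →
        ‖∑ b ∈ Ioc x x', H ((a * b : ℕ) : ℤ) * G a b‖ ≤ (C1 + C2) * (B * (X / a) * τ) := by
    intro a ha hcase x x' hx hx'
    obtain ⟨ha0, haX, hra, hrja, hDa, hθ, hP⟩ := hA a ha
    have ha' : (0 : ℝ) < a := by exact_mod_cast ha0
    have hxa : x' * a ≤ X := (Nat.le_div_iff_mul_le ha0).1 hx'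
    have hcl : ∀ β : ℕ, ‖∑ b ∈ (Ioc x x').filter (fun b ↦ b ≡ β [MOD D]), G a b‖ ≤
        (C1 + C2) * ((X : ℝ) / (a * D)) * τ := by
      intro β
      have h0 : ∑ b ∈ (Ioc x x').filter (fun b ↦ b ≡ β [MOD D]), G a b =
          P a * ∑ b ∈ (Ioc x x').filter (fun b ↦ b ≡ β [MOD D]), (∏ j, Φ a j b) *
            (eInv a (θ a) b * ((jacobiSym b r0 : ℤ) : ℂ)) := by
        rw [Finset.mul_sum]
      rw [h0, norm_mul]
      have h1 : ‖∑ b ∈ (Ioc x x').filter (fun b ↦ b ≡ β [MOD D]), (∏ j, Φ a j b) *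
            (eInv a (θ a) b * ((jacobiSym b r0 : ℤ) : ℂ))‖ ≤
          (C1 + C2) * ((X : ℝ) / (a * D)) * τ := by
        by_cases hs : (a : ℝ) ≤ t ^ (1 / 12 : ℝ)
        · refine (hS t X a D r0 r (Φ a) (θ a) β x x' ht ha0 hD hx hxa hX1 hDt hr hr01 hr02 hodd
            hsq hra hrD hrr (hper a) (hΦ a) hs).trans ?_
          gcongr
          linarith
        · rcases hcase with h | h
          · exact absurd h hs
          · push Not at hs
            refine (hL t X a D r0 r (Φ a) (θ a) β x x' ht ha0 hD hx hxa hX1 hX2 haX hDt hr hr02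
              hra hrja hDa hθ (hper a) (hΦ a) hs.le h).trans ?_
            gcongr
            linarith
      calc ‖P a‖ * ‖∑ b ∈ (Ioc x x').filter (fun b ↦ b ≡ β [MOD D]), (∏ j, Φ a j b) *
            (eInv a (θ a) b * ((jacobiSym b r0 : ℤ) : ℂ))‖
          ≤ 1 * ((C1 + C2) * ((X : ℝ) / (a * D)) * τ) := by gcongr
        _ = _ := one_mul _
    refine (class_split D hD H hHp hHB a x x' (G a) hcl).trans (le_of_eq ?_)
    field_simp
  have hbad : ∀ a ∈ A, ∀ x x' : ℕ, x ≤ x' → x' ≤ X / a →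
        ‖∑ b ∈ Ioc x x', H ((a * b : ℕ) : ℤ) * G a b‖ ≤ B * (X / a) * t ^ (98 * eta) := by
    intro a ha x x' hx hx'
    obtain ⟨ha0, -⟩ := hA a ha
    have ha' : (0 : ℝ) < a := by exact_mod_cast ha0
    calc ‖∑ b ∈ Ioc x x', H ((a * b : ℕ) : ℤ) * G a b‖ ≤
        ∑ b ∈ Ioc x x', B * t ^ (98 * eta) := by
          refine (norm_sum_le _ _).trans (Finset.sum_le_sum fun b _ ↦ ?_)
          rw [norm_mul]
          exact mul_le_mul (hHB _) (hGn a ha b) (norm_nonneg _) hB0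
      _ = ((x' - x : ℕ) : ℝ) * (B * t ^ (98 * eta)) := by
          rw [Finset.sum_const, Nat.card_Ioc, nsmul_eq_mul]
      _ ≤ ((X : ℝ) / a) * (B * t ^ (98 * eta)) := by
          have h1 : ((x' - x : ℕ) : ℝ) ≤ (X : ℝ) / a := by
            rw [le_div_iff₀ ha']
            have : (x' - x) * a ≤ X := by
              calc (x' - x) * a ≤ x' * a := Nat.mul_le_mul_right a (Nat.sub_le _ _)
                _ ≤ X := (Nat.le_div_iff_mul_le ha0).1 hx'
            exact_mod_cast this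
          have := rp_pos ht (98 * eta)
          gcongr
      _ = _ := by ring
  -- the weighted sums
  have hweight : ∀ a ∈ A, ∀ Mx : ℝ, 0 ≤ Mx → (∀ x x' : ℕ, x ≤ x' → x' ≤ X / a →
        ‖∑ b ∈ Ioc x x', H ((a * b : ℕ) : ℤ) * G a b‖ ≤ Mx) →
      ‖∑ b ∈ Ioc (max a (q / a)) (X / a), H ((a * b : ℕ) : ℤ) * G a b *
        wgt m k y s σ ((a * b : ℕ) : ℝ)‖ ≤ W0 * Mx := by
    intro a ha Mx hMx h
    obtain ⟨ha0, -⟩ := hA a ha
    refine (hW m k a (max a (q / a)) (X / a) (q / 2) Mx y s σ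
      (fun b ↦ H ((a * b : ℕ) : ℤ) * G a b) hm hk ha0 (lt_of_lt_of_le ha0 (le_max_left _ _))
      (by positivity) (q_half q a ha0) hy hMx (fun x x' _ hx hx' ↦ h x x' hx hx')).trans
      (le_of_eq ?_)
    rw [hW0]; ring
  -- split the set
  set A1 := A.filter (fun a : ℕ ↦ (a : ℝ) ≤ t ^ (1 / 12 : ℝ) ∨ (sfp a : ℝ) ≤ t ^ (1 / 24 : ℝ)) with hA1
  set A2 := A.filter (fun a : ℕ ↦ ¬ ((a : ℝ) ≤ t ^ (1 / 12 : ℝ) ∨ (sfp a : ℝ) ≤ t ^ (1 / 24 : ℝ)))
    with hA2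
  have hAX : ∀ a ∈ A, 1 ≤ a ∧ a ≤ X := fun a ha ↦ ⟨(hA a ha).1, by
    have h1 := (hA a ha).2.1
    have h2 := (hA a ha).1
    nlinarith⟩
  have hlog : 0 ≤ Real.log X := Real.log_nonneg (by exact_mod_cast hXn)
  have hsum1 : ∑ a ∈ A1, (1 : ℝ) / a ≤ 1 + Real.log X :=
    harmonic_subset A1 X fun a ha ↦ hAX a (mem_filter.1 ha).1
  have hsum2 : ∑ a ∈ A2, (1 : ℝ) / a ≤ C4 * (1 + Real.log X) * t ^ (-(1 / 48) : ℝ) := by
    have h1 := hF X (t ^ (1 / 24 : ℝ)) hXn (Real.one_le_rpow ht (by norm_num))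
    rw [← Real.rpow_mul (by linarith)] at h1
    have h2 : (1 / 24 : ℝ) * (-(1 / 2)) = -(1 / 48) := by norm_num
    rw [h2] at h1
    refine le_trans (Finset.sum_le_sum_of_subset_of_nonneg ?_ fun a _ _ ↦ by positivity) h1
    intro a ha
    rw [hA2, mem_filter] at ha
    push Not at ha
    exact mem_filter.2 ⟨mem_Icc.2 (hAX a ha.1), ha.2.2⟩
  have htot : ‖∑ a ∈ A, ∑ b ∈ Ioc (max a (q / a)) (X / a),
      H ((a * b : ℕ) : ℤ) * G a b * wgt m k y s σ ((a * b : ℕ) : ℝ)‖ ≤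
      W0 * ((C1 + C2) * (B * X * τ) * (1 + Real.log X) +
        B * X * t ^ (98 * eta) * (C4 * (1 + Real.log X) * t ^ (-(1 / 48) : ℝ))) := by
    rw [← Finset.sum_filter_add_sum_filter_not A
      (fun a : ℕ ↦ (a : ℝ) ≤ t ^ (1 / 12 : ℝ) ∨ (sfp a : ℝ) ≤ t ^ (1 / 24 : ℝ))]
    refine (norm_add_le _ _).trans ?_
    rw [mul_add]
    refine add_le_add ?_ ?_
    · calc ‖∑ a ∈ A1, ∑ b ∈ Ioc (max a (q / a)) (X / a),
          H ((a * b : ℕ) : ℤ) * G a b * wgt m k y s σ ((a * b : ℕ) : ℝ)‖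
          ≤ ∑ a ∈ A1, W0 * ((C1 + C2) * (B * (X / a) * τ)) := by
            refine (norm_sum_le _ _).trans (Finset.sum_le_sum fun a ha ↦ ?_)
            have ha' := (mem_filter.1 ha)
            exact hweight a ha'.1 _ (by positivity) (hgood a ha'.1 ha'.2)
        _ = W0 * ((C1 + C2) * (B * X * τ)) * ∑ a ∈ A1, (1 : ℝ) / a := by
            rw [Finset.mul_sum]
            refine Finset.sum_congr rfl fun a _ ↦ ?_
            ring
        _ ≤ W0 * ((C1 + C2) * (B * X * τ)) * (1 + Real.log X) := by gcongr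
        _ = _ := by ring
    · calc ‖∑ a ∈ A2, ∑ b ∈ Ioc (max a (q / a)) (X / a),
          H ((a * b : ℕ) : ℤ) * G a b * wgt m k y s σ ((a * b : ℕ) : ℝ)‖
          ≤ ∑ a ∈ A2, W0 * (B * (X / a) * t ^ (98 * eta)) := by
            refine (norm_sum_le _ _).trans (Finset.sum_le_sum fun a ha ↦ ?_)
            have ha' := (mem_filter.1 ha)
            have := rp_pos ht (98 * eta)
            exact hweight a ha'.1 _ (by positivity) (hbad a ha'.1)
        _ = W0 * (B * X * t ^ (98 * eta)) * ∑ a ∈ A2, (1 : ℝ) / a := by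
            rw [Finset.mul_sum]
            refine Finset.sum_congr rfl fun a _ ↦ ?_
            ring
        _ ≤ W0 * (B * X * t ^ (98 * eta)) * (C4 * (1 + Real.log X) * t ^ (-(1 / 48) : ℝ)) := by
            have := rp_pos ht (98 * eta)
            gcongr
        _ = _ := by ring
  have hfin : B * X * t ^ (98 * eta) * (C4 * (1 + Real.log X) * t ^ (-(1 / 48) : ℝ)) ≤
      C4 * (B * X * τ) * (1 + Real.log X) := by
    calc B * X * t ^ (98 * eta) * (C4 * (1 + Real.log X) * t ^ (-(1 / 48) : ℝ))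
        = C4 * (B * X) * (1 + Real.log X) * (t ^ (98 * eta) * t ^ (-(1 / 48) : ℝ)) := by ring
      _ = C4 * (B * X) * (1 + Real.log X) * t ^ (98 * eta + -(1 / 48) : ℝ) := by rw [rp_mul ht]
      _ ≤ C4 * (B * X) * (1 + Real.log X) * τ := by
          refine mul_le_mul_of_nonneg_left (rp_le ht ?_) (by positivity)
          rw [he']; norm_num
      _ = _ := by ring
  have hW0le : W0 ≤ 4 * C3 / (k * Real.sqrt q) * (1 + m / (k * q)) := by
    have h1 : Real.sqrt (q / 2) = Real.sqrt q / Real.sqrt 2 := Real.sqrt_div (by positivity) _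
    have h2 : Real.sqrt 2 ≤ 2 := by
      rw [Real.sqrt_le_left (by norm_num)]; norm_num
    have hsq2 : 0 < Real.sqrt 2 := by positivity
    have hsqq : 0 < Real.sqrt q := by positivity
    rw [hW0, h1]
    have h3 : (1 : ℝ) + m / (k * (q / 2)) ≤ 2 * (1 + m / (k * q)) := by
      have : (m : ℝ) / (k * (q / 2)) = 2 * (m / (k * q)) := by field_simp
      rw [this]; linarith [show (0:ℝ) ≤ 1 by norm_num]
    calc C3 / (k * (Real.sqrt q / Real.sqrt 2)) * (1 + m / (k * (q / 2)))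
        = C3 * Real.sqrt 2 / (k * Real.sqrt q) * (1 + m / (k * (q / 2))) := by field_simp
      _ ≤ C3 * 2 / (k * Real.sqrt q) * (2 * (1 + m / (k * q))) := by gcongr
      _ = _ := by ring
  calc ‖∑ a ∈ A, ∑ b ∈ Ioc (max a (q / a)) (X / a),
      H ((a * b : ℕ) : ℤ) * G a b * wgt m k y s σ ((a * b : ℕ) : ℝ)‖
      ≤ W0 * ((C1 + C2) * (B * X * τ) * (1 + Real.log X) +
        C4 * (B * X * τ) * (1 + Real.log X)) := by
        refine htot.trans (mul_le_mul_of_nonneg_left ?_ hW0p.le)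
        linarith
    _ = W0 * ((C1 + C2 + C4) * (B * X * τ) * (1 + Real.log X)) := by ring
    _ ≤ (4 * C3 / (k * Real.sqrt q) * (1 + m / (k * q))) *
        ((C1 + C2 + C4) * (B * X * τ) * (1 + Real.log X)) := by
        gcongr
    _ = _ := by ring

end

end Pool.Agent.Work.MP_af11aa_nt.W
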