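import Mathlib
import Pool.Agent.Work.MP_af11aa_nt.W.Arith
import Pool.Agent.Work.MP_af11aa_nt.K.Salie

/-!
MODULE SalX (exact evaluation of the Salie sum).
-/

set_option autoImplicit false

namespace Pool.Agent.Work.MP_af11aa_nt.W

open Finset ComplexConjugate

open Pool.Agent.Work.MP_af11aa_nt.K.Salie (G G_unit nonunit_sum norm_G_one card_sqrt_one std_eq)

/-- the identity behind the bound for the Salie sum. -/
theorem salX_id (c : ℕ) [NeZero c] (hc : Odd c) (u : (ZMod c)ˣ) :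
    conj (G 1 c) * (jacobiSym ((u : ZMod c).val : ℤ) c : ℂ) *
      (∑ x : (ZMod c)ˣ, (jacobiSym ((x : ZMod c).val : ℤ) c : ℂ) *
      ZMod.stdAddChar ((u : ZMod c) * ((x : ZMod c) + ((x⁻¹ : (ZMod c)ˣ) : ZMod c)))) =
    (c : ℂ) * ∑ y ∈ univ.filter (fun y : ZMod c => y ^ 2 = 1),
        (ZMod.stdAddChar ((u : ZMod c) * (2 * y)) : ℂ) := by
  classical
  set T : ℂ := ∑ x : (ZMod c)ˣ, (jacobiSym ((x : ZMod c).val : ℤ) c : ℂ) *
      ZMod.stdAddChar ((u : ZMod c) * ((x : ZMod c) + ((x⁻¹ : (ZMod c)ˣ) : ZMod c))) with hT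
  -- the main identity
  have h1 : conj (G 1 c) * (jacobiSym ((u : ZMod c).val : ℤ) c : ℂ) * T
      = ∑ x : (ZMod c)ˣ, ∑ y : ZMod c,
        (ZMod.stdAddChar ((u : ZMod c) * (2 * y + (x : ZMod c) * (1 - y ^ 2))) : ℂ) := by
    rw [← Equiv.sum_comp (Equiv.inv (ZMod c)ˣ), hT, Finset.mul_sum]
    refine Finset.sum_congr rfl (fun x _ => ?_)
    have h2 : conj (G 1 c) * (jacobiSym ((u : ZMod c).val : ℤ) c : ℂ) *
        (jacobiSym ((x : ZMod c).val : ℤ) c : ℂ)
        = ∑ n : ZMod c, (ZMod.stdAddChar (-((u : ZMod c) * (x : ZMod c) * n ^ 2)) : ℂ) := by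
      have h3 := congrArg conj (G_unit c hc u x)
      rw [map_sum, map_mul, map_mul, map_intCast, map_intCast] at h3
      simp_rw [AddChar.map_neg_eq_conj]
      rw [h3]
      ring
    rw [← mul_assoc, h2, Finset.sum_mul]
    have hxx : (x : ZMod c) * ((x⁻¹ : (ZMod c)ˣ) : ZMod c) = 1 := x.mul_inv
    refine Finset.sum_nbij' (fun n : ZMod c => (x : ZMod c) * (1 - n))
      (fun y : ZMod c => 1 - ((x⁻¹ : (ZMod c)ˣ) : ZMod c) * y) (by simp) (by simp) ?_ ?_ ?_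
    · intro n _
      linear_combination (n - 1) * hxx
    · intro y _
      linear_combination y * hxx
    · intro n _
      simp only [Equiv.inv_apply]
      rw [← AddChar.map_add_eq_mul]
      congr 1
      linear_combination ((u : ZMod c) * x * (1 - n) ^ 2) * hxx
  have h2 : ∑ x : (ZMod c)ˣ, ∑ y : ZMod c,
      (ZMod.stdAddChar ((u : ZMod c) * (2 * y + (x : ZMod c) * (1 - y ^ 2))) : ℂ)
      = ∑ x : ZMod c, ∑ y : ZMod c,
        (ZMod.stdAddChar ((u : ZMod c) * (2 * y + x * (1 - y ^ 2))) : ℂ) := by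
    refine Fintype.sum_of_injective (fun x : (ZMod c)ˣ => (x : ZMod c)) Units.val_injective _ _ ?_ ?_
    · intro x hx
      apply nonunit_sum c hc u x
      rintro ⟨v, rfl⟩
      exact hx ⟨v, rfl⟩
    · intro x
      rfl
  have h3 : ∑ x : ZMod c, ∑ y : ZMod c,
        (ZMod.stdAddChar ((u : ZMod c) * (2 * y + x * (1 - y ^ 2))) : ℂ)
      = (c : ℂ) * ∑ y ∈ univ.filter (fun y : ZMod c => y ^ 2 = 1),
        (ZMod.stdAddChar ((u : ZMod c) * (2 * y)) : ℂ) := by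
    rw [Finset.sum_comm, Finset.sum_filter, Finset.mul_sum]
    refine Finset.sum_congr rfl (fun y _ => ?_)
    have h4 : ∀ x : ZMod c, (ZMod.stdAddChar ((u : ZMod c) * (2 * y + x * (1 - y ^ 2))) : ℂ)
        = ZMod.stdAddChar ((u : ZMod c) * (2 * y)) *
          ZMod.stdAddChar (x * ((u : ZMod c) * (1 - y ^ 2))) := by
      intro x
      rw [← AddChar.map_add_eq_mul]
      congr 1
      ring
    rw [Finset.sum_congr rfl (fun x _ => h4 x), ← Finset.mul_sum,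
      AddChar.sum_mulShift _ (ZMod.isPrimitive_stdAddChar c), ZMod.card]
    by_cases hy : y ^ 2 = 1
    · rw [if_pos (by rw [hy]; simp), if_pos hy]
      ring
    · rw [if_neg, if_neg hy]
      · simp
      · intro h5
        have h6 := (u.isUnit.mul_right_eq_zero).1 h5
        exact hy (sub_eq_zero.1 h6).symm
  exact h1.trans (h2.trans h3)

theorem salX_units (c : ℕ) [NeZero c] (f : ℕ → ℂ) :
    ∑ x ∈ (range c).filter (fun x ↦ x.Coprime c), f x =
      ∑ x : (ZMod c)ˣ, f (x : ZMod c).val := by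
  symm
  refine Finset.sum_bij (fun (x : (ZMod c)ˣ) _ => (x : ZMod c).val) ?_ ?_ ?_ ?_
  · intro x _
    rw [Finset.mem_filter, Finset.mem_range]
    exact ⟨ZMod.val_lt _, ZMod.val_coe_unit_coprime x⟩
  · intro x _ y _ h
    exact Units.ext (ZMod.val_injective c h)
  · intro n hn
    rw [Finset.mem_filter, Finset.mem_range] at hn
    refine ⟨ZMod.unitOfCoprime n hn.2, Finset.mem_univ _, ?_⟩
    rw [ZMod.coe_unitOfCoprime, ZMod.val_cast_of_lt hn.1]
  · intro x _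
    rfl

theorem salX_jac {c : ℕ} (hc : c ≠ 0) {a m k : ℤ} (hk : IsCoprime k (c : ℤ))
    (h : (a : ZMod c) * k = m) : jacobiSym a c = jacobiSym (m * k) c := by
  have : NeZero c := ⟨hc⟩
  have h1 : a * k ≡ m [ZMOD c] := by
    rw [← ZMod.intCast_eq_intCast_iff]
    push_cast
    exact h
  have h2 : jacobiSym (a * k) c = jacobiSym m c := by
    rw [jacobiSym.mod_left (a * k), h1, ← jacobiSym.mod_left]
  have h3 : jacobiSym k c * jacobiSym k c = 1 := by
    have := jacobiSym.sq_one (Int.isCoprime_iff_gcd_eq_one.1 hk)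
    rw [pow_two] at this
    exact this
  rw [jacobiSym.mul_left] at h2 ⊢
  rw [← h2, mul_assoc, h3, mul_one]

theorem salX_ivz {c : ℕ} [NeZero c] (x : ℤ) : ((ivz c x : ℤ) : ZMod c) = (x : ZMod c)⁻¹ := by
  unfold ivz
  rw [Int.cast_natCast, ZMod.natCast_zmod_val]

theorem salX_salS (c : ℕ) [NeZero c] (m k : ℤ) (u : (ZMod c)ˣ)
    (hu : (u : ZMod c) = m * (k : ZMod c)⁻¹) :
    salS c m k = ∑ x : (ZMod c)ˣ, (jacobiSym ((x : ZMod c).val : ℤ) c : ℂ) *
      ZMod.stdAddChar ((u : ZMod c) * ((x : ZMod c) + ((x⁻¹ : (ZMod c)ˣ) : ZMod c))) := by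
  unfold salS
  rw [salX_units c (fun x => ((jacobiSym (x : ℤ) c : ℤ) : ℂ) *
    ec c (m * ivz c k * (x + ivz c x)))]
  refine Finset.sum_congr rfl (fun x _ => ?_)
  congr 1
  have h1 : ec c (m * ivz c k * ((((x : ZMod c).val : ℕ) : ℤ) +
      ivz c (((x : ZMod c).val : ℕ) : ℤ))) =
      ZMod.stdAddChar (((m * ivz c k * ((((x : ZMod c).val : ℕ) : ℤ) +
      ivz c (((x : ZMod c).val : ℕ) : ℤ)) : ℤ)) : ZMod c) := (std_eq c _).symm
  rw [h1]
  congr 1
  push_cast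
  rw [salX_ivz, salX_ivz, hu, Int.cast_natCast, ZMod.natCast_zmod_val]
  congr 2
  exact ZMod.inv_coe_unit x

theorem salX_isUnit {c : ℕ} {m : ℤ} (hm : IsCoprime m (c : ℤ)) : IsUnit (m : ZMod c) := by
  obtain ⟨a, b, h⟩ := hm
  have h1 := congrArg (Int.cast : ℤ → ZMod c) h
  push_cast at h1
  rw [ZMod.natCast_self, mul_zero, add_zero, mul_comm] at h1
  exact IsUnit.of_mul_eq_one _ h1

theorem salX_unit {c : ℕ} [NeZero c] {m k : ℤ} (hm : IsCoprime m (c : ℤ))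
    (hk : IsCoprime k (c : ℤ)) : ∃ u : (ZMod c)ˣ, (u : ZMod c) = m * (k : ZMod c)⁻¹ ∧
      (u : ZMod c) * k = m := by
  have hmu : IsUnit (m : ZMod c) := salX_isUnit hm
  have hku : IsUnit (k : ZMod c) := salX_isUnit hk
  obtain ⟨v, hv⟩ := hmu
  obtain ⟨w, hw⟩ := hku
  have h1 : (w : ZMod c)⁻¹ = ((w⁻¹ : (ZMod c)ˣ) : ZMod c) := ZMod.inv_coe_unit w
  refine ⟨v * w⁻¹, ?_, ?_⟩
  · rw [← hv, ← hw, h1, Units.val_mul]
  · rw [← hv, ← hw, Units.val_mul, mul_assoc, Units.inv_mul, mul_one]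

theorem salie_exact (c : ℕ) (hc : Odd c) (m k : ℤ) (hm : IsCoprime m (c : ℤ))
    (hk : IsCoprime k (c : ℤ)) :
    salS c m k = ((jacobiSym (m * k) c : ℤ) : ℂ) * Pool.Agent.Work.MP_af11aa_nt.K.Salie.G 1 c *
      ∑ y ∈ (range c).filter (fun y : ℕ ↦ (c : ℤ) ∣ (y : ℤ) ^ 2 - 1), ec c (2 * m * ivz c k * y) := by
  have hc0 : c ≠ 0 := by rintro rfl; simp at hc
  have : NeZero c := ⟨hc0⟩
  obtain ⟨u, hu, huk⟩ := salX_unit hm hk
  have h1 := salX_id c hc u
  rw [← salX_salS c m k u hu] at h1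
  have hJ : jacobiSym ((u : ZMod c).val : ℤ) c = jacobiSym (m * k) c :=
    salX_jac hc0 hk (by rw [Int.cast_natCast, ZMod.natCast_zmod_val]; exact huk)
  rw [hJ] at h1
  have h2 : ∑ y ∈ (range c).filter (fun y : ℕ ↦ (c : ℤ) ∣ (y : ℤ) ^ 2 - 1),
      ec c (2 * m * ivz c k * y) = ∑ y ∈ univ.filter (fun y : ZMod c => y ^ 2 = 1),
        (ZMod.stdAddChar ((u : ZMod c) * (2 * y)) : ℂ) := by
    refine Finset.sum_nbij' (fun n : ℕ => (n : ZMod c)) (fun y : ZMod c => y.val) ?_ ?_ ?_ ?_ ?_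
    · intro n hn
      rw [Finset.mem_filter] at hn ⊢
      refine ⟨Finset.mem_univ _, ?_⟩
      have h3 := (ZMod.intCast_zmod_eq_zero_iff_dvd ((n : ℤ) ^ 2 - 1) c).2 hn.2
      push_cast at h3
      exact sub_eq_zero.1 h3
    · intro y hy
      rw [Finset.mem_filter] at hy ⊢
      refine ⟨Finset.mem_range.2 (ZMod.val_lt _), ?_⟩
      rw [← ZMod.intCast_zmod_eq_zero_iff_dvd]
      push_cast
      rw [ZMod.natCast_zmod_val, hy.2, sub_self]
    · intro n hn
      rw [Finset.mem_filter, Finset.mem_range] at hn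
      exact ZMod.val_cast_of_lt hn.1
    · intro y _
      exact ZMod.natCast_zmod_val y
    · intro n _
      have h3 : ec c (2 * m * ivz c k * n) =
        ZMod.stdAddChar (((2 * m * ivz c k * n : ℤ)) : ZMod c) := (std_eq c _).symm
      rw [h3]
      congr 1
      push_cast
      rw [salX_ivz, hu]
      ring
  rw [h2]
  set S := ∑ y ∈ univ.filter (fun y : ZMod c => y ^ 2 = 1),
        (ZMod.stdAddChar ((u : ZMod c) * (2 * y)) : ℂ)
  have hJ1 : ((jacobiSym (m * k) c : ℤ) : ℂ) * ((jacobiSym (m * k) c : ℤ) : ℂ) = 1 := by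
    have h3 := jacobiSym.sq_one (Int.isCoprime_iff_gcd_eq_one.1 (hm.mul_left hk))
    rw [pow_two] at h3
    exact_mod_cast h3
  have hG : G 1 c * conj (G 1 c) = c := by
    rw [Complex.mul_conj', ]
    exact_mod_cast norm_G_one c hc
  have hcc : (c : ℂ) ≠ 0 := by exact_mod_cast hc0
  have h3 : (c : ℂ) * salS c m k = (c : ℂ) *
      (((jacobiSym (m * k) c : ℤ) : ℂ) * G 1 c * S) := by
    linear_combination (((jacobiSym (m * k) c : ℤ) : ℂ) * G 1 c) * h1 -
      (((jacobiSym (m * k) c : ℤ) : ℂ) * ((jacobiSym (m * k) c : ℤ) : ℂ) * salS c m k) * hG -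
      ((c : ℂ) * salS c m k) * hJ1
  exact mul_left_cancel₀ hcc h3

/-- the bound for the Salie sum (a restatement of K.salie_bound). -/
theorem salS_bound (c : ℕ) (hc : Odd c) (m k : ℤ) (hm : IsCoprime m (c : ℤ))
    (hk : IsCoprime k (c : ℤ)) : ‖salS c m k‖ ≤ Real.sqrt c * c.divisors.card := by
  have hc0 : c ≠ 0 := by rintro rfl; simp at hc
  have : NeZero c := ⟨hc0⟩
  obtain ⟨u, hu, _⟩ := salX_unit hm hk
  rw [salX_salS c m k u hu]
  exact Pool.Agent.Work.MP_af11aa_nt.K.salie_bound c hc u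

end Pool.Agent.Work.MP_af11aa_nt.W
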