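import Mathlib
import Pool.Agent.Work.MP_af11aa_nt.W.Arith

/-!
MODULE SqrtPairs (square roots of 1 and factorizations; reciprocity).
-/

set_option autoImplicit false

namespace Pool.Agent.Work.MP_af11aa_nt.W

open Finset ComplexConjugate

theorem sqp_ec_add (c : ℕ) (z w : ℤ) : ec c (z + w) = ec c z * ec c w := by
  unfold ec
  rw [← Complex.exp_add]
  congr 1
  push_cast
  ring

theorem sqp_ec_mul {m c : ℕ} (hm : m ≠ 0) (hc : c ≠ 0) (z : ℤ) :
    ec (m * c) (m * z) = ec c z := by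
  unfold ec
  congr 1
  have h1 : (m : ℂ) ≠ 0 := by exact_mod_cast hm
  have h2 : (c : ℂ) ≠ 0 := by exact_mod_cast hc
  push_cast
  field_simp

theorem sqp_ec_self {c : ℕ} (hc : c ≠ 0) (z : ℤ) : ec c (c * z) = 1 := by
  unfold ec
  have h2 : (c : ℂ) ≠ 0 := by exact_mod_cast hc
  have : 2 * (Real.pi : ℂ) * Complex.I * ((c * z : ℤ) : ℂ) / c = z * (2 * Real.pi * Complex.I) := by
    push_cast
    field_simp
  rw [this]
  exact Complex.exp_int_mul_two_pi_mul_I z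

theorem sqp_ec_congr {c : ℕ} (hc : c ≠ 0) {z w : ℤ} (h : (c : ℤ) ∣ w - z) : ec c z = ec c w := by
  obtain ⟨t, ht⟩ := h
  have : w = z + c * t := by linarith
  rw [this, sqp_ec_add, sqp_ec_self hc, mul_one]

theorem sqp_ec_conj (c : ℕ) (z : ℤ) : conj (ec c z) = ec c (-z) := by
  unfold ec
  rw [← Complex.exp_conj]
  congr 1
  simp only [map_div₀, map_mul, Complex.conj_I, Complex.conj_ofReal, map_ofNat, map_natCast,
    map_intCast, Int.cast_neg]
  ring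

theorem sqp_ivz {c : ℕ} (hc : c ≠ 0) {x : ℤ} (hx : IsCoprime x (c : ℤ)) :
    (c : ℤ) ∣ ivz c x * x - 1 := by
  have : NeZero c := ⟨hc⟩
  rw [← ZMod.intCast_zmod_eq_zero_iff_dvd]
  have hu : IsUnit (x : ZMod c) := by
    obtain ⟨a, b, h⟩ := hx
    have h1 := congrArg (Int.cast : ℤ → ZMod c) h
    push_cast at h1
    rw [ZMod.natCast_self, mul_zero, add_zero, mul_comm] at h1
    exact IsUnit.of_mul_eq_one _ h1
  unfold ivz
  push_cast
  rw [ZMod.natCast_zmod_val, ZMod.inv_mul_of_unit _ hu, sub_self]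

theorem sqp_inv_unique {c : ℤ} {u v w : ℤ} (h1 : c ∣ u * w - 1) (h2 : c ∣ v * w - 1) :
    c ∣ v - u := by
  have h3 : v - u = v * (u * w - 1) * (-1) + u * (v * w - 1) := by ring
  rw [h3]
  exact dvd_add (Dvd.dvd.mul_right (Dvd.dvd.mul_left h1 _) _) (Dvd.dvd.mul_left h2 _)

/-- CRT for exponentials. -/
theorem sqp_crt {a b : ℕ} (ha : a ≠ 0) (hb : b ≠ 0) (hab : a.Coprime b) (z : ℤ) :
    ec (a * b) z = ec a (z * ivz a b) * ec b (z * ivz b a) := by
  have hcop : IsCoprime (b : ℤ) (a : ℤ) := Nat.isCoprime_iff_coprime.2 hab.symm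
  have h1 := sqp_ivz ha hcop
  have h2 := sqp_ivz hb hcop.symm
  have h3 : ((a * b : ℕ) : ℤ) ∣ (ivz a b * b + ivz b a * a) - 1 := by
    push_cast
    refine hcop.symm.mul_dvd ?_ ?_
    · have : ivz a b * b + ivz b a * a - 1 = (ivz a b * b - 1) + ivz b a * a := by ring
      rw [this]
      exact dvd_add h1 (dvd_mul_left _ _)
    · have : ivz a b * b + ivz b a * a - 1 = (ivz b a * a - 1) + ivz a b * b := by ring
      rw [this]
      exact dvd_add h2 (dvd_mul_left _ _)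
  rw [← sqp_ec_mul hb ha (z * ivz a b), ← sqp_ec_mul ha hb (z * ivz b a), mul_comm b a,
    ← sqp_ec_add]
  refine sqp_ec_congr (mul_ne_zero ha hb) ?_
  have : (b : ℤ) * (z * ivz a b) + a * (z * ivz b a) - z =
      ((ivz a b * b + ivz b a * a) - 1) * z := by ring
  rw [this]
  exact Dvd.dvd.mul_right h3 _

/-- the term of a pair. -/
noncomputable def sqpT (k m a b : ℕ) : ℂ := eI a (2 * m) (k * b) * eI b (-(2 * m)) (k * a)

theorem sqp_term {a b k m : ℕ} (ha : a ≠ 0) (hb : b ≠ 0) (hab : a.Coprime b)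
    (hka : k.Coprime a) (hkb : k.Coprime b) {y : ℤ} (hya : (a : ℤ) ∣ y - 1)
    (hyb : (b : ℤ) ∣ y + 1) :
    ec (a * b) (2 * m * ivz (a * b) k * y) = sqpT k m a b := by
  have hk : IsCoprime (k : ℤ) ((a * b : ℕ) : ℤ) :=
    Nat.isCoprime_iff_coprime.2 (Nat.Coprime.mul_right hka hkb)
  have h0 := sqp_ivz (mul_ne_zero ha hb) hk
  have h0a : (a : ℤ) ∣ ivz (a * b) k * k - 1 := (by push_cast; exact dvd_mul_right _ _ :
    (a : ℤ) ∣ ((a * b : ℕ) : ℤ)).trans h0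
  have h0b : (b : ℤ) ∣ ivz (a * b) k * k - 1 := (by push_cast; exact dvd_mul_left _ _ :
    (b : ℤ) ∣ ((a * b : ℕ) : ℤ)).trans h0
  have hcba : IsCoprime (b : ℤ) (a : ℤ) := Nat.isCoprime_iff_coprime.2 hab.symm
  have hcka : IsCoprime (k : ℤ) (a : ℤ) := Nat.isCoprime_iff_coprime.2 hka
  have hckb : IsCoprime (k : ℤ) (b : ℤ) := Nat.isCoprime_iff_coprime.2 hkb
  have h1 := sqp_ivz ha hcba
  have h2 := sqp_ivz hb hcba.symm
  have h3 := sqp_ivz ha (hcka.mul_left hcba)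
  have h4 := sqp_ivz hb (hckb.mul_left hcba.symm)
  rw [sqp_crt ha hb hab]
  unfold sqpT eI
  congr 1
  · refine sqp_ec_congr ha ?_
    have h5 : (a : ℤ) ∣ ivz a (k * b) - ivz (a * b) k * y * ivz a b := by
      refine sqp_inv_unique (w := k * b) ?_ h3
      have : ivz (a * b) k * y * ivz a b * (k * b) - 1 =
          (ivz (a * b) k * k - 1) * (y * ivz a b * b) + (y - 1) * (ivz a b * b) +
            (ivz a b * b - 1) := by ring
      rw [this]
      exact dvd_add (dvd_add (Dvd.dvd.mul_right h0a _) (Dvd.dvd.mul_right hya _)) h1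
    have : 2 * (m : ℤ) * ivz a (k * b) - 2 * m * ivz (a * b) k * y * ivz a b =
      2 * m * (ivz a (k * b) - ivz (a * b) k * y * ivz a b) := by ring
    rw [this]
    exact Dvd.dvd.mul_left h5 _
  · refine sqp_ec_congr hb ?_
    have h5 : (b : ℤ) ∣ ivz b (k * a) - ivz (a * b) k * (-y) * ivz b a := by
      refine sqp_inv_unique (w := k * a) ?_ h4
      have : ivz (a * b) k * (-y) * ivz b a * (k * a) - 1 =
          (ivz (a * b) k * k - 1) * (-y * ivz b a * a) + (y + 1) * (-(ivz b a * a)) +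
            (ivz b a * a - 1) := by ring
      rw [this]
      exact dvd_add (dvd_add (Dvd.dvd.mul_right h0b _) (Dvd.dvd.mul_right hyb _)) h2
    have : -(2 * (m : ℤ)) * ivz b (k * a) - 2 * m * ivz (a * b) k * y * ivz b a =
      -(2 * m) * (ivz b (k * a) - ivz (a * b) k * (-y) * ivz b a) := by ring
    rw [this]
    exact Dvd.dvd.mul_left h5 _

theorem sqp_swap (k m a b : ℕ) : sqpT k m b a = conj (sqpT k m a b) := by
  unfold sqpT eI
  rw [map_mul, sqp_ec_conj, sqp_ec_conj, mul_comm]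
  congr 2 <;> ring

/-- reciprocity -/
theorem sqp_recip {a b k : ℕ} (ha : a ≠ 0) (hb : b ≠ 0) (hk : k ≠ 0) (hab : a.Coprime b)
    (hka : k.Coprime a) (hkb : k.Coprime b) :
    ((k * (a * b) : ℕ) : ℤ) ∣ ivz a (k * b) * (k * b) + ivz b (k * a) * (k * a) +
      ivz k (a * b) * (a * b) - 1 := by
  have hcba : IsCoprime (b : ℤ) (a : ℤ) := Nat.isCoprime_iff_coprime.2 hab.symm
  have hcka : IsCoprime (k : ℤ) (a : ℤ) := Nat.isCoprime_iff_coprime.2 hka
  have hckb : IsCoprime (k : ℤ) (b : ℤ) := Nat.isCoprime_iff_coprime.2 hkb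
  have h3 := sqp_ivz ha (hcka.mul_left hcba)
  have h4 := sqp_ivz hb (hckb.mul_left hcba.symm)
  have h5 := sqp_ivz hk (hcka.symm.mul_left hckb.symm)
  push_cast
  refine (hcka.mul_right hckb).mul_dvd ?_ (hcba.symm.mul_dvd ?_ ?_)
  · have : ivz a (k * b) * (k * b) + ivz b (k * a) * (k * a) + ivz k (a * b) * (a * b) - 1 =
        (ivz k (a * b) * (a * b) - 1) + k * (ivz a (k * b) * b + ivz b (k * a) * a) := by ring
    rw [this]
    exact dvd_add h5 (dvd_mul_right _ _)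
  · have : ivz a (k * b) * (k * b) + ivz b (k * a) * (k * a) + ivz k (a * b) * (a * b) - 1 =
        (ivz a (k * b) * (k * b) - 1) + a * (ivz b (k * a) * k + ivz k (a * b) * b) := by ring
    rw [this]
    exact dvd_add h3 (dvd_mul_right _ _)
  · have : ivz a (k * b) * (k * b) + ivz b (k * a) * (k * a) + ivz k (a * b) * (a * b) - 1 =
        (ivz b (k * a) * (k * a) - 1) + b * (ivz a (k * b) * k + ivz k (a * b) * a) := by ring
    rw [this]
    exact dvd_add h4 (dvd_mul_right _ _)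

theorem sqp_Ph {a b k m : ℕ} (ha : a ≠ 0) (hb : b ≠ 0) (hk : k ≠ 0) (hab : a.Coprime b)
    (hka : k.Coprime a) (hkb : k.Coprime b) : sqpT k m a b = Ph k m a b := by
  obtain ⟨t, ht⟩ := sqp_recip ha hb hk hab hka hkb
  have hac : (a : ℂ) ≠ 0 := by exact_mod_cast ha
  have hbc : (b : ℂ) ≠ 0 := by exact_mod_cast hb
  have hkc : (k : ℂ) ≠ 0 := by exact_mod_cast hk
  have h1 : (ivz a (k * b) : ℂ) * (k * b) + ivz b (k * a) * (k * a) +
      ivz k (a * b) * (a * b) - 1 = (k * (a * b)) * t := by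
    exact_mod_cast congrArg (Int.cast : ℤ → ℂ) ht
  unfold sqpT Ph eI ec
  rw [← Complex.exp_add, ← Complex.exp_add, ← Complex.exp_add, Complex.exp_eq_exp_iff_exists_int]
  refine ⟨-(2 * m * t), ?_⟩
  push_cast
  have h2 : (ivz b (k * a) : ℂ) = ((k * (a * b)) * t + 1 - (ivz a (k * b) : ℂ) * (k * b) -
      ivz k (a * b) * (a * b)) / (k * a) := by
    field_simp
    linear_combination h1
  rw [h2]
  field_simp
  ring

theorem sqp_fact {c : ℕ} (hc : Odd c) {y : ℤ} (hy : (c : ℤ) ∣ y ^ 2 - 1) :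
    ∃ a b : ℕ, a * b = c ∧ a.Coprime b ∧ (a : ℤ) ∣ y - 1 ∧ (b : ℤ) ∣ y + 1 := by
  have hc0' : c ≠ 0 := by rintro rfl; simp at hc
  have hc0 : (c : ℤ) ≠ 0 := by exact_mod_cast hc0'
  set g := Int.gcd (y - 1) c with hg
  have hg0 : 0 < g := Int.gcd_pos_of_ne_zero_right _ hc0
  obtain ⟨m, hm⟩ : g ∣ c := by exact_mod_cast Int.gcd_dvd_right (y - 1) c
  have hgl : (g : ℤ) ∣ y - 1 := Int.gcd_dvd_left _ _
  obtain ⟨D, hD⟩ := hgl
  have h4 : ((g : ℤ) * (m : ℤ)) = (c : ℤ) := by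
    have : ((g * m : ℕ) : ℤ) = (c : ℤ) := by rw [← hm]
    push_cast at this
    exact this
  have hcop : IsCoprime D (m : ℤ) := by
    rw [Int.isCoprime_iff_gcd_eq_one]
    have h3 := Int.gcd_mul_left (g : ℤ) D m
    rw [← hD, h4, ← hg] at h3
    simp only [Int.natAbs_natCast] at h3
    have h5 : g * 1 = g * Int.gcd D m := by rw [mul_one]; exact h3
    exact (Nat.eq_of_mul_eq_mul_left hg0 h5).symm
  have hmy : (m : ℤ) ∣ y + 1 := by
    have h5 : (g : ℤ) * m ∣ (g : ℤ) * (D * (y + 1)) := by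
      rw [h4, ← mul_assoc, ← hD]
      have : (y - 1) * (y + 1) = y ^ 2 - 1 := by ring
      rw [this]
      exact hy
    have h6 : (m : ℤ) ∣ D * (y + 1) :=
      (mul_dvd_mul_iff_left (by exact_mod_cast hg0.ne' : (g : ℤ) ≠ 0)).1 h5
    exact hcop.symm.dvd_of_dvd_mul_left h6
  refine ⟨g, m, hm.symm, ?_, ⟨D, hD⟩, hmy⟩
  have h6 : Nat.gcd g m ∣ 2 := by
    have h7 : ((Nat.gcd g m : ℕ) : ℤ) ∣ y - 1 :=
      (by exact_mod_cast Nat.gcd_dvd_left g m : ((Nat.gcd g m : ℕ) : ℤ) ∣ g).trans ⟨D, hD⟩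
    have h8 : ((Nat.gcd g m : ℕ) : ℤ) ∣ y + 1 :=
      (by exact_mod_cast Nat.gcd_dvd_right g m : ((Nat.gcd g m : ℕ) : ℤ) ∣ m).trans hmy
    have h9 := Int.dvd_sub h8 h7
    have e : y + 1 - (y - 1) = 2 := by ring
    rw [e] at h9
    exact_mod_cast h9
  have h7 : Nat.gcd g m ∣ c := (Nat.gcd_dvd_left g m).trans ⟨m, hm⟩
  have h8 := Nat.dvd_gcd h6 h7
  rw [Nat.coprime_two_left.2 hc] at h8
  exact Nat.dvd_one.1 h8

theorem sqp_unique {a b c : ℕ} (hc : Odd c) (hab : a * b = c) {y : ℤ}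
    (hya : (a : ℤ) ∣ y - 1) (hyb : (b : ℤ) ∣ y + 1) : Int.gcd (y - 1) c = a := by
  have hbo : Odd b := by rw [← hab] at hc; exact (Nat.odd_mul.1 hc).2
  obtain ⟨D, hD⟩ := hya
  have h1 : (c : ℤ) = a * b := by rw [← hab]; push_cast; rfl
  rw [hD, h1, Int.gcd_mul_left, Int.natAbs_natCast]
  have h2 : Int.gcd D b = 1 := by
    set g := Int.gcd D b with hg
    have h3 : (g : ℤ) ∣ y - 1 := by
      rw [hD]; exact Dvd.dvd.mul_left (Int.gcd_dvd_left _ _) _
    have h4 : (g : ℤ) ∣ y + 1 := (Int.gcd_dvd_right D b).trans hyb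
    have h5 := Int.dvd_sub h4 h3
    have e : y + 1 - (y - 1) = 2 := by ring
    rw [e] at h5
    have h6 : g ∣ 2 := by exact_mod_cast h5
    have h7 : g ∣ b := by exact_mod_cast Int.gcd_dvd_right D b
    have h8 := Nat.dvd_gcd h6 h7
    rw [Nat.coprime_two_left.2 hbo] at h8
    exact Nat.dvd_one.1 h8
  rw [h2, mul_one]

theorem sqp_sum (c : ℕ) (hc : Odd c) (m k : ℕ) (hk : k.Coprime c) :
    ∑ y ∈ (range c).filter (fun y : ℕ ↦ (c : ℤ) ∣ (y : ℤ) ^ 2 - 1), ec c (2 * m * ivz c k * y) =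
      ∑ x ∈ c.divisorsAntidiagonal.filter (fun x ↦ x.1.Coprime x.2), sqpT k m x.1 x.2 := by
  have hc0 : c ≠ 0 := by rintro rfl; simp at hc
  have hspec : ∀ (x : ℕ × ℕ) (hx : x ∈ c.divisorsAntidiagonal.filter (fun x ↦ x.1.Coprime x.2)),
      x.1 ≠ 0 ∧ x.2 ≠ 0 ∧ x.1 * x.2 = c ∧ x.1.Coprime x.2 := by
    intro x hx
    rw [Finset.mem_filter, Nat.mem_divisorsAntidiagonal] at hx
    refine ⟨?_, ?_, hx.1.1, hx.2⟩
    · intro h; rw [h, zero_mul] at hx; exact hc0 hx.1.1.symm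
    · intro h; rw [h, mul_zero] at hx; exact hc0 hx.1.1.symm
  have hcr : ∀ (x : ℕ × ℕ) (hx : x.1 ≠ 0 ∧ x.2 ≠ 0 ∧ x.1 * x.2 = c ∧ x.1.Coprime x.2),
      ∃ y : ℕ, y < c ∧ (x.1 : ℤ) ∣ (y : ℤ) - 1 ∧ (x.2 : ℤ) ∣ (y : ℤ) + 1 := by
    intro x hx
    obtain ⟨h1, h2, h3, h4⟩ := hx
    refine ⟨Nat.chineseRemainder h4 1 (x.2 - 1), ?_, ?_, ?_⟩
    · rw [← h3]
      exact Nat.chineseRemainder_lt_mul h4 _ _ h1 h2
    · have h5 := (Nat.chineseRemainder h4 1 (x.2 - 1)).2.1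
      have h6 := (Int.natCast_modEq_iff.2 h5).symm.dvd
      simpa using h6
    · have h5 := (Nat.chineseRemainder h4 1 (x.2 - 1)).2.2
      have h6 := (Int.natCast_modEq_iff.2 h5).symm.dvd
      rw [Nat.cast_sub (Nat.one_le_iff_ne_zero.2 h2)] at h6
      have h7 := dvd_add h6 (dvd_refl (x.2 : ℤ))
      have e : ((Nat.chineseRemainder h4 1 (x.2 - 1) : ℕ) : ℤ) - ((x.2 : ℤ) - (1 : ℕ)) + x.2 =
        ((Nat.chineseRemainder h4 1 (x.2 - 1) : ℕ) : ℤ) + 1 := by push_cast; ring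
      rw [e] at h7
      exact h7
  choose f hf1 hf2 hf3 using hcr
  symm
  refine Finset.sum_bij (fun x hx => f x (hspec x hx)) ?_ ?_ ?_ ?_
  · intro x hx
    rw [Finset.mem_filter, Finset.mem_range]
    refine ⟨hf1 _ _, ?_⟩
    obtain ⟨h1, h2, h3, h4⟩ := hspec x hx
    have h5 : (c : ℤ) = x.1 * x.2 := by rw [← h3]; push_cast; rfl
    have h6 : ((f x (hspec x hx) : ℕ) : ℤ) ^ 2 - 1 =
      (((f x (hspec x hx) : ℕ) : ℤ) - 1) * (((f x (hspec x hx) : ℕ) : ℤ) + 1) := by ring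
    rw [h5, h6]
    exact mul_dvd_mul (hf2 _ _) (hf3 _ _)
  · intro x hx x' hx' heq
    have e1 := sqp_unique hc (hspec x hx).2.2.1 (hf2 _ (hspec x hx)) (hf3 _ (hspec x hx))
    have e2 := sqp_unique hc (hspec x' hx').2.2.1 (hf2 _ (hspec x' hx')) (hf3 _ (hspec x' hx'))
    rw [heq, e2] at e1
    have e3 : x.2 = x'.2 := by
      have h3 := (hspec x hx).2.2.1
      have h3' := (hspec x' hx').2.2.1
      rw [← e1] at h3
      exact Nat.eq_of_mul_eq_mul_left (Nat.pos_of_ne_zero (hspec x' hx').1) (h3.trans h3'.symm)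
    exact Prod.ext e1.symm e3
  · intro y hy
    rw [Finset.mem_filter, Finset.mem_range] at hy
    obtain ⟨a, b, h1, h2, h3, h4⟩ := sqp_fact hc hy.2
    have hx : (a, b) ∈ c.divisorsAntidiagonal.filter (fun x ↦ x.1.Coprime x.2) := by
      rw [Finset.mem_filter, Nat.mem_divisorsAntidiagonal]
      exact ⟨⟨h1, hc0⟩, h2⟩
    refine ⟨(a, b), hx, ?_⟩
    have h5 := hf1 _ (hspec _ hx)
    have h6 := hf2 _ (hspec _ hx)
    have h7 := hf3 _ (hspec _ hx)
    set z := f (a, b) (hspec _ hx)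
    simp only at h6 h7
    have h8 : (c : ℤ) ∣ (y : ℤ) - z := by
      have e : (c : ℤ) = a * b := by rw [← h1]; push_cast; rfl
      rw [e]
      refine (Nat.isCoprime_iff_coprime.2 h2).mul_dvd ?_ ?_
      · have := dvd_sub h3 h6
        have e : (y : ℤ) - 1 - (z - 1) = y - z := by ring
        rwa [e] at this
      · have := dvd_sub h4 h7
        have e : (y : ℤ) + 1 - (z + 1) = y - z := by ring
        rwa [e] at this
    have h9 : (z : ℤ) ≡ y [ZMOD c] := (Int.modEq_iff_dvd).2 h8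
    have h10 : z ≡ y [MOD c] := Int.natCast_modEq_iff.1 h9
    exact Nat.ModEq.eq_of_lt_of_lt h10 h5 hy.1
  · intro x hx
    obtain ⟨h1, h2, h3, h4⟩ := hspec x hx
    have hk1 : k.Coprime x.1 := hk.coprime_dvd_right ⟨x.2, h3.symm⟩
    have hk2 : k.Coprime x.2 := hk.coprime_dvd_right ⟨x.1, by rw [mul_comm]; exact h3.symm⟩
    have h5 := sqp_term (m := m) h1 h2 h4 hk1 hk2 (hf2 x (hspec x hx)) (hf3 x (hspec x hx))
    rw [h3] at h5
    exact h5.symm

theorem sqrt_pairs (c : ℕ) (hc : Odd c) (hc1 : 1 < c) (m k : ℕ) (hk : k.Coprime c) (hk0 : 0 < k) :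
    ∑ y ∈ (range c).filter (fun y : ℕ ↦ (c : ℤ) ∣ (y : ℤ) ^ 2 - 1), ec c (2 * m * ivz c k * y) =
      ∑ x ∈ c.divisorsAntidiagonal.filter (fun x ↦ x.1.Coprime x.2 ∧ x.1 < x.2),
        (Ph k m x.1 x.2 + conj (Ph k m x.1 x.2)) := by
  have hc0 : c ≠ 0 := by omega
  rw [sqp_sum c hc m k hk]
  have h1 : ∑ x ∈ c.divisorsAntidiagonal.filter (fun x ↦ x.1.Coprime x.2), sqpT k m x.1 x.2 =
      ∑ x ∈ c.divisorsAntidiagonal.filter (fun x ↦ x.1.Coprime x.2 ∧ x.1 < x.2),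
        sqpT k m x.1 x.2 +
      ∑ x ∈ c.divisorsAntidiagonal.filter (fun x ↦ x.1.Coprime x.2 ∧ x.2 < x.1),
        sqpT k m x.1 x.2 := by
    rw [← Finset.sum_filter_add_sum_filter_not
      (c.divisorsAntidiagonal.filter (fun x ↦ x.1.Coprime x.2)) (fun x => x.1 < x.2)]
    congr 1
    · rw [Finset.filter_filter]
    · rw [Finset.filter_filter]
      refine Finset.sum_congr ?_ (fun _ _ => rfl)
      ext x
      simp only [Finset.mem_filter, Nat.mem_divisorsAntidiagonal]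
      constructor
      · rintro ⟨⟨h2, h3⟩, h4, h5⟩
        refine ⟨⟨h2, h3⟩, h4, ?_⟩
        rcases lt_or_eq_of_le (not_lt.1 h5) with h6 | h6
        · exact h6
        · exfalso
          rw [h6, Nat.coprime_self] at h4
          rw [h6, h4] at h2
          omega
      · rintro ⟨⟨h2, h3⟩, h4, h5⟩
        exact ⟨⟨h2, h3⟩, h4, by omega⟩
  have h2 : ∑ x ∈ c.divisorsAntidiagonal.filter (fun x ↦ x.1.Coprime x.2 ∧ x.2 < x.1),
        sqpT k m x.1 x.2 =
      ∑ x ∈ c.divisorsAntidiagonal.filter (fun x ↦ x.1.Coprime x.2 ∧ x.1 < x.2),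
        conj (sqpT k m x.1 x.2) := by
    refine Finset.sum_nbij' Prod.swap Prod.swap ?_ ?_ ?_ ?_ ?_
    · intro x hx
      simp only [Finset.mem_filter, Nat.mem_divisorsAntidiagonal, Prod.fst_swap,
        Prod.snd_swap] at hx ⊢
      exact ⟨⟨by rw [mul_comm]; exact hx.1.1, hx.1.2⟩, hx.2.1.symm, hx.2.2⟩
    · intro x hx
      simp only [Finset.mem_filter, Nat.mem_divisorsAntidiagonal, Prod.fst_swap,
        Prod.snd_swap] at hx ⊢
      exact ⟨⟨by rw [mul_comm]; exact hx.1.1, hx.1.2⟩, hx.2.1.symm, hx.2.2⟩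
    · intro x _; exact Prod.swap_swap x
    · intro x _; exact Prod.swap_swap x
    · intro x _
      rw [Prod.fst_swap, Prod.snd_swap, ← sqp_swap]
  rw [h1, h2, ← Finset.sum_add_distrib]
  refine Finset.sum_congr rfl (fun x hx => ?_)
  simp only [Finset.mem_filter, Nat.mem_divisorsAntidiagonal] at hx
  obtain ⟨⟨h3, _⟩, h4, _⟩ := hx
  have h5 : x.1 ≠ 0 := by intro h; rw [h, zero_mul] at h3; exact hc0 h3.symm
  have h6 : x.2 ≠ 0 := by intro h; rw [h, mul_zero] at h3; exact hc0 h3.symm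
  have hk1 : k.Coprime x.1 := hk.coprime_dvd_right ⟨x.2, h3.symm⟩
  have hk2 : k.Coprime x.2 := hk.coprime_dvd_right ⟨x.1, by rw [mul_comm]; exact h3.symm⟩
  rw [sqp_Ph h5 h6 hk0.ne' h4 hk1 hk2]

end Pool.Agent.Work.MP_af11aa_nt.W
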