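import Mathlib
import Pool.Agent.Work.MP_af11aa_nt.W.SalX
import Pool.Agent.Work.MP_af11aa_nt.W.SqrtPairs
import Pool.Agent.Work.MP_af11aa_nt.W.GaussSign
import Pool.Agent.Work.MP_af11aa_nt.W.KCrt
import Pool.Agent.Work.MP_af11aa_nt.W.KTrunc
import Pool.Agent.Work.MP_af11aa_nt.W.Weight
import Pool.Agent.Work.MP_af11aa_nt.W.PairSum

set_option autoImplicit false

namespace Pool.Agent.Work.MP_af11aa_nt.W

open Finset ComplexConjugate

noncomputable section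

/-- complex conjugation or not. -/
def cj (σ : Bool) (z : ℂ) : ℂ := if σ then z else conj z

/-- the sign. -/
def sg (σ : Bool) : ℤ := if σ then 1 else -1

lemma cj_norm (σ : Bool) (z : ℂ) : ‖cj σ z‖ = ‖z‖ := by
  unfold cj; split_ifs
  · rfl
  · exact Complex.norm_conj z

lemma cj_mul (σ : Bool) (z w : ℂ) : cj σ (z * w) = cj σ z * cj σ w := by
  unfold cj; split_ifs
  · rfl
  · exact map_mul _ _ _

lemma cj_sub (σ : Bool) (z w : ℂ) : cj σ (z - w) = cj σ z - cj σ w := by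
  unfold cj; split_ifs
  · rfl
  · exact map_sub _ _ _

lemma cj_prod {ι : Type*} (s : Finset ι) (σ : Bool) (f : ι → ℂ) :
    cj σ (∏ i ∈ s, f i) = ∏ i ∈ s, cj σ (f i) := by
  cases σ
  · exact map_prod _ _ _
  · rfl

lemma cj_eI (σ : Bool) (c : ℕ) (z x : ℤ) : cj σ (eI c z x) = eI c (sg σ * z) x := by
  cases σ
  · change conj (eI c z x) = eI c (-1 * z) x
    unfold eI
    rw [sqp_ec_conj]
    congr 1; ring
  · change eI c z x = eI c (1 * z) x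
    rw [one_mul]

lemma ktrK_conj (r : ℕ) [NeZero r] (u : ZMod r) : conj (ktrK r u) = ktrK r u := by
  unfold ktrK
  rw [map_sum, ← Equiv.sum_comp (Equiv.neg (ZMod r)ˣ)]
  refine Finset.sum_congr rfl fun y _ ↦ ?_
  rw [← AddChar.map_neg_eq_conj]
  congr 1
  have h1 : (((Equiv.neg (ZMod r)ˣ) y : (ZMod r)ˣ) : ZMod r) = -(y : ZMod r) := by
    simp
  have h2 : ((((Equiv.neg (ZMod r)ˣ) y)⁻¹ : (ZMod r)ˣ) : ZMod r) = -((y⁻¹ : (ZMod r)ˣ) : ZMod r) := by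
    have : ((Equiv.neg (ZMod r)ˣ) y)⁻¹ = -(y⁻¹) := by
      simp
    rw [this]; simp
  rw [h1, h2]
  ring

lemma kloo_conj {c : ℕ} (hc : 0 < c) (z x : ℤ) : conj (kloo c z x) = kloo c z x := by
  have : NeZero c := ⟨hc.ne'⟩
  rw [ktr_kloo, ktrK_conj]

lemma kloo_cj {c : ℕ} (hc : 0 < c) (z x : ℤ) (σ : Bool) : cj σ (kloo c z x) = kloo c z x := by
  cases σ
  · exact kloo_conj hc z x
  · rfl

/-- CRT for `eI`. -/
lemma eI_crt {k1 k2 : ℕ} (h1 : 0 < k1) (h2 : 0 < k2) (h : k1.Coprime k2) (z : ℤ) {x : ℤ}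
    (hx : IsCoprime x ((k1 * k2 : ℕ) : ℤ)) :
    eI (k1 * k2) z x = eI k1 z (x * k2) * eI k2 z (x * k1) := by
  have hk : k1 * k2 ≠ 0 := Nat.mul_ne_zero h1.ne' h2.ne'
  have e0 := sqp_ivz hk hx
  push_cast at e0 hx
  have hx1 : IsCoprime x (k1 : ℤ) := hx.of_mul_right_left
  have hx2 : IsCoprime x (k2 : ℤ) := hx.of_mul_right_right
  have h12 : IsCoprime (k2 : ℤ) (k1 : ℤ) := Nat.isCoprime_iff_coprime.2 h.symm
  have c1 : IsCoprime (x * k2) (k1 : ℤ) := hx1.mul_left h12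
  have c2 : IsCoprime (x * k1) (k2 : ℤ) := hx2.mul_left h12.symm
  have e1 := sqp_ivz h1.ne' c1
  have e2 := sqp_ivz h2.ne' c2
  -- u k2 = 1 mod k1
  have hu : (k1 : ℤ) ∣ (ivz k1 (x * k2) * x) * k2 - 1 := by
    have : (ivz k1 (x * k2) * x) * k2 - 1 = ivz k1 (x * k2) * (x * k2) - 1 := by ring
    rw [this]; exact e1
  have hv : (k2 : ℤ) ∣ (ivz k2 (x * k1) * x) * k1 - 1 := by
    have : (ivz k2 (x * k1) * x) * k1 - 1 = ivz k2 (x * k1) * (x * k1) - 1 := by ring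
    rw [this]; exact e2
  unfold eI
  rw [kcrt_two h1.ne' h2.ne' h hu hv]
  congr 1
  · apply sqp_ec_congr h1.ne'
    have hd : (k1 : ℤ) ∣ ivz (k1 * k2) x * x - 1 := (dvd_mul_right _ _).trans e0
    obtain ⟨t, ht⟩ := hd
    refine ⟨-(z * ivz k1 (x * k2)) * t, ?_⟩
    linear_combination (-(z * ivz k1 (x * k2))) * ht
  · apply sqp_ec_congr h2.ne'
    have hd : (k2 : ℤ) ∣ ivz (k1 * k2) x * x - 1 := (dvd_mul_left _ _).trans e0
    obtain ⟨t, ht⟩ := hd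
    refine ⟨-(z * ivz k2 (x * k1)) * t, ?_⟩
    linear_combination (-(z * ivz k2 (x * k1))) * ht

/-- the index set of factorizations. -/
def prs (c : ℕ) : Finset (ℕ × ℕ) :=
  c.divisorsAntidiagonal.filter (fun x ↦ x.1.Coprime x.2 ∧ x.1 < x.2)

lemma prs_card (c : ℕ) : ((prs c).card : ℝ) ≤ c.divisors.card := by
  unfold prs
  have h1 := Finset.card_filter_le c.divisorsAntidiagonal
    (fun x ↦ x.1.Coprime x.2 ∧ x.1 < x.2)
  have h2 : c.divisorsAntidiagonal.card = c.divisors.card := by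
    rw [← Nat.map_div_right_divisors, Finset.card_map]
  rw [h2] at h1
  exact_mod_cast h1

/-- the exact evaluation of a term. -/
theorem term_eq {k1 k2 m1 m2 : ℕ} (hk1 : 0 < k1) (hk2 : 0 < k2) (h12 : k1.Coprime k2)
    (V : ℕ → ℂ) (H : Bool → ℤ → ℂ)
    (r : Fin 5 → ℕ) (hr : ∀ j, 0 < r j) (hrc : ∀ i j, i ≠ j → (r i).Coprime (r j))
    (hrk : ∏ j, r j = k1) {c : ℕ} (hodd : Odd c) (hc1 : 1 < c) (hck1 : c.Coprime k1)
    (hck2 : c.Coprime k2) (hcm : c.Coprime (m2 * m1))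
    (hH : ∀ σ, ((jacobiSym (((m2 * m1) * (k1 * k2) : ℕ) : ℤ) c : ℤ) : ℂ) * gs c * V c *
            eI k2 (sg σ * (2 * ((m2 * m1 : ℕ) : ℤ))) ((c * k1 : ℕ) : ℤ) =
          H σ c * ((jacobiSym (c : ℤ) k1 : ℤ) : ℂ) * ((jacobiSym (c : ℤ) m1 : ℤ) : ℂ))
    (y s : ℝ) :
    salS c ((m2 * m1 : ℕ) : ℤ) ((k1 * k2 : ℕ) : ℤ) *
        kloo k1 ((m2 * m1 : ℕ) : ℤ) ((c * k2 : ℕ) : ℤ) * V c / ((c * (k1 * k2) : ℕ) : ℂ) *
        psW (m2 * m1) y s ((c * (k1 * k2) : ℕ) : ℝ) =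
      ∑ x ∈ prs c, ∑ σ : Bool, ((Real.sqrt k1 : ℝ) : ℂ) *
        (H σ c * ((jacobiSym (c : ℤ) k1 : ℤ) : ℂ) * ((jacobiSym (c : ℤ) m1 : ℤ) : ℂ)) *
        cj σ (∏ j, kfun (r j) (((m2 * m1 : ℕ) : ℤ) * ivz (r j) (k1 / r j : ℕ))
          ((c * k2 : ℕ) : ℤ)) *
        cj σ (eI x.1 (4 * ((m2 * m1 : ℕ) : ℤ)) (((k1 * k2 : ℕ) : ℤ) * x.2)) *
        wgt (m2 * m1) (k1 * k2) y s σ c := by
  set m := m2 * m1 with hm
  set k := k1 * k2 with hk
  have hk0 : 0 < k := Nat.mul_pos hk1 hk2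
  have hc0 : 0 < c := by omega
  have hcR : (0 : ℝ) < c := by exact_mod_cast hc0
  have hkR : (0 : ℝ) < k := by exact_mod_cast hk0
  have hck : c.Coprime k := Nat.Coprime.mul_right hck1 hck2
  have hmc : IsCoprime (m : ℤ) (c : ℤ) := Nat.isCoprime_iff_coprime.2 hcm.symm
  have hkc : IsCoprime (k : ℤ) (c : ℤ) := Nat.isCoprime_iff_coprime.2 hck.symm
  rw [salie_exact c hodd m k hmc hkc, gauss_sign c hodd, sqrt_pairs c hodd hc1 m k hck.symm hk0]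
  have hmk : ((m : ℤ) * (k : ℤ)) = ((m * k : ℕ) : ℤ) := by push_cast; ring
  rw [hmk]
  -- the Kloosterman factor
  have hx : IsCoprime ((c * k2 : ℕ) : ℤ) ((∏ j, r j : ℕ) : ℤ) := by
    rw [hrk]
    exact Nat.isCoprime_iff_coprime.2 (Nat.Coprime.mul_left hck1 h12.symm)
  have hkl := kloo_crt 5 r hr hrc (m : ℤ) ((c * k2 : ℕ) : ℤ) hx
  rw [hrk] at hkl
  set K : ℂ := ∏ j, kfun (r j) ((m : ℤ) * ivz (r j) (k1 / r j : ℕ)) ((c * k2 : ℕ) : ℤ) with hK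
  -- for each pair and each sign
  have hpair : ∀ x ∈ prs c, ∀ σ : Bool,
      kloo k1 (m : ℤ) ((c * k2 : ℕ) : ℤ) * cj σ (Ph k m x.1 x.2) =
        ((Real.sqrt k1 : ℝ) : ℂ) * cj σ K * eI k2 (sg σ * (2 * (m : ℤ))) ((c * k1 : ℕ) : ℤ) *
        cj σ (eI x.1 (4 * (m : ℤ)) ((k : ℤ) * x.2)) *
        Complex.exp ((if σ then (-1 : ℂ) else 1) * (2 * Real.pi * Complex.I * (2 * m) / (k * c))) := by
    intro x hx σ
    unfold prs at hx
    rw [mem_filter, Nat.mem_divisorsAntidiagonal] at hx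
    have hxc : x.1 * x.2 = c := hx.1.1
    unfold Ph
    have e1 : eI k (2 * (m : ℤ)) ((x.1 : ℤ) * x.2) =
        eI k1 (2 * (m : ℤ)) ((c * k2 : ℕ) : ℤ) * eI k2 (2 * (m : ℤ)) ((c * k1 : ℕ) : ℤ) := by
      have h3 : ((x.1 : ℤ) * x.2) = (c : ℤ) := by exact_mod_cast hxc
      rw [h3, hk, eI_crt hk1 hk2 h12 (2 * (m : ℤ)) (x := (c : ℤ)) (by
        rw [← hk]; exact hkc.symm)]
      push_cast
      rfl
    rw [e1, cj_mul, cj_mul, cj_mul]
    have e2 : kloo k1 (m : ℤ) ((c * k2 : ℕ) : ℤ) *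
        cj σ (eI k1 (2 * (m : ℤ)) ((c * k2 : ℕ) : ℤ)) = ((Real.sqrt k1 : ℝ) : ℂ) * cj σ K := by
      have h4 := congrArg (cj σ) hkl
      rw [cj_mul, cj_mul, kloo_cj hk1] at h4
      rw [h4]
      congr 1
      unfold cj
      split_ifs
      · rfl
      · exact Complex.conj_ofReal _
    have e3 : cj σ (Complex.exp (-(2 * Real.pi * Complex.I * (2 * m) / (k * (x.1 * x.2))))) =
        Complex.exp ((if σ then (-1 : ℂ) else 1) *
          (2 * Real.pi * Complex.I * (2 * m) / (k * c))) := by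
      have h3 : ((x.1 : ℂ) * x.2) = (c : ℂ) := by exact_mod_cast hxc
      rw [h3]
      cases σ
      · change conj (Complex.exp _) = _
        rw [← Complex.exp_conj]
        congr 1
        simp only [map_neg, map_div₀, map_mul, Complex.conj_I, Complex.conj_ofReal, map_ofNat,
          map_natCast, Bool.false_eq_true, if_false]
        ring
      · change Complex.exp _ = _
        congr 1
        simp only [if_true]
        ring
    rw [e3, cj_eI σ k2, ← e2]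
    ring
  have hw : ∀ σ : Bool, wgt m k y s σ c = ((Real.sqrt c / (k * c) : ℝ) : ℂ) *
      Complex.exp ((if σ then (-1 : ℂ) else 1) * (2 * Real.pi * Complex.I * (2 * m) / (k * c))) *
      psW m y s (k * c) := by
    intro σ
    unfold wgt
    push_cast
    rfl
  have hps : psW m y s ((c * k : ℕ) : ℝ) = psW m y s (k * c) := by
    push_cast; rw [mul_comm]
  have hsum : ∑ x ∈ c.divisorsAntidiagonal.filter (fun x ↦ x.1.Coprime x.2 ∧ x.1 < x.2),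
      (Ph k m x.1 x.2 + conj (Ph k m x.1 x.2)) = ∑ x ∈ prs c, ∑ σ : Bool, cj σ (Ph k m x.1 x.2) := by
    refine Finset.sum_congr rfl fun x _ ↦ ?_
    rw [Fintype.sum_bool]
    rfl
  rw [hsum, hps]
  have hfin : ∀ x ∈ prs c, ∀ σ : Bool,
      ((jacobiSym ((m * k : ℕ) : ℤ) c : ℤ) : ℂ) * (gs c * ((Real.sqrt c : ℝ) : ℂ)) *
        cj σ (Ph k m x.1 x.2) * kloo k1 (m : ℤ) ((c * k2 : ℕ) : ℤ) * V c / ((c * k : ℕ) : ℂ) *
        psW m y s (k * c) =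
      ((Real.sqrt k1 : ℝ) : ℂ) *
        (H σ c * ((jacobiSym (c : ℤ) k1 : ℤ) : ℂ) * ((jacobiSym (c : ℤ) m1 : ℤ) : ℂ)) *
        cj σ K * cj σ (eI x.1 (4 * (m : ℤ)) ((k : ℤ) * x.2)) * wgt m k y s σ c := by
    intro x hx σ
    have h5 := hpair x hx σ
    rw [← hH σ, hw]
    have h6 : ((Real.sqrt c / (k * c) : ℝ) : ℂ) = ((Real.sqrt c : ℝ) : ℂ) / ((c * k : ℕ) : ℂ) := by
      push_cast; rw [mul_comm (k : ℂ)]
    rw [h6]
    calc ((jacobiSym ((m * k : ℕ) : ℤ) c : ℤ) : ℂ) * (gs c * ((Real.sqrt c : ℝ) : ℂ)) *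
        cj σ (Ph k m x.1 x.2) * kloo k1 (m : ℤ) ((c * k2 : ℕ) : ℤ) * V c / ((c * k : ℕ) : ℂ) *
        psW m y s (k * c)
        = ((jacobiSym ((m * k : ℕ) : ℤ) c : ℤ) : ℂ) * gs c * V c *
          (kloo k1 (m : ℤ) ((c * k2 : ℕ) : ℤ) * cj σ (Ph k m x.1 x.2)) *
          (((Real.sqrt c : ℝ) : ℂ) / ((c * k : ℕ) : ℂ)) * psW m y s (k * c) := by ring
      _ = _ := by
          rw [h5, hk]
          ring
  rw [← Finset.sum_congr rfl fun x hx ↦ Finset.sum_congr rfl fun σ _ ↦ hfin x hx σ]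
  simp_rw [Finset.mul_sum, Finset.sum_mul, Finset.sum_div, Finset.sum_mul]

end

end Pool.Agent.Work.MP_af11aa_nt.W
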