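import Mathlib
import Pool.Agent.Work.MP_af11aa_nt.W.Term

set_option autoImplicit false

namespace Pool.Agent.Work.MP_af11aa_nt.W

open Finset ComplexConjugate

noncomputable section

/-- summing over pairs `(a, b)` instead of `c = a b`. -/
theorem pairs_swap (q X n : ℕ) (F : ℕ → ℕ → ℂ) :
    ∑ c ∈ (Ioc q X).filter (fun c ↦ c.Coprime n), ∑ x ∈ prs c, F x.1 x.2 =
      ∑ a ∈ (Icc 1 X).filter (fun a ↦ a * a ≤ X ∧ a.Coprime n),
        ∑ b ∈ Ioc (max a (q / a)) (X / a),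
          if a.Coprime b ∧ b.Coprime n then F a b else 0 := by
  classical
  have h1 : ∀ a ∈ (Icc 1 X).filter (fun a ↦ a * a ≤ X ∧ a.Coprime n),
      ∑ b ∈ Ioc (max a (q / a)) (X / a), (if a.Coprime b ∧ b.Coprime n then F a b else 0) =
        ∑ b ∈ (Ioc (max a (q / a)) (X / a)).filter (fun b ↦ a.Coprime b ∧ b.Coprime n), F a b := by
    intro a _
    rw [Finset.sum_filter]
  rw [Finset.sum_congr rfl h1, Finset.sum_sigma', Finset.sum_sigma']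
  refine Finset.sum_bij' (fun p _ ↦ (⟨p.2.1, p.2.2⟩ : (_ : ℕ) × ℕ))
    (fun p _ ↦ (⟨p.1 * p.2, (p.1, p.2)⟩ : (_ : ℕ) × (ℕ × ℕ))) ?_ ?_ ?_ ?_ ?_
  · rintro ⟨c, x⟩ hp
    simp only [Finset.mem_sigma, mem_filter, mem_Ioc, prs, Nat.mem_divisorsAntidiagonal,
      mem_Icc] at hp ⊢
    obtain ⟨⟨⟨hq, hX⟩, hn⟩, ⟨hx, hc0⟩, hcop, hlt⟩ := hp
    have ha0 : 0 < x.1 := by
      rcases Nat.eq_zero_or_pos x.1 with h | h
      · rw [h, zero_mul] at hx; omega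
      · exact h
    have hb0 : 0 < x.2 := by omega
    rw [← hx] at hn
    refine ⟨⟨⟨ha0, ?_⟩, ?_, hn.coprime_mul_right⟩, ⟨?_, ?_⟩, hcop, hn.coprime_mul_left⟩
    · calc x.1 ≤ x.1 * x.2 := Nat.le_mul_of_pos_right _ hb0
        _ ≤ X := by rw [hx]; exact hX
    · calc x.1 * x.1 ≤ x.1 * x.2 := Nat.mul_le_mul_left _ hlt.le
        _ ≤ X := by rw [hx]; exact hX
    · apply max_lt hlt
      rw [Nat.div_lt_iff_lt_mul ha0, mul_comm, hx]
      exact hq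
    · rw [Nat.le_div_iff_mul_le ha0, mul_comm, hx]
      exact hX
  · rintro ⟨a, b⟩ hp
    simp only [Finset.mem_sigma, mem_filter, mem_Ioc, prs, Nat.mem_divisorsAntidiagonal,
      mem_Icc] at hp ⊢
    obtain ⟨⟨⟨ha0, haX⟩, haa, han⟩, ⟨hb1, hb2⟩, hab, hbn⟩ := hp
    have ha0' : 0 < a := ha0
    have hlt : a < b := lt_of_le_of_lt (le_max_left _ _) hb1
    have hb0 : 0 < b := by omega
    have hq : q / a < b := lt_of_le_of_lt (le_max_right _ _) hb1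
    rw [Nat.div_lt_iff_lt_mul ha0', mul_comm] at hq
    rw [Nat.le_div_iff_mul_le ha0', mul_comm] at hb2
    exact ⟨⟨⟨hq, hb2⟩, Nat.Coprime.mul_left han hbn⟩, ⟨trivial, (Nat.mul_pos ha0' hb0).ne'⟩,
      hab, hlt⟩
  · rintro ⟨c, x⟩ hp
    simp only [Finset.mem_sigma, mem_filter, mem_Ioc, prs, Nat.mem_divisorsAntidiagonal] at hp
    obtain ⟨-, ⟨hx, -⟩, -⟩ := hp
    subst hx
    rfl
  · rintro ⟨a, b⟩ _
    rfl
  · rintro ⟨c, x⟩ _
    rfl

lemma jac_prod {J : ℕ} (r : Fin J → ℕ) (hr : ∀ j, 0 < r j) (a : ℤ) :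
    jacobiSym a (∏ j, r j) = ∏ j, jacobiSym a (r j) := by
  induction J with
  | zero => simp
  | succ J ih =>
    have : NeZero (r 0) := ⟨(hr 0).ne'⟩
    have : NeZero (∏ j : Fin J, r j.succ) :=
      ⟨(Finset.prod_pos fun j _ ↦ hr j.succ).ne'⟩
    rw [Fin.prod_univ_succ, Fin.prod_univ_succ, jacobiSym.mul_right, ih _ fun j ↦ hr j.succ]

lemma jac_mul_left (a b : ℤ) (n : ℕ) : jacobiSym (a * b) n = jacobiSym a n * jacobiSym b n :=
  jacobiSym.mul_left a b n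

lemma jac_zero {a : ℤ} {n : ℕ} (hn : 0 < n) (h : ¬ IsCoprime a (n : ℤ)) : jacobiSym a n = 0 := by
  have : NeZero n := ⟨hn.ne'⟩
  rw [jacobiSym.eq_zero_iff_not_coprime]
  rwa [Int.isCoprime_iff_gcd_eq_one] at h

/-- moving a factor of the denominator. -/
lemma eI_move {a : ℕ} (ha : 0 < a) (z : ℤ) {x y : ℤ} (hx : IsCoprime x (a : ℤ))
    (hy : IsCoprime y (a : ℤ)) : eI a z (x * y) = eI a (z * ivz a x) y := by
  have e1 := sqp_ivz ha.ne' hx
  have e2 := sqp_ivz ha.ne' hy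
  have e3 := sqp_ivz ha.ne' (hx.mul_left hy)
  unfold eI
  apply sqp_ec_congr ha.ne'
  have h1 : (a : ℤ) ∣ (ivz a x * ivz a y) * (x * y) - 1 := by
    have : (ivz a x * ivz a y) * (x * y) - 1 =
        (ivz a x * x - 1) * (ivz a y * y) + (ivz a y * y - 1) := by ring
    rw [this]
    exact dvd_add (Dvd.dvd.mul_right e1 _) e2
  have h2 := sqp_inv_unique e3 h1
  have : z * ivz a x * ivz a y - z * ivz a (x * y) = z * (ivz a x * ivz a y - ivz a (x * y)) := by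
    ring
  rw [this]
  exact Dvd.dvd.mul_left h2 _

lemma ivz_coprime {a : ℕ} (ha : 0 < a) {x : ℤ} (hx : IsCoprime x (a : ℤ)) :
    IsCoprime (ivz a x) (a : ℤ) := by
  obtain ⟨t, ht⟩ := sqp_ivz ha.ne' hx
  exact ⟨x, -t, by linear_combination ht⟩

end

end Pool.Agent.Work.MP_af11aa_nt.W
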