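import Mathlib
import Pool.Agent.Work.MP_af11aa_nt.W.Swap
import Pool.Agent.Work.MP_af11aa_nt.W.JacFac
import Pool.Agent.Work.MP_f2148a_nt.DivisorBound

set_option autoImplicit false

namespace Pool.Agent.Work.MP_af11aa_nt.W

open Finset ComplexConjugate

noncomputable section

/-- the Jacobi symbol as a complex number. -/
def jc (a : ℤ) (n : ℕ) : ℂ := ((jacobiSym a n : ℤ) : ℂ)

lemma jc_norm (a : ℤ) (n : ℕ) : ‖jc a n‖ ≤ 1 := jac_norm_le a n

/-- the chunk functions. -/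
def Phi (T : ℝ) (k2 : ℕ) (r : Fin 5 → ℕ) (r' : Fin 9 → ℕ) (w : Fin 5 → ℤ) (σ : Bool) (a : ℕ) :
    Fin 14 → ℤ → ℂ :=
  (Fin.append (fun (j : Fin 5) (n : ℤ) ↦ jc ((a : ℤ) * n) (r j) *
      cj σ (ktr T (r j) (w j) ((a : ℤ) * n * k2)))
    (fun (i : Fin 9) (n : ℤ) ↦ jc ((a : ℤ) * n) (r' i)) : Fin (5 + 9) → ℤ → ℂ)

/-- the moduli. -/
def Rr (r : Fin 5 → ℕ) (r' : Fin 9 → ℕ) : Fin 14 → ℕ := (Fin.append r r' : Fin (5 + 9) → ℕ)

lemma Phi_prod (T : ℝ) (k2 : ℕ) (r : Fin 5 → ℕ) (r' : Fin 9 → ℕ) (w : Fin 5 → ℤ) (σ : Bool)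
    (a : ℕ) (n : ℤ) : ∏ j, Phi T k2 r r' w σ a j n =
      (∏ j, (jc ((a : ℤ) * n) (r j) * cj σ (ktr T (r j) (w j) ((a : ℤ) * n * k2)))) *
        ∏ i, jc ((a : ℤ) * n) (r' i) := by
  have h := Fin.prod_univ_add (fun j : Fin (5 + 9) ↦ Phi T k2 r r' w σ a j n)
  refine h.trans ?_
  congr 1

lemma Rr_cases {P : ℕ → Prop} {r : Fin 5 → ℕ} {r' : Fin 9 → ℕ} (h1 : ∀ j, P (r j))
    (h2 : ∀ j, P (r' j)) (j : Fin 14) : P (Rr r r' j) := by
  have : ∀ j : Fin (5 + 9), P ((Fin.append r r' : Fin (5 + 9) → ℕ) j) := by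
    intro j
    induction j using Fin.addCases with
    | left j => rw [Fin.append_left]; exact h1 j
    | right j => rw [Fin.append_right]; exact h2 j
  exact this j

lemma Phi_per (T : ℝ) (k2 : ℕ) (r : Fin 5 → ℕ) (r' : Fin 9 → ℕ) (w : Fin 5 → ℤ) (σ : Bool)
    (a : ℕ) (j : Fin 14) (n : ℤ) :
    Phi T k2 r r' w σ a j (n + Rr r r' j) = Phi T k2 r r' w σ a j n := by
  have hj : ∀ (x : ℤ) (q : ℕ), jc ((a : ℤ) * (x + q)) q = jc ((a : ℤ) * x) q := by
    intro x q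
    unfold jc
    rw [jacobiSym.mod_left ((a : ℤ) * (x + q)), jacobiSym.mod_left ((a : ℤ) * x)]
    have : (a : ℤ) * (x + q) = a * x + q * a := by ring
    rw [this, Int.add_mul_emod_self_left]
  have : ∀ j : Fin (5 + 9), Phi T k2 r r' w σ a j (n + (Fin.append r r' : Fin (5 + 9) → ℕ) j) =
      Phi T k2 r r' w σ a j n := by
    intro j
    unfold Phi
    induction j using Fin.addCases with
    | left j =>
      rw [Fin.append_left, Fin.append_left]
      rw [hj]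
      congr 2
      apply ktr_congr
      apply Int.ModEq.symm
      apply Int.modEq_of_dvd
      exact ⟨a * k2, by ring⟩
    | right j =>
      rw [Fin.append_right, Fin.append_right]
      rw [hj]
  exact this j

lemma Phi_norm {T : ℝ} (hT : 1 ≤ T) (k2 : ℕ) (r : Fin 5 → ℕ) (r' : Fin 9 → ℕ) (w : Fin 5 → ℤ)
    (σ : Bool) (a : ℕ) (j : Fin 14) (n : ℤ) : ‖Phi T k2 r r' w σ a j n‖ ≤ T := by
  have : ∀ j : Fin (5 + 9), ‖Phi T k2 r r' w σ a j n‖ ≤ T := by
    intro j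
    unfold Phi
    induction j using Fin.addCases with
    | left j =>
      rw [Fin.append_left, norm_mul, cj_norm]
      calc ‖jc ((a : ℤ) * n) (r j)‖ * ‖ktr T (r j) (w j) ((a : ℤ) * n * k2)‖ ≤ 1 * T :=
            mul_le_mul (jc_norm _ _) (norm_ktr_le (by linarith) _ _ _) (norm_nonneg _) zero_le_one
        _ = T := one_mul T
    | right j =>
      rw [Fin.append_right]
      exact (jc_norm _ _).trans hT
  exact this j

lemma jc_prod {J : ℕ} (r : Fin J → ℕ) (hr : ∀ j, 0 < r j) (a : ℤ) :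
    jc a (∏ j, r j) = ∏ j, jc a (r j) := by
  unfold jc
  rw [jac_prod r hr]
  push_cast
  rfl

lemma jc_mul (a b : ℤ) (n : ℕ) : jc (a * b) n = jc a n * jc b n := by
  unfold jc
  rw [jac_mul_left]
  push_cast
  rfl

lemma jc_zero {a : ℤ} {n : ℕ} (hn : 0 < n) (h : ¬ IsCoprime a (n : ℤ)) : jc a n = 0 := by
  unfold jc
  rw [jac_zero hn h]
  simp

/-- the identification of the summand. -/
lemma bridge {k1 k2 m1 m2 r0 : ℕ} (σ : Bool) (T : ℝ) (r : Fin 5 → ℕ) (r' : Fin 9 → ℕ)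
    (w : Fin 5 → ℤ) (H : ℤ → ℂ) (hk1 : 0 < k1) (h4 : 4 ∣ k2) (hr : ∀ j, 0 < r j)
    (hrk : ∏ j, r j = k1) (hm2 : m2 = 1 ∨ m2 = 2) (hr0 : 0 < r0) (hr' : ∀ j, 0 < r' j)
    (hm1 : r0 * ∏ j, r' j = m1) (hH0 : ∀ x, ¬ IsCoprime x (8 * k2 : ℤ) → H x = 0)
    {a : ℕ} (ha : 0 < a) (han : a.Coprime (k1 * k2 * (m2 * m1))) (b : ℕ) (W : ℂ) :
    (if a.Coprime b ∧ b.Coprime (k1 * k2 * (m2 * m1)) then
      ((Real.sqrt k1 : ℝ) : ℂ) * (H ((a * b : ℕ) : ℤ) * jc ((a * b : ℕ) : ℤ) k1 *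
        jc ((a * b : ℕ) : ℤ) m1) *
      cj σ (∏ j, ktr T (r j) (w j) ((a * b * k2 : ℕ) : ℤ)) *
      cj σ (eI a (4 * ((m2 * m1 : ℕ) : ℤ)) (((k1 * k2 : ℕ) : ℤ) * b)) * W else 0) =
    (((Real.sqrt k1 : ℝ) : ℂ) * H ((a * b : ℕ) : ℤ)) * (jc a r0 *
      ((∏ j, Phi T k2 r r' w σ a j b) *
        (eInv a (sg σ * (4 * ((m2 * m1 : ℕ) : ℤ)) * ivz a ((k1 * k2 : ℕ) : ℤ)) b * jc b r0))) * W := by
  have hm1p : 0 < m1 := by
    rw [← hm1]
    exact Nat.mul_pos hr0 (Finset.prod_pos fun j _ ↦ hr' j)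
  have hab : ((a * b : ℕ) : ℤ) = (a : ℤ) * b := by push_cast; rfl
  have hprod : (∏ j, Phi T k2 r r' w σ a j b) * (jc a r0 * jc b r0) =
      jc ((a * b : ℕ) : ℤ) k1 * jc ((a * b : ℕ) : ℤ) m1 *
        cj σ (∏ j, ktr T (r j) (w j) ((a * b * k2 : ℕ) : ℤ)) := by
    have hd : jc ((a * b : ℕ) : ℤ) m1 = jc a r0 * jc b r0 * ∏ j, jc ((a * b : ℕ) : ℤ) (r' j) := by
      rw [← jc_mul, ← jc_prod r' hr', ← hab, ← hm1]
      unfold jc
      have : NeZero r0 := ⟨hr0.ne'⟩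
      have : NeZero (∏ j : Fin 9, r' j) := ⟨(Finset.prod_pos fun j _ ↦ hr' j).ne'⟩
      rw [jacobiSym.mul_right]
      push_cast
      rfl
    rw [Phi_prod, Finset.prod_mul_distrib, hd, ← hrk, jc_prod r hr, cj_prod, hab]
    push_cast
    ring
  split_ifs with h
  · obtain ⟨h1, h2⟩ := h
    have hka : IsCoprime ((k1 * k2 : ℕ) : ℤ) (a : ℤ) :=
      Nat.isCoprime_iff_coprime.2 (Nat.Coprime.coprime_mul_right_right han).symm
    have hba : IsCoprime (b : ℤ) (a : ℤ) := Nat.isCoprime_iff_coprime.2 h1.symm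
    rw [cj_eI, eI_move ha _ hka hba]
    unfold eInv
    rw [if_pos hba]
    linear_combination (-(((Real.sqrt k1 : ℝ) : ℂ) * H ((a * b : ℕ) : ℤ) *
      eI a (sg σ * (4 * ((m2 * m1 : ℕ) : ℤ)) * ivz a ((k1 * k2 : ℕ) : ℤ)) b * W)) * hprod
  · symm
    by_cases h1 : a.Coprime b
    · have h2 : ¬ b.Coprime (k1 * k2 * (m2 * m1)) := fun h2 ↦ h ⟨h1, h2⟩
      have hz : H ((a * b : ℕ) : ℤ) = 0 ∨
          (∏ j, Phi T k2 r r' w σ a j b) * (jc a r0 * jc b r0) = 0 := by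
        by_cases e2 : b.Coprime k2
        · right
          rw [hprod]
          by_cases e1 : b.Coprime k1
          · have e3 : ¬ b.Coprime m1 := by
              intro e3
              apply h2
              apply Nat.Coprime.mul_right (Nat.Coprime.mul_right e1 e2)
              apply Nat.Coprime.mul_right _ e3
              rcases hm2 with h5 | h5
              · rw [h5]; exact Nat.coprime_one_right b
              · rw [h5]
                exact Nat.Coprime.coprime_dvd_right ((by norm_num : 2 ∣ 4).trans h4) e2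
            have : jc ((a * b : ℕ) : ℤ) m1 = 0 := by
              apply jc_zero hm1p
              intro hc
              apply e3
              rw [hab] at hc
              exact Nat.isCoprime_iff_coprime.1 hc.of_mul_left_right
            rw [this]; ring
          · have : jc ((a * b : ℕ) : ℤ) k1 = 0 := by
              apply jc_zero hk1
              intro hc
              apply e1
              rw [hab] at hc
              exact Nat.isCoprime_iff_coprime.1 hc.of_mul_left_right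
            rw [this]; ring
        · left
          apply hH0
          intro hc
          apply e2
          rw [hab] at hc
          exact Nat.isCoprime_iff_coprime.1 hc.of_mul_left_right.of_mul_right_right
      rcases hz with hz | hz
      · rw [hz]; ring
      · linear_combination ((((Real.sqrt k1 : ℝ) : ℂ) * H ((a * b : ℕ) : ℤ) *
          eInv a (sg σ * (4 * ((m2 * m1 : ℕ) : ℤ)) * ivz a ((k1 * k2 : ℕ) : ℤ)) b * W)) * hz
    · have : eInv a (sg σ * (4 * ((m2 * m1 : ℕ) : ℤ)) * ivz a ((k1 * k2 : ℕ) : ℤ)) b = 0 := by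
        unfold eInv
        rw [if_neg]
        intro hc
        exact h1 (Nat.isCoprime_iff_coprime.1 hc).symm
      rw [this]; ring

lemma norm_wgt_le (m k : ℕ) (hm : 0 < m) (hk : 0 < k) {y : ℝ}
    (hy : y ∈ Set.Ico (1 / (m : ℝ)) (2 / m)) (s : ℝ) (σ : Bool) {c : ℝ} (hc : 0 < c) :
    ‖wgt m k y s σ c‖ ≤ 2 / (k * Real.sqrt c) := by
  have hk' : (0 : ℝ) < k := by exact_mod_cast hk
  have hs : 0 < Real.sqrt c := Real.sqrt_pos.2 hc
  unfold wgt
  have h1 : ‖Complex.exp ((if σ then (-1 : ℂ) else 1) *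
      (2 * Real.pi * Complex.I * (2 * m) / (k * c)))‖ = 1 := by
    have : (if σ then (-1 : ℂ) else 1) * (2 * Real.pi * Complex.I * (2 * m) / (k * c)) =
        (((if σ then (-1 : ℝ) else 1) * (2 * Real.pi * (2 * m) / (k * c)) : ℝ) : ℂ) * Complex.I := by
      push_cast
      cases σ <;> simp <;> ring
    rw [this, Complex.norm_exp_ofReal_mul_I]
  rw [norm_mul, norm_mul, h1, mul_one, Complex.norm_real, Real.norm_of_nonneg (by positivity)]
  calc Real.sqrt c / (k * c) * ‖psW m y s (k * c)‖ ≤ Real.sqrt c / (k * c) * 2 := by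
        apply mul_le_mul_of_nonneg_left (norm_psW_le m hm hy s _ (by positivity)) (by positivity)
    _ = 2 / (k * Real.sqrt c) := by
        have h2 : Real.sqrt c * Real.sqrt c = c := Real.mul_self_sqrt hc.le
        rw [div_mul_eq_mul_div, div_eq_div_iff (by positivity) (by positivity)]
        linear_combination (2 * (k : ℝ)) * h2

/-- a periodic function summed over an interval. -/
lemma per_sum {k1 : ℕ} (hk1 : 0 < k1) (k2 : ℕ) (h12 : k2.Coprime k1) (E : ℤ → ℝ)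
    (hE0 : ∀ x, 0 ≤ E x) (hE : ∀ x y : ℤ, x ≡ y [ZMOD k1] → E x = E y) (X : ℕ) :
    ∑ c ∈ Icc 1 X, E ((c * k2 : ℕ) : ℤ) ≤ ((X : ℝ) / k1 + 1) * ∑ x ∈ range k1, E x := by
  have h1 : ∑ c ∈ Icc 1 X, E ((c * k2 : ℕ) : ℤ) =
      ∑ x ∈ range k1, ∑ c ∈ (Icc 1 X).filter (fun c ↦ c * k2 % k1 = x), E ((c * k2 : ℕ) : ℤ) := by
    refine (Finset.sum_fiberwise_of_maps_to (fun a ha => ?_) _).symm
    rw [Finset.mem_range]
    exact Nat.mod_lt _ hk1
  rw [h1, Finset.mul_sum]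
  refine Finset.sum_le_sum fun x hx ↦ ?_
  rw [Finset.mem_range] at hx
  have h2 : ∀ c ∈ (Icc 1 X).filter (fun c ↦ c * k2 % k1 = x), E ((c * k2 : ℕ) : ℤ) = E x := by
    intro c hc
    rw [mem_filter] at hc
    apply hE
    rw [← hc.2]
    exact (Int.natCast_modEq_iff.2 (Nat.mod_modEq _ k1)).symm
  rw [Finset.sum_congr rfl h2, Finset.sum_const, nsmul_eq_mul]
  apply mul_le_mul_of_nonneg_right _ (hE0 _)
  -- the class
  rcases Finset.eq_empty_or_nonempty ((Icc 1 X).filter (fun c ↦ c * k2 % k1 = x)) with he | ⟨v, hv⟩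
  · rw [he]
    simp only [Finset.card_empty, Nat.cast_zero]
    positivity
  · refine le_trans ?_ (ktr_class k1 X v hk1)
    have : (Icc 1 X).filter (fun c ↦ c * k2 % k1 = x) ⊆
        (Icc 1 X).filter (fun a ↦ a % k1 = v % k1) := by
      intro c hc
      rw [mem_filter] at hc hv ⊢
      refine ⟨hc.1, ?_⟩
      have h3 : c * k2 ≡ v * k2 [MOD k1] := by
        unfold Nat.ModEq
        rw [hc.2, hv.2]
      exact Nat.ModEq.cancel_right_of_coprime h12.symm h3
    exact_mod_cast Finset.card_le_card this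

end

end Pool.Agent.Work.MP_af11aa_nt.W
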