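import Mathlib
import Pool.Agent.Work.MP_af11aa_nt.W.Arith
import Pool.Agent.Work.MP_af11aa_nt.W.KTrunc
import Pool.Agent.Work.MP_af11aa_nt.K.WFac

/-!
MODULE KFac (factorization of the Kloosterman sum with theta multiplier).
-/

set_option autoImplicit false

namespace Pool.Agent.Work.MP_af11aa_nt.W

open Finset Pool.Agent.Work.MP_af11aa_nt

/-- `wNat` depends only on the residue class modulo `L`. -/
theorem kf_wNat_congr {N q k0 L : ℕ} {χ : DirichletCharacter ℂ N} (hq0 : 0 < q) (h4 : 4 ∣ N)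
    (hk : k0 = q * L) (hNL : N ∣ L) {j j' : ℕ} (hj : j.Coprime k0) (hj' : j'.Coprime k0)
    (h : j ≡ j' [MOD L]) (t : Bool) : K.wNat N q k0 χ t j = K.wNat N q k0 χ t j' := by
  have h4L : 4 ∣ L := h4.trans hNL
  have hqk : q ∣ k0 := ⟨L, hk⟩
  unfold K.wNat
  have e1 : ((j : ℕ) : ZMod N) = ((j' : ℕ) : ZMod N) :=
    (ZMod.natCast_eq_natCast_iff _ _ _).2 (h.of_dvd hNL)
  have e2 : epsilon (j : ℤ) = epsilon (j' : ℤ) := by
    apply epsilon_congr
    have := (Int.natCast_modEq_iff).2 (h.of_dvd h4L)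
    exact_mod_cast this
  have e3 : K.sg t j = K.sg t j' := by
    unfold K.sg
    have : j % 4 = j' % 4 := h.of_dvd h4L
    rw [this]
  have e4 : shimuraSymbol (q * k0) (j : ℤ) = shimuraSymbol (q * k0) (j' : ℤ) := by
    have hkk : (q : ℤ) * (k0 : ℤ) = q * (q * L) := by rw [hk]; push_cast; ring
    have c1 := K.cop_qk (q := q) hqk hj
    have c2 := K.cop_qk (q := q) hqk hj'
    rw [hkk] at c1 c2 ⊢
    exact shimura_sq_congr hq0 (Int.natCast_dvd_natCast.2 h4L) c1 c2 (Int.natCast_modEq_iff.2 h)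
  rw [e1, e2, e3, e4]

/-- the outer factorization. -/
theorem kf_outer {a k0 : ℕ} [NeZero a] [NeZero k0] (h1 : a.Coprime k0) (m : ℕ)
    (W : (ZMod k0)ˣ → ℂ) (κ : (ZMod (a * k0))ˣ → ℂ)
    (hκ : ∀ x, κ x = (jacobiSym (((ZMod.unitsMap (dvd_mul_right a k0) x :
      (ZMod a)ˣ) : ZMod a).val : ℤ) a : ℂ) * W (ZMod.unitsMap (dvd_mul_left k0 a) x)) :
    ∑ x : (ZMod (a * k0))ˣ, κ x * ZMod.stdAddChar ((m : ZMod (a * k0)) *
      ((x : ZMod (a * k0)) + ((x⁻¹ : (ZMod (a * k0))ˣ) : ZMod (a * k0)))) =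
    (∑ y : (ZMod a)ˣ, (jacobiSym ((y : ZMod a).val : ℤ) a : ℂ) *
      ZMod.stdAddChar ((((k0 : ℕ) : ZMod a)⁻¹ * (m : ZMod a)) *
        ((y : ZMod a) + ((y⁻¹ : (ZMod a)ˣ) : ZMod a)))) *
    ∑ z : (ZMod k0)ˣ, W z * ZMod.stdAddChar ((((a : ℕ) : ZMod k0)⁻¹ * (m : ZMod k0)) * ((z : ZMod k0) +
          ((z⁻¹ : (ZMod k0)ˣ) : ZMod k0))) := by
  let F : (ZMod a)ˣ → (ZMod k0)ˣ → ℂ := fun y z ↦
        ((jacobiSym ((y : ZMod a).val : ℤ) a : ℂ) *
          ZMod.stdAddChar ((((k0 : ℕ) : ZMod a)⁻¹ * (m : ZMod a)) *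
            ((y : ZMod a) + ((y⁻¹ : (ZMod a)ˣ) : ZMod a)))) *
        (W z * ZMod.stdAddChar ((((a : ℕ) : ZMod k0)⁻¹ * (m : ZMod k0)) * ((z : ZMod k0) +
          ((z⁻¹ : (ZMod k0)ˣ) : ZMod k0))))
  have e1 : ∀ x : (ZMod (a * k0))ˣ, κ x * ZMod.stdAddChar ((m : ZMod (a * k0)) *
      ((x : ZMod (a * k0)) + ((x⁻¹ : (ZMod (a * k0))ˣ) : ZMod (a * k0)))) =
      F (ZMod.unitsMap (dvd_mul_right a k0) x)
        (ZMod.unitsMap (dvd_mul_left k0 a) x) := by
    intro x
    simp only [F]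
    rw [hκ, K.std_crt h1, K.castHom_sum, K.castHom_sum]
    simp only [mul_assoc]
    ring
  rw [Finset.sum_congr rfl fun x _ ↦ e1 x, K.crt_sum h1 F]
  simp only [F]
  simp_rw [← Finset.mul_sum]
  rw [← Finset.sum_mul]

/-- the inner factorization. -/
theorem kf_inner {k1 k2 : ℕ} [NeZero k1] [NeZero k2] (h : k1.Coprime k2)
    (W : (ZMod (k1 * k2))ˣ → ℂ) (W' : (ZMod k2)ˣ → ℂ)
    (hW : ∀ x, W x = W' (ZMod.unitsMap (dvd_mul_left k2 k1) x)) (v : ZMod (k1 * k2)) :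
    ∑ x : (ZMod (k1 * k2))ˣ, W x * ZMod.stdAddChar
        (v * ((x : ZMod (k1 * k2)) + ((x⁻¹ : (ZMod (k1 * k2))ˣ) : ZMod (k1 * k2)))) =
    (∑ y : (ZMod k1)ˣ, ZMod.stdAddChar
      ((((k2 : ZMod k1))⁻¹ * ZMod.castHom (dvd_mul_right k1 k2) (ZMod k1) v) *
        ((y : ZMod k1) + ((y⁻¹ : (ZMod k1)ˣ) : ZMod k1)))) *
    ∑ z : (ZMod k2)ˣ, W' z * ZMod.stdAddChar
      ((((k1 : ZMod k2))⁻¹ * ZMod.castHom (dvd_mul_left k2 k1) (ZMod k2) v) *
        ((z : ZMod k2) + ((z⁻¹ : (ZMod k2)ˣ) : ZMod k2))) := by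
  set u : ZMod k1 := ((k2 : ZMod k1))⁻¹ * ZMod.castHom (dvd_mul_right k1 k2) (ZMod k1) v with hu
  set u' : ZMod k2 := ((k1 : ZMod k2))⁻¹ * ZMod.castHom (dvd_mul_left k2 k1) (ZMod k2) v with hu'
  let F : (ZMod k1)ˣ → (ZMod k2)ˣ → ℂ := fun y z ↦
        ZMod.stdAddChar (u * ((y : ZMod k1) + ((y⁻¹ : (ZMod k1)ˣ) : ZMod k1))) *
        (W' z * ZMod.stdAddChar (u' * ((z : ZMod k2) + ((z⁻¹ : (ZMod k2)ˣ) : ZMod k2))))
  have h1 : ∀ x : (ZMod (k1 * k2))ˣ, W x * ZMod.stdAddChar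
      (v * ((x : ZMod (k1 * k2)) + ((x⁻¹ : (ZMod (k1 * k2))ˣ) : ZMod (k1 * k2)))) =
      F (ZMod.unitsMap (dvd_mul_right k1 k2) x) (ZMod.unitsMap (dvd_mul_left k2 k1) x) := by
    intro x
    simp only [F]
    have c1 : ZMod.castHom (dvd_mul_right k1 k2) (ZMod k1)
        (v * ((x : ZMod (k1 * k2)) + ((x⁻¹ : (ZMod (k1 * k2))ˣ) : ZMod (k1 * k2)))) =
        ZMod.castHom (dvd_mul_right k1 k2) (ZMod k1) v *
          (((ZMod.unitsMap (dvd_mul_right k1 k2) x : (ZMod k1)ˣ) : ZMod k1) +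
            (((ZMod.unitsMap (dvd_mul_right k1 k2) x)⁻¹ : (ZMod k1)ˣ) : ZMod k1)) := by
      rw [map_mul, map_add, K.castHom_unit, K.castHom_unit, map_inv]
    have c2 : ZMod.castHom (dvd_mul_left k2 k1) (ZMod k2)
        (v * ((x : ZMod (k1 * k2)) + ((x⁻¹ : (ZMod (k1 * k2))ˣ) : ZMod (k1 * k2)))) =
        ZMod.castHom (dvd_mul_left k2 k1) (ZMod k2) v *
          (((ZMod.unitsMap (dvd_mul_left k2 k1) x : (ZMod k2)ˣ) : ZMod k2) +
            (((ZMod.unitsMap (dvd_mul_left k2 k1) x)⁻¹ : (ZMod k2)ˣ) : ZMod k2)) := by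
      rw [map_mul, map_add, K.castHom_unit, K.castHom_unit, map_inv]
    rw [hW, K.std_crt h, c1, c2, ← mul_assoc ((k2 : ZMod k1))⁻¹, ← hu,
      ← mul_assoc ((k1 : ZMod k2))⁻¹, ← hu']
    ring
  rw [Finset.sum_congr rfl fun x _ ↦ h1 x, K.crt_sum h F]
  simp only [F]
  simp_rw [← Finset.mul_sum]
  rw [← Finset.sum_mul]

theorem kf_castHom_inv {a n : ℕ} (h : a ∣ n) (x m : ℕ) (hx : x.Coprime n) :
    ZMod.castHom h (ZMod a) (((x : ZMod n))⁻¹ * (m : ZMod n)) =
      ((x : ZMod a))⁻¹ * (m : ZMod a) := by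
  rw [map_mul, map_natCast]
  congr 1
  have hau : IsUnit ((x : ZMod n)) := (ZMod.isUnit_iff_coprime _ _).2 hx
  have hau' : IsUnit ((x : ZMod a)) := (ZMod.isUnit_iff_coprime _ _).2
    (Nat.Coprime.coprime_dvd_right h hx)
  have h6 := ZMod.mul_inv_of_unit _ hau
  have h7 := congrArg (ZMod.castHom h (ZMod a)) h6
  rw [map_mul, map_natCast, map_one] at h7
  have h8 := ZMod.mul_inv_of_unit _ hau'
  exact hau'.mul_left_cancel (h7.trans h8.symm)

/-- counting square roots of one. -/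
theorem kf_count {g L : ℕ} [NeZero g] [NeZero L] (hodd : Odd g) :
    ((univ : Finset (ZMod (g * L))ˣ).filter (fun z : (ZMod (g * L))ˣ =>
      (ZMod.castHom (dvd_mul_right g L) (ZMod g) (z : ZMod (g * L))) ^ 2 = 1)).card ≤
      L * g.divisors.card := by
  classical
  have hg : 0 < g := NeZero.pos g
  calc _ ≤ ((range L) ×ˢ (univ.filter (fun y : ZMod g => y ^ 2 = 1))).card := by
        apply Finset.card_le_card_of_injOn (fun z : (ZMod (g * L))ˣ =>
          ((z : ZMod (g * L)).val / g, ZMod.castHom (dvd_mul_right g L) (ZMod g) (z : ZMod (g * L))))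
        · intro z hz
          rw [Finset.mem_coe, Finset.mem_filter] at hz
          rw [Finset.mem_coe, Finset.mem_product, Finset.mem_range, Finset.mem_filter]
          refine ⟨?_, Finset.mem_univ _, hz.2⟩
          exact Nat.div_lt_of_lt_mul (ZMod.val_lt _)
        · intro z _ z' _ h
          rw [Prod.mk.injEq] at h
          apply Units.ext
          apply ZMod.val_injective
          have h1 : (z : ZMod (g * L)).val % g = (z' : ZMod (g * L)).val % g := by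
            have h2 := h.2
            rw [← ZMod.natCast_zmod_val (z : ZMod (g * L)),
              ← ZMod.natCast_zmod_val (z' : ZMod (g * L)), map_natCast, map_natCast,
              ZMod.natCast_eq_natCast_iff] at h2
            exact h2
          rw [← Nat.div_add_mod (z : ZMod (g * L)).val g,
            ← Nat.div_add_mod (z' : ZMod (g * L)).val g, h.1, h1]
    _ = L * (univ.filter (fun y : ZMod g => y ^ 2 = 1)).card := by
        rw [Finset.card_product, Finset.card_range]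
    _ ≤ _ := Nat.mul_le_mul_left _ (K.Salie.card_sqrt_one g hodd)

theorem kf_std_L {g L : ℕ} [NeZero g] [NeZero L] (T : ℤ) :
    (ZMod.stdAddChar (((L : ℕ) : ZMod (g * L)) * ((T : ℤ) : ZMod (g * L))) : ℂ) =
      K.Salie.ec g T := by
  have e : (((L : ℕ) : ZMod (g * L)) * ((T : ℤ) : ZMod (g * L))) =
      (((L : ℤ) * T : ℤ) : ZMod (g * L)) := by push_cast; ring
  rw [e, K.Salie.std_eq, mul_comm g L, K.Salie.ec_mul L g (NeZero.ne L) (NeZero.ne g)]

/-- the averaging bound. -/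
theorem kf_V_bound {g L : ℕ} [NeZero g] [NeZero L] (hgL : g ∣ L) (hodd : Odd g)
    (W' : (ZMod (g * L))ˣ → ℂ) (hW1 : ∀ z, ‖W' z‖ ≤ 1)
    (hWp : ∀ z z' : (ZMod (g * L))ˣ, ZMod.castHom (dvd_mul_left L g) (ZMod L) (z : ZMod (g * L)) =
      ZMod.castHom (dvd_mul_left L g) (ZMod L) (z' : ZMod (g * L)) → W' z = W' z')
    (u : ZMod (g * L)) (hu : IsUnit (ZMod.castHom (dvd_mul_right g L) (ZMod g) u)) :
    ‖∑ z : (ZMod (g * L))ˣ, W' z * ZMod.stdAddChar
      (u * ((z : ZMod (g * L)) + ((z⁻¹ : (ZMod (g * L))ˣ) : ZMod (g * L))))‖ ≤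
      (L : ℝ) * g.divisors.card := by
  classical
  set S : ℂ := ∑ z : (ZMod (g * L))ˣ, W' z * ZMod.stdAddChar
      (u * ((z : ZMod (g * L)) + ((z⁻¹ : (ZMod (g * L))ˣ) : ZMod (g * L)))) with hS
  have hLL : ((L : ℕ) : ZMod (g * L)) * ((L : ℕ) : ZMod (g * L)) = 0 := by
    rw [← Nat.cast_mul, ZMod.natCast_eq_zero_iff]
    exact Nat.mul_dvd_mul_right hgL L
  -- the translated sums
  set T : (ZMod (g * L))ˣ → ℤ := fun z =>
    ((u * ((z : ZMod (g * L)) - ((z⁻¹ : (ZMod (g * L))ˣ) : ZMod (g * L)))).val : ℤ) with hT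
  have hshift : ∀ y : ℕ, S = ∑ z : (ZMod (g * L))ˣ, (W' z * ZMod.stdAddChar
      (u * ((z : ZMod (g * L)) + ((z⁻¹ : (ZMod (g * L))ˣ) : ZMod (g * L))))) *
        K.Salie.ec g (T z * y) := by
    intro y
    let ε : (ZMod (g * L))ˣ := ⟨1 + (L : ZMod (g * L)) * y, 1 - (L : ZMod (g * L)) * y, by
      linear_combination (-(y : ZMod (g * L)) ^ 2) * hLL, by
      linear_combination (-(y : ZMod (g * L)) ^ 2) * hLL⟩
    rw [hS, ← Equiv.sum_comp (Equiv.mulRight ε)]
    refine Finset.sum_congr rfl fun z _ => ?_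
    rw [Equiv.coe_mulRight]
    have e1 : W' (z * ε) = W' z := by
      apply hWp
      rw [Units.val_mul, map_mul]
      have : ZMod.castHom (dvd_mul_left L g) (ZMod L) (ε : ZMod (g * L)) = 1 := by
        show ZMod.castHom (dvd_mul_left L g) (ZMod L) (1 + (L : ZMod (g * L)) * y) = 1
        rw [map_add, map_mul, map_one, map_natCast, ZMod.natCast_self, zero_mul, add_zero]
      rw [this, mul_one]
    have e2 : (u * (((z * ε : (ZMod (g * L))ˣ) : ZMod (g * L)) +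
        (((z * ε)⁻¹ : (ZMod (g * L))ˣ) : ZMod (g * L)))) =
        u * ((z : ZMod (g * L)) + ((z⁻¹ : (ZMod (g * L))ˣ) : ZMod (g * L))) +
        (L : ZMod (g * L)) * ((T z * y : ℤ) : ZMod (g * L)) := by
      have e3 : ((ε⁻¹ : (ZMod (g * L))ˣ) : ZMod (g * L)) = 1 - (L : ZMod (g * L)) * y := rfl
      have e4 : ((ε : (ZMod (g * L))ˣ) : ZMod (g * L)) = 1 + (L : ZMod (g * L)) * y := rfl
      rw [mul_inv_rev, Units.val_mul, Units.val_mul, e3, e4]
      simp only [hT]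
      push_cast
      rw [ZMod.natCast_zmod_val]
      ring
    rw [e1, e2, AddChar.map_add_eq_mul, kf_std_L, mul_assoc]
  have hsum : (g : ℂ) * S = ∑ z : (ZMod (g * L))ˣ, (W' z * ZMod.stdAddChar
      (u * ((z : ZMod (g * L)) + ((z⁻¹ : (ZMod (g * L))ˣ) : ZMod (g * L))))) *
        (if (g : ℤ) ∣ T z then (g : ℂ) else 0) := by
    calc (g : ℂ) * S = ∑ _y ∈ range g, S := by rw [Finset.sum_const, Finset.card_range, nsmul_eq_mul]
      _ = ∑ y ∈ range g, ∑ z : (ZMod (g * L))ˣ, (W' z * ZMod.stdAddChar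
          (u * ((z : ZMod (g * L)) + ((z⁻¹ : (ZMod (g * L))ˣ) : ZMod (g * L))))) *
            K.Salie.ec g (T z * y) := Finset.sum_congr rfl fun y _ => hshift y
      _ = _ := by
        rw [Finset.sum_comm]
        refine Finset.sum_congr rfl fun z _ => ?_
        rw [← Finset.mul_sum, K.Salie.sum_ec]
  have hbound : (g : ℝ) * ‖S‖ ≤ (g : ℝ) *
      ((((univ : Finset (ZMod (g * L))ˣ).filter (fun z : (ZMod (g * L))ˣ =>
      (ZMod.castHom (dvd_mul_right g L) (ZMod g) (z : ZMod (g * L))) ^ 2 = 1)).card : ℕ) : ℝ) := by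
    have e : (g : ℝ) * ‖S‖ = ‖(g : ℂ) * S‖ := by rw [norm_mul, Complex.norm_natCast]
    rw [e, hsum]
    refine (norm_sum_le _ _).trans ?_
    calc ∑ z : (ZMod (g * L))ˣ, ‖(W' z * ZMod.stdAddChar
      (u * ((z : ZMod (g * L)) + ((z⁻¹ : (ZMod (g * L))ˣ) : ZMod (g * L))))) *
        (if (g : ℤ) ∣ T z then (g : ℂ) else 0)‖
        ≤ ∑ z : (ZMod (g * L))ˣ, (if (ZMod.castHom (dvd_mul_right g L) (ZMod g)
          (z : ZMod (g * L))) ^ 2 = 1 then (g : ℝ) else 0) := by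
          refine Finset.sum_le_sum fun z _ => ?_
          by_cases h : (g : ℤ) ∣ T z
          · rw [if_pos h, if_pos]
            · rw [norm_mul, norm_mul, AddChar.norm_apply, mul_one, Complex.norm_natCast]
              exact mul_le_of_le_one_left (Nat.cast_nonneg g) (hW1 z)
            · have h1 : ZMod.castHom (dvd_mul_right g L) (ZMod g)
                  (u * ((z : ZMod (g * L)) - ((z⁻¹ : (ZMod (g * L))ˣ) : ZMod (g * L)))) = 0 := by
                rw [← ZMod.natCast_zmod_val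
                  (u * ((z : ZMod (g * L)) - ((z⁻¹ : (ZMod (g * L))ˣ) : ZMod (g * L)))),
                  map_natCast, ZMod.natCast_eq_zero_iff]
                exact Int.natCast_dvd_natCast.1 h
              rw [map_mul, hu.mul_right_eq_zero, map_sub, sub_eq_zero] at h1
              have h2 := congrArg (fun w => ZMod.castHom (dvd_mul_right g L) (ZMod g)
                (z : ZMod (g * L)) * w) h1
              rw [sq, h2, ← map_mul, Units.mul_inv, map_one]
          · rw [if_neg h, mul_zero, norm_zero]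
            split_ifs
            · exact Nat.cast_nonneg g
            · exact le_rfl
      _ = _ := by
          rw [← Finset.sum_filter, Finset.sum_const, nsmul_eq_mul, mul_comm]
  have hg0 : (0 : ℝ) < g := by exact_mod_cast NeZero.pos g
  have h1 := le_of_mul_le_mul_left hbound hg0
  refine h1.trans ?_
  exact_mod_cast kf_count hodd

theorem kf_sal (a : ℕ) [NeZero a] (m k : ℕ) :
    salS a m ((k : ℕ) : ℤ) = ∑ y : (ZMod a)ˣ, (jacobiSym ((y : ZMod a).val : ℤ) a : ℂ) *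
      ZMod.stdAddChar ((((k : ℕ) : ZMod a)⁻¹ * (m : ZMod a)) *
        ((y : ZMod a) + ((y⁻¹ : (ZMod a)ˣ) : ZMod a))) := by
  unfold salS
  rw [ktr_units a (fun x => ((jacobiSym (x : ℤ) a : ℤ) : ℂ) *
    ec a ((m : ℤ) * ivz a k * (x + ivz a x)))]
  refine Finset.sum_congr rfl fun y _ => ?_
  rw [ktr_std]
  congr 2
  push_cast
  rw [ktr_ivz, ktr_ivz, Int.cast_natCast, Int.cast_natCast, ZMod.natCast_zmod_val,
    ZMod.inv_coe_unit, mul_comm (m : ZMod a)]

theorem kTot_factor {N q : ℕ} [NeZero N] (χ : DirichletCharacter ℂ N) (h4 : 4 ∣ N)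
    (hq0 : 0 < q) (hsq : Squarefree q) (hodd : Odd q) (hcop : q.Coprime N) (m k1 k2 : ℕ)
    (hk1 : k1 ∣ q) (hk1p : 0 < k1) (hk2p : 0 < k2) (h12 : k1.Coprime k2) (hNq : N * q ∣ k1 * k2)
    (hg : (q / k1) ^ 2 ∣ k2) (hm : m.Coprime (q / k1)) :
    ∃ V : ℕ → ℂ,
      (∀ a a' : ℕ, a ≡ a' [MOD k2] → V a = V a') ∧
      (∀ a, ‖V a‖ ≤ (k2 : ℝ) / ((q / k1 : ℕ) : ℝ) * (q / k1).divisors.card) ∧
      ∀ a : ℕ, 0 < a → a.Coprime (k1 * k2) → a.Coprime m →
        K.kTot m (K.mS N q χ) (a * (k1 * k2)) =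
          salS a m ((k1 * k2 : ℕ) : ℤ) * kloo k1 m ((a * k2 : ℕ) : ℤ) * V a := by
  classical
  obtain ⟨g, rfl⟩ := hk1
  rw [Nat.mul_div_cancel_left g hk1p] at hg hm ⊢
  have hg0 : 0 < g := Nat.pos_of_mul_pos_left hq0
  have hgodd : Odd g := (Nat.odd_mul.1 hodd).2
  obtain ⟨L1, hL1⟩ := hg
  set L : ℕ := g * L1 with hL
  have hk2 : k2 = g * L := by rw [hL1, hL]; ring
  have hL1p : 0 < L1 := Nat.pos_of_ne_zero (fun h => by rw [hL1, h, mul_zero] at hk2p; omega)
  have hLp : 0 < L := Nat.mul_pos hg0 hL1p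
  have hgL : g ∣ L := ⟨L1, rfl⟩
  clear_value L
  clear hL hL1 hL1p
  subst hk2
  have i1 : NeZero g := ⟨hg0.ne'⟩
  have i2 : NeZero L := ⟨hLp.ne'⟩
  have i3 : NeZero k1 := ⟨hk1p.ne'⟩
  have i4 : NeZero (k1 * g) := ⟨hq0.ne'⟩
  have hNL : N ∣ L := by
    have h1 : (k1 * g) * N ∣ (k1 * g) * L := by
      rw [mul_comm (k1 * g) N, mul_assoc k1 g L]; exact hNq
    exact Nat.dvd_of_mul_dvd_mul_left hq0 h1
  have hk0 : k1 * (g * L) = (k1 * g) * L := by ring
  set W : Bool → (ZMod (k1 * (g * L)))ˣ → ℂ := fun t => K.wFac N (k1 * g) (k1 * (g * L)) χ t with hW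
  have hWL : ∀ (t : Bool) (x x' : (ZMod (k1 * (g * L)))ˣ),
      (x : ZMod (k1 * (g * L))).val ≡ (x' : ZMod (k1 * (g * L))).val [MOD L] → W t x = W t x' := by
    intro t x x' h
    exact kf_wNat_congr hq0 h4 hk0 hNL (ZMod.val_coe_unit_coprime x) (ZMod.val_coe_unit_coprime x')
      h t
  set W' : Bool → (ZMod (g * L))ˣ → ℂ := fun t z => W t ((K.crtU h12).symm (1, z)) with hW'
  have hcast : ∀ (z : (ZMod (g * L))ˣ) (y : (ZMod k1)ˣ),
      ZMod.unitsMap (dvd_mul_left (g * L) k1) ((K.crtU h12).symm (y, z)) = z := by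
    intro z y
    rw [← K.crtU_snd h12, MulEquiv.apply_symm_apply]
  have hmodv : ∀ x : (ZMod (k1 * (g * L)))ˣ, (x : ZMod (k1 * (g * L))).val ≡
      ((ZMod.unitsMap (dvd_mul_left (g * L) k1) x : (ZMod (g * L))ˣ) : ZMod (g * L)).val
        [MOD g * L] := by
    intro x
    have : ((ZMod.unitsMap (dvd_mul_left (g * L) k1) x : (ZMod (g * L))ˣ) : ZMod (g * L)).val =
        (x : ZMod (k1 * (g * L))).val % (g * L) := by
      rw [ZMod.unitsMap_val, ZMod.cast_eq_val, ZMod.val_natCast]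
    rw [this]
    exact (Nat.mod_modEq _ _).symm
  have hWW' : ∀ t x, W t x = W' t (ZMod.unitsMap (dvd_mul_left (g * L) k1) x) := by
    intro t x
    apply hWL
    have h1 := hmodv x
    have h2 := hmodv ((K.crtU h12).symm (1, ZMod.unitsMap (dvd_mul_left (g * L) k1) x))
    rw [hcast] at h2
    exact (h1.trans h2.symm).of_dvd (dvd_mul_left L g)
  have hW'p : ∀ (t : Bool) (z z' : (ZMod (g * L))ˣ),
      ZMod.castHom (dvd_mul_left L g) (ZMod L) (z : ZMod (g * L)) =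
      ZMod.castHom (dvd_mul_left L g) (ZMod L) (z' : ZMod (g * L)) → W' t z = W' t z' := by
    intro t z z' h
    apply hWL
    have h1 := hmodv ((K.crtU h12).symm (1, z))
    have h2 := hmodv ((K.crtU h12).symm (1, z'))
    rw [hcast] at h1 h2
    have h3 : (z : ZMod (g * L)).val ≡ (z' : ZMod (g * L)).val [MOD L] := by
      rw [← ZMod.natCast_zmod_val (z : ZMod (g * L)),
        ← ZMod.natCast_zmod_val (z' : ZMod (g * L)), map_natCast, map_natCast,
        ZMod.natCast_eq_natCast_iff] at h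
      exact h
    exact ((h1.of_dvd (dvd_mul_left L g)).trans h3).trans (h2.of_dvd (dvd_mul_left L g)).symm
  have hW'1 : ∀ t z, ‖W' t z‖ ≤ 1 := fun t z => K.wFac_norm hNq t _
  set V : ℕ → ℂ := fun a => if a.Coprime (g * L) then
    ∑ z : (ZMod (g * L))ˣ, W' (decide (a % 4 = 3)) z * ZMod.stdAddChar
      ((((k1 : ZMod (g * L)))⁻¹ * (((a : ZMod (g * L)))⁻¹ * (m : ZMod (g * L)))) *
        ((z : ZMod (g * L)) + ((z⁻¹ : (ZMod (g * L))ˣ) : ZMod (g * L)))) else 0 with hV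
  refine ⟨V, ?_, ?_, ?_⟩
  · intro a a' h
    have h44 : 4 ∣ g * L := (h4.trans hNL).trans (dvd_mul_left L g)
    have e1 : a % 4 = a' % 4 := h.of_dvd h44
    have e2 : (a : ZMod (g * L)) = (a' : ZMod (g * L)) := (ZMod.natCast_eq_natCast_iff _ _ _).2 h
    have e3 : a.Coprime (g * L) ↔ a'.Coprime (g * L) := by
      rw [Nat.Coprime, Nat.Coprime, h.gcd_eq]
    simp only [hV, e1, e2, e3]
  · intro a
    have hgr : ((g * L : ℕ) : ℝ) / (g : ℝ) = L := by
      have : (g : ℝ) ≠ 0 := by exact_mod_cast hg0.ne'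
      push_cast
      field_simp
    rw [hgr]
    by_cases ha : a.Coprime (g * L)
    · simp only [hV, if_pos ha]
      apply kf_V_bound hgL hgodd (W' (decide (a % 4 = 3))) (hW'1 _) (hW'p _)
      have hinv : ∀ (x : ℕ), x.Coprime (g * L) →
          IsUnit (ZMod.castHom (dvd_mul_right g L) (ZMod g) (((x : ZMod (g * L)))⁻¹)) := by
        intro x hx
        have h1 : IsUnit ((x : ZMod (g * L))) := (ZMod.isUnit_iff_coprime _ _).2 hx
        have h2 : IsUnit (((x : ZMod (g * L)))⁻¹) :=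
          IsUnit.of_mul_eq_one_right _ (ZMod.mul_inv_of_unit _ h1)
        exact h2.map _
      rw [map_mul, map_mul]
      refine (hinv k1 h12).mul ((hinv a ha).mul ?_)
      rw [map_natCast]
      exact (ZMod.isUnit_iff_coprime _ _).2 hm
    · simp only [hV, if_neg ha, norm_zero]
      positivity
  · intro a ha0 hac ham
    have i5 : NeZero a := ⟨ha0.ne'⟩
    have hag : a.Coprime (g * L) := Nat.Coprime.coprime_dvd_right (dvd_mul_left (g * L) k1) hac
    have hk1a : a.Coprime k1 := Nat.Coprime.coprime_dvd_right (dvd_mul_right k1 (g * L)) hac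
    rw [K.kTot_eq, K.kSum_units]
    rw [kf_outer hac m (W (decide (a % 4 = 3))), ← kf_sal, kf_inner h12 _ _ (hWW' _), mul_assoc]
    · congr 1
      congr 1
      · rw [ktr_kloo]
        unfold ktrK
        refine Finset.sum_congr rfl fun y _ => ?_
        congr 2
        rw [kf_castHom_inv _ a m hac]
        push_cast
        have hau : IsUnit ((a : ZMod k1)) := (ZMod.isUnit_iff_coprime _ _).2 hk1a
        have hku : IsUnit (((g * L : ℕ) : ZMod k1)) := (ZMod.isUnit_iff_coprime _ _).2 h12.symm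
        push_cast at hku
        apply (hau.mul hku).mul_left_cancel
        have h1 := ZMod.mul_inv_of_unit _ hau
        have h2 := ZMod.mul_inv_of_unit _ hku
        have h3 := ZMod.mul_inv_of_unit _ (hau.mul hku)
        linear_combination ((a : ZMod k1) * (a : ZMod k1)⁻¹ * m) * h2 + (m : ZMod k1) * h1 -
          (m : ZMod k1) * h3
      · simp only [hV, if_pos hag]
        rw [kf_castHom_inv _ a m hac]
    · intro x
      set j := (x : ZMod (a * (k1 * (g * L)))).val with hj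
      have hcopj : j.Coprime (a * (k1 * (g * L))) := ZMod.val_coe_unit_coprime x
      rw [K.mS_split h4 hNq ha0 hac hcopj]
      have e1 : ((ZMod.unitsMap (dvd_mul_right a (k1 * (g * L))) x : (ZMod a)ˣ) : ZMod a).val =
          j % a := by
        rw [ZMod.unitsMap_val, ZMod.cast_eq_val, ZMod.val_natCast]
      have e2 : ((ZMod.unitsMap (dvd_mul_left (k1 * (g * L)) a) x : (ZMod (k1 * (g * L)))ˣ) :
          ZMod (k1 * (g * L))).val = j % (k1 * (g * L)) := by
        rw [ZMod.unitsMap_val, ZMod.cast_eq_val, ZMod.val_natCast]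
      rw [e1]
      simp only [hW]
      unfold K.wFac
      rw [e2, K.wNat_mod ((dvd_mul_right N (k1 * g)).trans hNq) h4 hNq
        (Nat.Coprime.coprime_dvd_right (dvd_mul_left (k1 * (g * L)) a) hcopj)]
      congr 2
      push_cast
      rw [jacobiSym.mod_left]

end Pool.Agent.Work.MP_af11aa_nt.W
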