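import Mathlib
import Pool.Agent.Work.MP_af11aa_nt.K.Decomp

/-!
MODULE Split (exact version of K.sum_split).

Every c ≥ 1 is uniquely a·k with k composed of primes of n and a prime to n (K.exists_split gives existence);
D | c iff D | k when all primes of D divide n.  So c ↦ (k, a) is a bijection between the two index sets.
-/

set_option autoImplicit false

namespace Pool.Agent.Work.MP_af11aa_nt.W

open Finset

private lemma split_cop {k n a : ℕ} (hk0 : 0 < k) (hk : k.primeFactors ⊆ n.primeFactors)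
    (ha : a.Coprime n) : k.Coprime a := by
  apply Nat.coprime_of_dvd
  intro p hp hpk hpa
  have h1 : p ∈ n.primeFactors := hk (Nat.mem_primeFactors.2 ⟨hp, hpk, hk0.ne'⟩)
  exact Nat.not_coprime_of_dvd_of_dvd hp.one_lt hpa (Nat.dvd_of_mem_primeFactors h1) ha

theorem split_sum {n D X0 : ℕ} (hn : 0 < n) (hD : 0 < D)
    (hDn : D.primeFactors ⊆ n.primeFactors) (G : ℕ → ℂ) :
    ∑ c ∈ (Icc 1 X0).filter (D ∣ ·), G c =
      ∑ k ∈ (Icc 1 X0).filter (fun k ↦ k.primeFactors ⊆ n.primeFactors ∧ D ∣ k),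
        ∑ a ∈ (Icc 1 (X0 / k)).filter (fun a : ℕ ↦ a.Coprime n), G (a * k) := by
  symm
  rw [sum_sigma']
  refine sum_bij (fun x _ ↦ x.2 * x.1) ?_ ?_ ?_ ?_
  · rintro ⟨k, a⟩ hx
    simp only [mem_sigma, mem_filter, mem_Icc] at hx ⊢
    obtain ⟨⟨⟨h1, h2⟩, h3, h4⟩, ⟨h5, h6⟩, h7⟩ := hx
    refine ⟨⟨Nat.mul_pos h5 h1, ?_⟩, Dvd.dvd.mul_left h4 _⟩
    exact (Nat.le_div_iff_mul_le h1).1 h6
  · rintro ⟨k, a⟩ hx ⟨k', a'⟩ hx' h
    simp only [mem_sigma, mem_filter, mem_Icc] at hx hx' h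
    obtain ⟨⟨⟨h1, h2⟩, h3, h4⟩, ⟨h5, h6⟩, h7⟩ := hx
    obtain ⟨⟨⟨h1', h2'⟩, h3', h4'⟩, ⟨h5', h6'⟩, h7'⟩ := hx'
    have e1 : k ∣ k' := by
      have : k ∣ a' * k' := by rw [← h]; exact dvd_mul_left _ _
      exact (split_cop h1 h3 h7').dvd_of_dvd_mul_left this
    have e2 : k' ∣ k := by
      have : k' ∣ a * k := by rw [h]; exact dvd_mul_left _ _
      exact (split_cop h1' h3' h7).dvd_of_dvd_mul_left this
    have e3 : k = k' := Nat.dvd_antisymm e1 e2
    subst e3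
    have e4 : a = a' := Nat.eq_of_mul_eq_mul_right h1 h
    subst e4
    rfl
  · intro c hc
    simp only [mem_filter, mem_Icc] at hc
    obtain ⟨⟨h1, h2⟩, h3⟩ := hc
    obtain ⟨⟨k, a⟩, e1, e2, e3⟩ := K.exists_split n hn c h1
    simp only at e1 e2 e3
    have hk0 : 0 < k := by
      rcases Nat.eq_zero_or_pos k with h | h
      · rw [h, mul_zero] at e1; omega
      · exact h
    have ha0 : 0 < a := by
      rcases Nat.eq_zero_or_pos a with h | h
      · rw [h, zero_mul] at e1; omega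
      · exact h
    refine ⟨⟨k, a⟩, ?_, e1.symm⟩
    simp only [mem_sigma, mem_filter, mem_Icc]
    refine ⟨⟨⟨hk0, ?_⟩, e3, ?_⟩, ⟨ha0, ?_⟩, e2⟩
    · rw [e1] at h2
      exact (Nat.le_mul_of_pos_left k ha0).trans h2
    · rw [e1] at h3
      exact (split_cop hD hDn e2).dvd_of_dvd_mul_left h3
    · rw [Nat.le_div_iff_mul_le hk0, ← e1]
      exact h2
  · intro _ _
    rfl

end Pool.Agent.Work.MP_af11aa_nt.W
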