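import Mathlib

/-!
MODULE Chunk (factoring smooth numbers).

exists_div: take the least divisor d ≥ Z of n (d = n qualifies); if d > 1 pick a prime l | d, then d/l | n is smaller
 than d, so d/l < Z and d ≤ Z l ≤ Z Y; if d = 1 then d ≤ Z ≤ Z Y.
chunks: induction on J.  J = 0: n ≤ 1.  J+1: if n ≤ Z take (n,1,...,1); else exists_div gives d, n/d ≤ n/Z ≤ Z^J.
-/

set_option autoImplicit false

namespace Pool.Agent.Work.MP_af11aa_nt.W

open Finset

theorem exists_div (Y Z : ℝ) (n : ℕ) (hn : 0 < n) (hp : ∀ l : ℕ, l.Prime → l ∣ n → (l : ℝ) ≤ Y)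
    (hZ : 1 ≤ Z) (hY : 1 ≤ Y) (hZn : Z ≤ n) : ∃ d : ℕ, d ∣ n ∧ Z ≤ d ∧ (d : ℝ) ≤ Z * Y := by
  classical
  have hex : ∃ d : ℕ, d ∣ n ∧ Z ≤ (d : ℝ) := ⟨n, dvd_rfl, hZn⟩
  obtain ⟨d, hd, hmin⟩ : ∃ d : ℕ, (d ∣ n ∧ Z ≤ (d : ℝ)) ∧ ∀ m < d, ¬ (m ∣ n ∧ Z ≤ (m : ℝ)) :=
    ⟨Nat.find hex, Nat.find_spec hex, fun m hm => Nat.find_min hex hm⟩
  refine ⟨d, hd.1, hd.2, ?_⟩
  rcases Nat.lt_or_ge 1 d with h | h
  · obtain ⟨l, hl, hld⟩ := Nat.exists_prime_and_dvd (show d ≠ 1 by omega)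
    obtain ⟨e, he⟩ := hld
    have he0 : 0 < e := by
      rcases Nat.eq_zero_or_pos e with h0 | h0
      · rw [h0] at he; omega
      · exact h0
    have hed : e < d := by rw [he]; nlinarith [hl.two_le]
    have h2 : e ∣ n := (Dvd.intro_left l he.symm).trans hd.1
    have h3 : (e : ℝ) < Z := by
      by_contra hcon
      exact hmin e hed ⟨h2, not_lt.1 hcon⟩
    have hlY : (l : ℝ) ≤ Y := hp l hl ((Dvd.intro e he.symm).trans hd.1)
    have hl0 : (0 : ℝ) ≤ l := Nat.cast_nonneg _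
    have he0' : (0 : ℝ) ≤ e := Nat.cast_nonneg _
    rw [he]
    push_cast
    calc (l : ℝ) * e ≤ Y * Z := mul_le_mul hlY h3.le he0' (by linarith)
      _ = Z * Y := mul_comm _ _
  · have h1 : (d : ℝ) ≤ 1 := by exact_mod_cast h
    nlinarith

theorem chunks (J : ℕ) (Y Z : ℝ) (n : ℕ) (hn : 0 < n)
    (hp : ∀ l : ℕ, l.Prime → l ∣ n → (l : ℝ) ≤ Y) (hZ : 1 ≤ Z) (hY : 1 ≤ Y)
    (hZJ : (n : ℝ) ≤ Z ^ J) :
    ∃ r : Fin J → ℕ, ∏ j, r j = n ∧ (∀ j, 0 < r j) ∧ ∀ j, (r j : ℝ) ≤ Z * Y := by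
  have hZY : 1 ≤ Z * Y := by nlinarith
  induction J generalizing n with
  | zero =>
    have h1 : n ≤ 1 := by
      rw [pow_zero] at hZJ
      exact_mod_cast hZJ
    refine ⟨fun _ => 1, ?_, fun j => j.elim0, fun j => j.elim0⟩
    simp; omega
  | succ J ih =>
    rcases le_or_gt (n : ℝ) Z with h | h
    · refine ⟨Fin.cons n (fun _ => 1), ?_, ?_, ?_⟩
      · rw [Fin.prod_univ_succ]; simp
      · intro j
        refine Fin.cases ?_ (fun i => ?_) j
        · simpa using hn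
        · simp
      · intro j
        refine Fin.cases ?_ (fun i => ?_) j
        · rw [Fin.cons_zero]; nlinarith
        · rw [Fin.cons_succ]; push_cast; exact hZY
    · obtain ⟨d, hd, hd1, hd2⟩ := exists_div Y Z n hn hp hZ hY h.le
      obtain ⟨m, hm⟩ := hd
      have hd0 : 0 < d := Nat.pos_of_ne_zero (by rintro rfl; omega)
      have hm0 : 0 < m := Nat.pos_of_ne_zero (by rintro rfl; omega)
      have hmJ : (m : ℝ) ≤ Z ^ J := by
        have h1 : (n : ℝ) = d * m := by exact_mod_cast hm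
        rw [h1, pow_succ] at hZJ
        have h2 : Z * (m : ℝ) ≤ Z * Z ^ J := by
          have hm0' : (0 : ℝ) ≤ m := Nat.cast_nonneg _
          nlinarith
        exact le_of_mul_le_mul_left h2 (by linarith)
      obtain ⟨r, hr1, hr2, hr3⟩ := ih m hm0
        (fun l hl hlm => hp l hl (hlm.trans (Dvd.intro_left d hm.symm))) hmJ
      refine ⟨Fin.cons d r, ?_, ?_, ?_⟩
      · rw [Fin.prod_univ_succ]
        simp only [Fin.cons_zero, Fin.cons_succ]
        rw [hr1, hm]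
      · intro j
        refine Fin.cases ?_ (fun i => ?_) j
        · simpa using hd0
        · simpa using hr2 i
      · intro j
        refine Fin.cases ?_ (fun i => ?_) j
        · rw [Fin.cons_zero]; exact hd2
        · rw [Fin.cons_succ]; exact hr3 i

end Pool.Agent.Work.MP_af11aa_nt.W
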