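import Mathlib
import Pool.Agent.Work.MP_af11aa_nt.W.SalX
import Pool.Agent.Work.MP_af11aa_nt.W.KTrunc
import Pool.Agent.Work.MP_af11aa_nt.K.KTotal

/-!
MODULE Triv (the trivial bound for a fixed part k1 k2 of the modulus).

‖salS‖ ≤ √a d(a) (salS_bound; a is odd because 2 | k2 and prime to m, k1 k2).  So the sum is
 ≤ (B/(k1 k2)) ∑ (d(a)/√a) ‖kloo k1 m (a k2)‖ ≤ (B/(k1 k2)) (∑_{a≤X} d(a)²/a)^{1/2} (∑ ‖kloo‖²)^{1/2}
 ≤ (B/(k1 k2)) (C (X+1)^{2ε})^{1/2} ((X/k1 + 1) k1² d(k1))^{1/2}   (kloo_moment; d(a) ≤ C a^{ε/2}: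
 Pool.Agent.Work.MP_f2148a_nt.exists_card_divisors_le, and ∑_{a≤X} 1/a ≤ 1 + log X).
-/

set_option autoImplicit false

namespace Pool.Agent.Work.MP_af11aa_nt.W

open Finset

theorem triv_bound (ε : ℝ) (hε : 0 < ε) : ∃ C : ℝ, 0 < C ∧
    ∀ (k1 k2 m X : ℕ) (V : ℕ → ℂ) (B : ℝ), 0 < k1 → 0 < k2 → Squarefree k1 → 2 ∣ k2 →
      k1.Coprime k2 → m.Coprime k1 → (∀ a, ‖V a‖ ≤ B) →
      ∑ a ∈ (Icc 1 X).filter (fun a ↦ a.Coprime (k1 * k2) ∧ a.Coprime m),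
        ‖salS a m ((k1 * k2 : ℕ) : ℤ) * kloo k1 m ((a * k2 : ℕ) : ℤ) * V a‖ /
          ((a * (k1 * k2) : ℕ) : ℝ) ≤
        C * ((X : ℝ) + 1) ^ ε * (B / k2) * Real.sqrt (((X : ℝ) / k1 + 1) * k1.divisors.card) := by
  obtain ⟨C, hC0, hC⟩ := K.tau_sum (2 / 3 * ε) (by positivity)
  refine ⟨Real.sqrt C, Real.sqrt_pos.2 hC0, ?_⟩
  intro k1 k2 m X V B hk1 hk2 hsq h2 hco hmk hV
  have hB0 : 0 ≤ B := (norm_nonneg _).trans (hV 0)
  have hk1' : (0 : ℝ) < k1 := by exact_mod_cast hk1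
  have hk2' : (0 : ℝ) < k2 := by exact_mod_cast hk2
  have hX1 : (0 : ℝ) < (X : ℝ) + 1 := by positivity
  set F := (Icc 1 X).filter (fun a ↦ a.Coprime (k1 * k2) ∧ a.Coprime m) with hF
  have hterm : ∀ a ∈ F, ‖salS a m ((k1 * k2 : ℕ) : ℤ) * kloo k1 m ((a * k2 : ℕ) : ℤ) * V a‖ /
          ((a * (k1 * k2) : ℕ) : ℝ) ≤
      B / (k1 * k2) * ((a.divisors.card : ℝ) / Real.sqrt a * ‖kloo k1 m ((a * k2 : ℕ) : ℤ)‖) := by
    intro a ha
    rw [hF, mem_filter, mem_Icc] at ha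
    obtain ⟨⟨ha1, -⟩, hak, ham⟩ := ha
    have ha0 : (0 : ℝ) < a := by exact_mod_cast ha1
    have hodd : Odd a := by
      rw [← Nat.not_even_iff_odd]
      intro he
      have h3 : 2 ∣ a.gcd (k1 * k2) := Nat.dvd_gcd he.two_dvd (h2.mul_left k1)
      rw [hak] at h3
      norm_num at h3
    have hs := salS_bound a hodd m ((k1 * k2 : ℕ) : ℤ) (Nat.isCoprime_iff_coprime.2 ham.symm)
      (Nat.isCoprime_iff_coprime.2 hak.symm)
    rw [norm_mul, norm_mul, div_le_iff₀ (by positivity)]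
    have hsa : 0 < Real.sqrt a := Real.sqrt_pos.2 ha0
    calc ‖salS a m ((k1 * k2 : ℕ) : ℤ)‖ * ‖kloo k1 m ((a * k2 : ℕ) : ℤ)‖ * ‖V a‖
        ≤ (Real.sqrt a * a.divisors.card) * ‖kloo k1 m ((a * k2 : ℕ) : ℤ)‖ * B := by
          gcongr
          exact hV a
      _ = ((a : ℝ) / Real.sqrt a * a.divisors.card) * ‖kloo k1 m ((a * k2 : ℕ) : ℤ)‖ * B := by
          rw [Real.div_sqrt]
      _ = B / (k1 * k2) * ((a.divisors.card : ℝ) / Real.sqrt a *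
            ‖kloo k1 m ((a * k2 : ℕ) : ℤ)‖) * ((a * (k1 * k2) : ℕ) : ℝ) := by
          push_cast
          field_simp
  have hCS : ∑ a ∈ F, ((a.divisors.card : ℝ) / Real.sqrt a * ‖kloo k1 m ((a * k2 : ℕ) : ℤ)‖) ≤
      Real.sqrt (C * ((X : ℝ) + 1) ^ (2 * ε)) *
        Real.sqrt (((X : ℝ) / k1 + 1) * ((k1 : ℝ) ^ 2 * k1.divisors.card)) := by
    refine (Real.sum_mul_le_sqrt_mul_sqrt _ _ _).trans ?_
    apply mul_le_mul _ _ (Real.sqrt_nonneg _) (Real.sqrt_nonneg _)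
    · apply Real.sqrt_le_sqrt
      rcases Nat.eq_zero_or_pos X with hX | hX
      · have : F = ∅ := by rw [hF, hX]; rfl
        rw [this, sum_empty]
        positivity
      · calc ∑ a ∈ F, ((a.divisors.card : ℝ) / Real.sqrt a) ^ 2
            ≤ ∑ a ∈ Icc 1 X, (a.divisors.card : ℝ) ^ 2 / a := by
              have e : ∀ a : ℕ, ((a.divisors.card : ℝ) / Real.sqrt a) ^ 2 =
                  (a.divisors.card : ℝ) ^ 2 / a := by
                intro a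
                rw [div_pow, Real.sq_sqrt (Nat.cast_nonneg a)]
              simp_rw [e]
              exact sum_le_sum_of_subset_of_nonneg (filter_subset _ _)
                fun a _ _ => by positivity
          _ ≤ C * (X : ℝ) ^ (3 * (2 / 3 * ε)) := hC X hX
          _ ≤ C * ((X : ℝ) + 1) ^ (2 * ε) := by
              rw [show 3 * (2 / 3 * ε) = 2 * ε by ring]
              apply mul_le_mul_of_nonneg_left _ hC0.le
              exact Real.rpow_le_rpow (Nat.cast_nonneg X) (by linarith) (by positivity)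
    · apply Real.sqrt_le_sqrt
      calc ∑ a ∈ F, ‖kloo k1 m ((a * k2 : ℕ) : ℤ)‖ ^ 2
          ≤ ∑ a ∈ (Icc 1 X).filter (fun a ↦ a.Coprime k1), ‖kloo k1 m ((a * k2 : ℕ) : ℤ)‖ ^ 2 := by
            apply sum_le_sum_of_subset_of_nonneg
            · intro a ha
              rw [hF, mem_filter] at ha
              rw [mem_filter]
              exact ⟨ha.1, ha.2.1.coprime_mul_right_right⟩
            · intro a _ _
              positivity
        _ ≤ _ := kloo_moment k1 hk1 hsq m (Nat.isCoprime_iff_coprime.2 hmk) k2 hco.symm X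
  have h4 : Real.sqrt (C * ((X : ℝ) + 1) ^ (2 * ε)) = Real.sqrt C * ((X : ℝ) + 1) ^ ε := by
    rw [Real.sqrt_mul hC0.le]
    congr 1
    rw [show 2 * ε = ε * 2 by ring, Real.rpow_mul hX1.le, Real.rpow_two,
      Real.sqrt_sq (Real.rpow_nonneg hX1.le _)]
  have h5 : Real.sqrt (((X : ℝ) / k1 + 1) * ((k1 : ℝ) ^ 2 * k1.divisors.card)) =
      k1 * Real.sqrt (((X : ℝ) / k1 + 1) * k1.divisors.card) := by
    rw [show ((X : ℝ) / k1 + 1) * ((k1 : ℝ) ^ 2 * k1.divisors.card) =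
      (k1 : ℝ) ^ 2 * (((X : ℝ) / k1 + 1) * k1.divisors.card) by ring,
      Real.sqrt_mul (by positivity), Real.sqrt_sq hk1'.le]
  calc ∑ a ∈ F, ‖salS a m ((k1 * k2 : ℕ) : ℤ) * kloo k1 m ((a * k2 : ℕ) : ℤ) * V a‖ /
          ((a * (k1 * k2) : ℕ) : ℝ)
      ≤ ∑ a ∈ F, B / (k1 * k2) * ((a.divisors.card : ℝ) / Real.sqrt a *
          ‖kloo k1 m ((a * k2 : ℕ) : ℤ)‖) := sum_le_sum hterm
    _ = B / (k1 * k2) * ∑ a ∈ F, ((a.divisors.card : ℝ) / Real.sqrt a *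
          ‖kloo k1 m ((a * k2 : ℕ) : ℤ)‖) := by rw [mul_sum]
    _ ≤ B / (k1 * k2) * (Real.sqrt (C * ((X : ℝ) + 1) ^ (2 * ε)) *
        Real.sqrt (((X : ℝ) / k1 + 1) * ((k1 : ℝ) ^ 2 * k1.divisors.card))) :=
        mul_le_mul_of_nonneg_left hCS (by positivity)
    _ = Real.sqrt C * ((X : ℝ) + 1) ^ ε * (B / k2) *
        Real.sqrt (((X : ℝ) / k1 + 1) * k1.divisors.card) := by
        rw [h4, h5]
        field_simp

end Pool.Agent.Work.MP_af11aa_nt.W
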