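import Mathlib
import Pool.Agent.Work.MP_af11aa_nt.W.FixK2
import Pool.Agent.Work.MP_af11aa_nt.W.Triv
import Pool.Agent.Work.MP_af11aa_nt.W.KFac
import Pool.Agent.Work.MP_af11aa_nt.W.Chunk

set_option autoImplicit false

namespace Pool.Agent.Work.MP_af11aa_nt.W

open Finset ComplexConjugate Pool.Agent.Work.MP_af11aa_nt

noncomputable section

/-- splitting off the part of `k0` made of the primes of `q` which divide `k0` exactly once. -/
lemma split_q {q k0 : ℕ} (hsq : Squarefree q) (hk : q ∣ k0) (hk0 : 0 < k0) :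
    ∃ k1 k2 : ℕ, k0 = k1 * k2 ∧ 0 < k1 ∧ 0 < k2 ∧ k1.Coprime k2 ∧ k1 ∣ q ∧ (q / k1) ^ 2 ∣ k2 := by
  classical
  have hq0 : 0 < q := Nat.pos_of_ne_zero hsq.ne_zero
  set F := q.primeFactors.filter (fun l ↦ ¬ l ^ 2 ∣ k0) with hF
  set G := q.primeFactors.filter (fun l ↦ l ^ 2 ∣ k0) with hG
  set k1 := ∏ l ∈ F, l with hk1
  set g := ∏ l ∈ G, l with hg
  have hFp : ∀ l ∈ F, l.Prime := fun l hl ↦ Nat.prime_of_mem_primeFactors (Finset.mem_filter.1 hl).1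
  have hGp : ∀ l ∈ G, l.Prime := fun l hl ↦ Nat.prime_of_mem_primeFactors (Finset.mem_filter.1 hl).1
  have hkg : k1 * g = q := by
    have h1 : ∏ l ∈ q.primeFactors, l = q := Nat.prod_primeFactors_of_squarefree hsq
    rw [hk1, hg, mul_comm, hF, hG, Finset.prod_filter_mul_prod_filter_not]
    exact h1
  have hk1q : k1 ∣ q := ⟨g, hkg.symm⟩
  have hk1k0 : k1 ∣ k0 := hk1q.trans hk
  have hk1pos : 0 < k1 := Nat.pos_of_dvd_of_pos hk1k0 hk0
  obtain ⟨k2, hk2⟩ := hk1k0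
  have hk2pos : 0 < k2 := by
    rcases Nat.eq_zero_or_pos k2 with h | h
    · rw [h, mul_zero] at hk2; omega
    · exact h
  refine ⟨k1, k2, hk2, hk1pos, hk2pos, ?_, hk1q, ?_⟩
  · by_contra hnc
    obtain ⟨l, hl, h1, h2⟩ := Nat.Prime.not_coprime_iff_dvd.1 hnc
    have h3 : l ^ 2 ∣ k0 := by rw [hk2, sq]; exact mul_dvd_mul h1 h2
    obtain ⟨l', hl', hd⟩ := (Prime.dvd_finsetProd_iff hl.prime _).1 h1
    have h4 : l = l' := (Nat.prime_dvd_prime_iff_eq hl (hFp l' hl')).1 hd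
    rw [← h4] at hl'
    exact (Finset.mem_filter.1 hl').2 h3
  · have h0 : q / k1 = g := by
      rw [← hkg, Nat.mul_div_cancel_left _ hk1pos]
    rw [h0, hg, ← Finset.prod_pow]
    have hcop : k1.Coprime g := by
      apply Nat.coprime_of_squarefree_mul
      rw [hkg]; exact hsq
    refine Finset.prod_dvd_of_isRelPrime ?_ ?_
    · intro a ha b hb hab
      have ha' := hGp a ha
      have hb' := hGp b hb
      rw [Function.onFun, ← Nat.coprime_iff_isRelPrime]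
      exact Nat.Coprime.pow 2 2 ((Nat.coprime_primes ha' hb').2 hab)
    · intro l hl
      have h2 : l ^ 2 ∣ k0 := (Finset.mem_filter.1 hl).2
      have h3 : l ∣ g := Finset.dvd_prod_of_mem _ hl
      have h4 : (l ^ 2).Coprime k1 := ((hcop.coprime_dvd_right h3).symm).pow_left 2
      rw [hk2] at h2
      exact h4.dvd_of_dvd_mul_left h2

lemma card_div_le_self (g : ℕ) : g.divisors.card ≤ g := by
  have : g.divisors ⊆ Finset.Icc 1 g := by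
    intro d hd
    have h1 := Nat.divisor_le hd
    have h2 := Nat.pos_of_mem_divisors hd
    rw [Finset.mem_Icc]; omega
  have := Finset.card_le_card this
  simpa using this

/-- use of the trivial bound. -/
lemma triv_use (ε : ℝ) (hε : 0 < ε) : ∃ C : ℝ, 0 < C ∧ ∀ {t : ℝ} (_ : 1 ≤ t)
    (k1 k2 m g X : ℕ) (V : ℕ → ℂ), 0 < k1 → 0 < k2 → 0 < m → 0 < g → Squarefree k1 → 2 ∣ k2 →
    k1.Coprime k2 → m.Coprime k1 → (∀ a, ‖V a‖ ≤ (k2 : ℝ) / g * g.divisors.card) →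
    (X : ℝ) ≤ 2 * t → (k1 : ℝ) ≤ t → (X : ℝ) ≤ k1 * g → ∀ y s : ℝ,
    y ∈ Set.Ico (1 / (m : ℝ)) (2 / m) →
    ∑ a ∈ (Icc 1 X).filter (fun a ↦ a.Coprime (k1 * k2) ∧ a.Coprime m),
      ‖salS a m ((k1 * k2 : ℕ) : ℤ) * kloo k1 m ((a * k2 : ℕ) : ℤ) * V a /
          ((a * (k1 * k2) : ℕ) : ℂ) * psW m y s ((a * (k1 * k2) : ℕ) : ℝ)‖ ≤ C * t ^ ε := by
  obtain ⟨C1, hC1, hT⟩ := triv_bound (ε / 2) (by positivity)
  obtain ⟨A, hA, hdiv⟩ := Pool.Agent.Work.MP_f2148a_nt.exists_card_divisors_le (ε / 2)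
    (by positivity)
  obtain ⟨A', hA', hdiv'⟩ := Pool.Agent.Work.MP_f2148a_nt.exists_card_divisors_le (1 / 2)
    (by positivity)
  refine ⟨2 * (C1 * 3 ^ (ε / 2) * (2 * A') * A), by positivity, ?_⟩
  intro t ht k1 k2 m g X V hk1 hk2 hm hg hsq h2 h12 hmk hV hX2 hk1t hXg y s hy
  have hk1' : (0 : ℝ) < k1 := by exact_mod_cast hk1
  have hk2' : (0 : ℝ) < k2 := by exact_mod_cast hk2
  have hg' : (0 : ℝ) < g := by exact_mod_cast hg
  have hg1 : (1 : ℝ) ≤ g := by exact_mod_cast hg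
  have hkR : (0 : ℝ) < ((k1 * k2 : ℕ) : ℝ) := by exact_mod_cast Nat.mul_pos hk1 hk2
  have h1 := hT k1 k2 m X V ((k2 : ℝ) / g * g.divisors.card) hk1 hk2 hsq h2 h12 hmk hV
  have h0 : ∑ a ∈ (Icc 1 X).filter (fun a ↦ a.Coprime (k1 * k2) ∧ a.Coprime m),
      ‖salS a m ((k1 * k2 : ℕ) : ℤ) * kloo k1 m ((a * k2 : ℕ) : ℤ) * V a /
          ((a * (k1 * k2) : ℕ) : ℂ) * psW m y s ((a * (k1 * k2) : ℕ) : ℝ)‖ ≤
      2 * ∑ a ∈ (Icc 1 X).filter (fun a ↦ a.Coprime (k1 * k2) ∧ a.Coprime m),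
        ‖salS a m ((k1 * k2 : ℕ) : ℤ) * kloo k1 m ((a * k2 : ℕ) : ℤ) * V a‖ /
          ((a * (k1 * k2) : ℕ) : ℝ) := by
    rw [Finset.mul_sum]
    refine Finset.sum_le_sum fun a ha ↦ ?_
    rw [mem_filter, mem_Icc] at ha
    have hc : (0 : ℝ) < ((a * (k1 * k2) : ℕ) : ℝ) := by
      have : 0 < a * (k1 * k2) := Nat.mul_pos (by omega) (Nat.mul_pos hk1 hk2)
      exact_mod_cast this
    rw [norm_mul, norm_div, Complex.norm_natCast, mul_comm]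
    exact mul_le_mul_of_nonneg_right (norm_psW_le m hm hy s _ hc) (by positivity)
  refine h0.trans ?_
  have htε : 0 < t ^ (ε / 2) := rp_pos ht _
  have e1 : ((X : ℝ) + 1) ^ (ε / 2) ≤ 3 ^ (ε / 2) * t ^ (ε / 2) := by
    rw [← Real.mul_rpow (by norm_num) (by linarith)]
    apply Real.rpow_le_rpow (by positivity) (by linarith) (by positivity)
  have e2 : ((k2 : ℝ) / g * g.divisors.card) / k2 *
      Real.sqrt (((X : ℝ) / k1 + 1) * k1.divisors.card) ≤ (2 * A') * (A * t ^ (ε / 2)) := by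
    have f1 : ((k2 : ℝ) / g * g.divisors.card) / k2 = g.divisors.card / g := by
      field_simp
    have f2 : (g.divisors.card : ℝ) / g ≤ A' / Real.sqrt g := by
      have h3 := hdiv' g hg
      rw [← Real.sqrt_eq_rpow] at h3
      have h4 : 0 < Real.sqrt g := Real.sqrt_pos.2 hg'
      have h5 : Real.sqrt g * Real.sqrt g = g := Real.mul_self_sqrt hg'.le
      rw [div_le_div_iff₀ hg' h4]
      calc (g.divisors.card : ℝ) * Real.sqrt g ≤ (A' * Real.sqrt g) * Real.sqrt g := by gcongr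
        _ = A' * g := by rw [mul_assoc, h5]
    have f3 : (X : ℝ) / k1 + 1 ≤ 2 * g := by
      have : (X : ℝ) / k1 ≤ g := by
        rw [div_le_iff₀ hk1']; linarith
      linarith
    have f4 : (k1.divisors.card : ℝ) ≤ A * t ^ (ε / 2) := by
      refine (hdiv k1 hk1).trans ?_
      apply mul_le_mul_of_nonneg_left _ (by linarith)
      exact Real.rpow_le_rpow hk1'.le hk1t (by positivity)
    have f5 : (1 : ℝ) ≤ A * t ^ (ε / 2) := by
      have : 1 ≤ t ^ (ε / 2) := Real.one_le_rpow ht (by positivity)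
      nlinarith
    have f6 : Real.sqrt (((X : ℝ) / k1 + 1) * k1.divisors.card) ≤
        2 * Real.sqrt g * (A * t ^ (ε / 2)) := by
      apply Real.sqrt_le_iff.2
      refine ⟨by positivity, ?_⟩
      calc ((X : ℝ) / k1 + 1) * k1.divisors.card ≤ (2 * g) * (A * t ^ (ε / 2)) := by gcongr
        _ ≤ (4 * g) * (A * t ^ (ε / 2)) ^ 2 := by
            have h6 : A * t ^ (ε / 2) ≤ (A * t ^ (ε / 2)) ^ 2 := by nlinarith
            have h7 : (2 : ℝ) * g ≤ 4 * g := by linarith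
            apply mul_le_mul h7 h6 (by positivity) (by positivity)
        _ = (2 * Real.sqrt g * (A * t ^ (ε / 2))) ^ 2 := by
            rw [mul_pow (2 * Real.sqrt g), mul_pow 2 (Real.sqrt g), Real.sq_sqrt hg'.le]; ring
    rw [f1]
    have h4 : 0 < Real.sqrt g := Real.sqrt_pos.2 hg'
    calc (g.divisors.card : ℝ) / g * Real.sqrt (((X : ℝ) / k1 + 1) * k1.divisors.card)
        ≤ (A' / Real.sqrt g) * (2 * Real.sqrt g * (A * t ^ (ε / 2))) := by gcongr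
      _ = (2 * A') * (A * t ^ (ε / 2)) := by field_simp
  have e3 : t ^ (ε / 2) * t ^ (ε / 2) = t ^ ε := by rw [rp_mul ht]; congr 1; ring
  calc 2 * ∑ a ∈ (Icc 1 X).filter (fun a ↦ a.Coprime (k1 * k2) ∧ a.Coprime m),
        ‖salS a m ((k1 * k2 : ℕ) : ℤ) * kloo k1 m ((a * k2 : ℕ) : ℤ) * V a‖ /
          ((a * (k1 * k2) : ℕ) : ℝ)
      ≤ 2 * (C1 * ((X : ℝ) + 1) ^ (ε / 2) * (((k2 : ℝ) / g * g.divisors.card) / k2) *
        Real.sqrt (((X : ℝ) / k1 + 1) * k1.divisors.card)) := by gcongr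
    _ = 2 * (C1 * ((X : ℝ) + 1) ^ (ε / 2) * ((((k2 : ℝ) / g * g.divisors.card) / k2) *
        Real.sqrt (((X : ℝ) / k1 + 1) * k1.divisors.card))) := by ring
    _ ≤ 2 * (C1 * (3 ^ (ε / 2) * t ^ (ε / 2)) * ((2 * A') * (A * t ^ (ε / 2)))) := by gcongr
    _ = 2 * (C1 * 3 ^ (ε / 2) * (2 * A') * A) * (t ^ (ε / 2) * t ^ (ε / 2)) := by ring
    _ = _ := by rw [e3]

/-- the global parameters: `R = q m2 m1` is squarefree and smooth. -/
structure Gl (R p q m1 m2 : ℕ) : Prop where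
  hR : Squarefree R
  hRq : R = q * (m2 * m1)
  hp : p.Prime
  hpt : (p : ℝ) ≤ (R : ℝ) ^ eta
  hsm : ∀ l : ℕ, l.Prime → l ∣ R → (l : ℝ) ≤ (R : ℝ) ^ eta
  hqc : q.Coprime (6 * p)
  hq1 : (R : ℝ) ^ (1 / 3 - 2 * eta) ≤ q
  hq2 : (q : ℝ) ≤ (R : ℝ) ^ (1 / 3 - eta)
  hm2 : m2 = 1 ∨ m2 = 2
  hm1 : Odd m1
  hbig : (192 : ℝ) ≤ (R : ℝ) ^ eta

namespace Gl

variable {R p q m1 m2 : ℕ} (G : Gl R p q m1 m2)

include G

lemma R_pos : 0 < R := Nat.pos_of_ne_zero G.hR.ne_zero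

lemma one_le : (1 : ℝ) ≤ R := by exact_mod_cast G.R_pos

lemma q_pos : 0 < q := by
  have h := G.R_pos
  rw [G.hRq] at h
  exact Nat.pos_of_ne_zero fun h0 ↦ by rw [h0, zero_mul] at h; omega

lemma m_pos : 0 < m2 * m1 := by
  have h := G.R_pos
  rw [G.hRq] at h
  exact Nat.pos_of_ne_zero fun h0 ↦ by rw [h0, mul_zero] at h; omega

lemma Rm : (R : ℝ) = q * ((m2 * m1 : ℕ) : ℝ) := by
  have := G.hRq
  exact_mod_cast this

lemma qm_coprime : q.Coprime (m2 * m1) := by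
  apply Nat.coprime_of_squarefree_mul
  rw [← G.hRq]; exact G.hR

/-- `m / q² ≤ t^{6 η}`. -/
lemma m_le : ((m2 * m1 : ℕ) : ℝ) ≤ (R : ℝ) ^ (6 * eta) * ((q : ℝ) * q) := by
  have hq : (0 : ℝ) < q := by exact_mod_cast G.q_pos
  have ht := G.one_le
  have hz : 0 < (R : ℝ) ^ (1 / 3 - 2 * eta) := rp_pos ht _
  have h1 : (R : ℝ) ^ (1 - 6 * eta) ≤ (q : ℝ) * q * q := by
    calc (R : ℝ) ^ (1 - 6 * eta) = (R : ℝ) ^ (1 / 3 - 2 * eta) * (R : ℝ) ^ (1 / 3 - 2 * eta) *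
          (R : ℝ) ^ (1 / 3 - 2 * eta) := by
          rw [rp_mul ht, rp_mul ht]; congr 1; ring
      _ ≤ _ := by have := G.hq1; gcongr
  have h2 : (R : ℝ) = (R : ℝ) ^ (1 - 6 * eta) * (R : ℝ) ^ (6 * eta) := by
    rw [rp_mul ht, sub_add_cancel, Real.rpow_one]
  have h6 : 0 < (R : ℝ) ^ (6 * eta) := rp_pos ht _
  have h3 : (q : ℝ) * ((m2 * m1 : ℕ) : ℝ) ≤ q * ((R : ℝ) ^ (6 * eta) * ((q : ℝ) * q)) := by
    rw [← G.Rm]
    calc (R : ℝ) = (R : ℝ) ^ (1 - 6 * eta) * (R : ℝ) ^ (6 * eta) := h2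
      _ ≤ ((q : ℝ) * q * q) * (R : ℝ) ^ (6 * eta) := by gcongr
      _ = _ := by ring
  exact le_of_mul_le_mul_left h3 hq

lemma m_upper : ((m2 * m1 : ℕ) : ℝ) ≤ (R : ℝ) ^ (2 / 3 + 2 * eta) := by
  have ht := G.one_le
  have hq : (0 : ℝ) < q := by exact_mod_cast G.q_pos
  have hz : 0 < (R : ℝ) ^ (1 / 3 - 2 * eta) := rp_pos ht _
  have h1 : (R : ℝ) ^ (1 / 3 - 2 * eta) * ((m2 * m1 : ℕ) : ℝ) ≤
      (R : ℝ) ^ (1 / 3 - 2 * eta) * (R : ℝ) ^ (2 / 3 + 2 * eta) := by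
    rw [rp_mul ht]
    have e : 1 / 3 - 2 * eta + (2 / 3 + 2 * eta) = 1 := by ring
    rw [e, Real.rpow_one]
    have hm : (0 : ℝ) ≤ ((m2 * m1 : ℕ) : ℝ) := Nat.cast_nonneg _
    exact (mul_le_mul_of_nonneg_right G.hq1 hm).trans_eq G.Rm.symm
  exact le_of_mul_le_mul_left h1 hz

lemma m_lower : (R : ℝ) ^ (2 / 3 + eta) ≤ ((m2 * m1 : ℕ) : ℝ) := by
  have ht := G.one_le
  have hq : (0 : ℝ) < q := by exact_mod_cast G.q_pos
  have hz : 0 < (R : ℝ) ^ (1 / 3 - eta) := rp_pos ht _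
  have hm : (0 : ℝ) < ((m2 * m1 : ℕ) : ℝ) := by exact_mod_cast G.m_pos
  have h1 : (R : ℝ) ^ (1 / 3 - eta) * (R : ℝ) ^ (2 / 3 + eta) ≤
      (R : ℝ) ^ (1 / 3 - eta) * ((m2 * m1 : ℕ) : ℝ) := by
    rw [rp_mul ht]
    have e : 1 / 3 - eta + (2 / 3 + eta) = 1 := by ring
    rw [e, Real.rpow_one]
    exact G.Rm.trans_le (mul_le_mul_of_nonneg_right G.hq2 hm.le)
  exact le_of_mul_le_mul_left h1 hz

lemma m_le_R : ((m2 * m1 : ℕ) : ℝ) ≤ R := by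
  have hq : (1 : ℝ) ≤ q := by exact_mod_cast G.q_pos
  have hm : (0 : ℝ) ≤ ((m2 * m1 : ℕ) : ℝ) := Nat.cast_nonneg _
  rw [G.Rm]
  nlinarith

end Gl

end

end Pool.Agent.Work.MP_af11aa_nt.W
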