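import Mathlib
import Pool.Agent.Work.MP_af11aa_nt.W.PerK2
import Pool.Agent.Work.MP_af11aa_nt.W.LineOsc
import Pool.Agent.Work.MP_af11aa_nt.W.Split
import Pool.Agent.Work.MP_af11aa_nt.K.Hybrid

set_option autoImplicit false

namespace Pool.Agent.Work.MP_af11aa_nt.W

open Finset ComplexConjugate Pool.Agent.Work.MP_af11aa_nt UpperHalfPlane

noncomputable section

/-- the bound for the complete sum over the moduli. -/
theorem total (ε : ℝ) (hε : 0 < ε) : ∃ C : ℝ, 0 < C ∧ ∀ {R p q m1 m2 : ℕ} (_ : Gl R p q m1 m2)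
    (χ : DirichletCharacter ℂ (24 * p)) (y s : ℝ),
    y ∈ Set.Ico (1 / ((m2 * m1 : ℕ) : ℝ)) (2 / ((m2 * m1 : ℕ) : ℝ)) →
    ‖∑ c ∈ (Finset.Icc 1 ⌊Real.sqrt 2 * ((m2 * m1 : ℕ) : ℝ)⌋₊).filter (24 * p * q ∣ ·),
      K.kTot (m2 * m1) (K.mS (24 * p) q χ) c / c * psW (m2 * m1) y s c‖ ≤ C * (R : ℝ) ^ (4 * ε) := by
  obtain ⟨C1, hC1, hP⟩ := perK ε hε
  obtain ⟨C2, hC2, hcount⟩ := K.count_factored ε hε
  refine ⟨C2 * (12 : ℝ) ^ ε * C1, by positivity, ?_⟩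
  intro R p q m1 m2 G χ y s hy
  have ht := G.one_le
  have he : (0 : ℝ) < eta := by unfold eta; positivity
  have he' : eta = 1 / 10 ^ 10 := rfl
  have hq0 := G.q_pos
  have hm0 := G.m_pos
  have hp0 := G.hp.pos
  set n : ℕ := 6 * (p * q * (m2 * m1)) with hn
  have hn0 : 0 < n := by
    have := Nat.mul_pos (Nat.mul_pos hp0 hq0) hm0
    omega
  have hD0 : 0 < 24 * p * q := by positivity
  have hDn : (24 * p * q).primeFactors ⊆ n.primeFactors := by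
    intro l hl
    have hlp := Nat.prime_of_mem_primeFactors hl
    have hld := Nat.dvd_of_mem_primeFactors hl
    refine Nat.mem_primeFactors.2 ⟨hlp, ?_, hn0.ne'⟩
    have h24 : 24 * p * q = 4 * (6 * (p * q)) := by ring
    rw [h24] at hld
    rcases (hlp.dvd_mul).1 hld with h | h
    · have : l ∣ 2 ^ 2 := by norm_num; exact h
      have h2 := hlp.dvd_of_dvd_pow this
      exact h2.trans ⟨3 * (p * q * (m2 * m1)), by rw [hn]; ring⟩
    · exact h.trans ⟨m2 * m1, by rw [hn]; ring⟩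
  set X0 : ℕ := ⌊Real.sqrt 2 * ((m2 * m1 : ℕ) : ℝ)⌋₊ with hX0
  rw [split_sum (n := n) (D := 24 * p * q) (X0 := X0) hn0 hD0 hDn
    (fun c ↦ K.kTot (m2 * m1) (K.mS (24 * p) q χ) c / c * psW (m2 * m1) y s c)]
  set S := (Finset.Icc 1 X0).filter (fun k ↦ k.primeFactors ⊆ n.primeFactors ∧ 24 * p * q ∣ k)
    with hS
  have hinner : ∀ k ∈ S, ‖∑ a ∈ (Finset.Icc 1 (X0 / k)).filter (fun a : ℕ ↦ a.Coprime n),
      K.kTot (m2 * m1) (K.mS (24 * p) q χ) (a * k) / ((a * k : ℕ) : ℂ) *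
        psW (m2 * m1) y s ((a * k : ℕ) : ℝ)‖ ≤ C1 * (R : ℝ) ^ ε := by
    intro k hk
    rw [hS, Finset.mem_filter, Finset.mem_Icc] at hk
    obtain ⟨⟨hk1, hkX⟩, hkn, hkD⟩ := hk
    exact hP G χ k (by omega) hkD hkn y s hy
  have hmR : (1 : ℝ) ≤ ((m2 * m1 : ℕ) : ℝ) := by exact_mod_cast hm0
  have hs2' : Real.sqrt 2 ≤ 2 := by
    rw [Real.sqrt_le_left (by norm_num)]; norm_num
  have hs2 : 1 ≤ Real.sqrt 2 := by
    rw [Real.one_le_sqrt]; norm_num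
  have hX0le : (X0 : ℝ) ≤ 2 * R := by
    calc (X0 : ℝ) ≤ Real.sqrt 2 * ((m2 * m1 : ℕ) : ℝ) := Nat.floor_le (by positivity)
      _ ≤ 2 * ((m2 * m1 : ℕ) : ℝ) := by gcongr
      _ ≤ 2 * R := by have := G.m_le_R; gcongr
  have hX0pos : 0 < X0 := by
    rw [hX0, Nat.floor_pos]
    calc (1 : ℝ) ≤ 1 * 1 := by norm_num
      _ ≤ Real.sqrt 2 * ((m2 * m1 : ℕ) : ℝ) := by gcongr
  have hX01 : (1 : ℝ) ≤ X0 := by exact_mod_cast hX0pos
  have hpR : (p : ℝ) ≤ R := G.hpt.trans (t_le_of_exp ht (by rw [he']; norm_num))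
  have hRpos : (0 : ℝ) < R := by linarith
  have hcard : (S.card : ℝ) ≤ C2 * (12 : ℝ) ^ ε * (R : ℝ) ^ (3 * ε) := by
    have h1 : (S.card : ℝ) ≤ (((Finset.Icc 1 ⌊(X0 : ℝ)⌋₊).filter
        (fun k ↦ k.primeFactors ⊆ n.primeFactors)).card : ℝ) := by
      have : S ⊆ (Finset.Icc 1 ⌊(X0 : ℝ)⌋₊).filter (fun k ↦ k.primeFactors ⊆ n.primeFactors) := by
        rw [Nat.floor_natCast]
        intro k hk
        rw [hS, Finset.mem_filter] at hk
        rw [Finset.mem_filter]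
        exact ⟨hk.1, hk.2.1⟩
      exact_mod_cast Finset.card_le_card this
    refine h1.trans ((hcount n hn0 X0 hX01).trans ?_)
    have h2 : (n : ℝ) * X0 ≤ 12 * ((R : ℝ) * R * R) := by
      have h3 : (n : ℝ) = 6 * (p * R) := by
        rw [G.Rm, hn]; push_cast; ring
      rw [h3]
      calc 6 * (p * (R : ℝ)) * (X0 : ℝ) ≤ 6 * (R * (R : ℝ)) * (2 * R) := by gcongr
        _ = _ := by ring
    calc C2 * ((n : ℝ) * X0) ^ ε ≤ C2 * (12 * ((R : ℝ) * R * R)) ^ ε := by gcongr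
      _ = C2 * ((12 : ℝ) ^ ε * ((R : ℝ) ^ ε * (R : ℝ) ^ ε * (R : ℝ) ^ ε)) := by
          rw [Real.mul_rpow (by norm_num) (by positivity), Real.mul_rpow (by positivity) hRpos.le,
            Real.mul_rpow hRpos.le hRpos.le]
      _ = _ := by rw [rp_mul ht, rp_mul ht]; ring_nf
  have hRε : 0 < (R : ℝ) ^ ε := rp_pos ht _
  calc ‖∑ k ∈ S, ∑ a ∈ (Finset.Icc 1 (X0 / k)).filter (fun a : ℕ ↦ a.Coprime n),
      K.kTot (m2 * m1) (K.mS (24 * p) q χ) (a * k) / ((a * k : ℕ) : ℂ) *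
        psW (m2 * m1) y s ((a * k : ℕ) : ℝ)‖
      ≤ ∑ k ∈ S, ‖∑ a ∈ (Finset.Icc 1 (X0 / k)).filter (fun a : ℕ ↦ a.Coprime n),
      K.kTot (m2 * m1) (K.mS (24 * p) q χ) (a * k) / ((a * k : ℕ) : ℂ) *
        psW (m2 * m1) y s ((a * k : ℕ) : ℝ)‖ := norm_sum_le _ _
    _ ≤ ∑ _k ∈ S, C1 * (R : ℝ) ^ ε := Finset.sum_le_sum hinner
    _ = S.card * (C1 * (R : ℝ) ^ ε) := by rw [Finset.sum_const, nsmul_eq_mul]
    _ ≤ (C2 * (12 : ℝ) ^ ε * (R : ℝ) ^ (3 * ε)) * (C1 * (R : ℝ) ^ ε) := by gcongr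
    _ = C2 * (12 : ℝ) ^ ε * C1 * ((R : ℝ) ^ (3 * ε) * (R : ℝ) ^ ε) := by ring
    _ = _ := by
        rw [rp_mul ht]; congr 2; ring

/-- the choice of the factorization. -/
lemma choose_q {R p : ℕ} (hsq : Squarefree R) (hp : p.Prime) (hpt : (p : ℝ) ≤ (R : ℝ) ^ eta)
    (hsm : ∀ l : ℕ, l.Prime → l ∣ R → (l : ℝ) ≤ (R : ℝ) ^ eta) (hbig : (192 : ℝ) ≤ (R : ℝ) ^ eta) :
    ∃ q m1 m2 : ℕ, Gl R p q m1 m2 := by
  have he : (0 : ℝ) < eta := by unfold eta; positivity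
  have he' : eta = 1 / 10 ^ 10 := rfl
  have hR : 0 < R := Nat.pos_of_ne_zero hsq.ne_zero
  have ht : (1 : ℝ) ≤ R := by exact_mod_cast hR
  have hp0 := hp.pos
  have h6p : 0 < 6 * p := by omega
  set d := R.gcd (6 * p) with hd
  have hd0 : 0 < d := Nat.gcd_pos_of_pos_left _ hR
  have hdR : d ∣ R := Nat.gcd_dvd_left _ _
  set n := R / d with hn
  have hnd : n * d = R := Nat.div_mul_cancel hdR
  have hn0 : 0 < n := Nat.div_pos (Nat.le_of_dvd hR hdR) hd0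
  have hnR : n ∣ R := ⟨d, hnd.symm⟩
  have hcn : n.Coprime (6 * p) := by
    have h1 : n.Coprime d := by
      apply Nat.coprime_of_squarefree_mul
      rw [hnd]; exact hsq
    by_contra hnc
    obtain ⟨l, hl, h3, h5⟩ := Nat.Prime.not_coprime_iff_dvd.1 hnc
    have h6 : l ∣ d := Nat.dvd_gcd (h3.trans hnR) h5
    exact Nat.not_coprime_of_dvd_of_dvd hl.one_lt h3 h6 h1
  have hY : (1 : ℝ) ≤ (R : ℝ) ^ eta := Real.one_le_rpow ht he.le
  have hZ : (1 : ℝ) ≤ (R : ℝ) ^ (1 / 3 - 2 * eta) := by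
    apply Real.one_le_rpow ht
    rw [he']; norm_num
  have hZn : (R : ℝ) ^ (1 / 3 - 2 * eta) ≤ n := by
    have h1 : (d : ℝ) ≤ (R : ℝ) ^ (2 * eta) := by
      have h2 : (d : ℝ) ≤ 6 * p := by exact_mod_cast Nat.le_of_dvd h6p (Nat.gcd_dvd_right R (6 * p))
      calc (d : ℝ) ≤ 6 * p := h2
        _ ≤ (R : ℝ) ^ eta * (R : ℝ) ^ eta := by gcongr; linarith
        _ = _ := by rw [rp_mul ht]; congr 1; ring
    have h3 : (R : ℝ) ^ (1 - 2 * eta) * (R : ℝ) ^ (2 * eta) ≤ n * (R : ℝ) ^ (2 * eta) := by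
      rw [rp_mul ht, sub_add_cancel, Real.rpow_one]
      have h5 : (n : ℝ) * d = R := by exact_mod_cast hnd
      calc (R : ℝ) = n * d := h5.symm
        _ ≤ _ := by gcongr
    have h4 := le_of_mul_le_mul_right h3 (rp_pos ht _)
    refine le_trans (rp_le ht ?_) h4
    linarith
  obtain ⟨q, hqn, hq1, hq2⟩ := exists_div ((R : ℝ) ^ eta) ((R : ℝ) ^ (1 / 3 - 2 * eta)) n hn0
    (fun l hl hdl ↦ hsm l hl (hdl.trans hnR)) hZ hY hZn
  rw [rp_mul ht] at hq2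
  have e1 : 1 / 3 - 2 * eta + eta = 1 / 3 - eta := by ring
  rw [e1] at hq2
  have hqR : q ∣ R := hqn.trans hnR
  obtain ⟨m, hm⟩ := hqR
  have hms : Squarefree m := hsq.squarefree_of_dvd ⟨q, by rw [hm]; ring⟩
  rcases Nat.even_or_odd m with hev | hodd
  · obtain ⟨m1, hm1⟩ := hev.two_dvd
    refine ⟨q, m1, 2, hsq, by rw [hm, hm1], hp, hpt, hsm, hcn.coprime_dvd_left hqn, hq1, hq2,
      Or.inr rfl, ?_, hbig⟩
    rw [← Nat.not_even_iff_odd]
    intro hev1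
    obtain ⟨m3, hm3⟩ := hev1.two_dvd
    have h1 : 2 * 2 ∣ m := ⟨m3, by rw [hm1, hm3]; ring⟩
    have h2 := hms 2 h1
    exact absurd h2 (by norm_num [Nat.isUnit_iff])
  · exact ⟨q, m, 1, hsq, by rw [hm, one_mul], hp, hpt, hsm, hcn.coprime_dvd_left hqn, hq1, hq2,
      Or.inl rfl, hodd, hbig⟩

/-- the bound for a single form. -/
theorem single : ∃ C : ℝ, 0 < C ∧ ∀ {R p : ℕ} (_ : Squarefree R) (_ : p.Prime)
    (_ : (p : ℝ) ≤ (R : ℝ) ^ eta)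
    (_ : ∀ l : ℕ, l.Prime → l ∣ R → (l : ℝ) ≤ (R : ℝ) ^ eta) (_ : (192 : ℝ) ≤ (R : ℝ) ^ eta)
    (χ : DirichletCharacter ℂ (24 * p)) (f : ℍ → ℂ), IsCuspForm (24 * p) χ f →
    ‖fourierCoeff f R‖ ^ 2 ≤ C * (R : ℝ) ^ (5 / 6 - eta / 2) * petNorm (24 * p) f := by
  have he : (0 : ℝ) < eta := by unfold eta; positivity
  have he' : eta = 1 / 10 ^ 10 := rfl
  have hε0 : 0 < eta / 10 := by positivity
  obtain ⟨C1, hC1, hT⟩ := total (eta / 10) hε0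
  obtain ⟨A, hA, hdiv⟩ := Pool.Agent.Work.MP_f2148a_nt.exists_card_divisors_le (eta / 10) hε0
  refine ⟨2 * Real.exp (16 * Real.pi) * A * (4 + 6 * C1), by positivity, ?_⟩
  intro R p hsq hp hpt hsm hbig χ f hf
  obtain ⟨q, m1, m2, G⟩ := choose_q hsq hp hpt hsm hbig
  have ht := G.one_le
  have hq0 := G.q_pos
  have hm0 := G.m_pos
  have hp0 := G.hp.pos
  have : NeZero (24 * p) := ⟨by omega⟩
  have : NeZero q := ⟨hq0.ne'⟩
  have hqR : q ∣ R := by rw [G.hRq]; exact dvd_mul_right _ _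
  have hsqq : Squarefree q := G.hR.squarefree_of_dvd hqR
  have hq2 : q.Coprime 2 := G.hqc.coprime_dvd_right ⟨3 * p, by ring⟩
  have hq24 : q.Coprime (24 * p) := by
    have h4 : q.Coprime (2 ^ 2) := hq2.pow_right 2
    have : 24 * p = 2 ^ 2 * (6 * p) := by ring
    rw [this]
    exact h4.mul_right G.hqc
  have h4 : 4 ∣ 24 * p := ⟨6 * p, by ring⟩
  set B : ℝ := C1 * (R : ℝ) ^ (4 * (eta / 10)) with hB
  have hB0 : 0 ≤ B := by have := rp_pos ht (4 * (eta / 10)); positivity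
  have h1 := coeff_bound_osc hf h4 hsqq hq24 hm0 hB0 (fun y hy s _ ↦ hT G χ y s hy)
  have h2 : q * (m2 * m1) = R := G.hRq.symm
  rw [h2] at h1
  have h3 : (q : ℝ) * ((m2 * m1 : ℕ) : ℝ) = R := G.Rm.symm
  rw [h3] at h1
  have hqle : (q : ℝ) ≤ R := by
    exact_mod_cast Nat.le_of_dvd G.R_pos hqR
  have hσ : ((ArithmeticFunction.sigma 1 q : ℕ) : ℝ) ≤
      (R : ℝ) ^ (1 / 3 - eta) * (A * (R : ℝ) ^ (eta / 10)) := by
    calc ((ArithmeticFunction.sigma 1 q : ℕ) : ℝ) ≤ q * q.divisors.card := K.sigma_le q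
      _ ≤ (R : ℝ) ^ (1 / 3 - eta) * (A * (R : ℝ) ^ (eta / 10)) := by
          apply mul_le_mul G.hq2 _ (Nat.cast_nonneg _) (rp_pos ht _).le
          refine (hdiv q hq0).trans ?_
          gcongr
  have hP := petNorm_nonneg (N := 24 * p) f
  have hR4 : 1 ≤ (R : ℝ) ^ (4 * (eta / 10)) := Real.one_le_rpow ht (by positivity)
  have hBB : 4 + 6 * B ≤ (4 + 6 * C1) * (R : ℝ) ^ (4 * (eta / 10)) := by
    rw [hB]; nlinarith
  have hRR : Real.sqrt R = (R : ℝ) ^ (1 / 2 : ℝ) := Real.sqrt_eq_rpow _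
  have hBB0 : 0 ≤ 4 + 6 * B := by positivity
  have z1 := rp_pos ht (1 / 2 : ℝ)
  have z2 := rp_pos ht (1 / 3 - eta)
  have z3 := rp_pos ht (eta / 10)
  have z4 := rp_pos ht (4 * (eta / 10))
  calc ‖fourierCoeff f R‖ ^ 2 ≤ 2 * Real.exp (16 * Real.pi) * Real.sqrt R *
      (ArithmeticFunction.sigma 1 q : ℕ) * (4 + 6 * B) * petNorm (24 * p) f := h1
    _ ≤ 2 * Real.exp (16 * Real.pi) * (R : ℝ) ^ (1 / 2 : ℝ) *
      ((R : ℝ) ^ (1 / 3 - eta) * (A * (R : ℝ) ^ (eta / 10))) *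
        ((4 + 6 * C1) * (R : ℝ) ^ (4 * (eta / 10))) * petNorm (24 * p) f := by
        rw [hRR]
        gcongr
    _ = 2 * Real.exp (16 * Real.pi) * A * (4 + 6 * C1) *
        ((R : ℝ) ^ (1 / 2 : ℝ) * (R : ℝ) ^ (1 / 3 - eta) * (R : ℝ) ^ (eta / 10) *
          (R : ℝ) ^ (4 * (eta / 10))) * petNorm (24 * p) f := by ring
    _ = _ := by
        rw [rp_mul ht, rp_mul ht, rp_mul ht]
        have : 1 / 2 + (1 / 3 - eta) + eta / 10 + 4 * (eta / 10) = 5 / 6 - eta / 2 := by ring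
        rw [this]

/-- the bound for a single form, uniformly in the level. -/
theorem single' : ∃ A C : ℝ, 0 < A ∧ 0 < C ∧ ∀ {R p : ℕ} (_ : Squarefree R) (_ : p.Prime)
    (_ : ∀ l : ℕ, l.Prime → l ∣ R → (l : ℝ) ≤ (R : ℝ) ^ eta)
    (χ : DirichletCharacter ℂ (24 * p)) (f : ℍ → ℂ), IsCuspForm (24 * p) χ f →
    ‖fourierCoeff f R‖ ^ 2 ≤ C * (p : ℝ) ^ A * (R : ℝ) ^ (5 / 6 - eta / 2) *
      petNorm (24 * p) f := by
  have he : (0 : ℝ) < eta := by unfold eta; positivity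
  have he' : eta = 1 / 10 ^ 10 := rfl
  obtain ⟨C1, hC1, h1⟩ := single
  obtain ⟨C2, hC2, h2⟩ := K.hybrid_single 1 one_pos
  refine ⟨2 / eta + 1, C1 + C2 * 2 * (192 : ℝ) ^ (2 / eta), by positivity, by positivity, ?_⟩
  intro R p hsq hp hsm χ f hf
  have hR : 0 < R := Nat.pos_of_ne_zero hsq.ne_zero
  have ht : (1 : ℝ) ≤ R := by exact_mod_cast hR
  have hp0 := hp.pos
  have : NeZero (24 * p) := ⟨by omega⟩
  have hP := petNorm_nonneg (N := 24 * p) f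
  have hpR : (1 : ℝ) ≤ p := by exact_mod_cast hp0
  have hpA : 1 ≤ (p : ℝ) ^ (2 / eta + 1) := Real.one_le_rpow hpR (by positivity)
  have z := rp_pos ht (5 / 6 - eta / 2)
  have z192 : 0 < (192 : ℝ) ^ (2 / eta) := by positivity
  by_cases hc : (p : ℝ) ≤ (R : ℝ) ^ eta ∧ (192 : ℝ) ≤ (R : ℝ) ^ eta
  · refine (h1 hsq hp hc.1 hsm hc.2 χ f hf).trans ?_
    apply mul_le_mul_of_nonneg_right _ hP
    apply mul_le_mul_of_nonneg_right _ z.le
    calc C1 = C1 * 1 := (mul_one _).symm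
      _ ≤ (C1 + C2 * 2 * (192 : ℝ) ^ (2 / eta)) * (p : ℝ) ^ (2 / eta + 1) := by
          apply mul_le_mul _ hpA (by norm_num) (by positivity)
          have : 0 ≤ C2 * 2 * (192 : ℝ) ^ (2 / eta) := by positivity
          linarith
  · -- `R` is bounded by a power of `192 p`
    have hRb : (R : ℝ) ^ eta ≤ 192 * p := by
      rw [not_and_or, not_le, not_le] at hc
      rcases hc with hc | hc
      · linarith
      · nlinarith
    have h3 := h2 p hp χ f hf 1 squarefree_one (Nat.coprime_one_left _) R hR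
    rw [one_mul] at h3
    have hgcd : ((R.gcd (p * 1) : ℕ) : ℝ) ≤ p := by
      rw [mul_one]
      exact_mod_cast Nat.le_of_dvd hp0 (Nat.gcd_dvd_right R p)
    have hs : Real.sqrt ((R : ℝ) * ((R.gcd (p * 1) : ℕ) : ℝ)) / p ≤ Real.sqrt R := by
      rw [div_le_iff₀ (by linarith)]
      rw [Real.sqrt_le_left (by positivity), mul_pow, Real.sq_sqrt (by linarith)]
      have : (p : ℝ) ≤ p ^ 2 := by nlinarith
      nlinarith [mul_le_mul_of_nonneg_left (hgcd.trans this) (by linarith : (0 : ℝ) ≤ R)]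
    have hsR : 1 ≤ Real.sqrt R := by rw [Real.one_le_sqrt]; exact ht
    have hss : Real.sqrt R * Real.sqrt R = R := Real.mul_self_sqrt (by linarith)
    have h5 : C2 * ((p * 1 * R : ℕ) : ℝ) ^ (1 : ℝ) * Real.sqrt (((1 : ℕ) : ℝ) * R) *
          (((1 : ℕ) : ℝ) + Real.sqrt ((R : ℝ) * ((R.gcd (p * 1) : ℕ) : ℝ)) / p) ≤
        C2 * 2 * ((p : ℝ) * ((R : ℝ) * R)) := by
      rw [Real.rpow_one]
      push_cast
      rw [one_mul, mul_one]
      calc C2 * ((p : ℝ) * R) * Real.sqrt R *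
          (1 + Real.sqrt ((R : ℝ) * ((R.gcd (p * 1) : ℕ) : ℝ)) / p)
          ≤ C2 * ((p : ℝ) * R) * Real.sqrt R * (Real.sqrt R + Real.sqrt R) := by gcongr
        _ = C2 * 2 * ((p : ℝ) * (R * (Real.sqrt R * Real.sqrt R))) := by ring
        _ = _ := by rw [hss]
    refine h3.trans ?_
    apply mul_le_mul_of_nonneg_right _ hP
    refine h5.trans ?_
    have h6 : (R : ℝ) * R ≤ (192 * p : ℝ) ^ (2 / eta) := by
      calc (R : ℝ) * R = ((R : ℝ) ^ eta) ^ (2 / eta) := by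
            rw [← Real.rpow_mul (by linarith)]
            have : eta * (2 / eta) = 2 := by field_simp
            rw [this]
            have h2' : (2 : ℝ) = ((2 : ℕ) : ℝ) := by norm_num
            rw [h2', Real.rpow_natCast, sq]
        _ ≤ _ := by
            apply Real.rpow_le_rpow (rp_pos ht _).le hRb (by positivity)
    rw [Real.mul_rpow (by norm_num) (by linarith)] at h6
    have h7 : (p : ℝ) ^ (2 / eta + 1) = (p : ℝ) ^ (2 / eta) * p := by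
      rw [Real.rpow_add (by linarith), Real.rpow_one]
    have h8 : 1 ≤ (R : ℝ) ^ (5 / 6 - eta / 2) := by
      apply Real.one_le_rpow ht
      rw [he']; norm_num
    calc C2 * 2 * ((p : ℝ) * ((R : ℝ) * R))
        ≤ C2 * 2 * ((p : ℝ) * ((192 : ℝ) ^ (2 / eta) * (p : ℝ) ^ (2 / eta))) := by gcongr
      _ = (C2 * 2 * (192 : ℝ) ^ (2 / eta)) * (p : ℝ) ^ (2 / eta + 1) := by rw [h7]; ring
      _ ≤ (C1 + C2 * 2 * (192 : ℝ) ^ (2 / eta)) * (p : ℝ) ^ (2 / eta + 1) := by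
          gcongr; linarith
      _ = (C1 + C2 * 2 * (192 : ℝ) ^ (2 / eta)) * (p : ℝ) ^ (2 / eta + 1) * 1 := (mul_one _).symm
      _ ≤ _ := by gcongr

/-- the bound for an orthonormal family. -/
theorem weyl : ∃ A C : ℝ, 0 < A ∧ 0 < C ∧ ∀ p : ℕ, p.Prime →
    ∀ (χ : DirichletCharacter ℂ (24 * p)) (K : ℕ) (φ : Fin K → ℍ → ℂ),
    (∀ k, IsCuspForm (24 * p) χ (φ k)) →
    (∀ j k, peterssonInner (24 * p) (φ j) (φ k) = if j = k then 1 else 0) →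
    ∀ r : ℕ, Squarefree r →
      (∀ l : ℕ, l.Prime → l ∣ r → (l : ℝ) ≤ (r : ℝ) ^ (1 / 10 ^ 10 : ℝ)) →
      ∑ k, ‖fourierCoeff (φ k) r‖ ^ 2 ≤
        C * (p : ℝ) ^ A * (r : ℝ) ^ (5 / 6 - 1 / 10 ^ 11 : ℝ) := by
  have he : (0 : ℝ) < eta := by unfold eta; positivity
  have he' : eta = 1 / 10 ^ 10 := rfl
  obtain ⟨A, C, hA, hC, h⟩ := single'
  refine ⟨A, C, hA, hC, ?_⟩
  intro p hp χ K φ hφ hon r hsq hsm
  have hp0 := hp.pos
  have hr0 : 0 < r := Nat.pos_of_ne_zero hsq.ne_zero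
  have hr1 : (1 : ℝ) ≤ r := by exact_mod_cast hr0
  have : NeZero (24 * p) := ⟨by omega⟩
  have h1 := duality hφ hon {r} (L := C * (p : ℝ) ^ A * (r : ℝ) ^ (5 / 6 - eta / 2))
    (by positivity) (fun f hf ↦ by
            rw [Finset.sum_singleton]
            exact h hsq hp (by rw [he']; exact hsm) χ f hf) (fun _ ↦ 1)
  have h2 : ∑ k, ‖fourierCoeff (φ k) r‖ ^ 2 ≤
      C * (p : ℝ) ^ A * (r : ℝ) ^ (5 / 6 - eta / 2) := by simpa using h1
  refine h2.trans ?_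
  apply mul_le_mul_of_nonneg_left _ (by positivity)
  apply rp_le hr1
  rw [he']; norm_num

end

end Pool.Agent.Work.MP_af11aa_nt.W
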